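import Mathlib
import Pool.Agent.H366R3.Topo

set_option autoImplicit false

open Set Filter Topology Metric

namespace Pool.Agent.W787

open Pool.Agent.H366R3

/-- star-shaped about the origin (and containing it) -/
def Star (E : Set ℂ) : Prop := (0 : ℂ) ∈ E ∧ ∀ z ∈ E, ∀ t : ℝ, 0 ≤ t → t ≤ 1 → (t : ℂ) * z ∈ E

lemma Star.sph_preconnected {E : Set ℂ} (hE : Star E) : IsPreconnected (sphCompl E) := by
  apply isPreconnected_of_forall (OnePoint.infty : OnePoint ℂ)
  intro y hy
  induction y using OnePoint.rec with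
  | infty =>
    exact ⟨{OnePoint.infty}, by simpa using hy, rfl, rfl, isPreconnected_singleton⟩
  | coe z =>
    have hz : z ∉ E := fun h => hy ⟨z, h, rfl⟩
    have hz0 : z ≠ 0 := fun h => hz (h ▸ hE.1)
    have hzn : 0 < ‖z‖ := norm_pos_iff.2 hz0
    let γ : ℝ → ℂ := fun s => ((1 + s : ℝ) : ℂ) * z
    have hγc : Continuous γ := by fun_prop
    have hmem : ∀ s, 0 ≤ s → γ s ∉ E := by
      intro s hs h
      apply hz
      have h1 := hE.2 _ h (1 / (1 + s)) (by positivity) (by
        rw [div_le_one (by linarith)]; linarith)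
      have h2 : ((1 / (1 + s) : ℝ) : ℂ) * γ s = z := by
        simp only [γ]
        rw [← mul_assoc, ← Complex.ofReal_mul, one_div, inv_mul_cancel₀ (by linarith),
          Complex.ofReal_one, one_mul]
      rwa [h2] at h1
    set R : Set (OnePoint ℂ) := (fun s => ((γ s : ℂ) : OnePoint ℂ)) '' Ici 0 with hR
    have hRp : IsPreconnected R :=
      isPreconnected_Ici.image _ (OnePoint.continuous_coe.comp hγc).continuousOn
    have htend : Tendsto (fun s => ((γ s : ℂ) : OnePoint ℂ)) atTop (𝓝 OnePoint.infty) := by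
      have h1 : Tendsto γ atTop (cocompact ℂ) := by
        rw [← Metric.cobounded_eq_cocompact, ← comap_norm_atTop (E := ℂ), tendsto_comap_iff]
        apply tendsto_atTop_mono (f := fun s : ℝ => s * ‖z‖)
        · intro s
          show s * ‖z‖ ≤ ‖γ s‖
          simp only [γ]
          rw [norm_mul, Complex.norm_real, Real.norm_eq_abs]
          apply mul_le_mul_of_nonneg_right _ hzn.le
          have := le_abs_self (1 + s)
          linarith
        · exact tendsto_id.atTop_mul_const hzn
      have h2 : Tendsto ((↑) : ℂ → OnePoint ℂ) (cocompact ℂ) (𝓝 OnePoint.infty) := by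
        rw [← Filter.coclosedCompact_eq_cocompact, Tendsto, ← OnePoint.nhdsNE_infty_eq]
        exact nhdsWithin_le_nhds
      exact h2.comp h1
    have hcl : OnePoint.infty ∈ closure R := by
      apply mem_closure_of_tendsto htend
      filter_upwards [eventually_ge_atTop 0] with s hs
      exact ⟨s, hs, rfl⟩
    refine ⟨insert OnePoint.infty R, ?_, mem_insert _ _, ?_, ?_⟩
    · rintro x (rfl | ⟨s, hs, rfl⟩)
      · rintro ⟨w, -, hw⟩
        exact OnePoint.coe_ne_infty w hw
      · rintro ⟨w, hw, hw'⟩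
        rw [OnePoint.coe_injective hw'] at hw
        exact hmem s hs hw
    · refine Or.inr ⟨0, self_mem_Ici, ?_⟩
      simp [γ]
    · exact hRp.subset_closure (subset_insert _ _) (insert_subset hcl subset_closure)

/-- the slit `[-1, 1]` -/
def Slit : Set ℂ := {z | z.im = 0 ∧ |z.re| ≤ 1}

lemma Slit_eq : Slit = (fun t : ℝ => (t : ℂ)) '' Icc (-1) 1 := by
  ext z
  constructor
  · rintro ⟨h1, h2⟩
    exact ⟨z.re, abs_le.1 h2, Complex.ext (by simp) (by simp [h1])⟩
  · rintro ⟨t, ht, rfl⟩
    exact ⟨by simp, by simpa using abs_le.2 ht⟩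

lemma Slit_compact : IsCompact Slit := by
  rw [Slit_eq]
  exact isCompact_Icc.image Complex.continuous_ofReal

lemma Slit_preconnected : IsPreconnected Slit := by
  rw [Slit_eq]
  exact isPreconnected_Icc.image _ Complex.continuous_ofReal.continuousOn

lemma zero_mem_Slit : (0 : ℂ) ∈ Slit := ⟨rfl, by simp⟩

lemma one_mem_Slit : (1 : ℂ) ∈ Slit := ⟨by simp, by simp⟩

lemma Slit_norm {z : ℂ} (hz : z ∈ Slit) : ‖z‖ ≤ 1 := by
  rw [Slit_eq] at hz
  obtain ⟨t, ht, rfl⟩ := hz
  rw [Complex.norm_real]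
  exact abs_le.2 ht

lemma Slit_smul {z : ℂ} (hz : z ∈ Slit) {t : ℝ} (h0 : 0 ≤ t) (h1 : t ≤ 1) : (t : ℂ) * z ∈ Slit := by
  obtain ⟨a, b⟩ := hz
  refine ⟨by simp [a], ?_⟩
  simp only [Complex.mul_re, Complex.ofReal_re, Complex.ofReal_im, zero_mul, sub_zero, abs_mul,
    abs_of_nonneg h0]
  have := abs_nonneg z.re
  nlinarith

end Pool.Agent.W787
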