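import Mathlib
import Pool.Agent.W787.Star
import Pool.Agent.H366R3.MB.Unif
import Pool.Agent.H366R3.MB.Map

set_option autoImplicit false

open Set Filter Topology Metric
open scoped Real

namespace Pool.Agent.W787

open Complex (I)

variable {E : Set ℂ}

lemma fiber (hE : Star E) {θ a b s : ℝ} (ha : Complex.exp (a + θ * I) ∈ E \ Slit)
    (hb : Complex.exp (b + θ * I) ∈ E \ Slit) (has : a ≤ s) (hsb : s ≤ b) :
    Complex.exp (s + θ * I) ∈ E \ Slit := by
  constructor
  · have h1 := hE.2 _ hb.1 (Real.exp (s - b)) (Real.exp_pos _).le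
      (by rw [Real.exp_le_one_iff]; linarith)
    have h2 : ((Real.exp (s - b) : ℝ) : ℂ) * Complex.exp (b + θ * I) = Complex.exp (s + θ * I) := by
      rw [Complex.ofReal_exp, ← Complex.exp_add]; congr 1; push_cast; ring
    rwa [h2] at h1
  · intro hs
    apply ha.2
    have h1 := Slit_smul hs (t := Real.exp (a - s)) (Real.exp_pos _).le
      (by rw [Real.exp_le_one_iff]; linarith)
    have h2 : ((Real.exp (a - s) : ℝ) : ℂ) * Complex.exp (s + θ * I) = Complex.exp (a + θ * I) := by
      rw [Complex.ofReal_exp, ← Complex.exp_add]; congr 1; push_cast; ring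
    rwa [h2] at h1

lemma fiber_comb (hE : Star E) {θ a b κ : ℝ} (ha : Complex.exp (a + θ * I) ∈ E \ Slit)
    (hb : Complex.exp (b + θ * I) ∈ E \ Slit) (h0 : 0 ≤ κ) (h1 : κ ≤ 1) :
    Complex.exp ((a + κ * (b - a) : ℝ) + θ * I) ∈ E \ Slit := by
  rcases le_total a b with h | h
  · apply fiber hE ha hb
    · nlinarith
    · nlinarith
  · apply fiber hE hb ha
    · nlinarith
    · nlinarith

lemma exp_sc (hE : Star E) {c : ℝ → ℝ} (hc : Continuous c) (hc0 : ∀ θ, 0 < c θ)
    (hcE : ∀ θ : ℝ, ((c θ : ℝ) : ℂ) * Complex.exp (θ * I) ∈ E \ Slit) :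
    IsSimplyConnected (Complex.exp ⁻¹' (E \ Slit)) := by
  set P : Set ℂ := Complex.exp ⁻¹' (E \ Slit) with hP
  have hlc : Continuous fun θ => Real.log (c θ) := hc.log fun θ => (hc0 θ).ne'
  have hsec : ∀ θ : ℝ, Complex.exp ((Real.log (c θ) : ℝ) + θ * I) ∈ E \ Slit := by
    intro θ
    rw [Complex.exp_add, ← Complex.ofReal_exp, Real.exp_log (hc0 θ)]
    exact hcE θ
  let th : ℝ → ℂ → ℝ := fun τ ζ => min 1 (2 - 2 * τ) * ζ.im
  let H : ℝ → ℂ → ℂ := fun τ ζ =>
    ((Real.log (c (th τ ζ)) + max (1 - 2 * τ) 0 * (ζ.re - Real.log (c ζ.im)) : ℝ) : ℂ) +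
      (th τ ζ : ℝ) * I
  have hth : Continuous fun p : ℝ × ℂ => th p.1 p.2 := by
    simp only [th]; fun_prop
  have hHc : Continuous fun p : ℝ × ℂ => H p.1 p.2 := by
    have h1 : Continuous fun p : ℝ × ℂ => Real.log (c (th p.1 p.2)) := hlc.comp hth
    have h2 : Continuous fun p : ℝ × ℂ => Real.log (c p.2.im) :=
      hlc.comp (Complex.continuous_im.comp continuous_snd)
    have h3 : Continuous fun p : ℝ × ℂ => Real.log (c (th p.1 p.2)) +
        max (1 - 2 * p.1) 0 * (p.2.re - Real.log (c p.2.im)) := by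
      refine h1.add (Continuous.mul (by fun_prop) (Continuous.sub (by fun_prop) h2))
    exact (Complex.continuous_ofReal.comp h3).add
      ((Complex.continuous_ofReal.comp hth).mul continuous_const)
  have hHP : ∀ τ : ℝ, 0 ≤ τ → τ ≤ 1 → ∀ ζ ∈ P, H τ ζ ∈ P := by
    intro τ h0 h1 ζ hζ
    rcases le_total τ (1 / 2) with h | h
    · have e1 : th τ ζ = ζ.im := by
        simp only [th]; rw [min_eq_left (by linarith)]; ring
      have e2 : max (1 - 2 * τ) 0 = 1 - 2 * τ := max_eq_left (by linarith)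
      show Complex.exp (H τ ζ) ∈ E \ Slit
      simp only [H]
      rw [e1, e2]
      apply fiber_comb hE (hsec _) _ (by linarith) (by linarith)
      have : ((ζ.re : ℝ) : ℂ) + (ζ.im : ℝ) * I = ζ := Complex.re_add_im ζ
      rw [this]; exact hζ
    · have e2 : max (1 - 2 * τ) 0 = 0 := max_eq_right (by linarith)
      show Complex.exp (H τ ζ) ∈ E \ Slit
      simp only [H]
      rw [e2, zero_mul, add_zero]
      exact hsec _
  have hH0 : ∀ ζ, H 0 ζ = ζ := by
    intro ζ
    have e1 : th 0 ζ = ζ.im := by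
      simp only [th]; rw [min_eq_left (by norm_num)]; ring
    have e2 : max (1 - 2 * (0 : ℝ)) 0 = 1 := by norm_num
    simp only [H]
    rw [e1, e2, one_mul, add_sub_cancel]
    exact Complex.re_add_im ζ
  have hH1 : ∀ ζ, H 1 ζ = ((Real.log (c 0) : ℝ) : ℂ) := by
    intro ζ
    have e1 : th 1 ζ = 0 := by
      simp only [th]; norm_num
    have e2 : max (1 - 2 * (1 : ℝ)) 0 = 0 := by norm_num
    simp only [H]
    rw [e1, e2]
    simp
  have hP1 : ((Real.log (c 0) : ℝ) : ℂ) ∈ P := by
    have := hsec 0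
    show Complex.exp ((Real.log (c 0) : ℝ) : ℂ) ∈ E \ Slit
    simpa using this
  have hcon : ContractibleSpace P := by
    rw [contractible_iff_id_nullhomotopic]
    refine ⟨⟨_, hP1⟩, ⟨{ toFun := fun p => ⟨H p.1 p.2, hHP p.1 p.1.2.1 p.1.2.2 p.2 p.2.2⟩
                         continuous_toFun := ?_
                         map_zero_left := ?_
                         map_one_left := ?_ }⟩⟩
    · apply Continuous.subtype_mk
      exact hHc.comp ((continuous_subtype_val.comp continuous_fst).prodMk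
        (continuous_subtype_val.comp continuous_snd))
    · intro x
      apply Subtype.ext
      exact hH0 x
    · intro x
      apply Subtype.ext
      exact hH1 x
  show SimplyConnectedSpace P
  infer_instance

/-- uniformization of `E \ [-1,1]` -/
lemma exists_psi (hEo : IsOpen E) (hEb : Bornology.IsBounded E)
    (hsc : IsSimplyConnected (Complex.exp ⁻¹' (E \ Slit))) {a : ℂ} (ha : a ∈ E \ Slit) :
    ∃ (rs : ℝ) (ψ : ℂ → ℂ), 0 ≤ rs ∧ rs < 1 ∧ DifferentiableOn ℂ ψ (E \ Slit) ∧
    InjOn ψ (E \ Slit) ∧ ψ '' (E \ Slit) = {w : ℂ | rs < ‖w‖ ∧ ‖w‖ < 1} := by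
  set D : Set ℂ := E \ Slit with hD
  set Dt : Set ℂ := Complex.exp ⁻¹' D with hDt
  have hDo : IsOpen D := hEo.sdiff Slit_compact.isClosed
  have hDto : IsOpen Dt := hDo.preimage Complex.continuous_exp
  have hOne : ∀ w ∈ D, w ≠ 0 := fun w hw h => hw.2 (h ▸ zero_mem_Slit)
  obtain ⟨M, hM⟩ := hEb.subset_closedBall 0
  have hne : Dt ≠ univ := by
    intro h
    have h1 : ((Real.log (|M| + 1) : ℝ) : ℂ) ∈ Dt := by rw [h]; trivial
    have h2 := hM h1.1
    rw [mem_closedBall_zero_iff, ← Complex.ofReal_exp, Complex.norm_real,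
      Real.exp_log (by positivity), Real.norm_of_nonneg (by positivity)] at h2
    have := le_abs_self M
    linarith
  have hper : ∀ ζ ∈ Dt, ζ + 2 * π * I ∈ Dt := by
    intro ζ hζ
    show Complex.exp (ζ + 2 * π * I) ∈ D
    rw [Complex.exp_periodic]; exact hζ
  have hper' : ∀ ζ ∈ Dt, ζ - 2 * π * I ∈ Dt := by
    intro ζ hζ
    show Complex.exp (ζ - 2 * π * I) ∈ D
    rw [Complex.exp_periodic.sub_eq]; exact hζ
  have hlog : ∀ w ∈ D, Complex.log w ∈ Dt := fun w hw => by
    show Complex.exp (Complex.log w) ∈ D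
    rw [Complex.exp_log (hOne w hw)]; exact hw
  obtain ⟨rs, Ψ, h0, h1, hd, hiff, himg⟩ :=
    Pool.Agent.H366R3.MB.unif hDto hsc hne hper hper' (hlog a ha)
  refine ⟨rs, fun w => Ψ (Complex.log w), h0, h1, ?_, ?_, ?_⟩
  · intro w hw
    have hw0 := hOne w hw
    apply DifferentiableAt.differentiableWithinAt
    have e1 : Complex.log w + Complex.log (w / w) = Complex.log w := by
      rw [div_self hw0, Complex.log_one, add_zero]
    have e2 : DifferentiableAt ℂ Ψ (Complex.log w + Complex.log (w / w)) := by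
      rw [e1]
      exact hd.differentiableAt (hDto.mem_nhds (hlog w hw))
    have e3 : DifferentiableAt ℂ (fun z => Ψ (Complex.log w + Complex.log (z / w))) w :=
      DifferentiableAt.comp (g := Ψ) (f := fun z => Complex.log w + Complex.log (z / w)) w e2
        (Pool.Agent.H366R3.MB.loglin hw0).differentiableAt
    refine e3.congr_of_eventuallyEq ?_
    filter_upwards [hDo.mem_nhds hw] with z hz
    have hz0 := hOne z hz
    have e4 : Complex.exp (Complex.log w + Complex.log (z / w)) = z := by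
      rw [Complex.exp_add, Complex.exp_log hw0, Complex.exp_log (div_ne_zero hz0 hw0)]
      field_simp
    apply (hiff _ (hlog z hz) _ _).2
    · rw [e4, Complex.exp_log hz0]
    · show Complex.exp (Complex.log w + Complex.log (z / w)) ∈ D
      rw [e4]; exact hz
  · intro w hw z hz h
    have := (hiff _ (hlog w hw) _ (hlog z hz)).1 h
    rwa [Complex.exp_log (hOne w hw), Complex.exp_log (hOne z hz)] at this
  · rw [← himg]
    ext w
    constructor
    · rintro ⟨z, hz, rfl⟩
      exact ⟨_, hlog z hz, rfl⟩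
    · rintro ⟨ζ, hζ, rfl⟩
      refine ⟨Complex.exp ζ, hζ, ?_⟩
      apply (hiff _ (hlog _ hζ) _ hζ).2
      rw [Complex.exp_log (Complex.exp_ne_zero ζ)]

/-- the ring domain is connected -/
lemma ring_preconnected (hsc : IsSimplyConnected (Complex.exp ⁻¹' (E \ Slit))) :
    IsPreconnected (E \ Slit) := by
  have h1 : E \ Slit = Complex.exp '' (Complex.exp ⁻¹' (E \ Slit)) := by
    rw [image_preimage_eq_inter_range, Complex.range_exp]
    ext z
    constructor
    · intro hz; exact ⟨hz, fun h => hz.2 (h ▸ zero_mem_Slit)⟩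
    · exact fun h => h.1
  rw [h1]
  exact hsc.isPathConnected.isConnected.isPreconnected.image _ Complex.continuous_exp.continuousOn

end Pool.Agent.W787
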