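import Mathlib
import Pool.Agent.W787.Exp
import Pool.Agent.H366R3.MB.EndsM
import Pool.Agent.Helper202.Univ

set_option autoImplicit false

open Set Filter Topology Metric
open scoped Real

namespace Pool.Agent.W787

open Complex (I)
open Pool.Agent.H366R3.ED Pool.Agent.Helper202

/-- hypotheses on the outer domain `E` with an exhaustion map `F` -/
structure Outer (E : Set ℂ) (F : ℂ → ℂ) : Prop where
  op : IsOpen E
  bd : Bornology.IsBounded E
  star : Star E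
  slit : Slit ⊆ E
  cont : Continuous F
  rng : range F = E
  proper : ∀ C, IsCompact C → C ⊆ E → ∃ M : ℝ, ∀ z, M < ‖z‖ → F z ∉ C
  far : ∀ M : ℝ, ∃ z z', M < ‖z‖ ∧ M < ‖z'‖ ∧ 1 ≤ ‖F z - F z'‖
  sec : ∃ c : ℝ → ℝ, Continuous c ∧ (∀ θ, 0 < c θ) ∧
    ∀ θ : ℝ, ((c θ : ℝ) : ℂ) * Complex.exp (θ * I) ∈ E \ Slit

/-- a conformal map of the ring domain with its boundary behaviour -/
structure RC (E : Set ℂ) (r : ℝ) (ψ : ℂ → ℂ) : Prop where
  r0 : 0 < r
  r1 : r < 1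
  d : DifferentiableOn ℂ ψ (E \ Slit)
  inj : InjOn ψ (E \ Slit)
  img : ψ '' (E \ Slit) = ann r 1
  inner : ∀ A, r < A → ∃ δ > 0, ∀ z ∈ E \ Slit, infDist z Slit < δ → ‖ψ z‖ < A
  outer : ∀ B, B < 1 → ∃ C, IsCompact C ∧ C ⊆ E ∧ ∀ z ∈ E \ Slit, z ∉ C → B < ‖ψ z‖

lemma Slit_convex : Convex ℝ Slit := by
  rw [Slit_eq]
  have := (convex_Icc (-1 : ℝ) 1).linear_image Complex.ofRealCLM.toLinearMap
  exact this

lemma Slit_nonempty : Slit.Nonempty := ⟨0, zero_mem_Slit⟩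

lemma infDist_pos_of {z : ℂ} (hz : z ∉ Slit) : 0 < infDist z Slit :=
  (Slit_compact.isClosed.notMem_iff_infDist_pos Slit_nonempty).1 hz

lemma infDist_le_of {z w : ℂ} (hw : w ∈ Slit) {δ : ℝ} (h : ‖z - w‖ < δ) :
    z ∈ thickening δ Slit := by
  rw [mem_thickening_iff]
  exact ⟨w, hw, by rwa [dist_eq_norm]⟩

lemma inner_collar {δ : ℝ} (hδ : 0 < δ) : IsPreconnected (thickening δ Slit \ Slit) := by
  have hT : Convex ℝ (thickening δ Slit) := Slit_convex.thickening δ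
  have c1 : Convex ℝ {z : ℂ | 0 < z.im} := convex_halfSpace_im_gt 0
  have c2 : Convex ℝ {z : ℂ | 1 < z.re} := convex_halfSpace_re_gt 1
  have c3 : Convex ℝ {z : ℂ | z.im < 0} := convex_halfSpace_im_lt 0
  have c4 : Convex ℝ {z : ℂ | z.re < -1} := convex_halfSpace_re_lt (-1)
  have hn : ‖((δ / 3 : ℝ) : ℂ)‖ = δ / 3 := by
    rw [Complex.norm_real, Real.norm_of_nonneg (by positivity)]
  have hm : (-1 : ℂ) ∈ Slit := ⟨by simp, by simp⟩
  have p1 : (1 : ℂ) + ((δ / 3 : ℝ) : ℂ) * (1 + I) ∈ thickening δ Slit := by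
    apply infDist_le_of one_mem_Slit
    rw [add_sub_cancel_left, norm_mul, hn]
    have : ‖(1 : ℂ) + I‖ ≤ 2 := (norm_add_le _ _).trans (by rw [norm_one, Complex.norm_I]; norm_num)
    nlinarith
  have p2 : (1 : ℂ) + ((δ / 3 : ℝ) : ℂ) * (1 - I) ∈ thickening δ Slit := by
    apply infDist_le_of one_mem_Slit
    rw [add_sub_cancel_left, norm_mul, hn]
    have : ‖(1 : ℂ) - I‖ ≤ 2 := (norm_sub_le _ _).trans (by rw [norm_one, Complex.norm_I]; norm_num)
    nlinarith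
  have p3 : (-1 : ℂ) - ((δ / 3 : ℝ) : ℂ) * (1 - I) ∈ thickening δ Slit := by
    apply infDist_le_of hm
    rw [sub_sub_cancel_left, norm_neg, norm_mul, hn]
    have : ‖(1 : ℂ) - I‖ ≤ 2 := (norm_sub_le _ _).trans (by rw [norm_one, Complex.norm_I]; norm_num)
    nlinarith
  have e : thickening δ Slit \ Slit =
      (((thickening δ Slit ∩ {z : ℂ | 0 < z.im}) ∪ (thickening δ Slit ∩ {z : ℂ | 1 < z.re})) ∪
      (thickening δ Slit ∩ {z : ℂ | z.im < 0})) ∪ (thickening δ Slit ∩ {z : ℂ | z.re < -1}) := by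
    ext z
    constructor
    · rintro ⟨h1, h2⟩
      rcases lt_trichotomy z.im 0 with h | h | h
      · exact Or.inl (Or.inr ⟨h1, h⟩)
      · have h3 : ¬ |z.re| ≤ 1 := fun h3 => h2 ⟨h, h3⟩
        rw [abs_le, not_and_or, not_le, not_le] at h3
        rcases h3 with h3 | h3
        · exact Or.inr ⟨h1, h3⟩
        · exact Or.inl (Or.inl (Or.inr ⟨h1, h3⟩))
      · exact Or.inl (Or.inl (Or.inl ⟨h1, h⟩))
    · rintro (((⟨h1, h2⟩ | ⟨h1, h2⟩) | ⟨h1, h2⟩) | ⟨h1, h2⟩)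
      · exact ⟨h1, fun h3 => (ne_of_gt h2) h3.1⟩
      · refine ⟨h1, fun h3 => ?_⟩
        have h2' : 1 < z.re := h2
        have := (abs_le.1 h3.2).2
        linarith
      · exact ⟨h1, fun h3 => (ne_of_lt h2) h3.1⟩
      · refine ⟨h1, fun h3 => ?_⟩
        have h2' : z.re < -1 := h2
        have := (abs_le.1 h3.2).1
        linarith
  rw [e]
  refine IsPreconnected.union (-1 - ((δ / 3 : ℝ) : ℂ) * (1 - I)) ?_ ?_ (IsPreconnected.union
    (1 + ((δ / 3 : ℝ) : ℂ) * (1 - I)) ?_ ?_ (IsPreconnected.union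
    (1 + ((δ / 3 : ℝ) : ℂ) * (1 + I)) ?_ ?_ (hT.inter c1).isPreconnected
      (hT.inter c2).isPreconnected) (hT.inter c3).isPreconnected) (hT.inter c4).isPreconnected
  · left; left
    exact ⟨p3, by simp [hδ]⟩
  · exact ⟨p3, by simp [hδ]⟩
  · right
    exact ⟨p2, by simp [hδ]⟩
  · exact ⟨p2, by simp [hδ]⟩
  · exact ⟨p1, by simp [hδ]⟩
  · exact ⟨p1, by simp [hδ]⟩

lemma outer_preconnected {M : ℝ} (hM : 0 < M) : IsPreconnected {z : ℂ | M < ‖z‖} := by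
  have e : {z : ℂ | M < ‖z‖} = Complex.exp '' {ζ : ℂ | Real.log M < ζ.re} := by
    ext z
    constructor
    · intro hz
      have hz0 : 0 < ‖z‖ := hM.trans hz
      have hne : z ≠ 0 := norm_pos_iff.1 hz0
      refine ⟨Complex.log z, ?_, Complex.exp_log hne⟩
      show Real.log M < (Complex.log z).re
      rw [Complex.log_re]
      exact Real.log_lt_log hM hz
    · rintro ⟨ζ, hζ, rfl⟩
      show M < ‖Complex.exp ζ‖
      rw [Complex.norm_exp]
      exact (Real.log_lt_iff_lt_exp hM).1 hζ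
  rw [e]
  exact (convex_halfSpace_re_gt _).isPreconnected.image _ Complex.continuous_exp.continuousOn

section

variable {E : Set ℂ} {F : ℂ → ℂ}

lemma Outer.open_diff (O : Outer E F) : IsOpen (E \ Slit) := O.op.sdiff Slit_compact.isClosed

/-- collar inside `E` -/
lemma Outer.exists_thick (O : Outer E F) {K : Set ℂ} (hK : IsCompact K) (hKD : K ⊆ E \ Slit) :
    ∃ δ > 0, thickening δ Slit ⊆ E \ K := by
  obtain ⟨δ, hδ, h⟩ := Slit_compact.exists_thickening_subset_open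
    (O.op.sdiff hK.isClosed) (fun z hz => ⟨O.slit hz, fun hk => (hKD hk).2 hz⟩)
  exact ⟨δ, hδ, h⟩

lemma Outer.exists_M (O : Outer E F) {K : Set ℂ} (hK : IsCompact K) (hKE : K ⊆ E \ Slit) :
    ∃ M : ℝ, 0 < M ∧ ∀ ξ, M < ‖ξ‖ → F ξ ∈ E \ Slit ∧ F ξ ∉ K := by
  obtain ⟨M, hM⟩ := O.proper (K ∪ Slit) (hK.union Slit_compact)
    (union_subset (fun z hz => (hKE hz).1) O.slit)
  refine ⟨max M 1, by positivity, fun ξ hξ => ?_⟩
  have h1 := hM ξ ((le_max_left _ _).trans_lt hξ)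
  have h2 : F ξ ∈ E := by rw [← O.rng]; exact ⟨ξ, rfl⟩
  exact ⟨⟨h2, fun h => h1 (Or.inr h)⟩, fun h => h1 (Or.inl h)⟩

end

/-- the two possible behaviours for a pair of levels -/
def PP (E : Set ℂ) (F ψ : ℂ → ℂ) (A B : ℝ) : Prop := ∃ δ > 0, ∃ M : ℝ,
  (∀ z ∈ E \ Slit, infDist z Slit < δ → ‖ψ z‖ < A) ∧
  (∀ ξ, M < ‖ξ‖ → F ξ ∈ E \ Slit ∧ B < ‖ψ (F ξ)‖)

def QQ (E : Set ℂ) (F ψ : ℂ → ℂ) (A B : ℝ) : Prop := ∃ δ > 0, ∃ M : ℝ,
  (∀ z ∈ E \ Slit, infDist z Slit < δ → B < ‖ψ z‖) ∧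
  (∀ ξ, M < ‖ξ‖ → F ξ ∈ E \ Slit ∧ ‖ψ (F ξ)‖ < A)

lemma near_slit {E : Set ℂ} {F : ℂ → ℂ} (O : Outer E F) {δ : ℝ} (hδ : 0 < δ) :
    ∃ t : ℝ, 0 < t ∧ t < δ ∧ (1 + t : ℂ) ∈ E \ Slit ∧ (-(1 + t) : ℂ) ∈ E \ Slit ∧
      infDist (1 + t : ℂ) Slit < δ ∧ infDist (-(1 + t) : ℂ) Slit < δ := by
  obtain ⟨δ', hδ', h⟩ := Slit_compact.exists_thickening_subset_open O.op O.slit
  set t : ℝ := min δ δ' / 2 with ht
  have ht0 : 0 < t := by positivity
  have h1 : t < δ := by have := min_le_left δ δ'; linarith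
  have h2 : t < δ' := by have := min_le_right δ δ'; linarith
  have hm : (-1 : ℂ) ∈ Slit := ⟨by simp, by simp⟩
  have hn : ‖(t : ℂ)‖ = t := by rw [Complex.norm_real, Real.norm_of_nonneg ht0.le]
  have e1 : ‖(1 + t : ℂ) - 1‖ = t := by rw [add_sub_cancel_left, hn]
  have e2 : ‖(-(1 + t) : ℂ) - (-1)‖ = t := by
    rw [show (-(1 + t) : ℂ) - (-1) = -(t : ℂ) by ring, norm_neg, hn]
  have k1 : ∀ d, t < d → (1 + t : ℂ) ∈ thickening d Slit := fun d hd =>
    infDist_le_of one_mem_Slit (by rw [e1]; exact hd)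
  have k2 : ∀ d, t < d → (-(1 + t) : ℂ) ∈ thickening d Slit := fun d hd =>
    infDist_le_of hm (by rw [e2]; exact hd)
  refine ⟨t, ht0, h1, ⟨h (k1 _ h2), ?_⟩, ⟨h (k2 _ h2), ?_⟩, ?_, ?_⟩
  · rintro ⟨-, h3⟩
    have : (1 + t : ℂ).re = 1 + t := by simp
    rw [this, abs_of_pos (by linarith)] at h3
    linarith
  · rintro ⟨-, h3⟩
    have : (-(1 + t) : ℂ).re = -(1 + t) := by simp
    rw [this, abs_neg, abs_of_pos (by linarith)] at h3
    linarith
  · exact (mem_thickening_iff_infDist_lt Slit_nonempty).1 (k1 _ h1)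
  · exact (mem_thickening_iff_infDist_lt Slit_nonempty).1 (k2 _ h1)

section

variable {E : Set ℂ} {F ψ : ℂ → ℂ} {rs : ℝ}

lemma dicho (O : Outer E F) (h0 : 0 ≤ rs) (hd : DifferentiableOn ℂ ψ (E \ Slit))
    (hi : InjOn ψ (E \ Slit)) (himg : ψ '' (E \ Slit) = {w : ℂ | rs < ‖w‖ ∧ ‖w‖ < 1})
    {A B : ℝ} (hA : rs < A) (hAB : A ≤ B) (hB : B < 1) : PP E F ψ A B ∨ QQ E F ψ A B := by
  set D := E \ Slit with hD
  have hDo : IsOpen D := O.open_diff
  have hA0 : 0 < A := h0.trans_lt hA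
  set p := Function.invFunOn ψ D with hp
  set Kw : Set ℂ := closedBall 0 B \ ball 0 A with hKw
  have hKwc : IsCompact Kw := (isCompact_closedBall 0 B).diff isOpen_ball
  have hKws : Kw ⊆ ψ '' D := by
    rw [himg]
    rintro w ⟨h1, h2⟩
    rw [mem_closedBall_zero_iff] at h1
    rw [mem_ball_zero_iff, not_lt] at h2
    exact ⟨hA.trans_le h2, h1.trans_lt hB⟩
  have hpc : ContinuousOn p Kw := fun w hw =>
    (Univ.continuousAt_inv hDo hd hi (hKws hw)).continuousWithinAt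
  have hKc : IsCompact (p '' Kw) := hKwc.image_of_continuousOn hpc
  have hKD : p '' Kw ⊆ D := by
    rintro _ ⟨w, hw, rfl⟩; exact Univ.invFunOn_mem (hKws hw)
  have hmid : ∀ z ∈ D, z ∉ p '' Kw → ‖ψ z‖ < A ∨ B < ‖ψ z‖ := by
    intro z hz h
    by_contra hcon
    push Not at hcon
    apply h
    refine ⟨ψ z, ⟨mem_closedBall_zero_iff.2 hcon.2, ?_⟩, Univ.invFunOn_left hi hz⟩
    rw [mem_ball_zero_iff, not_lt]; exact hcon.1
  obtain ⟨δ, hδ, hth⟩ := O.exists_thick hKc hKD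
  obtain ⟨M, hM0, hM⟩ := O.exists_M hKc hKD
  have hNc : ContinuousOn (fun z => ‖ψ z‖) D := continuous_norm.comp_continuousOn hd.continuousOn
  have s1 : thickening δ Slit \ Slit ⊆ D := fun z hz => ⟨(hth hz.1).1, hz.2⟩
  have s2 : F '' {ξ | M < ‖ξ‖} ⊆ D := by
    rintro _ ⟨ξ, hξ, rfl⟩; exact (hM ξ hξ).1
  have c1 := Pool.Agent.H366R3.MB.side (inner_collar hδ) (hNc.mono s1) hAB
    (fun z hz => hmid z (s1 hz) (hth hz.1).2)
  have c2 := Pool.Agent.H366R3.MB.side ((outer_preconnected hM0).image F O.cont.continuousOn)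
    (hNc.mono s2) hAB (by
      rintro _ ⟨ξ, hξ, rfl⟩
      exact hmid _ (hM ξ hξ).1 (hM ξ hξ).2)
  have mth : ∀ z ∈ D, infDist z Slit < δ → z ∈ thickening δ Slit \ Slit := fun z hz h =>
    ⟨(mem_thickening_iff_infDist_lt Slit_nonempty).2 h, hz.2⟩
  -- middle part
  set Mid : Set ℂ := F '' closedBall 0 M \ thickening δ Slit with hMid
  have hMc : IsCompact Mid :=
    ((isCompact_closedBall 0 M).image O.cont).diff isOpen_thickening
  have hMs : Mid ⊆ D := by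
    rintro _ ⟨⟨ξ, hξ, rfl⟩, h2⟩
    refine ⟨by rw [← O.rng]; exact ⟨ξ, rfl⟩, fun h => h2 (self_subset_thickening hδ _ h)⟩
  have htri : ∀ z ∈ D, z ∈ thickening δ Slit \ Slit ∨ z ∈ Mid ∨ z ∈ F '' {ξ | M < ‖ξ‖} := by
    intro z hz
    by_cases h1 : z ∈ thickening δ Slit
    · exact Or.inl ⟨h1, hz.2⟩
    · have : z ∈ range F := by rw [O.rng]; exact hz.1
      obtain ⟨ξ, rfl⟩ := this
      rcases le_or_gt ‖ξ‖ M with h | h
      · exact Or.inr (Or.inl ⟨⟨ξ, mem_closedBall_zero_iff.2 h, rfl⟩, h1⟩)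
      · exact Or.inr (Or.inr ⟨ξ, h, rfl⟩)
  have hsurj : ∀ t : ℝ, rs < t → t < 1 → ∃ z ∈ D, ‖ψ z‖ = t := by
    intro t h1 h2
    have h3 : ((t : ℝ) : ℂ) ∈ ψ '' D := by
      rw [himg]
      show rs < ‖(t : ℂ)‖ ∧ ‖(t : ℂ)‖ < 1
      rw [Complex.norm_real, Real.norm_of_nonneg (h0.trans h1.le)]
      exact ⟨h1, h2⟩
    obtain ⟨z, hz, hz'⟩ := h3
    exact ⟨z, hz, by rw [hz', Complex.norm_real, Real.norm_of_nonneg (h0.trans h1.le)]⟩
  have hrange : ∀ z ∈ D, rs < ‖ψ z‖ ∧ ‖ψ z‖ < 1 := by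
    intro z hz
    have : ψ z ∈ ψ '' D := ⟨z, hz, rfl⟩
    rw [himg] at this; exact this
  rcases c1 with c1 | c1
  · rcases c2 with c2 | c2
    · exfalso
      have : ∃ κ < 1, A ≤ κ ∧ ∀ z ∈ Mid, ‖ψ z‖ ≤ κ := by
        rcases Mid.eq_empty_or_nonempty with he | hne
        · exact ⟨A, hAB.trans_lt hB, le_rfl, by rw [he]; simp⟩
        · obtain ⟨z3, hz3, hz3'⟩ := hMc.exists_isMaxOn hne (hNc.mono hMs)
          refine ⟨max A ‖ψ z3‖, max_lt (hAB.trans_lt hB) (hrange z3 (hMs hz3)).2,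
            le_max_left _ _, fun z hz => (hz3' hz).trans (le_max_right _ _)⟩
      obtain ⟨κ, hκ1, hκA, hκ⟩ := this
      obtain ⟨t, ht1, ht2⟩ := exists_between hκ1
      obtain ⟨z, hz, hzt⟩ := hsurj t (by linarith) ht2
      rcases htri z hz with h | h | h
      · have := c1 _ h; linarith
      · have := hκ _ h; linarith
      · have := c2 _ h; linarith
    · left
      exact ⟨δ, hδ, M, fun z hz h => c1 z (mth z hz h), fun ξ hξ => ⟨(hM ξ hξ).1, c2 _ ⟨ξ, hξ, rfl⟩⟩⟩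
  · rcases c2 with c2 | c2
    · right
      exact ⟨δ, hδ, M, fun z hz h => c1 z (mth z hz h), fun ξ hξ => ⟨(hM ξ hξ).1, c2 _ ⟨ξ, hξ, rfl⟩⟩⟩
    · exfalso
      have : ∃ κ > rs, κ ≤ B ∧ ∀ z ∈ Mid, κ ≤ ‖ψ z‖ := by
        rcases Mid.eq_empty_or_nonempty with he | hne
        · exact ⟨B, hA.trans_le hAB, le_rfl, by rw [he]; simp⟩
        · obtain ⟨z3, hz3, hz3'⟩ := hMc.exists_isMinOn hne (hNc.mono hMs)
          refine ⟨min B ‖ψ z3‖, lt_min (hA.trans_le hAB) (hrange z3 (hMs hz3)).1,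
            min_le_left _ _, fun z hz => (min_le_right _ _).trans (hz3' hz)⟩
      obtain ⟨κ, hκ1, hκB, hκ⟩ := this
      obtain ⟨t, ht1, ht2⟩ := exists_between hκ1
      obtain ⟨z, hz, hzt⟩ := hsurj t ht1 (by linarith)
      rcases htri z hz with h | h | h
      · have := c1 _ h; linarith
      · have := hκ _ h; linarith
      · have := c2 _ h; linarith

lemma PQ_absurd (O : Outer E F) {A0 B0 A B : ℝ} (hA : A0 ≤ B) (h1 : PP E F ψ A0 B0)
    (h2 : QQ E F ψ A B) : False := by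
  obtain ⟨δ, hδ, -, h3, -⟩ := h1
  obtain ⟨δ', hδ', -, h4, -⟩ := h2
  obtain ⟨t, -, -, h5, -, h6, -⟩ := near_slit O (lt_min hδ hδ')
  have h7 := h3 _ h5 (h6.trans_le (min_le_left _ _))
  have h8 := h4 _ h5 (h6.trans_le (min_le_right _ _))
  linarith

lemma trich (O : Outer E F) (h0 : 0 ≤ rs) (h1 : rs < 1) (hd : DifferentiableOn ℂ ψ (E \ Slit))
    (hi : InjOn ψ (E \ Slit)) (himg : ψ '' (E \ Slit) = {w : ℂ | rs < ‖w‖ ∧ ‖w‖ < 1}) :
    (∀ A B, rs < A → B < 1 → PP E F ψ A B) ∨ (∀ A B, rs < A → B < 1 → QQ E F ψ A B) := by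
  obtain ⟨c, hc1, hc2⟩ := exists_between h1
  rcases dicho O h0 hd hi himg hc1 le_rfl hc2 with h | h
  · left
    intro A B hA hB
    have h2 : rs < min A c := lt_min hA hc1
    have h3 : max B c < 1 := max_lt hB hc2
    rcases dicho O h0 hd hi himg h2 ((min_le_right _ _).trans (le_max_right B c)) h3 with h4 | h4
    · obtain ⟨δ, hδ, M, h5, h6⟩ := h4
      exact ⟨δ, hδ, M, fun z hz hz' => (h5 z hz hz').trans_le (min_le_left _ _),
        fun ξ hξ => ⟨(h6 ξ hξ).1, (le_max_left _ _).trans_lt (h6 ξ hξ).2⟩⟩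
    · exact (PQ_absurd O (le_max_right B c) h h4).elim
  · right
    intro A B hA hB
    have h2 : rs < min A c := lt_min hA hc1
    have h3 : max B c < 1 := max_lt hB hc2
    rcases dicho O h0 hd hi himg h2 ((min_le_right _ _).trans (le_max_right B c)) h3 with h4 | h4
    · exact (PQ_absurd O (min_le_right A c) h4 h).elim
    · obtain ⟨δ, hδ, M, h5, h6⟩ := h4
      exact ⟨δ, hδ, M, fun z hz hz' => (le_max_left _ _).trans_lt (h5 z hz hz'),
        fun ξ hξ => ⟨(h6 ξ hξ).1, (h6 ξ hξ).2.trans_le (min_le_left _ _)⟩⟩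

lemma puncture (O : Outer E F) (hd : DifferentiableOn ℂ ψ (E \ Slit))
    (hi : InjOn ψ (E \ Slit)) (himg : ψ '' (E \ Slit) = {w : ℂ | 0 < ‖w‖ ∧ ‖w‖ < 1}) :
    ∃ P : ℂ, ∃ κ > 0, ∀ z ∈ E \ Slit, ‖ψ z‖ < κ → ‖z - P‖ < 1 / 4 := by
  set D := E \ Slit with hD
  have hDo : IsOpen D := O.open_diff
  set p := Function.invFunOn ψ D with hp
  have hnb : ∀ᶠ w in 𝓝[≠] (0 : ℂ), w ∈ ψ '' D := by
    have h1 : ∀ᶠ w in 𝓝[≠] (0 : ℂ), w ∈ ball (0 : ℂ) 1 :=
      mem_nhdsWithin_of_mem_nhds (ball_mem_nhds 0 one_pos)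
    have h2 : ∀ᶠ w in 𝓝[≠] (0 : ℂ), w ≠ 0 := eventually_mem_nhdsWithin
    filter_upwards [h1, h2] with w hw hw'
    rw [himg]
    exact ⟨norm_pos_iff.2 hw', mem_ball_zero_iff.1 hw⟩
  have hpd : ∀ᶠ w in 𝓝[≠] (0 : ℂ), DifferentiableAt ℂ p w := by
    filter_upwards [hnb] with w hw
    exact Univ.differentiableAt_inv hDo hd hi hw
  obtain ⟨R, hR⟩ := O.bd.subset_closedBall 0
  have hpb : IsBoundedUnder (· ≤ ·) (𝓝[≠] (0 : ℂ)) fun w => ‖p w - p 0‖ := by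
    refine ⟨R + ‖p 0‖, ?_⟩
    rw [eventually_map]
    filter_upwards [hnb] with w hw
    have h1 : p w ∈ D := Univ.invFunOn_mem hw
    have h2 := hR h1.1
    rw [mem_closedBall_zero_iff] at h2
    exact (norm_sub_le _ _).trans (by linarith)
  have hlim := Complex.tendsto_limUnder_of_differentiable_on_punctured_nhds_of_bounded_under hpd hpb
  set P := limUnder (𝓝[≠] (0 : ℂ)) p with hP
  have h3 : ∀ᶠ w in 𝓝[≠] (0 : ℂ), p w ∈ ball P (1 / 4) :=
    hlim (ball_mem_nhds P (by norm_num))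
  rw [eventually_nhdsWithin_iff, Metric.eventually_nhds_iff] at h3
  obtain ⟨κ, hκ, h4⟩ := h3
  refine ⟨P, κ, hκ, fun z hz hzκ => ?_⟩
  have h5 : ψ z ≠ 0 := by
    have : ψ z ∈ ψ '' D := ⟨z, hz, rfl⟩
    rw [himg] at this
    exact norm_pos_iff.1 this.1
  have h6 := h4 (y := ψ z) (by rw [dist_zero_right]; exact hzκ) h5
  rw [hp, Univ.invFunOn_left hi hz, mem_ball, dist_eq_norm] at h6
  exact h6

lemma rs_pos (O : Outer E F) (h0 : 0 ≤ rs) (h1 : rs < 1) (hd : DifferentiableOn ℂ ψ (E \ Slit))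
    (hi : InjOn ψ (E \ Slit)) (himg : ψ '' (E \ Slit) = {w : ℂ | rs < ‖w‖ ∧ ‖w‖ < 1}) :
    0 < rs := by
  rcases h0.eq_or_lt with h | h
  · exfalso
    rw [← h] at himg
    obtain ⟨P, κ, hκ, hP⟩ := puncture O hd hi himg
    have hκ' : rs < κ := by rw [← h]; exact hκ
    have himg' : ψ '' (E \ Slit) = {w : ℂ | rs < ‖w‖ ∧ ‖w‖ < 1} := by rw [← h]; exact himg
    rcases trich O h0 h1 hd hi himg' with h2 | h2
    · obtain ⟨δ, hδ, -, h3, -⟩ := h2 κ 0 hκ' one_pos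
      obtain ⟨t, ht, -, h5, h6, h7, h8⟩ := near_slit O hδ
      have h9 := hP _ h5 (h3 _ h5 h7)
      have h10 := hP _ h6 (h3 _ h6 h8)
      have h11 : ‖(1 + t : ℂ) - (-(1 + t))‖ ≤ 1 / 4 + 1 / 4 := by
        have : (1 + t : ℂ) - (-(1 + t)) = ((1 + t : ℂ) - P) - (-(1 + t) - P) := by ring
        rw [this]
        exact (norm_sub_le _ _).trans (by linarith)
      have h12 : (1 + t : ℂ) - (-(1 + t)) = ((2 * (1 + t) : ℝ) : ℂ) := by push_cast; ring
      rw [h12, Complex.norm_real, Real.norm_of_nonneg (by linarith)] at h11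
      linarith
    · obtain ⟨δ, hδ, M, -, h3⟩ := h2 κ 0 hκ' one_pos
      obtain ⟨z, z', hz, hz', hzz⟩ := O.far M
      have h9 := hP _ (h3 z hz).1 (h3 z hz).2
      have h10 := hP _ (h3 z' hz').1 (h3 z' hz').2
      have h11 : ‖F z - F z'‖ ≤ 1 / 4 + 1 / 4 := by
        have : F z - F z' = (F z - P) - (F z' - P) := by ring
        rw [this]
        exact (norm_sub_le _ _).trans (by linarith)
      linarith
  · exact h

/-- existence of a normalised conformal map of the ring domain -/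
theorem exists_RC (O : Outer E F) : ∃ (r : ℝ) (ψ : ℂ → ℂ), RC E r ψ := by
  obtain ⟨c, hc, hc0, hcE⟩ := O.sec
  have hsc := exp_sc O.star hc hc0 hcE
  obtain ⟨t, ht0, -, ha, -⟩ := near_slit O one_pos
  obtain ⟨rs, ψ, h0, h1, hd, hi, himg⟩ := exists_psi O.op O.bd hsc ha
  have hpos := rs_pos O h0 h1 hd hi himg
  have hE : ∀ M : ℝ, ∀ z ∈ E \ Slit, z ∉ F '' closedBall 0 M → ∃ ξ, M < ‖ξ‖ ∧ F ξ = z := by
    intro M z hz hzn
    have : z ∈ range F := by rw [O.rng]; exact hz.1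
    obtain ⟨ξ, rfl⟩ := this
    refine ⟨ξ, ?_, rfl⟩
    by_contra hcon
    push Not at hcon
    exact hzn ⟨ξ, mem_closedBall_zero_iff.2 hcon, rfl⟩
  have hFM : ∀ M : ℝ, IsCompact (F '' closedBall 0 M) ∧ F '' closedBall 0 M ⊆ E := by
    intro M
    refine ⟨(isCompact_closedBall 0 M).image O.cont, ?_⟩
    rintro _ ⟨ξ, -, rfl⟩
    rw [← O.rng]; exact ⟨ξ, rfl⟩
  rcases trich O h0 h1 hd hi himg with h2 | h2
  · refine ⟨rs, ψ, hpos, h1, hd, hi, himg, ?_, ?_⟩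
    · intro A hA
      obtain ⟨δ, hδ, -, h3, -⟩ := h2 A 0 hA one_pos
      exact ⟨δ, hδ, h3⟩
    · intro B hB
      obtain ⟨-, -, M, -, h3⟩ := h2 1 B h1 hB
      refine ⟨_, (hFM M).1, (hFM M).2, fun z hz hzn => ?_⟩
      obtain ⟨ξ, hξ, rfl⟩ := hE M z hz hzn
      exact (h3 ξ hξ).2
  · have hne : ∀ z ∈ E \ Slit, ψ z ≠ 0 := by
      intro z hz h
      have : ψ z ∈ ψ '' (E \ Slit) := ⟨z, hz, rfl⟩
      rw [himg, h] at this
      have h3 := this.1
      rw [norm_zero] at h3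
      linarith
    have hr0 : ((rs : ℝ) : ℂ) ≠ 0 := by exact_mod_cast hpos.ne'
    have hnr : ‖((rs : ℝ) : ℂ)‖ = rs := by rw [Complex.norm_real, Real.norm_of_nonneg h0]
    have hrange : ∀ z ∈ E \ Slit, rs < ‖ψ z‖ ∧ ‖ψ z‖ < 1 := by
      intro z hz
      have : ψ z ∈ ψ '' (E \ Slit) := ⟨z, hz, rfl⟩
      rw [himg] at this; exact this
    refine ⟨rs, fun z => (rs : ℂ) / ψ z, hpos, h1, ?_, ?_, ?_, ?_, ?_⟩
    · exact (differentiableOn_const _).div hd hne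
    · intro z hz w hw h
      have h3 : (rs : ℂ) / ψ z = (rs : ℂ) / ψ w := h
      apply hi hz hw
      rw [div_eq_div_iff (hne z hz) (hne w hw)] at h3
      exact (mul_left_cancel₀ hr0 h3).symm
    · ext w
      constructor
      · rintro ⟨z, hz, rfl⟩
        obtain ⟨h3, h4⟩ := hrange z hz
        have h5 : 0 < ‖ψ z‖ := hpos.trans h3
        show rs < ‖(rs : ℂ) / ψ z‖ ∧ ‖(rs : ℂ) / ψ z‖ < 1
        rw [norm_div, hnr]
        constructor
        · rw [lt_div_iff₀ h5]; nlinarith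
        · rw [div_lt_one h5]; exact h3
      · rintro ⟨h3, h4⟩
        have h5 : 0 < ‖w‖ := hpos.trans h3
        have h6 : (rs : ℂ) / w ∈ ψ '' (E \ Slit) := by
          rw [himg]
          show rs < ‖(rs : ℂ) / w‖ ∧ ‖(rs : ℂ) / w‖ < 1
          rw [norm_div, hnr]
          constructor
          · rw [lt_div_iff₀ h5]; nlinarith
          · rw [div_lt_one h5]; exact h3
        obtain ⟨z, hz, hz'⟩ := h6
        refine ⟨z, hz, ?_⟩
        show (rs : ℂ) / ψ z = w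
        rw [hz']
        have : w ≠ 0 := norm_pos_iff.1 h5
        field_simp
    · intro A hA
      have hA0 : 0 < A := hpos.trans hA
      obtain ⟨δ, hδ, -, h3, -⟩ := h2 1 (rs / A) h1 (by rw [div_lt_one hA0]; exact hA)
      refine ⟨δ, hδ, fun z hz hzs => ?_⟩
      have h4 := h3 z hz hzs
      have h5 : 0 < ‖ψ z‖ := hpos.trans (hrange z hz).1
      show ‖(rs : ℂ) / ψ z‖ < A
      rw [norm_div, hnr, div_lt_iff₀ h5]
      rw [div_lt_iff₀ hA0] at h4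
      linarith
    · intro B hB
      have hB' : max B (1 / 2) < 1 := max_lt hB (by norm_num)
      have hB0 : 0 < max B (1 / 2) := lt_of_lt_of_le (by norm_num) (le_max_right _ _)
      have h7 : rs < rs / max B (1 / 2) := by
        rw [lt_div_iff₀ hB0]; nlinarith
      obtain ⟨-, -, M, -, h3⟩ := h2 (rs / max B (1 / 2)) 0 h7 one_pos
      refine ⟨_, (hFM M).1, (hFM M).2, fun z hz hzn => ?_⟩
      obtain ⟨ξ, hξ, rfl⟩ := hE M z hz hzn
      have h4 := (h3 ξ hξ).2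
      have h5 : 0 < ‖ψ (F ξ)‖ := hpos.trans (hrange _ hz).1
      show B < ‖(rs : ℂ) / ψ (F ξ)‖
      rw [norm_div, hnr]
      refine (le_max_left B (1 / 2)).trans_lt ?_
      rw [lt_div_iff₀ h5]
      rw [lt_div_iff₀ hB0] at h4
      linarith

end

/-! ### consequences -/

section

variable {E : Set ℂ} {ψ : ℂ → ℂ} {r : ℝ}

lemma RC.range (R : RC E r ψ) {z : ℂ} (hz : z ∈ E \ Slit) : r < ‖ψ z‖ ∧ ‖ψ z‖ < 1 := by
  have : ψ z ∈ ψ '' (E \ Slit) := ⟨z, hz, rfl⟩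
  rw [R.img] at this; exact this

lemma RC.ne (R : RC E r ψ) {z : ℂ} (hz : z ∈ E \ Slit) : ψ z ≠ 0 :=
  norm_pos_iff.1 (R.r0.trans (R.range hz).1)

/-- values close to the inner circle come from points close to the slit -/
lemma RC.inner' (R : RC E r ψ) {δ : ℝ} (hδ : 0 < δ) : ∃ A > r, ∀ z ∈ E \ Slit, ‖ψ z‖ < A →
    infDist z Slit < δ := by
  obtain ⟨C, hC, hCE, hCo⟩ := R.outer ((r + 1) / 2) (by have := R.r1; linarith)
  set K : Set ℂ := C \ thickening δ Slit with hK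
  have hKc : IsCompact K := hC.diff isOpen_thickening
  have hKD : K ⊆ E \ Slit := fun z hz => ⟨hCE hz.1, fun h => hz.2 (self_subset_thickening hδ _ h)⟩
  have key : ∃ A > r, ∀ z ∈ K, A ≤ ‖ψ z‖ := by
    rcases K.eq_empty_or_nonempty with he | hne
    · exact ⟨1, R.r1, by rw [he]; simp⟩
    · obtain ⟨z3, hz3, hz3'⟩ := hKc.exists_isMinOn hne
        (continuous_norm.comp_continuousOn (R.d.continuousOn.mono hKD))
      exact ⟨‖ψ z3‖, (R.range (hKD hz3)).1, fun z hz => hz3' hz⟩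
  obtain ⟨A, hA, hAK⟩ := key
  refine ⟨min A ((r + 1) / 2), lt_min hA (by have := R.r1; linarith), fun z hz hzA => ?_⟩
  by_contra hcon
  have h1 : z ∉ thickening δ Slit := fun h =>
    hcon ((mem_thickening_iff_infDist_lt Slit_nonempty).1 h)
  by_cases h2 : z ∈ C
  · have := hAK z ⟨h2, h1⟩
    have h3 := min_le_left A ((r + 1) / 2)
    linarith
  · have := hCo z hz h2
    have h3 := min_le_right A ((r + 1) / 2)
    linarith

/-- values close to the outer circle come from points outside a given compact set -/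
lemma RC.outer' (R : RC E r ψ) {C : Set ℂ} (hC : IsCompact C) (hCE : C ⊆ E) :
    ∃ B < 1, ∀ z ∈ E \ Slit, B < ‖ψ z‖ → z ∉ C := by
  obtain ⟨δ, hδ, hin⟩ := R.inner ((r + 1) / 2) (by have := R.r1; linarith)
  set K : Set ℂ := C \ thickening δ Slit with hK
  have hKc : IsCompact K := hC.diff isOpen_thickening
  have hKD : K ⊆ E \ Slit := fun z hz => ⟨hCE hz.1, fun h => hz.2 (self_subset_thickening hδ _ h)⟩
  have key : ∃ B < 1, ∀ z ∈ K, ‖ψ z‖ ≤ B := by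
    rcases K.eq_empty_or_nonempty with he | hne
    · exact ⟨0, one_pos, by rw [he]; simp⟩
    · obtain ⟨z3, hz3, hz3'⟩ := hKc.exists_isMaxOn hne
        (continuous_norm.comp_continuousOn (R.d.continuousOn.mono hKD))
      exact ⟨‖ψ z3‖, (R.range (hKD hz3)).2, fun z hz => hz3' hz⟩
  obtain ⟨B, hB, hBK⟩ := key
  refine ⟨max B ((r + 1) / 2), max_lt hB (by have := R.r1; linarith), fun z hz hzB h => ?_⟩
  by_cases h1 : infDist z Slit < δ
  · have := hin z hz h1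
    have h3 := le_max_right B ((r + 1) / 2)
    linarith
  · have h2 : z ∉ thickening δ Slit := fun h2 =>
      h1 ((mem_thickening_iff_infDist_lt Slit_nonempty).1 h2)
    have := hBK z ⟨h, h2⟩
    have h3 := le_max_left B ((r + 1) / 2)
    linarith

end

end Pool.Agent.W787
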