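import Mathlib
import Pool.Agent.W787.Ends

set_option autoImplicit false

open Set Filter Topology Metric
open scoped Real

namespace Pool.Agent.W787

open Complex (I)

noncomputable section

def eta : ℝ := 2 / (Real.exp 20 - 1)

def bb : ℝ := 1 + eta

lemma one_lt_exp20 : (1 : ℝ) < Real.exp 20 := by rw [Real.one_lt_exp_iff]; norm_num

lemma eta_pos : 0 < eta := div_pos (by norm_num) (by have := one_lt_exp20; linarith)

lemma eta_lt : eta < 1 := by
  have h : (21 : ℝ) ≤ Real.exp 20 := by
    have := Real.add_one_le_exp (20 : ℝ); linarith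
  unfold eta
  rw [div_lt_one (by linarith)]
  linarith

lemma ratio_eq : (2 + eta) / eta = Real.exp 20 := by
  have h := one_lt_exp20
  have h1 : Real.exp 20 - 1 ≠ 0 := by linarith
  unfold eta
  field_simp
  ring

lemma bb_pos : 0 < bb := by have := eta_pos; unfold bb; linarith

lemma one_lt_bb : 1 < bb := by have := eta_pos; unfold bb; linarith

lemma bb_lt : bb < 2 := by have := eta_lt; unfold bb; linarith

/-- oscillating profile, as a function of the slope -/
def chi (x : ℝ) : ℝ := max 0 (min 1 (1 / 2 + Real.cos (π * √(Real.log (max x 1)))))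

lemma chi_cont : Continuous chi := by
  unfold chi
  have h1 : Continuous fun x : ℝ => Real.log (max x 1) :=
    Continuous.log (by fun_prop) (fun x => by
      have := le_max_right x 1; linarith)
  exact continuous_const.max (continuous_const.min (continuous_const.add
    (Real.continuous_cos.comp (continuous_const.mul (Real.continuous_sqrt.comp h1)))))

lemma chi_nonneg (x : ℝ) : 0 ≤ chi x := le_max_left _ _

lemma chi_le_one (x : ℝ) : chi x ≤ 1 := max_le (by norm_num) (min_le_left _ _)

lemma chi_of_le {x : ℝ} (hx : x ≤ 1) : chi x = 1 := by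
  unfold chi
  rw [max_eq_right hx, Real.log_one, Real.sqrt_zero, mul_zero, Real.cos_zero]
  norm_num

/-- the angular function -/
def g (z : ℂ) : ℝ := if z.im = 0 then (if z.re < 0 then 1 else 0) else chi (z.re / |z.im|)

lemma g_nonneg (z : ℂ) : 0 ≤ g z := by
  unfold g; split_ifs
  · norm_num
  · exact le_rfl
  · exact chi_nonneg _

lemma g_le_one (z : ℂ) : g z ≤ 1 := by
  unfold g; split_ifs
  · exact le_rfl
  · norm_num
  · exact chi_le_one _

lemma g_smul {t : ℝ} (ht : 0 < t) (z : ℂ) : g ((t : ℂ) * z) = g z := by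
  have h1 : ((t : ℂ) * z).im = t * z.im := by simp
  have h2 : ((t : ℂ) * z).re = t * z.re := by simp
  unfold g
  rw [h1, h2]
  by_cases h : z.im = 0
  · rw [if_pos (by rw [h, mul_zero]), if_pos h]
    by_cases h' : z.re < 0
    · rw [if_pos (mul_neg_of_pos_of_neg ht h'), if_pos h']
    · rw [if_neg (by push Not at h' ⊢; positivity), if_neg h']
  · rw [if_neg (mul_ne_zero ht.ne' h), if_neg h, abs_mul, abs_of_pos ht,
      mul_div_mul_left _ _ ht.ne']

lemma g_of_re_nonpos {z : ℂ} (hz : z.re < 0) : g z = 1 := by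
  unfold g
  by_cases h : z.im = 0
  · rw [if_pos h, if_pos hz]
  · rw [if_neg h]
    apply chi_of_le
    have : z.re / |z.im| ≤ 0 := div_nonpos_of_nonpos_of_nonneg hz.le (abs_nonneg _)
    linarith

lemma g_cont {z : ℂ} (hz : z.re < 0 ∨ z.im ≠ 0) : ContinuousAt g z := by
  rcases hz with hz | hz
  · have : g =ᶠ[𝓝 z] fun _ => (1 : ℝ) := by
      filter_upwards [(isOpen_lt Complex.continuous_re continuous_const).mem_nhds hz] with w hw
      exact g_of_re_nonpos hw
    exact continuousAt_const.congr this.symm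
  · have : g =ᶠ[𝓝 z] fun w => chi (w.re / |w.im|) := by
      filter_upwards [(isOpen_ne.preimage Complex.continuous_im).mem_nhds hz] with w hw
      unfold g
      rw [if_neg hw]
    refine ContinuousAt.congr ?_ this.symm
    apply chi_cont.continuousAt.comp
    exact Complex.continuous_re.continuousAt.div
      (Complex.continuous_im.abs).continuousAt (abs_ne_zero.2 hz)

/-- distance to the positive half axis -/
def ell (z : ℂ) : ℝ := ‖z - ((max z.re 0 : ℝ) : ℂ)‖

lemma ell_cont : Continuous ell := by
  unfold ell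
  have : Continuous fun z : ℂ => max z.re 0 := Complex.continuous_re.max continuous_const
  exact (continuous_id.sub (Complex.continuous_ofReal.comp this)).norm

lemma ell_nonneg (z : ℂ) : 0 ≤ ell z := norm_nonneg _

lemma ell_smul {t : ℝ} (ht : 0 ≤ t) (z : ℂ) : ell ((t : ℂ) * z) = t * ell z := by
  unfold ell
  have h2 : ((t : ℂ) * z).re = t * z.re := by simp
  have h3 : max (t * z.re) 0 = t * max z.re 0 := by
    rw [mul_max_of_nonneg _ _ ht, mul_zero]
  rw [h2, h3, Complex.ofReal_mul, ← mul_sub, norm_mul, Complex.norm_real, Real.norm_of_nonneg ht]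

lemma ell_zero_iff {z : ℂ} : ell z = 0 ↔ 0 ≤ z.re ∧ z.im = 0 := by
  unfold ell
  rw [norm_eq_zero, sub_eq_zero]
  constructor
  · intro h
    have h1 := congrArg Complex.re h
    have h2 := congrArg Complex.im h
    simp only [Complex.ofReal_re, Complex.ofReal_im] at h1 h2
    exact ⟨by rw [h1]; exact le_max_right _ _, h2⟩
  · rintro ⟨h1, h2⟩
    apply Complex.ext
    · simp [h1]
    · simp [h2]

lemma ell_pos {z : ℂ} (hz : z.re < 0 ∨ z.im ≠ 0) : 0 < ell z := by
  rcases (ell_nonneg z).eq_or_lt with h | h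
  · exfalso
    have := ell_zero_iff.1 h.symm
    rcases hz with hz | hz
    · linarith [this.1]
    · exact hz this.2
  · exact h

lemma g_of_ell {z : ℂ} (hz : ell z = 0) : g z = 0 := by
  have := ell_zero_iff.1 hz
  unfold g
  rw [if_pos this.2, if_neg (by linarith [this.1])]

/-- regularised radial profile -/
def hh (z : ℂ) : ℝ := g z * (ell z / (1 + ell z))

lemma hh_nonneg (z : ℂ) : 0 ≤ hh z := by
  unfold hh
  have := ell_nonneg z
  exact mul_nonneg (g_nonneg z) (by positivity)

lemma hh_le (z : ℂ) : hh z ≤ g z := by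
  unfold hh
  have h1 := ell_nonneg z
  have h2 : ell z / (1 + ell z) ≤ 1 := by rw [div_le_one (by linarith)]; linarith
  have := g_nonneg z
  nlinarith

lemma hh_le_ell (z : ℂ) : hh z ≤ ell z := by
  unfold hh
  have h1 := ell_nonneg z
  have h2 : ell z / (1 + ell z) ≤ ell z := by
    rw [div_le_iff₀ (by linarith)]; nlinarith
  have h3 : 0 ≤ ell z / (1 + ell z) := by positivity
  have := g_nonneg z
  have := g_le_one z
  nlinarith

lemma hh_cont : Continuous hh := by
  rw [continuous_iff_continuousAt]
  intro z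
  by_cases hz : z.re < 0 ∨ z.im ≠ 0
  · unfold hh
    apply (g_cont hz).mul
    exact ell_cont.continuousAt.div (continuous_const.add ell_cont).continuousAt
      (by have := ell_nonneg z; linarith)
  · push Not at hz
    have h0 : ell z = 0 := ell_zero_iff.2 hz
    have h1 : hh z = 0 := by
      apply le_antisymm
      · rw [← h0]; exact hh_le_ell z
      · exact hh_nonneg z
    rw [ContinuousAt, h1]
    apply tendsto_of_tendsto_of_tendsto_of_le_of_le tendsto_const_nhds (g := fun _ => (0 : ℝ))
      (h := ell)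
    · rw [← h0]; exact ell_cont.continuousAt
    · exact fun w => hh_nonneg w
    · exact fun w => hh_le_ell w

/-- the outer domain -/
def G : Set ℂ := {z | ‖z‖ < bb + 99 * g z}

/-- the exhaustion map -/
def F0 (z : ℂ) : ℂ := (((bb + 99 * hh z) / (1 + ‖z‖) : ℝ) : ℂ) * z

lemma F0_cont : Continuous F0 := by
  unfold F0
  have : Continuous fun z : ℂ => (bb + 99 * hh z) / (1 + ‖z‖) := by
    apply Continuous.div
    · exact continuous_const.add (continuous_const.mul hh_cont)
    · fun_prop
    · intro z; have := norm_nonneg z; linarith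
  exact (Complex.continuous_ofReal.comp this).mul continuous_id

lemma F0_norm (z : ℂ) : ‖F0 z‖ = (bb + 99 * hh z) * (‖z‖ / (1 + ‖z‖)) := by
  unfold F0
  rw [norm_mul, Complex.norm_real, Real.norm_of_nonneg]
  · ring
  · have := hh_nonneg z
    have := bb_pos
    positivity

lemma ball_sub_G {z : ℂ} (hz : ‖z‖ < bb) : z ∈ G := by
  show ‖z‖ < bb + 99 * g z
  have := g_nonneg z; linarith

lemma g_F0 (z : ℂ) : g (F0 z) = g z := by
  unfold F0
  apply g_smul
  have := hh_nonneg z
  have := bb_pos
  have := norm_nonneg z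
  positivity

lemma F0_mem (z : ℂ) : F0 z ∈ G := by
  show ‖F0 z‖ < bb + 99 * g (F0 z)
  rw [g_F0, F0_norm]
  have h1 := hh_nonneg z
  have h2 := hh_le z
  have h3 := bb_pos
  have h4 := norm_nonneg z
  have h5 : ‖z‖ / (1 + ‖z‖) < 1 := by rw [div_lt_one (by linarith)]; linarith
  nlinarith

lemma G_open : IsOpen G := by
  rw [isOpen_iff_mem_nhds]
  intro z hz
  have hz' : ‖z‖ < bb + 99 * g z := hz
  by_cases h : z.re < 0 ∨ z.im ≠ 0
  · have h1 : ContinuousAt (fun w => bb + 99 * g w) z :=
      continuousAt_const.add (continuousAt_const.mul (g_cont h))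
    exact (continuous_norm.continuousAt.prodMk h1).eventually
      ((isOpen_lt continuous_fst continuous_snd).mem_nhds hz')
  · push Not at h
    have h0 : g z = 0 := g_of_ell (ell_zero_iff.2 h)
    rw [h0, mul_zero, add_zero] at hz'
    filter_upwards [(isOpen_lt continuous_norm continuous_const).mem_nhds hz'] with w hw
    exact ball_sub_G hw

lemma G_star : Star G := by
  refine ⟨ball_sub_G (by rw [norm_zero]; exact bb_pos), fun z hz t h0 h1 => ?_⟩
  rcases h0.eq_or_lt with h | h
  · rw [← h]; simp only [Complex.ofReal_zero, zero_mul]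
    exact ball_sub_G (by rw [norm_zero]; exact bb_pos)
  · show ‖(t : ℂ) * z‖ < bb + 99 * g ((t : ℂ) * z)
    rw [g_smul h, norm_mul, Complex.norm_real, Real.norm_of_nonneg h0]
    have hz' : ‖z‖ < bb + 99 * g z := hz
    have := norm_nonneg z
    nlinarith

lemma F0_range : range F0 = G := by
  apply Subset.antisymm
  · rintro _ ⟨z, rfl⟩; exact F0_mem z
  · intro z hz
    have hz' : ‖z‖ < bb + 99 * g z := hz
    rcases eq_or_ne z 0 with h0 | h0
    · exact ⟨0, by rw [h0]; simp [F0]⟩
    have hzn : 0 < ‖z‖ := norm_pos_iff.2 h0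
    -- radial function
    let f : ℝ → ℝ := fun s => (bb + 99 * hh ((s : ℂ) * z)) * (s / (1 + s * ‖z‖))
    have hfc : ContinuousOn f (Ici 0) := by
      apply ContinuousOn.mul
      · exact (continuous_const.add (continuous_const.mul
          (hh_cont.comp (by fun_prop : Continuous fun s : ℝ => (s : ℂ) * z)))).continuousOn
      · apply continuousOn_id.div (by fun_prop)
        intro s hs
        have : 0 ≤ s := hs
        positivity
    have hlim : Tendsto f atTop (𝓝 ((bb + 99 * g z) * (1 / ‖z‖))) := by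
      apply Tendsto.mul
      · apply tendsto_const_nhds.add
        apply tendsto_const_nhds.mul
        have e : (fun s : ℝ => g z * (s * ell z / (1 + s * ell z))) =ᶠ[atTop]
            fun s : ℝ => hh ((s : ℂ) * z) := by
          filter_upwards [eventually_gt_atTop 0] with s hs
          unfold hh
          rw [g_smul hs, ell_smul hs.le]
        refine Tendsto.congr' e ?_
        rcases (ell_nonneg z).eq_or_lt with h | h
        · rw [g_of_ell h.symm]; simp
        · have h2 : Tendsto (fun s : ℝ => s * ell z) atTop atTop := tendsto_id.atTop_mul_const h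
          have h3 : Tendsto (fun x : ℝ => x / (1 + x)) atTop (𝓝 1) := by
            have h4 : Tendsto (fun x : ℝ => 1 - 1 / (1 + x)) atTop (𝓝 (1 - 0)) := by
              apply tendsto_const_nhds.sub
              exact tendsto_const_nhds.div_atTop (tendsto_atTop_add_const_left _ _ tendsto_id)
            rw [sub_zero] at h4
            refine h4.congr' ?_
            filter_upwards [eventually_gt_atTop 0] with x hx
            have : 1 + x ≠ 0 := by linarith
            field_simp
            ring
          have := (h3.comp h2).const_mul (g z)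
          rw [mul_one] at this
          exact this
      · have h4 : Tendsto (fun s : ℝ => 1 / ‖z‖ - 1 / (‖z‖ * (1 + s * ‖z‖))) atTop
            (𝓝 (1 / ‖z‖ - 0)) := by
          apply tendsto_const_nhds.sub
          apply tendsto_const_nhds.div_atTop
          apply Tendsto.const_mul_atTop hzn
          exact tendsto_atTop_add_const_left _ _ (tendsto_id.atTop_mul_const hzn)
        rw [sub_zero] at h4
        refine h4.congr' ?_
        filter_upwards [eventually_gt_atTop 0] with s hs
        have : 1 + s * ‖z‖ ≠ 0 := by positivity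
        field_simp
        ring
    have h1 : (1 : ℝ) < (bb + 99 * g z) * (1 / ‖z‖) := by
      rw [mul_one_div, one_lt_div hzn]; exact hz'
    obtain ⟨s, hs, hs0⟩ := ((hlim.eventually (lt_mem_nhds h1)).and (eventually_ge_atTop 0)).exists
    have hiv := intermediate_value_Icc hs0 (hfc.mono Icc_subset_Ici_self)
    have hf0 : f 0 = 0 := by simp [f]
    obtain ⟨x, hx, hfx⟩ := hiv ⟨by rw [hf0]; norm_num, hs.le⟩
    refine ⟨(x : ℂ) * z, ?_⟩
    have hx0 : 0 ≤ x := hx.1
    unfold F0
    rw [norm_mul, Complex.norm_real, Real.norm_of_nonneg hx0, ← mul_assoc, ← Complex.ofReal_mul]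
    have : (bb + 99 * hh (↑x * z)) / (1 + x * ‖z‖) * x = f x := by
      simp only [f]; ring
    rw [this, hfx]; simp

lemma F0_proper {C : Set ℂ} (hC : IsCompact C) (hCG : C ⊆ G) :
    ∃ M : ℝ, ∀ z, M < ‖z‖ → F0 z ∉ C := by
  by_contra hcon
  push Not at hcon
  choose z hz hzC using fun n : ℕ => hcon (n : ℝ)
  have hz0 : ∀ n, 0 < ‖z n‖ := fun n => lt_of_le_of_lt (Nat.cast_nonneg n) (hz n)
  let u : ℕ → ℂ := fun n => ((‖z n‖⁻¹ : ℝ) : ℂ) * z n
  have hu : ∀ n, ‖u n‖ = 1 := by
    intro n
    simp only [u]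
    rw [norm_mul, Complex.norm_real, Real.norm_of_nonneg (by positivity),
      inv_mul_cancel₀ (hz0 n).ne']
  have hzu : ∀ n, z n = ((‖z n‖ : ℝ) : ℂ) * u n := by
    intro n
    simp only [u]
    rw [← mul_assoc, ← Complex.ofReal_mul, mul_inv_cancel₀ (hz0 n).ne']; simp
  have hmem : ∀ n, (u n, F0 (z n)) ∈ sphere (0 : ℂ) 1 ×ˢ C := fun n =>
    ⟨by rw [mem_sphere_zero_iff_norm]; exact hu n, hzC n⟩
  obtain ⟨⟨v, c⟩, ⟨hv, hc⟩, φ, hφ, hlim⟩ := ((isCompact_sphere 0 1).prod hC).tendsto_subseq hmem
  have hv1 : ‖v‖ = 1 := by simpa using hv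
  have hlu : Tendsto (fun n => u (φ n)) atTop (𝓝 v) := (continuous_fst.tendsto _).comp hlim
  have hlF : Tendsto (fun n => F0 (z (φ n))) atTop (𝓝 c) := (continuous_snd.tendsto _).comp hlim
  have hs : Tendsto (fun n => ‖z (φ n)‖) atTop atTop := by
    apply tendsto_atTop_mono (f := fun n => ((φ n : ℕ) : ℝ)) (fun n => (hz (φ n)).le)
    exact tendsto_natCast_atTop_atTop.comp hφ.tendsto_atTop
  have hs1 : Tendsto (fun n => ‖z (φ n)‖ / (1 + ‖z (φ n)‖)) atTop (𝓝 1) := by
    have h4 : Tendsto (fun x : ℝ => 1 - 1 / (1 + x)) atTop (𝓝 (1 - 0)) := by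
      apply tendsto_const_nhds.sub
      exact tendsto_const_nhds.div_atTop (tendsto_atTop_add_const_left _ _ tendsto_id)
    rw [sub_zero] at h4
    refine (h4.comp hs).congr ?_
    intro n
    have := hz0 (φ n)
    have : 1 + ‖z (φ n)‖ ≠ 0 := by linarith
    simp only [Function.comp]
    field_simp
    ring
  -- direction of the limit
  have hdir : Tendsto (fun n => ((‖F0 (z (φ n))‖ : ℝ) : ℂ) * u (φ n)) atTop
      (𝓝 (((‖c‖ : ℝ) : ℂ) * v)) :=
    ((Complex.continuous_ofReal.tendsto _).comp ((continuous_norm.tendsto _).comp hlF)).mul hlu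
  have hFu : ∀ n, F0 (z n) = ((‖F0 (z n)‖ : ℝ) : ℂ) * u n := by
    intro n
    have h1 := hz0 n
    have h2 : 1 + ‖z n‖ ≠ 0 := by linarith
    rw [F0_norm]
    simp only [u]
    rw [← mul_assoc, ← Complex.ofReal_mul, F0]
    congr 2
    field_simp
  have hcv : c = ((‖c‖ : ℝ) : ℂ) * v := by
    refine tendsto_nhds_unique hlF ?_
    exact hdir.congr fun n => (hFu (φ n)).symm
  have hnlim : Tendsto (fun n => ‖F0 (z (φ n))‖) atTop (𝓝 ‖c‖) :=
    (continuous_norm.tendsto _).comp hlF
  have hcb : bb ≤ ‖c‖ := by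
    have h1 : Tendsto (fun n => bb * (‖z (φ n)‖ / (1 + ‖z (φ n)‖))) atTop (𝓝 (bb * 1)) :=
      hs1.const_mul bb
    rw [mul_one] at h1
    refine le_of_tendsto_of_tendsto' h1 hnlim fun n => ?_
    rw [F0_norm]
    apply mul_le_mul_of_nonneg_right
    · have := hh_nonneg (z (φ n)); linarith
    · have := hz0 (φ n); positivity
  have hc0 : 0 < ‖c‖ := bb_pos.trans_le hcb
  have hcG : ‖c‖ < bb + 99 * g c := hCG hc
  have hgc : g c = g v := by rw [hcv]; exact g_smul hc0 v
  by_cases h : v.re < 0 ∨ v.im ≠ 0
  · have hlg : Tendsto (fun n => g (u (φ n))) atTop (𝓝 (g v)) := (g_cont h).tendsto.comp hlu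
    have hle : Tendsto (fun n => ell (u (φ n))) atTop (𝓝 (ell v)) :=
      (ell_cont.tendsto v).comp hlu
    have hlv := ell_pos h
    have hle' : Tendsto (fun n => ‖z (φ n)‖ * ell (u (φ n))) atTop atTop :=
      hs.atTop_mul_pos hlv hle
    have hq : Tendsto (fun n => (‖z (φ n)‖ * ell (u (φ n))) /
        (1 + ‖z (φ n)‖ * ell (u (φ n)))) atTop (𝓝 1) := by
      have h4 : Tendsto (fun x : ℝ => 1 - 1 / (1 + x)) atTop (𝓝 (1 - 0)) := by
        apply tendsto_const_nhds.sub
        exact tendsto_const_nhds.div_atTop (tendsto_atTop_add_const_left _ _ tendsto_id)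
      rw [sub_zero] at h4
      refine (h4.comp hle').congr ?_
      intro n
      have h5 := hz0 (φ n)
      have h6 := ell_nonneg (u (φ n))
      have : 1 + ‖z (φ n)‖ * ell (u (φ n)) ≠ 0 := by positivity
      simp only [Function.comp]
      field_simp
      ring
    have hhlim : Tendsto (fun n => hh (z (φ n))) atTop (𝓝 (g v * 1)) := by
      refine (hlg.mul hq).congr fun n => ?_
      unfold hh
      conv_rhs => rw [hzu (φ n)]
      rw [g_smul (hz0 _), ell_smul (hz0 _).le]
    have h7 : Tendsto (fun n => ‖F0 (z (φ n))‖) atTop (𝓝 ((bb + 99 * (g v * 1)) * 1)) := by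
      refine Tendsto.congr (fun n => (F0_norm _).symm) ?_
      exact (tendsto_const_nhds.add (tendsto_const_nhds.mul hhlim)).mul hs1
    have h8 := tendsto_nhds_unique hnlim h7
    rw [hgc, h8] at hcG
    linarith
  · push Not at h
    have : g v = 0 := g_of_ell (ell_zero_iff.2 h)
    rw [hgc, this] at hcG
    linarith

end

end Pool.Agent.W787
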