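import Mathlib
import Pool.Agent.W787.Dom

set_option autoImplicit false

open Set Filter Topology Metric
open scoped Real

namespace Pool.Agent.W787

open Complex (I)

noncomputable section

/-- vertical stretch -/
def T (l : ℝ) (z : ℂ) : ℂ := ⟨z.re, l * z.im⟩

@[simp] lemma T_re (l : ℝ) (z : ℂ) : (T l z).re = z.re := rfl
@[simp] lemma T_im (l : ℝ) (z : ℂ) : (T l z).im = l * z.im := rfl

/-- vertical stretch as a linear map -/
def TL (l : ℝ) : ℂ →L[ℝ] ℂ :=
  Complex.reCLM.smulRight (1 : ℂ) + (l • Complex.imCLM).smulRight I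

lemma TL_apply (l : ℝ) (z : ℂ) : TL l z = T l z := by
  apply Complex.ext <;> simp [TL, T]

lemma T_cont (l : ℝ) : Continuous (T l) := by
  have : T l = TL l := by ext z; rw [TL_apply]
  rw [this]; exact (TL l).continuous

lemma T_T (l m : ℝ) (z : ℂ) : T l (T m z) = T (l * m) z := by
  apply Complex.ext
  · rfl
  · simp [mul_assoc]

lemma T_one (z : ℂ) : T 1 z = z := by
  apply Complex.ext
  · rfl
  · simp

lemma T_inv {l : ℝ} (hl : l ≠ 0) (z : ℂ) : T l (T l⁻¹ z) = z := by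
  rw [T_T, mul_inv_cancel₀ hl, T_one]

lemma T_inv' {l : ℝ} (hl : l ≠ 0) (z : ℂ) : T l⁻¹ (T l z) = z := by
  rw [T_T, inv_mul_cancel₀ hl, T_one]

lemma T_norm_le {l : ℝ} (hl : 0 < l) (z : ℂ) : ‖T l z‖ ≤ max 1 l * ‖z‖ := by
  have h0 : 0 < max 1 l := lt_max_of_lt_left one_pos
  rw [← Real.sqrt_sq (mul_nonneg h0.le (norm_nonneg z)), Complex.norm_def]
  apply Real.sqrt_le_sqrt
  rw [mul_pow, ← Complex.normSq_eq_norm_sq, Complex.normSq_apply, Complex.normSq_apply, T_re, T_im]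
  have h1 : 1 ≤ max 1 l := le_max_left _ _
  have h2 : l ≤ max 1 l := le_max_right _ _
  have h3 : 1 ≤ max 1 l ^ 2 := by nlinarith
  have h4 : l ^ 2 ≤ max 1 l ^ 2 := by
    apply pow_le_pow_left₀ hl.le h2
  have h5 := mul_self_nonneg z.re
  have h6 := mul_self_nonneg z.im
  nlinarith [mul_nonneg (sub_nonneg.2 h3) h5, mul_nonneg (sub_nonneg.2 h4) h6]

lemma T_norm_le_one {l : ℝ} (hl : 0 < l) (hl1 : l ≤ 1) (z : ℂ) : ‖T l z‖ ≤ ‖z‖ := by
  have := T_norm_le hl z
  rwa [max_eq_left hl1, one_mul] at this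

lemma T_norm_re_im {l : ℝ} (hl : 0 < l) (z : ℂ) : ‖T l z‖ ≤ |z.re| + l * |z.im| := by
  have := Complex.norm_le_abs_re_add_abs_im (T l z)
  rwa [T_re, T_im, abs_mul, abs_of_pos hl] at this

lemma T_slit {l : ℝ} {z : ℂ} (hl : l ≠ 0) : T l z ∈ Slit ↔ z ∈ Slit := by
  unfold Slit
  simp [hl]

lemma T_of_im {l : ℝ} {z : ℂ} (hz : z.im = 0) : T l z = z := by
  apply Complex.ext
  · rfl
  · simp [hz]

lemma T_smul (l t : ℝ) (z : ℂ) : T l ((t : ℂ) * z) = (t : ℂ) * T l z := by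
  apply Complex.ext
  · simp
  · simp; ring

/-- the stretched outer domain -/
def EE (l : ℝ) : Set ℂ := {z | T l⁻¹ z ∈ G}

def FF (l : ℝ) (z : ℂ) : ℂ := T l (F0 z)

lemma g_real {z : ℂ} (h0 : 0 ≤ z.re) (h1 : z.im = 0) : g z = 0 := g_of_ell (ell_zero_iff.2 ⟨h0, h1⟩)

lemma EE_outer {l : ℝ} (hl : 0 < l) : Outer (EE l) (FF l) where
  op := G_open.preimage (T_cont _)
  bd := by
    rw [isBounded_iff_forall_norm_le]
    refine ⟨max 1 l * (bb + 99), fun z hz => ?_⟩
    have h1 : ‖T l⁻¹ z‖ < bb + 99 * g (T l⁻¹ z) := hz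
    have h2 := g_le_one (T l⁻¹ z)
    have h3 := T_norm_le hl (T l⁻¹ z)
    rw [T_inv hl.ne'] at h3
    refine h3.trans ?_
    apply mul_le_mul_of_nonneg_left _ (by positivity)
    linarith
  star := by
    refine ⟨?_, fun z hz t h0 h1 => ?_⟩
    · show T l⁻¹ 0 ∈ G
      rw [T_of_im (by simp)]; exact G_star.1
    · show T l⁻¹ _ ∈ G
      rw [T_smul]; exact G_star.2 _ hz t h0 h1
  slit := by
    intro z hz
    show T l⁻¹ z ∈ G
    rw [T_of_im hz.1]
    exact ball_sub_G ((Slit_norm hz).trans_lt one_lt_bb)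
  cont := (T_cont l).comp F0_cont
  rng := by
    apply Subset.antisymm
    · rintro _ ⟨z, rfl⟩
      show T l⁻¹ (T l (F0 z)) ∈ G
      rw [T_inv' hl.ne']; exact F0_mem z
    · intro z hz
      have : T l⁻¹ z ∈ range F0 := by rw [F0_range]; exact hz
      obtain ⟨w, hw⟩ := this
      refine ⟨w, ?_⟩
      show T l (F0 w) = z
      rw [hw, T_inv hl.ne']
  proper := by
    intro C hC hCE
    obtain ⟨M, hM⟩ := F0_proper (hC.image (T_cont l⁻¹)) (by
      rintro _ ⟨z, hz, rfl⟩; exact hCE hz)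
    refine ⟨M, fun z hz h => hM z hz ?_⟩
    exact ⟨_, h, T_inv' hl.ne' _⟩
  far := by
    intro M
    set R : ℝ := max M 1 + 1 with hR
    have hR1 : 1 < R := by have := le_max_right M 1; linarith
    have hRM : M < R := by have := le_max_left M 1; linarith
    have hn : ‖((R : ℝ) : ℂ)‖ = R := by rw [Complex.norm_real, Real.norm_of_nonneg (by linarith)]
    have hn' : ‖((-R : ℝ) : ℂ)‖ = R := by
      rw [Complex.norm_real, norm_neg, Real.norm_of_nonneg (by linarith)]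
    refine ⟨((R : ℝ) : ℂ), ((-R : ℝ) : ℂ), by rw [hn]; exact hRM, by rw [hn']; exact hRM, ?_⟩
    have h1 : ∀ x : ℝ, (F0 (x : ℂ)).im = 0 := fun x => by
      unfold F0
      rw [← Complex.ofReal_mul, Complex.ofReal_im]
    unfold FF
    rw [T_of_im (h1 _), T_of_im (h1 _)]
    have h2 : F0 ((R : ℝ) : ℂ) - F0 ((-R : ℝ) : ℂ) =
        (((bb + 99 * hh ((R : ℝ) : ℂ)) / (1 + R) * R +
          (bb + 99 * hh ((-R : ℝ) : ℂ)) / (1 + R) * R : ℝ) : ℂ) := by
      unfold F0
      rw [hn, hn']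
      push_cast
      ring
    rw [h2, Complex.norm_real]
    refine le_trans ?_ (Real.le_norm_self _)
    have h3 := hh_nonneg ((R : ℝ) : ℂ)
    have h4 := hh_nonneg ((-R : ℝ) : ℂ)
    have h5 := one_lt_bb
    have h6 : 1 / 2 ≤ R / (1 + R) := by
      rw [div_le_div_iff₀ (by norm_num) (by linarith)]; linarith
    have h7 : (bb + 99 * hh ((R : ℝ) : ℂ)) / (1 + R) * R =
      (bb + 99 * hh ((R : ℝ) : ℂ)) * (R / (1 + R)) := by ring
    have h8 : (bb + 99 * hh ((-R : ℝ) : ℂ)) / (1 + R) * R =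
      (bb + 99 * hh ((-R : ℝ) : ℂ)) * (R / (1 + R)) := by ring
    rw [h7, h8]
    nlinarith
  sec := by
    have hne : ∀ θ : ℝ, 0 < ‖T l⁻¹ (Complex.exp (θ * I))‖ := by
      intro θ
      rw [norm_pos_iff]
      intro h
      have h1 := T_inv hl.ne' (Complex.exp (θ * I))
      rw [h, T_of_im (by simp)] at h1
      exact Complex.exp_ne_zero _ h1.symm
    have h1b := one_lt_bb
    refine ⟨fun θ => (1 + bb) / 2 / ‖T l⁻¹ (Complex.exp (θ * I))‖, ?_, ?_, ?_⟩
    · apply Continuous.div continuous_const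
      · exact ((T_cont l⁻¹).comp (by fun_prop)).norm
      · intro θ; exact (hne θ).ne'
    · intro θ
      have := hne θ
      have := bb_pos
      positivity
    · intro θ
      have h2 := hne θ
      set c := (1 + bb) / 2 / ‖T l⁻¹ (Complex.exp (θ * I))‖ with hc
      have hc0 : 0 < c := by have := bb_pos; positivity
      have h3 : ‖T l⁻¹ ((c : ℂ) * Complex.exp (θ * I))‖ = (1 + bb) / 2 := by
        rw [T_smul, norm_mul, Complex.norm_real, Real.norm_of_nonneg hc0.le, hc,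
          div_mul_cancel₀ _ h2.ne']
      constructor
      · show T l⁻¹ _ ∈ G
        apply ball_sub_G
        rw [h3]; linarith
      · intro h
        rw [T_of_im h.1] at h3
        have := Slit_norm h
        rw [h3] at this
        linarith

end

end Pool.Agent.W787
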