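import Mathlib
import Pool.Agent.H366R3.Energy2
import Pool.Agent.H366R3.ED.Defs

set_option autoImplicit false

open Set Filter Topology MeasureTheory Metric
open scoped ContDiff ENNReal NNReal

namespace Pool.Agent.W787

open Pool.Agent.H366R3 Pool.Agent.H366R3.ED

/-- the area of the image is at most half the energy, for Sobolev homeomorphisms -/
theorem two_area_le_energy {Ω Ω' : Set ℂ} (hΩ : IsOpen Ω) (hΩ' : IsOpen Ω') {h : ℂ → ℂ}
    {Dh : ℂ → ℂ →L[ℝ] ℂ} (H : IsSobolevHomeo Ω Ω' h Dh) : 2 * volume Ω' ≤ energy Ω Dh := by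
  by_cases hfin : energy Ω Dh = ⊤
  · rw [hfin]; exact le_top
  obtain ⟨g, hg, hgh⟩ := H.continuousOn_inverse
  have hgm : MapsTo g Ω' Ω := by
    intro y hy
    obtain ⟨x, hx, rfl⟩ := H.bijOn.surjOn hy
    rw [hgh x hx]; exact hx
  have hhg : ∀ y ∈ Ω', h (g y) = y := by
    intro y hy
    obtain ⟨x, hx, rfl⟩ := H.bijOn.surjOn hy
    rw [hgh x hx]
  have hgae : AEMeasurable g (volume.restrict Ω') := hg.aemeasurable hΩ'.measurableSet
  set ν : Measure ℂ := (2 : ℝ≥0∞) • (volume.restrict Ω').map g with hν
  set μ : Measure ℂ := (volume.restrict Ω).withDensity (fun z => ed (Dh z)) with hμ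
  have hμuniv : μ univ = energy Ω Dh := by
    rw [hμ, withDensity_apply _ MeasurableSet.univ, Measure.restrict_univ]
    rfl
  have hμfin : IsFiniteMeasure μ := ⟨by rw [hμuniv]; exact lt_top_iff_ne_top.2 hfin⟩
  have hνA : ∀ A : Set ℂ, MeasurableSet A → ν A = 2 * volume (Ω' ∩ g ⁻¹' A) := by
    intro A hA
    rw [hν, Measure.smul_apply, Measure.map_apply_of_aemeasurable hgae hA, smul_eq_mul,
      Measure.restrict_apply₀' hΩ'.measurableSet.nullMeasurableSet, inter_comm]
  -- the estimate on balls
  have hball : ∀ x t s, 0 < t → t < s → closedBall x s ⊆ Ω → ν (ball x t) ≤ μ (closedBall x s) := by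
    intro x t s ht hts hs
    have hts' : closedBall x t ⊆ Ω := (closedBall_subset_closedBall hts.le).trans hs
    have hGc : ContinuousOn g (h '' closedBall x t) := hg.mono (by
      rintro _ ⟨z, hz, rfl⟩; exact H.bijOn.mapsTo (hts' hz))
    have hbase : ∀ η : ℝ, 0 < η → 2 * volume {y | closedBall y η ⊆ h '' closedBall x t} ≤
        μ (closedBall x s) := by
      intro η hη
      have h1 := ball_est (Ω := Ω) (g := h) (Dg := Dh) H.weak ht hts hs H.continuousOn hGc
        (fun z hz => hgh z (hts' hz)) hη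
      rw [hμ, withDensity_apply _ measurableSet_closedBall,
        Measure.restrict_restrict measurableSet_closedBall, inter_eq_self_of_subset_left hs]
      exact h1
    have hopen : IsOpen (Ω' ∩ g ⁻¹' ball x t) := hg.isOpen_inter_preimage hΩ' isOpen_ball
    have hsub : Ω' ∩ g ⁻¹' ball x t ⊆ h '' closedBall x t := by
      rintro y ⟨hy, hy'⟩
      exact ⟨g y, ball_subset_closedBall hy', hhg y hy⟩
    have hun : Ω' ∩ g ⁻¹' ball x t ⊆
        ⋃ n : ℕ, {y | closedBall y (1 / ((n : ℝ) + 1)) ⊆ h '' closedBall x t} := by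
      intro y hy
      obtain ⟨ε, hε, hεs⟩ := Metric.isOpen_iff.1 hopen y hy
      obtain ⟨n, hn⟩ := exists_nat_one_div_lt hε
      refine mem_iUnion.2 ⟨n, ?_⟩
      exact (closedBall_subset_ball hn).trans (hεs.trans hsub)
    have hmono : Monotone fun n : ℕ =>
        {y | closedBall y (1 / ((n : ℝ) + 1)) ⊆ h '' closedBall x t} := by
      intro n m hnm y hy
      refine (closedBall_subset_closedBall ?_).trans hy
      apply one_div_le_one_div_of_le (by positivity)
      have : (n : ℝ) ≤ m := by exact_mod_cast hnm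
      linarith
    rw [hνA _ measurableSet_ball]
    calc 2 * volume (Ω' ∩ g ⁻¹' ball x t) ≤
        2 * volume (⋃ n : ℕ, {y | closedBall y (1 / ((n : ℝ) + 1)) ⊆ h '' closedBall x t}) := by
          gcongr
      _ = 2 * ⨆ n : ℕ, volume {y | closedBall y (1 / ((n : ℝ) + 1)) ⊆ h '' closedBall x t} := by
          rw [hmono.measure_iUnion]
      _ = ⨆ n : ℕ, 2 * volume {y | closedBall y (1 / ((n : ℝ) + 1)) ⊆ h '' closedBall x t} := by
          rw [ENNReal.mul_iSup]
      _ ≤ μ (closedBall x s) := iSup_le fun n => hbase _ (by positivity)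
  have hball2 : ∀ x t s, 0 < t → t < s → closedBall x s ⊆ Ω →
      ν (closedBall x t) ≤ μ (closedBall x s) := by
    intro x t s ht hts hs
    have h1 : t < (t + s) / 2 := by linarith
    have h2 : (t + s) / 2 < s := by linarith
    exact (measure_mono (closedBall_subset_ball h1)).trans
      (hball x _ s (ht.trans h1) h2 hs)
  have hball3 : ∀ x t s, 0 < t → t < s → closedBall x s ⊆ Ω →
      ν (closedBall x t) ≤ μ (closedBall x t) := by
    intro x t s ht hts hs
    have hlim : Tendsto (fun r => μ (closedBall x r)) (𝓝[>] t) (𝓝 (μ (closedBall x t))) := by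
      have h1 : ⋂ r > t, closedBall x r = closedBall x t := by
        ext z
        simp only [mem_iInter, mem_closedBall]
        constructor
        · intro h
          exact le_of_forall_gt_imp_ge_of_dense h
        · intro h r hr
          exact h.trans hr.le
      rw [← h1]
      refine tendsto_measure_biInter_gt (fun r _ => measurableSet_closedBall.nullMeasurableSet)
        (fun i j _ hij => closedBall_subset_closedBall hij) ⟨s, hts, measure_ne_top _ _⟩
    refine ge_of_tendsto hlim ?_
    have : ∀ᶠ r in 𝓝[>] t, r ∈ Ioo t s := Ioo_mem_nhdsGT hts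
    filter_upwards [this] with r hr
    exact hball2 x t r ht hr.1 ((closedBall_subset_closedBall hr.2.le).trans hs)
  have hνfin : SFinite ν := by rw [hν]; infer_instance
  have key : ν Ω ≤ μ Ω := by
    refine (Besicovitch.vitaliFamily ν).measure_le_of_frequently_le μ
      Measure.AbsolutelyContinuous.rfl Ω ?_
    intro x hx
    obtain ⟨ε, hε, hεs⟩ := Metric.isOpen_iff.1 hΩ x hx
    have h1 : ∀ᶠ r in 𝓝[>] (0 : ℝ), ν (closedBall x r) ≤ μ (closedBall x r) := by
      have : ∀ᶠ r in 𝓝[>] (0 : ℝ), r ∈ Ioo 0 (ε / 2) := Ioo_mem_nhdsGT (by positivity)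
      filter_upwards [this] with r hr
      refine hball3 x r (3 * ε / 4) hr.1 (by linarith [hr.2]) ?_
      exact (closedBall_subset_ball (by linarith)).trans hεs
    exact (Besicovitch.tendsto_filterAt ν x).frequently h1.frequently
  have h3 : Ω' ∩ g ⁻¹' Ω = Ω' := inter_eq_self_of_subset_left fun y hy => hgm hy
  have h2 : ν Ω = 2 * volume Ω' := by
    rw [hνA _ hΩ.measurableSet, h3]
  rw [← h2, ← hμuniv]
  exact key.trans (measure_mono (subset_univ _))

end Pool.Agent.W787
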