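import Mathlib
import Pool.Agent.W787.AreaEnergy
import Pool.Agent.H366R3.ED.Weyl
import Pool.Agent.H366R3.ED.Outer
import Pool.Agent.Helper202.Univ

set_option autoImplicit false

open Set Filter Topology MeasureTheory Metric
open scoped ContDiff ENNReal NNReal

namespace Pool.Agent.W787

open Pool.Agent.H366R3 Pool.Agent.H366R3.ED

lemma det_smul_one (a : ℂ) : (a • (1 : ℂ →L[ℝ] ℂ)).det = ‖a‖ ^ 2 := by
  rw [det_formula, ← Complex.normSq_eq_norm_sq, Complex.normSq_apply]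
  simp

variable {f : ℂ → ℂ} {Ω : Set ℂ}

lemma hasFDerivAt_holo (hΩ : IsOpen Ω) (hf : DifferentiableOn ℂ f Ω) {z : ℂ} (hz : z ∈ Ω) :
    HasFDerivAt f (deriv f z • (1 : ℂ →L[ℝ] ℂ)) z :=
  (hf.differentiableAt (hΩ.mem_nhds hz)).hasDerivAt.complexToReal_fderiv

/-- change of variables for univalent functions -/
lemma lintegral_image_holo (hΩ : IsOpen Ω) (hf : DifferentiableOn ℂ f Ω) (hi : InjOn f Ω)
    {s : Set ℂ} (hs : MeasurableSet s) (hsΩ : s ⊆ Ω) (g : ℂ → ℝ≥0∞) :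
    ∫⁻ w in f '' s, g w = ∫⁻ z in s, ‖deriv f z‖ₑ ^ 2 * g (f z) := by
  rw [lintegral_image_eq_lintegral_abs_det_fderiv_mul volume hs
    (fun z hz => (hasFDerivAt_holo hΩ hf (hsΩ hz)).hasFDerivWithinAt) (hi.mono hsΩ)]
  apply setLIntegral_congr_fun hs
  intro z _
  simp only
  rw [det_smul_one, abs_of_nonneg (by positivity), ENNReal.ofReal_pow (norm_nonneg _), ofReal_norm]

lemma volume_image_holo (hΩ : IsOpen Ω) (hf : DifferentiableOn ℂ f Ω) (hi : InjOn f Ω)
    {s : Set ℂ} (hs : MeasurableSet s) (hsΩ : s ⊆ Ω) :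
    volume (f '' s) = ∫⁻ z in s, ‖deriv f z‖ₑ ^ 2 := by
  have := lintegral_image_holo hΩ hf hi hs hsΩ (fun _ => 1)
  simpa using this

lemma conf_energy (hΩ : IsOpen Ω) (hf : DifferentiableOn ℂ f Ω) (hi : InjOn f Ω) :
    energy Ω (fderiv ℝ f) = 2 * volume (f '' Ω) := by
  rw [volume_image_holo hΩ hf hi hΩ.measurableSet subset_rfl, energy,
    ← lintegral_const_mul' _ _ (by norm_num)]
  apply setLIntegral_congr_fun hΩ.measurableSet
  intro z hz
  simp only
  rw [(hasFDerivAt_holo hΩ hf hz).fderiv]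
  have hI : ‖Complex.I‖ₑ = 1 := by rw [← ofReal_norm, Complex.norm_I, ENNReal.ofReal_one]
  simp [two_mul, hI]

/-- a conformal map onto a bounded domain is energy minimal among Sobolev homeomorphisms -/
theorem conf_minimal (hΩ : IsOpen Ω) (hΩb : Bornology.IsBounded Ω) (hf : DifferentiableOn ℂ f Ω)
    (hi : InjOn f Ω) (hb : Bornology.IsBounded (f '' Ω)) :
    IsSobolevHomeo Ω (f '' Ω) f (fderiv ℝ f) ∧
      energy Ω (fderiv ℝ f) = energyInf Ω (f '' Ω) ∧ energy Ω (fderiv ℝ f) < ⊤ := by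
  have ho : IsOpen (f '' Ω) := Pool.Agent.Helper202.Univ.isOpen_image hΩ hf hi hΩ subset_rfl
  have hC1 : ContDiffOn ℝ 1 f Ω := by
    have h1 : ContDiffOn ℂ 1 f Ω := (hf.contDiffOn hΩ).of_le le_top
    exact h1.restrict_scalars ℝ
  have hfin : volume Ω ≠ ⊤ := hΩb.measure_lt_top.ne
  have hE := conf_energy hΩ hf hi
  have hE' : energy Ω (fderiv ℝ f) < ⊤ := by
    rw [hE]; exact ENNReal.mul_lt_top (by norm_num) hb.measure_lt_top
  have hS : IsSobolevHomeo Ω (f '' Ω) f (fderiv ℝ f) := by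
    refine ⟨hi.bijOn_image, hf.continuousOn, ⟨Function.invFunOn f Ω, ?_, ?_⟩,
      weakDeriv_C1 hΩ hC1, ?_, memLp_of_energy hΩ hC1 hE'⟩
    · intro w hw
      exact (Pool.Agent.Helper202.Univ.continuousAt_inv hΩ hf hi hw).continuousWithinAt
    · intro z hz
      exact Pool.Agent.Helper202.Univ.invFunOn_left hi hz
    · obtain ⟨C, hC⟩ := hb.subset_closedBall 0
      refine memLp_of_bdd hΩ hfin hf.continuousOn (C := C) ?_
      intro z hz
      have := hC (mem_image_of_mem f hz)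
      rwa [mem_closedBall_zero_iff] at this
  refine ⟨hS, ?_, hE'⟩
  apply le_antisymm
  · rw [energyInf, hE]
    refine le_iInf fun h => le_iInf fun Dh => le_iInf fun H => ?_
    exact two_area_le_energy hΩ ho H
  · exact iInf_le_of_le f (iInf_le_of_le (fderiv ℝ f) (iInf_le_of_le hS le_rfl))

end Pool.Agent.W787
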