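import Mathlib
import Pool.Agent.W787.Ends
import Pool.Agent.W787.Conf

set_option autoImplicit false

open Set Filter Topology Metric MeasureTheory
open scoped Real ENNReal NNReal

namespace Pool.Agent.W787

open Complex (I)
open Pool.Agent.H366R3.ED Pool.Agent.Helper202

/-- Cauchy-Schwarz in squared form -/
lemma cs_sq {α : Type*} [MeasurableSpace α] {μ : Measure α} {f g : α → ℝ≥0∞}
    (hf : AEMeasurable f μ) (hg : AEMeasurable g μ) :
    (∫⁻ a, f a * g a ∂μ) ^ 2 ≤ (∫⁻ a, f a ^ 2 ∂μ) * ∫⁻ a, g a ^ 2 ∂μ := by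
  have h := ENNReal.lintegral_mul_le_Lp_mul_Lq μ Real.HolderConjugate.two_two hf hg
  have h2 : (∫⁻ a, f a * g a ∂μ) ≤
      (∫⁻ a, f a ^ (2 : ℝ) ∂μ) ^ (1 / (2 : ℝ)) * (∫⁻ a, g a ^ (2 : ℝ) ∂μ) ^ (1 / (2 : ℝ)) := h
  have h3 : ∀ x : ℝ≥0∞, (x ^ (1 / (2 : ℝ))) ^ 2 = x := by
    intro x
    rw [← ENNReal.rpow_natCast, ← ENNReal.rpow_mul]
    norm_num
  calc (∫⁻ a, f a * g a ∂μ) ^ 2 ≤ _ := pow_le_pow_left' h2 2
    _ = _ := by
      rw [mul_pow, h3, h3]
      simp only [ENNReal.rpow_two]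

lemma lint_inv {a b : ℝ} (ha : 0 < a) (hab : a ≤ b) :
    ∫⁻ s in Ioo a b, ENNReal.ofReal s⁻¹ = ENNReal.ofReal (Real.log (b / a)) := by
  have hi : IntervalIntegrable (fun s : ℝ => s⁻¹) volume a b := by
    apply intervalIntegral.intervalIntegrable_inv
    · intro x hx
      rw [uIcc_of_le hab] at hx
      exact (ha.trans_le hx.1).ne'
    · exact continuousOn_id
  rw [← integral_inv_of_pos ha (ha.trans_le hab), intervalIntegral.integral_of_le hab,
    integral_Ioc_eq_integral_Ioo, ofReal_integral_eq_lintegral_ofReal]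
  · have := (intervalIntegrable_iff_integrableOn_Ioo_of_le hab).1 hi
    exact this
  · rw [EventuallyLE, ae_restrict_iff' measurableSet_Ioo]
    exact Eventually.of_forall fun s hs => by
      have : 0 < s := ha.trans hs.1
      show 0 ≤ s⁻¹
      positivity

/-- radial length-area inequality in an annulus -/
lemma LA0 {r : ℝ} (hr0 : 0 < r) (hr1 : r < 1) {σ : ℂ → ℝ≥0∞} (hσ : Measurable σ) {c : ℝ≥0∞}
    (hc : ∀ θ, c ≤ ∫⁻ ρ in Ioo r 1, σ (circleMap 0 ρ θ)) :
    (ENNReal.ofReal (2 * π) * c) ^ 2 ≤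
      ENNReal.ofReal (2 * π * (-Real.log r)) * ∫⁻ z in ann r 1, σ z ^ 2 := by
  have hπ := Real.pi_pos
  have hcm : Measurable fun p : ℝ × ℝ => circleMap 0 p.1 p.2 := circleMap_cont.measurable
  have hσc : Measurable fun p : ℝ × ℝ => σ (circleMap 0 p.1 p.2) := hσ.comp hcm
  set f : ℝ × ℝ → ℝ≥0∞ := fun p => σ (circleMap 0 p.1 p.2) * ENNReal.ofReal (√p.1) with hf
  set k : ℝ × ℝ → ℝ≥0∞ := fun p => ENNReal.ofReal (√p.1)⁻¹ with hk
  have hfm : Measurable f := hσc.mul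
    (Measurable.ennreal_ofReal (Real.continuous_sqrt.measurable.comp measurable_fst))
  have hkm : Measurable k :=
    Measurable.ennreal_ofReal (Real.continuous_sqrt.measurable.comp measurable_fst).inv
  have h1 : ENNReal.ofReal (2 * π) * c ≤
      ∫⁻ p in Ioo r 1 ×ˢ Ioo (-π) π, σ (circleMap 0 p.1 p.2) ∂(volume.prod volume) := by
    rw [← Measure.prod_restrict, lintegral_prod_symm _ hσc.aemeasurable]
    calc ENNReal.ofReal (2 * π) * c = ∫⁻ θ in Ioo (-π) π, c := by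
          rw [lintegral_const, Measure.restrict_apply_univ, Real.volume_Ioo, mul_comm]
          congr 2; ring
      _ ≤ _ := lintegral_mono fun θ => hc θ
  have h2 : ∫⁻ p in Ioo r 1 ×ˢ Ioo (-π) π, σ (circleMap 0 p.1 p.2) ∂(volume.prod volume) =
      ∫⁻ p in Ioo r 1 ×ˢ Ioo (-π) π, f p * k p ∂(volume.prod volume) := by
    apply setLIntegral_congr_fun (measurableSet_Ioo.prod measurableSet_Ioo)
    rintro p ⟨hp, -⟩
    have hp0 : 0 < √p.1 := Real.sqrt_pos.2 (hr0.trans hp.1)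
    simp only [f, k]
    rw [mul_assoc, ← ENNReal.ofReal_mul hp0.le, mul_inv_cancel₀ hp0.ne', ENNReal.ofReal_one,
      mul_one]
  have h3 : ∫⁻ p in Ioo r 1 ×ˢ Ioo (-π) π, f p ^ 2 ∂(volume.prod volume) =
      ∫⁻ z in ann r 1, σ z ^ 2 := by
    rw [polar_lint hr0.le]
    apply setLIntegral_congr_fun (measurableSet_Ioo.prod measurableSet_Ioo)
    rintro p ⟨hp, -⟩
    have hp0 : 0 < p.1 := hr0.trans hp.1
    simp only [f]
    rw [mul_pow, ← ENNReal.ofReal_pow (Real.sqrt_nonneg _), Real.sq_sqrt hp0.le, mul_comm]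
  have h4 : ∫⁻ p in Ioo r 1 ×ˢ Ioo (-π) π, k p ^ 2 ∂(volume.prod volume) =
      ENNReal.ofReal (2 * π * (-Real.log r)) := by
    have e1 : ∫⁻ p in Ioo r 1 ×ˢ Ioo (-π) π, k p ^ 2 ∂(volume.prod volume) =
        ∫⁻ p in Ioo r 1 ×ˢ Ioo (-π) π, ENNReal.ofReal (p.1)⁻¹ * 1 ∂(volume.prod volume) := by
      apply setLIntegral_congr_fun (measurableSet_Ioo.prod measurableSet_Ioo)
      rintro p ⟨hp, -⟩
      have hp0 : 0 < p.1 := hr0.trans hp.1
      simp only [k]
      rw [← ENNReal.ofReal_pow (by positivity), inv_pow, Real.sq_sqrt hp0.le, mul_one]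
    rw [e1, ← Measure.prod_restrict,
      lintegral_prod_mul (f := fun x : ℝ => ENNReal.ofReal x⁻¹) (g := fun _ : ℝ => (1 : ℝ≥0∞))
        (by fun_prop) aemeasurable_const, lint_inv hr0 hr1.le, lintegral_one,
      Measure.restrict_apply_univ, Real.volume_Ioo, ← ENNReal.ofReal_mul
        (Real.log_nonneg (by rw [le_div_iff₀ hr0]; linarith)), one_div, Real.log_inv]
    congr 1; ring
  calc (ENNReal.ofReal (2 * π) * c) ^ 2
      ≤ (∫⁻ p in Ioo r 1 ×ˢ Ioo (-π) π, f p * k p ∂(volume.prod volume)) ^ 2 :=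
        pow_le_pow_left' (h1.trans h2.le) 2
    _ ≤ _ := cs_sq hfm.aemeasurable hkm.aemeasurable
    _ = _ := by rw [h3, h4, mul_comm]

/-- circular length-area inequality -/
lemma LA1 {s0 s1 : ℝ} (h0 : 0 < s0) (h01 : s0 ≤ s1) {b : ℂ} {σ : ℂ → ℝ≥0∞} (hσ : Measurable σ)
    {c : ℝ≥0∞} {Q : Set ℝ} (hQ : MeasurableSet Q) (hQs : Q ⊆ Ioo (-π) π)
    (hc : ∀ s ∈ Ioo s0 s1, c ≤ ∫⁻ α in Q, σ (b + circleMap 0 s α) * ENNReal.ofReal s) :
    c ^ 2 * ENNReal.ofReal (Real.log (s1 / s0)) ≤ volume Q * ∫⁻ z, σ z ^ 2 := by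
  have hσc : Measurable fun p : ℝ × ℝ => σ (b + circleMap 0 p.1 p.2) :=
    hσ.comp (measurable_const.add circleMap_cont.measurable)
  have h1 : ∀ s ∈ Ioo s0 s1, c ^ 2 * ENNReal.ofReal s⁻¹ ≤
      volume Q * ∫⁻ α in Q, ENNReal.ofReal s * σ (b + circleMap 0 s α) ^ 2 := by
    intro s hs
    have hs0 : 0 < s := h0.trans hs.1
    have hm : Measurable fun α : ℝ => σ (b + circleMap 0 s α) :=
      hσc.comp (measurable_const.prodMk measurable_id)
    have h2 := cs_sq (μ := volume.restrict Q) (f := fun _ : ℝ => (1 : ℝ≥0∞))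
      (g := fun α => σ (b + circleMap 0 s α) * ENNReal.ofReal s) aemeasurable_const
      (hm.mul_const _).aemeasurable
    simp only [one_mul, one_pow, lintegral_one, Measure.restrict_apply_univ] at h2
    have h3 : c ^ 2 ≤ volume Q * ∫⁻ α in Q, (σ (b + circleMap 0 s α) * ENNReal.ofReal s) ^ 2 :=
      (pow_le_pow_left' (hc s hs) 2).trans h2
    calc c ^ 2 * ENNReal.ofReal s⁻¹
        ≤ (volume Q * ∫⁻ α in Q, (σ (b + circleMap 0 s α) * ENNReal.ofReal s) ^ 2) *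
          ENNReal.ofReal s⁻¹ := by gcongr
      _ = volume Q * ∫⁻ α in Q, (σ (b + circleMap 0 s α) * ENNReal.ofReal s) ^ 2 *
          ENNReal.ofReal s⁻¹ := by
          rw [mul_assoc, lintegral_mul_const']
          exact ENNReal.ofReal_ne_top
      _ = _ := by
          congr 1
          apply lintegral_congr
          intro α
          rw [mul_pow, mul_assoc, mul_comm (ENNReal.ofReal s), ← ENNReal.ofReal_pow hs0.le,
            ← ENNReal.ofReal_mul (by positivity)]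
          congr 2
          field_simp
  have h5 : ∫⁻ s in Ioo s0 s1, ∫⁻ α in Q, ENNReal.ofReal s * σ (b + circleMap 0 s α) ^ 2 ≤
      ∫⁻ z, σ z ^ 2 := by
    have hm2 : Measurable fun p : ℝ × ℝ => ENNReal.ofReal p.1 * σ (b + circleMap 0 p.1 p.2) ^ 2 :=
      (Measurable.ennreal_ofReal measurable_fst).mul (hσc.pow_const 2)
    calc ∫⁻ s in Ioo s0 s1, ∫⁻ α in Q, ENNReal.ofReal s * σ (b + circleMap 0 s α) ^ 2
        ≤ ∫⁻ s in Ioo s0 s1, ∫⁻ α in Ioo (-π) π,
            ENNReal.ofReal s * σ (b + circleMap 0 s α) ^ 2 := by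
          apply lintegral_mono
          intro s
          exact lintegral_mono_set hQs
      _ = ∫⁻ p in Ioo s0 s1 ×ˢ Ioo (-π) π, ENNReal.ofReal p.1 *
            (fun z => σ (b + z) ^ 2) (circleMap 0 p.1 p.2) ∂(volume.prod volume) := by
          rw [← Measure.prod_restrict, lintegral_prod _ hm2.aemeasurable]
      _ = ∫⁻ z in ann s0 s1, σ (b + z) ^ 2 := (polar_lint h0.le (fun z => σ (b + z) ^ 2)).symm
      _ ≤ ∫⁻ z, σ (b + z) ^ 2 := setLIntegral_le_lintegral _ _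
      _ = ∫⁻ z, σ z ^ 2 := lintegral_add_left_eq_self (fun z => σ z ^ 2) b
  calc c ^ 2 * ENNReal.ofReal (Real.log (s1 / s0))
      = ∫⁻ s in Ioo s0 s1, c ^ 2 * ENNReal.ofReal s⁻¹ := by
        rw [lintegral_const_mul _ (by fun_prop), lint_inv h0 h01]
    _ ≤ ∫⁻ s in Ioo s0 s1, volume Q *
          ∫⁻ α in Q, ENNReal.ofReal s * σ (b + circleMap 0 s α) ^ 2 :=
        setLIntegral_mono' measurableSet_Ioo h1
    _ = volume Q * ∫⁻ s in Ioo s0 s1,
          ∫⁻ α in Q, ENNReal.ofReal s * σ (b + circleMap 0 s α) ^ 2 := by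
        rw [lintegral_const_mul]
        exact Measurable.lintegral_prod_right'
          (f := fun p : ℝ × ℝ => ENNReal.ofReal p.1 * σ (b + circleMap 0 p.1 p.2) ^ 2)
          ((Measurable.ennreal_ofReal measurable_fst).mul (hσc.pow_const 2))
    _ ≤ _ := by gcongr

section

variable {E : Set ℂ} {r : ℝ} {ψ : ℂ → ℂ}

/-- the extremal metric pulled back by the conformal map -/
noncomputable def sig (E : Set ℂ) (ψ : ℂ → ℂ) : ℂ → ℝ≥0∞ :=
  (E \ Slit).indicator fun z => ‖deriv ψ z * (ψ z)⁻¹‖ₑ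

lemma sig_meas (hE : IsOpen E) (R : RC E r ψ) : Measurable (sig E ψ) := by
  have hD : IsOpen (E \ Slit) := hE.sdiff Slit_compact.isClosed
  have hc : ContinuousOn (fun z => ‖deriv ψ z * (ψ z)⁻¹‖ₑ) (E \ Slit) := by
    apply ContinuousOn.enorm
    apply ContinuousOn.mul
    · exact (R.d.deriv hD).continuousOn
    · exact R.d.continuousOn.inv₀ fun z hz => R.ne hz
  classical
  unfold sig
  rw [← piecewise_eq_indicator]
  exact hc.measurable_piecewise continuousOn_const hD.measurableSet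

lemma sig_sq (hE : IsOpen E) (R : RC E r ψ) :
    ∫⁻ z, sig E ψ z ^ 2 = ENNReal.ofReal (2 * π * (-Real.log r)) := by
  have hπ := Real.pi_pos
  have hD : IsOpen (E \ Slit) := hE.sdiff Slit_compact.isClosed
  have e1 : ∀ z, sig E ψ z ^ 2 = (E \ Slit).indicator
      (fun z => ‖deriv ψ z‖ₑ ^ 2 * ‖(ψ z)⁻¹‖ₑ ^ 2) z := by
    intro z
    unfold sig
    by_cases hz : z ∈ E \ Slit
    · rw [indicator_of_mem hz, indicator_of_mem hz, enorm_mul, mul_pow]
    · rw [indicator_of_notMem hz, indicator_of_notMem hz]; norm_num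
  simp only [e1]
  rw [lintegral_indicator hD.measurableSet,
    ← lintegral_image_holo hD R.d R.inj hD.measurableSet subset_rfl (fun w => ‖w⁻¹‖ₑ ^ 2),
    R.img, polar_lint R.r0.le]
  have e2 : ∫⁻ p in Ioo r 1 ×ˢ Ioo (-π) π, ENNReal.ofReal p.1 * ‖(circleMap 0 p.1 p.2)⁻¹‖ₑ ^ 2
      ∂(volume.prod volume) =
      ∫⁻ p in Ioo r 1 ×ˢ Ioo (-π) π, ENNReal.ofReal (p.1)⁻¹ * 1 ∂(volume.prod volume) := by
    apply setLIntegral_congr_fun (measurableSet_Ioo.prod measurableSet_Ioo)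
    rintro p ⟨hp, -⟩
    have hp0 : 0 < p.1 := R.r0.trans hp.1
    simp only
    rw [← ofReal_norm, norm_inv, norm_circleMap_zero, abs_of_pos hp0,
      ← ENNReal.ofReal_pow (by positivity), ← ENNReal.ofReal_mul hp0.le, mul_one]
    congr 1
    field_simp
  rw [e2, ← Measure.prod_restrict,
    lintegral_prod_mul (f := fun x : ℝ => ENNReal.ofReal x⁻¹) (g := fun _ : ℝ => (1 : ℝ≥0∞))
      (by fun_prop) aemeasurable_const, lint_inv R.r0 R.r1.le, lintegral_one,
    Measure.restrict_apply_univ, Real.volume_Ioo, ← ENNReal.ofReal_mul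
      (Real.log_nonneg (by rw [le_div_iff₀ R.r0]; linarith [R.r1])), one_div, Real.log_inv]
  congr 1; ring

/-- change of `log |ψ|` along a curve -/
lemma curve_le (hE : IsOpen E) (R : RC E r ψ) {γ γ' : ℝ → ℂ} {a b : ℝ} (hab : a ≤ b)
    (hγ : ∀ t ∈ Icc a b, HasDerivAt γ (γ' t) t) (hc : ContinuousOn γ' (Icc a b))
    (hD : ∀ t ∈ Icc a b, γ t ∈ E \ Slit) :
    ENNReal.ofReal |Real.log ‖ψ (γ b)‖ - Real.log ‖ψ (γ a)‖| ≤
      ∫⁻ t in Ioo a b, sig E ψ (γ t) * ‖γ' t‖ₑ := by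
  have hDo : IsOpen (E \ Slit) := hE.sdiff Slit_compact.isClosed
  have hγc : ContinuousOn γ (Icc a b) := fun t ht => (hγ t ht).continuousAt.continuousWithinAt
  have hψ : ∀ t ∈ Icc a b, HasDerivAt (fun t => ψ (γ t)) (deriv ψ (γ t) * γ' t) t := by
    intro t ht
    have h1 := (R.d.differentiableAt (hDo.mem_nhds (hD t ht))).hasDerivAt
    have h2 := h1.scomp t (hγ t ht)
    rw [smul_eq_mul, mul_comm] at h2
    exact h2
  -- derivative of the logarithm of the norm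
  set q : ℝ → ℂ := fun t => deriv ψ (γ t) * γ' t * (ψ (γ t))⁻¹ with hq
  have hlog : ∀ t ∈ Icc a b, HasDerivAt (fun t => Real.log ‖ψ (γ t)‖) (q t).re t := by
    intro t ht
    have hne := R.ne (hD t ht)
    have hn : 0 < ‖ψ (γ t)‖ := norm_pos_iff.2 hne
    have h1 := (hψ t ht).norm_sq
    have h2 := h1.log (by positivity)
    have h3 := h2.const_mul (1 / 2)
    have e : (fun t => 1 / 2 * Real.log (‖ψ (γ t)‖ ^ 2)) = fun t => Real.log ‖ψ (γ t)‖ := by
      ext s; rw [Real.log_pow]; push_cast; ring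
    rw [e] at h3
    have h4 : inner ℝ (ψ (γ t)) (deriv ψ (γ t) * γ' t) =
        (deriv ψ (γ t) * γ' t * (starRingEnd ℂ) (ψ (γ t))).re := by
      rw [Complex.inner]
    have h5 : (deriv ψ (γ t) * γ' t * ((starRingEnd ℂ) (ψ (γ t)) * (((‖ψ (γ t)‖ ^ 2)⁻¹ : ℝ) : ℂ))).re
        = (deriv ψ (γ t) * γ' t * (starRingEnd ℂ) (ψ (γ t))).re * (‖ψ (γ t)‖ ^ 2)⁻¹ := by
      rw [← mul_assoc, Complex.re_mul_ofReal]
    have h6 : (q t).re = 1 / 2 * (2 * inner ℝ (ψ (γ t)) (deriv ψ (γ t) * γ' t) /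
        ‖ψ (γ t)‖ ^ 2) := by
      show (deriv ψ (γ t) * γ' t * (ψ (γ t))⁻¹).re = _
      rw [Complex.inv_def, Complex.normSq_eq_norm_sq, h5, h4]
      ring
    rw [h6]
    exact h3
  have hqc : ContinuousOn q (Icc a b) := by
    apply ContinuousOn.mul
    · apply ContinuousOn.mul _ hc
      exact (R.d.deriv hDo).continuousOn.comp hγc hD
    · apply ContinuousOn.inv₀
      · exact R.d.continuousOn.comp hγc hD
      · intro t ht; exact R.ne (hD t ht)
  have hqrc : ContinuousOn (fun t => (q t).re) (Icc a b) :=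
    Complex.continuous_re.comp_continuousOn hqc
  have hftc : ∫ t in a..b, (q t).re = Real.log ‖ψ (γ b)‖ - Real.log ‖ψ (γ a)‖ := by
    apply intervalIntegral.integral_eq_sub_of_hasDerivAt
    · intro t ht
      rw [uIcc_of_le hab] at ht
      exact hlog t ht
    · apply ContinuousOn.intervalIntegrable
      rw [uIcc_of_le hab]; exact hqrc
  rw [← hftc, intervalIntegral.integral_of_le hab, integral_Ioc_eq_integral_Ioo,
    ← Real.norm_eq_abs, ofReal_norm]
  refine (enorm_integral_le_lintegral_enorm _).trans ?_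
  apply setLIntegral_mono' measurableSet_Ioo
  intro t ht
  have ht' : t ∈ Icc a b := Ioo_subset_Icc_self ht
  have e3 : sig E ψ (γ t) * ‖γ' t‖ₑ = ‖q t‖ₑ := by
    unfold sig
    rw [indicator_of_mem (hD t ht'), ← enorm_mul]
    simp only [q]
    congr 1; ring
  rw [e3, ← ofReal_norm, ← ofReal_norm]
  exact ENNReal.ofReal_le_ofReal (Complex.abs_re_le_norm _)

/-- a curve joining the two boundary components has length at least the modulus -/
lemma curve_mod (hE : IsOpen E) (R : RC E r ψ) {γ γ' : ℝ → ℂ} {a b : ℝ}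
    (hγ : ∀ t ∈ Ioo a b, HasDerivAt γ (γ' t) t) (hc : ContinuousOn γ' (Ioo a b))
    (hD : ∀ t ∈ Ioo a b, γ t ∈ E \ Slit) (hA : ∀ A > r, ∃ t ∈ Ioo a b, ‖ψ (γ t)‖ < A)
    (hB : ∀ B < 1, ∃ t ∈ Ioo a b, B < ‖ψ (γ t)‖) :
    ENNReal.ofReal (-Real.log r) ≤ ∫⁻ t in Ioo a b, sig E ψ (γ t) * ‖γ' t‖ₑ := by
  have h1 : ∀ A B, r < A → A < B → B < 1 → ENNReal.ofReal (Real.log (B / A)) ≤
      ∫⁻ t in Ioo a b, sig E ψ (γ t) * ‖γ' t‖ₑ := by
    intro A B hrA hAB hB1
    have hA0 : 0 < A := R.r0.trans hrA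
    have hB0 : 0 < B := hA0.trans hAB
    obtain ⟨t1, ht1, h1⟩ := hA A hrA
    obtain ⟨t2, ht2, h2⟩ := hB B hB1
    have hn1 : 0 < ‖ψ (γ t1)‖ := norm_pos_iff.2 (R.ne (hD t1 ht1))
    have key : Real.log (B / A) ≤ |Real.log ‖ψ (γ t2)‖ - Real.log ‖ψ (γ t1)‖| := by
      rw [Real.log_div hB0.ne' hA0.ne']
      have h3 := Real.log_lt_log hB0 h2
      have h4 := Real.log_lt_log hn1 h1
      exact (by linarith : _ ≤ Real.log ‖ψ (γ t2)‖ - Real.log ‖ψ (γ t1)‖).trans (le_abs_self _)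
    rcases le_total t1 t2 with h | h
    · have hs : Icc t1 t2 ⊆ Ioo a b := fun t ht => ⟨ht1.1.trans_le ht.1, ht.2.trans_lt ht2.2⟩
      refine (ENNReal.ofReal_le_ofReal key).trans ((curve_le hE R h (fun t ht => hγ t (hs ht))
        (hc.mono hs) (fun t ht => hD t (hs ht))).trans ?_)
      exact lintegral_mono_set (Ioo_subset_Icc_self.trans hs)
    · have hs : Icc t2 t1 ⊆ Ioo a b := fun t ht => ⟨ht2.1.trans_le ht.1, ht.2.trans_lt ht1.2⟩
      rw [abs_sub_comm] at key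
      refine (ENNReal.ofReal_le_ofReal key).trans ((curve_le hE R h (fun t ht => hγ t (hs ht))
        (hc.mono hs) (fun t ht => hD t (hs ht))).trans ?_)
      exact lintegral_mono_set (Ioo_subset_Icc_self.trans hs)
  have hr0 := R.r0
  have hr1 := R.r1
  -- let A → r, B → 1
  have hlim : Tendsto (fun s : ℝ => ENNReal.ofReal (Real.log ((1 - s) / (r + s)))) (𝓝[>] 0)
      (𝓝 (ENNReal.ofReal (-Real.log r))) := by
    have h2 : ContinuousAt (fun s : ℝ => ENNReal.ofReal (Real.log ((1 - s) / (r + s)))) 0 := by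
      apply ENNReal.continuous_ofReal.continuousAt.comp
      apply ContinuousAt.log
      · apply ContinuousAt.div (by fun_prop) (by fun_prop)
        simp [hr0.ne']
      · simp [hr0.ne']
    have h3 := h2.tendsto.mono_left (nhdsWithin_le_nhds (s := Ioi 0))
    simp only [sub_zero, add_zero, one_div, Real.log_inv] at h3
    exact h3
  apply le_of_tendsto hlim
  have h4 : 0 < (1 - r) / 2 := by linarith
  filter_upwards [Ioo_mem_nhdsGT h4] with s hs
  exact h1 (r + s) (1 - s) (by linarith [hs.1]) (by linarith [hs.2]) (by linarith [hs.1])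

end

end Pool.Agent.W787
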