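import Mathlib
import Pool.Agent.W787.Dom2
import Pool.Agent.W787.LA

set_option autoImplicit false

open Set Filter Topology Metric MeasureTheory
open scoped Real ENNReal NNReal

namespace Pool.Agent.W787

open Complex (I)
open Pool.Agent.H366R3 Pool.Agent.H366R3.ED Pool.Agent.Helper202

noncomputable section

section

variable {E : Set ℂ} {r : ℝ} {ψ : ℂ → ℂ}

/-- images of the radii under the inverse map -/
def ray (E : Set ℂ) (ψ : ℂ → ℂ) (θ t : ℝ) : ℂ := Function.invFunOn ψ (E \ Slit) (circleMap 0 t θ)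

def ray' (E : Set ℂ) (ψ : ℂ → ℂ) (θ t : ℝ) : ℂ :=
  deriv (Function.invFunOn ψ (E \ Slit)) (circleMap 0 t θ) * Complex.exp (θ * I)

lemma circle_mem (R : RC E r ψ) {t : ℝ} (ht : t ∈ Ioo r 1) (θ : ℝ) :
    circleMap 0 t θ ∈ ψ '' (E \ Slit) := by
  rw [R.img]; exact circleMap_mem_ann R.r0.le ht

lemma ray_mem (R : RC E r ψ) {t : ℝ} (ht : t ∈ Ioo r 1) (θ : ℝ) : ray E ψ θ t ∈ E \ Slit :=
  Univ.invFunOn_mem (circle_mem R ht θ)

lemma ray_norm (R : RC E r ψ) {t : ℝ} (ht : t ∈ Ioo r 1) (θ : ℝ) : ‖ψ (ray E ψ θ t)‖ = t := by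
  unfold ray
  rw [Univ.invFunOn_right (circle_mem R ht θ), norm_circleMap_zero, abs_of_pos (R.r0.trans ht.1)]

lemma inv_diff (hE : IsOpen E) (R : RC E r ψ) :
    DifferentiableOn ℂ (Function.invFunOn ψ (E \ Slit)) (ann r 1) := by
  have hD : IsOpen (E \ Slit) := hE.sdiff Slit_compact.isClosed
  intro w hw
  rw [← R.img] at hw
  exact (Univ.differentiableAt_inv hD R.d R.inj hw).differentiableWithinAt

lemma circle_hasDeriv (θ t : ℝ) :
    HasDerivAt (fun t : ℝ => circleMap 0 t θ) (Complex.exp (θ * I)) t := by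
  have h : (fun t : ℝ => circleMap 0 t θ) = fun t : ℝ => (t : ℂ) * Complex.exp (θ * I) := by
    ext t; simp [circleMap]
  rw [h]
  have := (Complex.ofRealCLM.hasDerivAt (x := t)).mul_const (Complex.exp (θ * I))
  simpa using this

lemma ray_hasDeriv (hE : IsOpen E) (R : RC E r ψ) {t : ℝ} (ht : t ∈ Ioo r 1) (θ : ℝ) :
    HasDerivAt (ray E ψ θ) (ray' E ψ θ t) t := by
  have h1 := ((inv_diff hE R).differentiableAt ((ann_open r 1).mem_nhds
    (circleMap_mem_ann R.r0.le ht (θ := θ)))).hasDerivAt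
  have h2 := h1.scomp t (circle_hasDeriv θ t)
  rw [smul_eq_mul, mul_comm] at h2
  exact h2

lemma ray'_cont (hE : IsOpen E) (R : RC E r ψ) (θ : ℝ) : ContinuousOn (ray' E ψ θ) (Ioo r 1) := by
  apply ContinuousOn.mul _ continuousOn_const
  apply ((inv_diff hE R).deriv (ann_open r 1)).continuousOn.comp
  · exact (circleMap_cont.comp (continuous_id.prodMk continuous_const)).continuousOn
  · intro t ht; exact circleMap_mem_ann R.r0.le ht

/-- length-area inequality for the images of the radii -/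
lemma M0 (hE : IsOpen E) (R : RC E r ψ) {ρ : ℂ → ℝ≥0∞} (hρ : Measurable ρ) {c : ℝ≥0∞}
    (hc : ∀ θ, c ≤ ∫⁻ t in Ioo r 1, ρ (ray E ψ θ t) * ‖ray' E ψ θ t‖ₑ) :
    (ENNReal.ofReal (2 * π) * c) ^ 2 ≤
      ENNReal.ofReal (2 * π * (-Real.log r)) * ∫⁻ z in E \ Slit, ρ z ^ 2 := by
  classical
  have hD : IsOpen (E \ Slit) := hE.sdiff Slit_compact.isClosed
  set p := Function.invFunOn ψ (E \ Slit) with hp
  have hpd := inv_diff hE R
  have hao := ann_open r 1
  set pt : ℂ → ℂ := (ann r 1).piecewise p 0 with hpt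
  have hptm : Measurable pt :=
    hpd.continuousOn.measurable_piecewise continuousOn_const hao.measurableSet
  set dt : ℂ → ℝ≥0∞ := (ann r 1).indicator fun w => ‖deriv p w‖ₑ with hdt
  have hdtm : Measurable dt := by
    rw [hdt, ← piecewise_eq_indicator]
    exact ((hpd.deriv hao).continuousOn.enorm).measurable_piecewise continuousOn_const
      hao.measurableSet
  set σ : ℂ → ℝ≥0∞ := fun w => ρ (pt w) * dt w with hσ
  have hσm : Measurable σ := (hρ.comp hptm).mul hdtm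
  have hσe : ∀ w ∈ ann r 1, σ w = ρ (p w) * ‖deriv p w‖ₑ := by
    intro w hw
    simp only [σ, pt, dt]
    rw [piecewise_eq_of_mem _ _ _ hw, indicator_of_mem hw]
  have h1 : ∀ θ, c ≤ ∫⁻ t in Ioo r 1, σ (circleMap 0 t θ) := by
    intro θ
    refine (hc θ).trans (le_of_eq ?_)
    apply setLIntegral_congr_fun measurableSet_Ioo
    intro t ht
    simp only
    rw [hσe _ (circleMap_mem_ann R.r0.le ht)]
    unfold ray ray'
    rw [enorm_mul]
    have : ‖Complex.exp (θ * I)‖ₑ = 1 := by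
      rw [← ofReal_norm, Complex.norm_exp_ofReal_mul_I, ENNReal.ofReal_one]
    rw [this, mul_one]
  have h2 := LA0 R.r0 R.r1 hσm h1
  have h3 : ∫⁻ w in ann r 1, σ w ^ 2 = ∫⁻ z in E \ Slit, ρ z ^ 2 := by
    have himg : p '' ann r 1 = E \ Slit := by
      rw [← R.img]
      ext z
      constructor
      · rintro ⟨w, hw, rfl⟩; exact Univ.invFunOn_mem hw
      · intro hz; exact ⟨ψ z, ⟨z, hz, rfl⟩, Univ.invFunOn_left R.inj hz⟩
    have hpi : InjOn p (ann r 1) := by
      rw [← R.img]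
      intro w hw w' hw' h
      rw [← Univ.invFunOn_right hw, ← Univ.invFunOn_right hw']
      show ψ (p w) = ψ (p w')
      rw [h]
    rw [← himg, lintegral_image_holo hao hpd hpi hao.measurableSet subset_rfl]
    apply setLIntegral_congr_fun hao.measurableSet
    intro w hw
    simp only
    rw [hσe w hw, mul_pow, mul_comm]
  rw [h3] at h2
  exact h2

end

/-! ### comparison of moduli under the stretch -/

lemma mem_EE_T {l κ : ℝ} (hl : 0 < l) (hκ : 0 < κ) {z : ℂ} : T κ z ∈ EE (κ * l) ↔ z ∈ EE l := by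
  show T (κ * l)⁻¹ (T κ z) ∈ G ↔ T l⁻¹ z ∈ G
  rw [T_T]
  have : (κ * l)⁻¹ * κ = l⁻¹ := by field_simp
  rw [this]

lemma T_infDist {κ : ℝ} (hκ : 0 < κ) (z : ℂ) :
    infDist (T κ z) Slit ≤ max 1 κ * infDist z Slit := by
  obtain ⟨w, hw, hd⟩ := Slit_compact.exists_infDist_eq_dist Slit_nonempty z
  rw [hd, dist_eq_norm]
  refine (infDist_le_dist_of_mem hw).trans ?_
  rw [dist_eq_norm]
  have e : T κ z - w = T κ (z - w) := by
    apply Complex.ext
    · simp
    · simp [hw.1]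
  rw [e]
  exact T_norm_le hκ _

lemma lint_T {κ : ℝ} (hκ : 0 < κ) {f : ℂ → ℝ≥0∞} (hf : Measurable f) :
    ∫⁻ z, f (T κ z) = ENNReal.ofReal κ⁻¹ * ∫⁻ z, f z := by
  have hdet : LinearMap.det (TL κ : ℂ →ₗ[ℝ] ℂ) = κ := by
    have h := det_formula (TL κ)
    have h' : (TL κ).det = LinearMap.det (TL κ : ℂ →ₗ[ℝ] ℂ) := rfl
    rw [← h', h]
    simp [TL]
  have hm := Measure.map_linearMap_addHaar_eq_smul_addHaar (volume : Measure ℂ)
    (f := (TL κ : ℂ →ₗ[ℝ] ℂ)) (by rw [hdet]; exact hκ.ne')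
  rw [hdet, abs_of_pos (by positivity)] at hm
  have hT : ((TL κ : ℂ →ₗ[ℝ] ℂ) : ℂ → ℂ) = T κ := by
    ext z
    exact TL_apply κ z
  rw [hT] at hm
  rw [← lintegral_map hf (T_cont κ).measurable, hm, lintegral_smul_measure, smul_eq_mul]

lemma T_hasDeriv {κ : ℝ} {γ : ℝ → ℂ} {γ' : ℂ} {t : ℝ} (h : HasDerivAt γ γ' t) :
    HasDerivAt (fun t => T κ (γ t)) (T κ γ') t := by
  have := (TL κ).hasFDerivAt.comp_hasDerivAt t h
  simpa only [Function.comp_def, TL_apply] using this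

theorem mod_comp {l κ r r' : ℝ} {ψ ψ' : ℂ → ℂ} (hl : 0 < l) (hκ : 0 < κ) (R : RC (EE l) r ψ)
    (R' : RC (EE (κ * l)) r' ψ') :
    -Real.log r' ≤ (max 1 κ) ^ 2 * κ⁻¹ * (-Real.log r) := by
  have hπ := Real.pi_pos
  have hE := (EE_outer hl).op
  have hE' := (EE_outer (mul_pos hκ hl)).op
  set K := max 1 κ with hK
  have hK0 : 0 < K := lt_max_of_lt_left one_pos
  set ρ : ℂ → ℝ≥0∞ := fun z => sig (EE (κ * l)) ψ' (T κ z) * ENNReal.ofReal K with hρ
  have hsm := sig_meas hE' R'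
  have hρm : Measurable ρ := (hsm.comp (T_cont κ).measurable).mul_const _
  have hcurve : ∀ θ, ENNReal.ofReal (-Real.log r') ≤
      ∫⁻ t in Ioo r 1, ρ (ray (EE l) ψ θ t) * ‖ray' (EE l) ψ θ t‖ₑ := by
    intro θ
    have h1 := curve_mod hE' R' (γ := fun t => T κ (ray (EE l) ψ θ t))
      (γ' := fun t => T κ (ray' (EE l) ψ θ t)) (a := r) (b := 1)
      (fun t ht => T_hasDeriv (ray_hasDeriv hE R ht θ))
      ((T_cont κ).comp_continuousOn (ray'_cont hE R θ))
      (fun t ht => by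
        have := ray_mem R ht θ
        exact ⟨(mem_EE_T hl hκ).2 this.1, fun h => this.2 ((T_slit hκ.ne').1 h)⟩)
      (fun A hA => by
        obtain ⟨δ, hδ, hin⟩ := R'.inner A hA
        obtain ⟨A1, hA1, hin'⟩ := R.inner' (δ := δ / K) (by positivity)
        obtain ⟨t, ht1, ht2⟩ := exists_between (lt_min hA1 R.r1)
        have ht : t ∈ Ioo r 1 := ⟨ht1, ht2.trans_le (min_le_right _ _)⟩
        refine ⟨t, ht, ?_⟩
        have hm := ray_mem R ht θ
        apply hin _ ⟨(mem_EE_T hl hκ).2 hm.1, fun h => hm.2 ((T_slit hκ.ne').1 h)⟩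
        have h2 := hin' _ hm (by rw [ray_norm R ht θ]; exact ht2.trans_le (min_le_left _ _))
        refine (T_infDist hκ _).trans_lt ?_
        rw [lt_div_iff₀ hK0] at h2
        rw [mul_comm]; exact h2)
      (fun B hB => by
        obtain ⟨C, hC, hCE, hCo⟩ := R'.outer B hB
        obtain ⟨B1, hB1, ho⟩ := R.outer' (hC.image (T_cont κ⁻¹)) (by
          rintro _ ⟨z, hz, rfl⟩
          rw [← mem_EE_T hl hκ, T_inv hκ.ne']
          exact hCE hz)
        obtain ⟨t, ht1, ht2⟩ := exists_between (max_lt hB1 R.r1)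
        have ht : t ∈ Ioo r 1 := ⟨(le_max_right _ _).trans_lt ht1, ht2⟩
        refine ⟨t, ht, ?_⟩
        have hm := ray_mem R ht θ
        apply hCo _ ⟨(mem_EE_T hl hκ).2 hm.1, fun h => hm.2 ((T_slit hκ.ne').1 h)⟩
        intro h
        apply ho _ hm (by rw [ray_norm R ht θ]; exact (le_max_left _ _).trans_lt ht1)
        exact ⟨_, h, T_inv' hκ.ne' _⟩)
    refine h1.trans (lintegral_mono fun t => ?_)
    show sig (EE (κ * l)) ψ' (T κ (ray (EE l) ψ θ t)) * ‖T κ (ray' (EE l) ψ θ t)‖ₑ ≤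
      sig (EE (κ * l)) ψ' (T κ (ray (EE l) ψ θ t)) * ENNReal.ofReal K * ‖ray' (EE l) ψ θ t‖ₑ
    rw [mul_assoc]
    gcongr
    rw [← ofReal_norm, ← ofReal_norm, ← ENNReal.ofReal_mul hK0.le]
    exact ENNReal.ofReal_le_ofReal (T_norm_le hκ _)
  have h2 := M0 hE R hρm hcurve
  have h3 : ∫⁻ z in EE l \ Slit, ρ z ^ 2 ≤
      ENNReal.ofReal (K ^ 2 * κ⁻¹ * (2 * π * (-Real.log r'))) := by
    refine (setLIntegral_le_lintegral _ _).trans ?_
    have e : ∀ z, ρ z ^ 2 = (fun z => sig (EE (κ * l)) ψ' z ^ 2) (T κ z) * ENNReal.ofReal K ^ 2 :=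
      fun z => mul_pow _ _ _
    simp only [e]
    rw [lintegral_mul_const' _ _ (by simp), lint_T hκ (hsm.pow_const 2), sig_sq hE' R',
      ← ENNReal.ofReal_pow hK0.le, ← ENNReal.ofReal_mul (by positivity), mul_comm,
      ← ENNReal.ofReal_mul (by positivity)]
    apply ENNReal.ofReal_le_ofReal
    apply le_of_eq; ring
  have hm' : 0 < -Real.log r' := by
    have := Real.log_neg R'.r0 R'.r1; linarith
  have hm : 0 < -Real.log r := by
    have := Real.log_neg R.r0 R.r1; linarith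
  have h4 : (ENNReal.ofReal (2 * π) * ENNReal.ofReal (-Real.log r')) ^ 2 ≤
      ENNReal.ofReal (2 * π * (-Real.log r)) *
        ENNReal.ofReal (K ^ 2 * κ⁻¹ * (2 * π * (-Real.log r'))) := h2.trans (by gcongr)
  rw [← ENNReal.ofReal_mul (by positivity), ← ENNReal.ofReal_pow (by positivity),
    ← ENNReal.ofReal_mul (by positivity), ENNReal.ofReal_le_ofReal_iff (by positivity)] at h4
  set m := -Real.log r
  set m' := -Real.log r'
  have h5 : (2 * π) ^ 2 * m' * m' ≤ (2 * π) ^ 2 * m' * (K ^ 2 * κ⁻¹ * m) := by nlinarith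
  exact le_of_mul_le_mul_left h5 (by positivity)

end

end Pool.Agent.W787
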