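import Mathlib
import Pool.Agent.W787.Mod

set_option autoImplicit false

open Set Filter Topology Metric MeasureTheory
open scoped Real ENNReal NNReal

namespace Pool.Agent.W787

open Complex (I)
open Pool.Agent.H366R3 Pool.Agent.H366R3.ED Pool.Agent.Helper202

noncomputable section

section

variable {E : Set ℂ} {r : ℝ} {ψ : ℂ → ℂ}

/-- a curve from a point outside `E` to the slit -/
lemma arc_mod (hE : IsOpen E) (hSE : Slit ⊆ E) (R : RC E r ψ) {γ γ' : ℝ → ℂ} {a b : ℝ} (hab : a ≤ b)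
    (hγ : ∀ t, HasDerivAt γ (γ' t) t) (hc : Continuous γ')
    (ha : γ a ∉ E) (hb : γ b ∈ Slit) (hs : ∀ t ∈ Ioo a b, γ t ∉ Slit) :
    ENNReal.ofReal (-Real.log r) ≤ ∫⁻ t in Ioo a b, sig E ψ (γ t) * ‖γ' t‖ₑ := by
  have hγc : Continuous γ := continuous_iff_continuousAt.2 fun t => (hγ t).continuousAt
  set S : Set ℝ := Icc a b ∩ γ ⁻¹' Eᶜ with hS
  have hSc : IsCompact S := isCompact_Icc.inter_right (hE.isClosed_compl.preimage hγc)
  have hSn : S.Nonempty := ⟨a, ⟨le_rfl, hab⟩, ha⟩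
  obtain ⟨s, ⟨⟨hs1, hs2⟩, hs3⟩, hmax⟩ := hSc.exists_isGreatest hSn
  have hsE : γ s ∉ E := hs3
  have hsb : s < b := lt_of_le_of_ne hs2 fun h => hsE (h ▸ hSE hb)
  have hin : ∀ t ∈ Ioo s b, γ t ∈ E := by
    intro t ht
    by_contra hcon
    have : t ≤ s := hmax ⟨⟨hs1.trans ht.1.le, ht.2.le⟩, hcon⟩
    linarith [ht.1]
  have key := curve_mod hE R (γ := γ) (γ' := γ') (a := s) (b := b) (fun t _ => hγ t)
    hc.continuousOn (fun t ht => ⟨hin t ht, hs t ⟨hs1.trans_lt ht.1, ht.2⟩⟩)
    (fun A hA => by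
      obtain ⟨δ, hδ, hi⟩ := R.inner A hA
      have h1 : ∀ᶠ t in 𝓝[<] b, γ t ∈ ball (γ b) δ :=
        (hγc.tendsto b).mono_left nhdsWithin_le_nhds (ball_mem_nhds _ hδ)
      obtain ⟨t, ht, ht'⟩ := (h1.and (Ioo_mem_nhdsLT hsb)).exists
      refine ⟨t, ht', hi _ ⟨hin t ht', hs t ⟨hs1.trans_lt ht'.1, ht'.2⟩⟩ ?_⟩
      exact (infDist_le_dist_of_mem hb).trans_lt ht)
    (fun B hB => by
      obtain ⟨C, hC, hCE, hCo⟩ := R.outer B hB
      have h1 : ∀ᶠ t in 𝓝[>] s, γ t ∈ Cᶜ :=
        (hγc.tendsto s).mono_left nhdsWithin_le_nhds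
          (hC.isClosed.isOpen_compl.mem_nhds (fun h => hsE (hCE h)))
      obtain ⟨t, ht, ht'⟩ := (h1.and (Ioo_mem_nhdsGT hsb)).exists
      exact ⟨t, ht', hCo _ ⟨hin t ht', hs t ⟨hs1.trans_lt ht'.1, ht'.2⟩⟩ ht⟩)
  exact key.trans (lintegral_mono_set (Ioo_subset_Ioo_left hs1))

end

lemma pt_im (s α : ℝ) : ((bb : ℂ) + circleMap 0 s α).im = s * Real.sin α := by
  simp [circleMap, Complex.exp_im]

lemma pt_re (s α : ℝ) : ((bb : ℂ) + circleMap 0 s α).re = bb + s * Real.cos α := by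
  simp [circleMap, Complex.exp_re]

lemma slit_pt {s : ℝ} (h1 : eta < s) (h2 : s < 2 + eta) {α : ℝ} (hs : Real.sin α = 0)
    (hc : Real.cos α = -1) : (bb : ℂ) + circleMap 0 s α ∈ Slit := by
  refine ⟨by rw [pt_im, hs, mul_zero], ?_⟩
  rw [pt_re, hc, abs_le]
  unfold bb
  constructor <;> linarith

lemma hasDeriv_arc (s : ℝ) (τ t : ℝ) : HasDerivAt (fun t : ℝ => (bb : ℂ) + circleMap 0 s (τ * t))
    ((τ : ℂ) * (circleMap 0 s (τ * t) * I)) t := by
  have h1 := (hasDerivAt_circleMap 0 s (τ * t)).scomp t ((hasDerivAt_id t).const_mul τ)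
  have h2 := h1.const_add (bb : ℂ)
  simp only [mul_one, Complex.real_smul] at h2
  exact h2

/-- the narrow position -/
theorem mod_narrow {l r : ℝ} {ψ : ℂ → ℂ} (hl : 0 < l) (R : RC (EE l) r ψ)
    (hout : ∀ s : ℝ, eta < s → s < 2 + eta → ∀ y : ℝ, |y| = s → (⟨bb, y⟩ : ℂ) ∉ EE l) :
    -Real.log r < 3 / 10 := by
  have hπ := Real.pi_pos
  have O := EE_outer hl
  have hE := O.op
  set m := -Real.log r with hm
  have hm0 : 0 < m := by
    have := Real.log_neg R.r0 R.r1; linarith
  have hsm := sig_meas hE R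
  have he := eta_pos
  have arcs : ∀ τ : ℝ, (τ = 1 ∨ τ = -1) → ∀ s ∈ Ioo eta (2 + eta), ENNReal.ofReal m ≤
      ∫⁻ t in Ioo (π / 2) π, sig (EE l) ψ ((bb : ℂ) + circleMap 0 s (τ * t)) *
        ENNReal.ofReal s := by
    intro τ hτ s hs
    have hs0 : 0 < s := he.trans hs.1
    have hτs : ∀ t, Real.sin (τ * t) = τ * Real.sin t := by
      intro t
      rcases hτ with rfl | rfl
      · simp
      · rw [neg_one_mul, Real.sin_neg]; ring
    have hτc : ∀ t, Real.cos (τ * t) = Real.cos t := by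
      intro t
      rcases hτ with rfl | rfl
      · simp
      · rw [neg_one_mul, Real.cos_neg]
    have hτn : τ ≠ 0 := by rcases hτ with rfl | rfl <;> norm_num
    have h1 := arc_mod hE O.slit R (γ := fun t => (bb : ℂ) + circleMap 0 s (τ * t))
      (γ' := fun t => (τ : ℂ) * (circleMap 0 s (τ * t) * I)) (a := π / 2) (b := π)
      (by linarith) (hasDeriv_arc s τ) (by
        have : Continuous fun t : ℝ => circleMap 0 s (τ * t) :=
          (continuous_circleMap 0 s).comp (continuous_const.mul continuous_id)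
        exact continuous_const.mul (this.mul continuous_const))
      (by
        have e : (bb : ℂ) + circleMap 0 s (τ * (π / 2)) = ⟨bb, s * τ⟩ := by
          apply Complex.ext
          · rw [pt_re, hτc, Real.cos_pi_div_two]; ring
          · rw [pt_im, hτs, Real.sin_pi_div_two]; ring
        show (bb : ℂ) + circleMap 0 s (τ * (π / 2)) ∉ EE l
        rw [e]
        apply hout s hs.1 hs.2
        rw [abs_mul, abs_of_pos hs0]
        rcases hτ with rfl | rfl <;> simp)
      (by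
        apply slit_pt hs.1 hs.2
        · rw [hτs, Real.sin_pi, mul_zero]
        · rw [hτc, Real.cos_pi])
      (by
        intro t ht h
        have h2 := h.1
        rw [pt_im, hτs] at h2
        have h3 : 0 < Real.sin t := Real.sin_pos_of_pos_of_lt_pi (by linarith [ht.1]) ht.2
        have h4 : s * (τ * Real.sin t) ≠ 0 :=
          mul_ne_zero hs0.ne' (mul_ne_zero hτn h3.ne')
        exact h4 h2)
    refine h1.trans (le_of_eq ?_)
    apply lintegral_congr
    intro t
    congr 1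
    rw [← ofReal_norm, norm_mul, norm_mul, norm_circleMap_zero, abs_of_pos hs0, Complex.norm_I,
      mul_one, Complex.norm_real]
    rcases hτ with rfl | rfl <;> simp
  set Q : Set ℝ := Ioo (π / 2) π ∪ Ioo (-π) (-(π / 2)) with hQ
  have hQm : MeasurableSet Q := measurableSet_Ioo.union measurableSet_Ioo
  have hQs : Q ⊆ Ioo (-π) π := by
    rintro t (ht | ht)
    · exact ⟨by linarith [ht.1], ht.2⟩
    · exact ⟨ht.1, by linarith [ht.2]⟩
  have hdisj : Disjoint (Ioo (π / 2) π) (Ioo (-π) (-(π / 2))) := by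
    rw [disjoint_left]
    intro t h1 h2
    linarith [h1.1, h2.2]
  have hQv : volume Q ≤ ENNReal.ofReal π := by
    refine (measure_union_le _ _).trans ?_
    rw [Real.volume_Ioo, Real.volume_Ioo, ← ENNReal.ofReal_add (by linarith) (by linarith)]
    apply ENNReal.ofReal_le_ofReal
    apply le_of_eq; ring
  have hmain := LA1 (s0 := eta) (s1 := 2 + eta) he (by linarith) (b := (bb : ℂ)) hsm hQm hQs
    (c := ENNReal.ofReal (2 * m)) (by
      intro s hs
      rw [hQ, lintegral_union measurableSet_Ioo hdisj]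
      have h1 := arcs 1 (Or.inl rfl) s hs
      have h2 := arcs (-1) (Or.inr rfl) s hs
      simp only [one_mul] at h1
      have h3 : ∫⁻ t in Ioo (π / 2) π, sig (EE l) ψ ((bb : ℂ) + circleMap 0 s (-1 * t)) *
          ENNReal.ofReal s = ∫⁻ t in Ioo (-π) (-(π / 2)),
          sig (EE l) ψ ((bb : ℂ) + circleMap 0 s t) * ENNReal.ofReal s := by
        have e := (Measure.measurePreserving_neg (volume : Measure ℝ)).setLIntegral_comp_preimage_emb
          (MeasurableEquiv.neg ℝ).measurableEmbedding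
          (fun t => sig (EE l) ψ ((bb : ℂ) + circleMap 0 s t) * ENNReal.ofReal s)
          (Ioo (-π) (-(π / 2)))
        rw [← e]
        have e2 : Neg.neg ⁻¹' Ioo (-π) (-(π / 2)) = Ioo (π / 2) π := by
          ext t
          constructor
          · rintro ⟨h, h'⟩; exact ⟨by linarith, by linarith⟩
          · rintro ⟨h, h'⟩; exact ⟨by linarith, by linarith⟩
        rw [e2]
        simp only [neg_one_mul]
      rw [h3] at h2
      rw [two_mul, ENNReal.ofReal_add hm0.le hm0.le]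
      exact add_le_add h1 h2)
  rw [ratio_eq, Real.log_exp, sig_sq hE R, ← hm, ← ENNReal.ofReal_pow (by positivity),
    ← ENNReal.ofReal_mul (by positivity)] at hmain
  have h4 : ENNReal.ofReal ((2 * m) ^ 2 * 20) ≤ ENNReal.ofReal (π * (2 * π * m)) := by
    refine hmain.trans ?_
    rw [ENNReal.ofReal_mul hπ.le]
    gcongr
  rw [ENNReal.ofReal_le_ofReal_iff (by positivity)] at h4
  have h5 : m * (80 * m) ≤ m * (2 * π ^ 2) := by nlinarith
  have h6 : 80 * m ≤ 2 * π ^ 2 := le_of_mul_le_mul_left h5 hm0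
  have h7 := Real.pi_lt_d2
  nlinarith

end

end Pool.Agent.W787
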