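import Mathlib
import Pool.Agent.W787.Mod2

set_option autoImplicit false

open Set Filter Topology Metric MeasureTheory
open scoped Real ENNReal NNReal

namespace Pool.Agent.W787

open Complex (I)
open Pool.Agent.H366R3 Pool.Agent.H366R3.ED Pool.Agent.Helper202

noncomputable section

/-- the rectangle in logarithmic coordinates -/
def rect : Set ℂ := {ζ | ζ.re ∈ Icc (Real.log eta - 3) (Real.log (2 + eta) + 3) ∧
  ζ.im ∈ Icc (-3) 3}

lemma log_diff : Real.log (2 + eta) - Real.log eta = 20 := by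
  have he := eta_pos
  rw [← Real.log_div (by linarith) he.ne', ratio_eq, Real.log_exp]

lemma rect_eq : rect = Complex.measurableEquivRealProd ⁻¹'
    (Icc (Real.log eta - 3) (Real.log (2 + eta) + 3) ×ˢ Icc (-3) 3) := by
  ext ζ
  exact Iff.rfl

lemma rect_compact : IsCompact rect := by
  have h : rect = Complex.equivRealProdCLM.symm ''
      (Icc (Real.log eta - 3) (Real.log (2 + eta) + 3) ×ˢ Icc (-3) 3) := by
    ext ζ
    constructor
    · intro h
      refine ⟨(ζ.re, ζ.im), ⟨h.1, h.2⟩, ?_⟩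
      apply Complex.ext <;> simp
    · rintro ⟨p, ⟨h1, h2⟩, rfl⟩
      exact ⟨by simpa using h1, by simpa using h2⟩
  rw [h]
  exact (isCompact_Icc.prod isCompact_Icc).image Complex.equivRealProdCLM.symm.continuous

lemma rect_volume : volume rect = ENNReal.ofReal 156 := by
  rw [rect_eq, Complex.volume_preserving_equiv_real_prod.measure_preimage
    (measurableSet_Icc.prod measurableSet_Icc).nullMeasurableSet, Measure.volume_eq_prod,
    Measure.prod_prod, Real.volume_Icc, Real.volume_Icc, ← ENNReal.ofReal_mul]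
  · congr 1
    have := log_diff
    linarith
  · have := log_diff
    linarith

/-- the compact neighbourhood of the slit -/
def KK : Set ℂ := (fun ζ => (bb : ℂ) - Complex.exp ζ) '' rect

lemma KK_compact : IsCompact KK :=
  rect_compact.image (continuous_const.sub Complex.continuous_exp)

/-- height function in logarithmic coordinates -/
def tau (ζ : ℂ) : ℝ := max |ζ.im| (max (ζ.re - Real.log (2 + eta)) (Real.log eta - ζ.re))

lemma tau_cont : Continuous tau := by
  unfold tau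
  exact (Complex.continuous_im.abs).max
    ((Complex.continuous_re.sub continuous_const).max (continuous_const.sub Complex.continuous_re))

lemma tau_lip (ζ ξ : ℂ) : tau ζ - tau ξ ≤ ‖ζ - ξ‖ := by
  have h1 : |(ζ - ξ).re| ≤ ‖ζ - ξ‖ := Complex.abs_re_le_norm _
  have h2 : |(ζ - ξ).im| ≤ ‖ζ - ξ‖ := Complex.abs_im_le_norm _
  rw [Complex.sub_re, abs_le] at h1
  rw [Complex.sub_im] at h2
  have h3 : |ζ.im| ≤ |ζ.im - ξ.im| + |ξ.im| := by
    have := abs_add_le (ζ.im - ξ.im) ξ.im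
    rwa [sub_add_cancel] at this
  have e1 : |ξ.im| ≤ tau ξ := le_max_left _ _
  have e2 : ξ.re - Real.log (2 + eta) ≤ tau ξ := (le_max_left _ _).trans (le_max_right _ _)
  have e3 : Real.log eta - ξ.re ≤ tau ξ := (le_max_right _ _).trans (le_max_right _ _)
  rw [sub_le_iff_le_add]
  unfold tau
  apply max_le
  · have := e1; unfold tau at this; linarith
  · apply max_le
    · have := e2; unfold tau at this; linarith
    · have := e3; unfold tau at this; linarith

lemma mem_rect_iff {ζ : ℂ} : ζ ∈ rect ↔ tau ζ ≤ 3 := by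
  unfold rect tau
  simp only [mem_ofPred_eq, mem_Icc, max_le_iff, abs_le]
  constructor
  · rintro ⟨⟨h1, h2⟩, h3, h4⟩
    exact ⟨⟨h3, h4⟩, by linarith, by linarith⟩
  · rintro ⟨⟨h3, h4⟩, h1, h2⟩
    exact ⟨⟨by linarith, by linarith⟩, h3, h4⟩

lemma exp_slit {ζ : ℂ} (h : ζ.im ∈ Icc (-3 : ℝ) 3) :
    Complex.exp ζ ∈ Complex.slitPlane ∧ Complex.log (Complex.exp ζ) = ζ := by
  have hπ := Real.pi_gt_three
  have hl : Complex.log (Complex.exp ζ) = ζ :=
    Complex.log_exp (by linarith [h.1]) (by linarith [h.2])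
  refine ⟨?_, hl⟩
  rw [Complex.mem_slitPlane_iff_arg]
  refine ⟨?_, Complex.exp_ne_zero _⟩
  rw [← Complex.log_im, hl]
  linarith [h.2]

lemma mem_KK_iff {z : ℂ} : z ∈ KK ↔ (bb : ℂ) - z ∈ Complex.slitPlane ∧
    tau (Complex.log ((bb : ℂ) - z)) ≤ 3 := by
  constructor
  · rintro ⟨ζ, hζ, rfl⟩
    have h := exp_slit hζ.2
    simp only [sub_sub_cancel]
    refine ⟨h.1, ?_⟩
    rw [h.2]
    exact mem_rect_iff.1 hζ
  · rintro ⟨h1, h2⟩
    refine ⟨Complex.log ((bb : ℂ) - z), mem_rect_iff.2 h2, ?_⟩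
    simp only
    rw [Complex.exp_log (Complex.slitPlane_ne_zero h1), sub_sub_cancel]

/-- sublevel sets -/
def UU (c : ℝ) : Set ℂ := {z | (bb : ℂ) - z ∈ Complex.slitPlane ∧
    tau (Complex.log ((bb : ℂ) - z)) < c}

lemma UU_open (c : ℝ) : IsOpen (UU c) := by
  have hs : IsOpen {z : ℂ | (bb : ℂ) - z ∈ Complex.slitPlane} :=
    Complex.isOpen_slitPlane.preimage (continuous_const.sub continuous_id)
  have hc : ContinuousOn (fun z : ℂ => tau (Complex.log ((bb : ℂ) - z)))
      {z : ℂ | (bb : ℂ) - z ∈ Complex.slitPlane} := by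
    apply tau_cont.comp_continuousOn
    apply ContinuousOn.clog
    · exact (continuous_const.sub continuous_id).continuousOn
    · intro z hz; exact hz
  exact hc.isOpen_inter_preimage hs isOpen_Iio

lemma UU_sub_KK : UU 3 ⊆ KK := fun _ hz => mem_KK_iff.2 ⟨hz.1, hz.2.le⟩

lemma Slit_sub_UU {c : ℝ} (hc : 0 < c) : Slit ⊆ UU c := by
  intro z hz
  have he := eta_pos
  have h1 : (bb : ℂ) - z = ((bb - z.re : ℝ) : ℂ) := by
    apply Complex.ext
    · simp
    · simp [hz.1]
  have h2 := abs_le.1 hz.2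
  have h3 : eta ≤ bb - z.re := by unfold bb; linarith
  have h4 : bb - z.re ≤ 2 + eta := by unfold bb; linarith
  have h5 : 0 < bb - z.re := he.trans_le h3
  show (bb : ℂ) - z ∈ Complex.slitPlane ∧ tau (Complex.log ((bb : ℂ) - z)) < c
  rw [h1]
  refine ⟨Complex.ofReal_mem_slitPlane.2 h5, ?_⟩
  rw [← Complex.ofReal_log h5.le]
  unfold tau
  have l1 := Real.log_le_log h5 h4
  have l2 := Real.log_le_log he h3
  apply max_lt
  · simpa using hc
  · apply max_lt
    · rw [Complex.ofReal_re]; linarith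
    · rw [Complex.ofReal_re]; linarith

/-- the test metric -/
def rhoK : ℂ → ℝ≥0∞ := KK.indicator fun z => ‖(3 * ((bb : ℂ) - z))⁻¹‖ₑ

lemma rhoK_meas : Measurable rhoK := by
  unfold rhoK
  apply Measurable.indicator _ KK_compact.isClosed.measurableSet
  exact (by fun_prop : Measurable fun z : ℂ => (3 * ((bb : ℂ) - z))⁻¹).enorm

lemma rhoK_sq : ∫⁻ z, rhoK z ^ 2 = ENNReal.ofReal (52 / 3) := by
  have e1 : ∀ z, rhoK z ^ 2 = KK.indicator (fun z => ‖(3 * ((bb : ℂ) - z))⁻¹‖ₑ ^ 2) z := by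
    intro z
    unfold rhoK
    by_cases hz : z ∈ KK
    · rw [indicator_of_mem hz, indicator_of_mem hz]
    · rw [indicator_of_notMem hz, indicator_of_notMem hz]; norm_num
  simp only [e1]
  rw [lintegral_indicator KK_compact.isClosed.measurableSet]
  have hπ := Real.pi_gt_three
  set Ω : Set ℂ := {ζ | -π < ζ.im ∧ ζ.im < π} with hΩ
  have hΩo : IsOpen Ω := (isOpen_lt continuous_const Complex.continuous_im).inter
    (isOpen_lt Complex.continuous_im continuous_const)
  have hd : DifferentiableOn ℂ (fun ζ => (bb : ℂ) - Complex.exp ζ) Ω :=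
    ((differentiable_const _).sub Complex.differentiable_exp).differentiableOn
  have hi : InjOn (fun ζ => (bb : ℂ) - Complex.exp ζ) Ω := by
    intro ζ hζ ξ hξ h
    have h1 : Complex.exp ζ = Complex.exp ξ := sub_right_injective h
    rw [← Complex.log_exp hζ.1 hζ.2.le, ← Complex.log_exp hξ.1 hξ.2.le, h1]
  have hr : rect ⊆ Ω := fun ζ hζ => ⟨by linarith [hζ.2.1], by linarith [hζ.2.2]⟩
  unfold KK
  rw [lintegral_image_holo hΩo hd hi rect_compact.isClosed.measurableSet hr]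
  have e2 : ∫⁻ ζ in rect, ‖deriv (fun ζ => (bb : ℂ) - Complex.exp ζ) ζ‖ₑ ^ 2 *
      ‖(3 * ((bb : ℂ) - ((bb : ℂ) - Complex.exp ζ)))⁻¹‖ₑ ^ 2 =
      ∫⁻ ζ in rect, ENNReal.ofReal (1 / 9) := by
    apply lintegral_congr
    intro ζ
    have h1 : deriv (fun ζ => (bb : ℂ) - Complex.exp ζ) ζ = - Complex.exp ζ := by
      have := (Complex.hasDerivAt_exp ζ).const_sub (bb : ℂ)
      exact this.deriv
    have h2 : 0 < ‖Complex.exp ζ‖ := norm_pos_iff.2 (Complex.exp_ne_zero _)
    rw [h1, sub_sub_cancel, ← ofReal_norm, ← ofReal_norm, ← ENNReal.ofReal_pow (norm_nonneg _),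
      ← ENNReal.ofReal_pow (norm_nonneg _), ← ENNReal.ofReal_mul (by positivity)]
    congr 1
    rw [norm_neg, norm_inv, norm_mul]
    have h3 : ‖(3 : ℂ)‖ = 3 := by simp
    rw [h3]
    field_simp
    norm_num
  rw [e2, lintegral_const, Measure.restrict_apply_univ, rect_volume,
    ← ENNReal.ofReal_mul (by norm_num)]
  congr 1
  norm_num

section

variable {E : Set ℂ} {r : ℝ} {ψ : ℂ → ℂ}

lemma wide_curve (hE : IsOpen E) (R : RC E r ψ) (hKE : KK ⊆ E) (θ : ℝ) :
    ENNReal.ofReal (29 / 30) ≤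
      ∫⁻ t in Ioo r 1, rhoK (ray E ψ θ t) * ‖ray' E ψ θ t‖ₑ := by
  set γ := ray E ψ θ with hγ
  set γ' := ray' E ψ θ with hγ'
  obtain ⟨δ, hδ, hth⟩ := Slit_compact.exists_thickening_subset_open (UU_open (1 / 10))
    (Slit_sub_UU (by norm_num))
  obtain ⟨A, hA, hin⟩ := R.inner' hδ
  obtain ⟨t0, ht0, ht0'⟩ := exists_between (lt_min hA R.r1)
  have ht0m : t0 ∈ Ioo r 1 := ⟨ht0, ht0'.trans_le (min_le_right _ _)⟩
  have hγ0 : γ t0 ∈ UU (1 / 10) := by
    apply hth
    rw [mem_thickening_iff_infDist_lt Slit_nonempty]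
    apply hin _ (ray_mem R ht0m θ)
    rw [ray_norm R ht0m θ]
    exact ht0'.trans_le (min_le_left _ _)
  obtain ⟨B, hB, hout⟩ := R.outer' KK_compact hKE
  obtain ⟨t2, ht2, ht2'⟩ := exists_between (max_lt hB ht0m.2)
  have ht02 : t0 < t2 := (le_max_right _ _).trans_lt ht2
  have ht2m : t2 ∈ Ioo r 1 := ⟨ht0m.1.trans ht02, ht2'⟩
  have hγ2 : γ t2 ∉ KK := by
    apply hout _ (ray_mem R ht2m θ)
    rw [ray_norm R ht2m θ]
    exact (le_max_left _ _).trans_lt ht2
  have hsub : Icc t0 t2 ⊆ Ioo r 1 := fun t ht => ⟨ht0m.1.trans_le ht.1, ht.2.trans_lt ht2m.2⟩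
  have hγc : ContinuousOn γ (Icc t0 t2) := fun t ht =>
    (ray_hasDeriv hE R (hsub ht) θ).continuousAt.continuousWithinAt
  set S : Set ℝ := Icc t0 t2 ∩ γ ⁻¹' (UU 3)ᶜ with hS
  have hSc : IsCompact S := isCompact_Icc.of_isClosed_subset
    (hγc.preimage_isClosed_of_isClosed isClosed_Icc (UU_open 3).isClosed_compl) inter_subset_left
  have hSn : S.Nonempty := ⟨t2, ⟨ht02.le, le_rfl⟩, fun h => hγ2 (UU_sub_KK h)⟩
  obtain ⟨t1, ⟨ht1, ht1'⟩, hmin⟩ := hSc.exists_isLeast hSn
  have ht1U : γ t1 ∉ UU 3 := ht1'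
  have h0U : γ t0 ∈ UU 3 := ⟨hγ0.1, hγ0.2.trans (by norm_num)⟩
  have ht01 : t0 < t1 := lt_of_le_of_ne ht1.1 fun h => ht1U (h ▸ h0U)
  have hI : ∀ t ∈ Ico t0 t1, γ t ∈ UU 3 := by
    intro t ht
    by_contra hcon
    have : t1 ≤ t := hmin ⟨⟨ht.1, ht.2.le.trans ht1.2⟩, hcon⟩
    linarith [ht.2]
  have h1K : γ t1 ∈ KK := by
    have hcl : t1 ∈ closure (Ico t0 t1) := by
      rw [closure_Ico ht01.ne]; exact ⟨ht01.le, le_rfl⟩
    have hc1 : ContinuousWithinAt γ (Ico t0 t1) t1 :=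
      (ray_hasDeriv hE R (hsub ht1) θ).continuousAt.continuousWithinAt
    have hmt : MapsTo γ (Ico t0 t1) KK := fun t ht => UU_sub_KK (hI t ht)
    have := hc1.mem_closure hcl hmt
    rwa [KK_compact.isClosed.closure_eq] at this
  have hK : ∀ t ∈ Icc t0 t1, γ t ∈ KK := by
    intro t ht
    rcases ht.2.eq_or_lt with h | h
    · rw [h]; exact h1K
    · exact UU_sub_KK (hI t ⟨ht.1, h⟩)
  have htau1 : 3 ≤ tau (Complex.log ((bb : ℂ) - γ t1)) := by
    by_contra hcon
    push Not at hcon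
    exact ht1U ⟨(mem_KK_iff.1 h1K).1, hcon⟩
  have hsub1 : Icc t0 t1 ⊆ Ioo r 1 := fun t ht => hsub ⟨ht.1, ht.2.trans ht1.2⟩
  set q : ℝ → ℂ := fun t => -γ' t / ((bb : ℂ) - γ t) with hq
  have hderiv : ∀ t ∈ Icc t0 t1, HasDerivAt (fun t => Complex.log ((bb : ℂ) - γ t)) (q t) t := by
    intro t ht
    have h1 := (ray_hasDeriv hE R (hsub1 ht) θ).const_sub (bb : ℂ)
    exact h1.clog_real (mem_KK_iff.1 (hK t ht)).1
  have hqc : ContinuousOn q (Icc t0 t1) := by
    apply ContinuousOn.div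
    · exact ((ray'_cont hE R θ).mono hsub1).neg
    · exact continuousOn_const.sub (hγc.mono (Icc_subset_Icc_right ht1.2))
    · intro t ht
      exact Complex.slitPlane_ne_zero (mem_KK_iff.1 (hK t ht)).1
  have hftc : ∫ t in t0..t1, q t = Complex.log ((bb : ℂ) - γ t1) - Complex.log ((bb : ℂ) - γ t0) := by
    apply intervalIntegral.integral_eq_sub_of_hasDerivAt
    · intro t ht
      rw [uIcc_of_le ht01.le] at ht
      exact hderiv t ht
    · apply ContinuousOn.intervalIntegrable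
      rw [uIcc_of_le ht01.le]; exact hqc
  have h29 : ENNReal.ofReal (29 / 10) ≤ ∫⁻ t in Ioo t0 t1, ‖q t‖ₑ := by
    have h1 := tau_lip (Complex.log ((bb : ℂ) - γ t1)) (Complex.log ((bb : ℂ) - γ t0))
    have h2 := hγ0.2
    have h3 : (29 / 10 : ℝ) ≤ ‖∫ t in t0..t1, q t‖ := by rw [hftc]; linarith
    refine (ENNReal.ofReal_le_ofReal h3).trans ?_
    rw [ofReal_norm, intervalIntegral.integral_of_le ht01.le, integral_Ioc_eq_integral_Ioo]
    exact enorm_integral_le_lintegral_enorm _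
  calc ENNReal.ofReal (29 / 30) = ENNReal.ofReal (1 / 3) * ENNReal.ofReal (29 / 10) := by
        rw [← ENNReal.ofReal_mul (by norm_num)]; norm_num
    _ ≤ ENNReal.ofReal (1 / 3) * ∫⁻ t in Ioo t0 t1, ‖q t‖ₑ := by gcongr
    _ = ∫⁻ t in Ioo t0 t1, rhoK (γ t) * ‖γ' t‖ₑ := by
        rw [← lintegral_const_mul' _ _ ENNReal.ofReal_ne_top]
        apply setLIntegral_congr_fun measurableSet_Ioo
        intro t ht
        simp only
        unfold rhoK
        rw [indicator_of_mem (hK t (Ioo_subset_Icc_self ht))]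
        simp only [q]
        rw [← ofReal_norm, ← ofReal_norm, ← ofReal_norm, ← ENNReal.ofReal_mul (by norm_num),
          ← ENNReal.ofReal_mul (norm_nonneg _)]
        congr 1
        rw [norm_div, norm_neg, norm_inv, norm_mul]
        have h3 : ‖(3 : ℂ)‖ = 3 := by simp
        have h4 : ‖(bb : ℂ) - γ t‖ ≠ 0 := norm_ne_zero_iff.2
          (Complex.slitPlane_ne_zero (mem_KK_iff.1 (hK t (Ioo_subset_Icc_self ht))).1)
        rw [h3]
        field_simp
    _ ≤ _ := lintegral_mono_set (Ioo_subset_Icc_self.trans hsub1)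

/-- the wide position -/
theorem mod_wide (hE : IsOpen E) (R : RC E r ψ) (hKE : KK ⊆ E) : 3 / 10 < -Real.log r := by
  have hπ := Real.pi_pos
  set m := -Real.log r with hm
  have hm0 : 0 < m := by
    have := Real.log_neg R.r0 R.r1; linarith
  have h1 := M0 hE R rhoK_meas (wide_curve hE R hKE)
  have h2 : ∫⁻ z in E \ Slit, rhoK z ^ 2 ≤ ENNReal.ofReal (52 / 3) :=
    (setLIntegral_le_lintegral _ _).trans rhoK_sq.le
  have h3 : (ENNReal.ofReal (2 * π) * ENNReal.ofReal (29 / 30)) ^ 2 ≤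
      ENNReal.ofReal (2 * π * m) * ENNReal.ofReal (52 / 3) := h1.trans (by gcongr)
  rw [← ENNReal.ofReal_mul (by positivity), ← ENNReal.ofReal_pow (by positivity),
    ← ENNReal.ofReal_mul (by positivity), ENNReal.ofReal_le_ofReal_iff (by positivity)] at h3
  have h4 : (2 * π) * (2 * π * (29 / 30) ^ 2) ≤ (2 * π) * (m * (52 / 3)) := by nlinarith
  have h5 := le_of_mul_le_mul_left h4 (by positivity)
  have h6 := Real.pi_gt_d2
  nlinarith

end

end

end Pool.Agent.W787
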