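import Mathlib
import Pool.Agent.W787.Mod3

set_option autoImplicit false

open Set Filter Topology Metric MeasureTheory
open scoped Real ENNReal NNReal

namespace Pool.Agent.W787

open Complex (I)
open Pool.Agent.H366R3 Pool.Agent.H366R3.ED Pool.Agent.Helper202

noncomputable section

/-! ### plateaus of the profile -/

lemma sqrt_close {n c : ℝ} (hn : 0 < n) (hc : |c| ≤ n / 3) (h0 : 0 ≤ n ^ 2 + c) :
    |√(n ^ 2 + c) - n| ≤ 1 / 3 := by
  have h1 : (√(n ^ 2 + c) - n) * (√(n ^ 2 + c) + n) = c := by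
    have := Real.sq_sqrt h0
    nlinarith
  have h2 : 0 ≤ √(n ^ 2 + c) := Real.sqrt_nonneg _
  have h3 : |√(n ^ 2 + c) - n| * (√(n ^ 2 + c) + n) = |c| := by
    conv_rhs => rw [← h1]
    rw [abs_mul, abs_of_nonneg (by positivity : 0 ≤ √(n ^ 2 + c) + n)]
  have h4 : |√(n ^ 2 + c) - n| * n ≤ n / 3 := by
    have := abs_nonneg (√(n ^ 2 + c) - n)
    nlinarith
  have h5 : |√(n ^ 2 + c) - n| * n ≤ (1 / 3) * n := by linarith
  exact le_of_mul_le_mul_right h5 hn

lemma cos_ge {d : ℝ} (hd : |d| ≤ 1 / 3) : 1 / 2 ≤ Real.cos (π * d) := by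
  have hπ := Real.pi_pos
  rw [← Real.cos_abs, abs_mul, abs_of_pos hπ, ← Real.cos_pi_div_three]
  apply Real.cos_le_cos_of_nonneg_of_le_pi
  · positivity
  · linarith
  · nlinarith

lemma chi_wide (k : ℕ) {c : ℝ} (hn : 0 < (2 * k : ℝ)) (hc : |c| ≤ (2 * k : ℝ) / 3)
    (h0 : 0 ≤ (2 * k : ℝ) ^ 2 + c) : chi (Real.exp ((2 * k : ℝ) ^ 2 + c)) = 1 := by
  unfold chi
  have h1 : (1 : ℝ) ≤ Real.exp ((2 * k : ℝ) ^ 2 + c) := Real.one_le_exp h0
  rw [max_eq_left h1, Real.log_exp]
  set d := √((2 * k : ℝ) ^ 2 + c) - 2 * k with hd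
  have hd1 : |d| ≤ 1 / 3 := sqrt_close hn hc h0
  have h2 : π * √((2 * k : ℝ) ^ 2 + c) = π * d + k * (2 * π) := by
    rw [hd]; ring
  rw [h2, Real.cos_add_nat_mul_two_pi]
  have := cos_ge hd1
  rw [min_eq_left (by linarith)]
  norm_num

lemma chi_narrow (k : ℕ) {c : ℝ} (hc : |c| ≤ (2 * k + 1 : ℝ) / 3)
    (h0 : 0 ≤ (2 * k + 1 : ℝ) ^ 2 + c) : chi (Real.exp ((2 * k + 1 : ℝ) ^ 2 + c)) = 0 := by
  unfold chi
  have h1 : (1 : ℝ) ≤ Real.exp ((2 * k + 1 : ℝ) ^ 2 + c) := Real.one_le_exp h0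
  rw [max_eq_left h1, Real.log_exp]
  set d := √((2 * k + 1 : ℝ) ^ 2 + c) - (2 * k + 1) with hd
  have hd1 : |d| ≤ 1 / 3 := sqrt_close (by positivity) hc h0
  have h2 : π * √((2 * k + 1 : ℝ) ^ 2 + c) = π * d + π + k * (2 * π) := by
    rw [hd]; ring
  rw [h2, Real.cos_add_nat_mul_two_pi, Real.cos_add_pi]
  have := cos_ge hd1
  apply max_eq_left
  exact (min_le_right _ _).trans (by linarith)

/-! ### narrow positions -/

lemma narrow_pos : ∃ N : ℕ, ∀ k : ℕ, N ≤ k → ∀ s : ℝ, eta < s → s < 2 + eta →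
    ∀ y : ℝ, |y| = s → (⟨bb, y⟩ : ℂ) ∉ EE (Real.exp ((2 * k + 1 : ℝ) ^ 2)) := by
  have he := eta_pos
  have hb := bb_pos
  set c0 := |Real.log (bb / eta)| + |Real.log (bb / (2 + eta))| with hc0
  obtain ⟨N, hN⟩ := exists_nat_gt (3 * c0)
  refine ⟨N, fun k hk s hs1 hs2 y hy hmem => ?_⟩
  have hs0 : 0 < s := he.trans hs1
  have hkN : (N : ℝ) ≤ k := by exact_mod_cast hk
  set c := Real.log (bb / s) with hc
  have hcb : |c| ≤ c0 := by
    have h1 : Real.log (bb / s) ≤ Real.log (bb / eta) :=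
      Real.log_le_log (by positivity) (by gcongr)
    have h2 : Real.log (bb / (2 + eta)) ≤ Real.log (bb / s) :=
      Real.log_le_log (by positivity) (by gcongr)
    rw [abs_le]
    have a1 := le_abs_self (Real.log (bb / eta))
    have a2 := neg_abs_le (Real.log (bb / (2 + eta)))
    have a3 := abs_nonneg (Real.log (bb / eta))
    have a4 := abs_nonneg (Real.log (bb / (2 + eta)))
    constructor <;> linarith
  have hc3 : |c| ≤ (2 * k + 1 : ℝ) / 3 := by linarith [abs_nonneg c]
  have h0 : 0 ≤ (2 * k + 1 : ℝ) ^ 2 + c := by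
    have := (abs_le.1 hc3).1
    have h1 : (1 : ℝ) ≤ 2 * k + 1 := by linarith [(Nat.cast_nonneg k : (0 : ℝ) ≤ k)]
    nlinarith
  have hchi := chi_narrow k hc3 h0
  set l := Real.exp ((2 * k + 1 : ℝ) ^ 2) with hl
  have hl0 : 0 < l := Real.exp_pos _
  have e1 : Real.exp ((2 * k + 1 : ℝ) ^ 2 + c) = l * (bb / s) := by
    rw [Real.exp_add, hc, Real.exp_log (by positivity)]
  have hy0 : y ≠ 0 := by rw [← abs_pos, hy]; exact hs0
  have hmem' : ‖T l⁻¹ (⟨bb, y⟩ : ℂ)‖ < bb + 99 * g (T l⁻¹ (⟨bb, y⟩ : ℂ)) := hmem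
  have hg : g (T l⁻¹ (⟨bb, y⟩ : ℂ)) = 0 := by
    unfold g
    have h2 : (T l⁻¹ (⟨bb, y⟩ : ℂ)).im = l⁻¹ * y := rfl
    have h3 : (T l⁻¹ (⟨bb, y⟩ : ℂ)).re = bb := rfl
    rw [h2, h3, if_neg (mul_ne_zero (inv_ne_zero hl0.ne') hy0), abs_mul, hy,
      abs_of_pos (by positivity)]
    have : bb / (l⁻¹ * s) = l * (bb / s) := by field_simp
    rw [this, ← e1]
    exact hchi
  rw [hg] at hmem'
  have h4 := Complex.abs_re_le_norm (T l⁻¹ (⟨bb, y⟩ : ℂ))
  have h3 : (T l⁻¹ (⟨bb, y⟩ : ℂ)).re = bb := rfl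
  rw [h3, abs_of_pos hb] at h4
  linarith

/-! ### wide positions -/

lemma KK_norm {z : ℂ} (hz : z ∈ KK) : ‖z‖ ≤ 63 := by
  obtain ⟨ζ, hζ, rfl⟩ := hz
  have he := eta_pos
  have he1 := eta_lt
  have h1 : ‖Complex.exp ζ‖ ≤ 3 * Real.exp 3 := by
    rw [Complex.norm_exp]
    calc Real.exp ζ.re ≤ Real.exp (Real.log (2 + eta) + 3) := Real.exp_le_exp.2 hζ.1.2
      _ = (2 + eta) * Real.exp 3 := by rw [Real.exp_add, Real.exp_log (by linarith)]
      _ ≤ 3 * Real.exp 3 := by
        apply mul_le_mul_of_nonneg_right _ (Real.exp_pos _).le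
        linarith
  have h2 : Real.exp 3 < 20.1 := by
    have h3 : Real.exp 3 = Real.exp 1 ^ 3 := by
      rw [← Real.exp_nat_mul]; norm_num
    rw [h3]
    have h4 := Real.exp_one_lt_d9
    have h5 := Real.exp_pos 1
    calc Real.exp 1 ^ 3 ≤ 2.7182818286 ^ 3 := by gcongr
      _ < 20.1 := by norm_num
  have h3 : ‖(bb : ℂ)‖ < 2 := by
    rw [Complex.norm_real, Real.norm_of_nonneg bb_pos.le]; exact bb_lt
  have h4 := norm_sub_le (bb : ℂ) (Complex.exp ζ)
  norm_num at h2
  show ‖(bb : ℂ) - Complex.exp ζ‖ ≤ 63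
  linarith

/-- the gap -/
def gap : ℝ := eta * Real.exp (-3) / 2

lemma gap_pos : 0 < gap := by
  have := eta_pos
  have := Real.exp_pos (-3)
  unfold gap; positivity

lemma KK_im : ∃ δ > 0, ∀ z ∈ KK, bb - gap ≤ z.re → δ ≤ |z.im| := by
  have he := eta_pos
  set S : Set ℂ := KK ∩ {z | bb - gap ≤ z.re} with hS
  have hSc : IsCompact S :=
    KK_compact.inter_right (isClosed_le continuous_const Complex.continuous_re)
  have hpos : ∀ z ∈ S, 0 < |z.im| := by
    rintro z ⟨hz, hz'⟩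
    rw [abs_pos]
    intro him
    have hz'' : bb - gap ≤ z.re := hz'
    obtain ⟨h1, h2⟩ := mem_KK_iff.1 hz
    have e1 : (bb : ℂ) - z = ((bb - z.re : ℝ) : ℂ) := by
      apply Complex.ext
      · simp
      · simp [him]
    rw [e1] at h1 h2
    have h3 : 0 < bb - z.re := Complex.ofReal_mem_slitPlane.1 h1
    rw [← Complex.ofReal_log h3.le] at h2
    have h4 : Real.log eta - Real.log (bb - z.re) ≤ 3 := by
      have h5 : Real.log eta - ((Real.log (bb - z.re) : ℝ) : ℂ).re ≤
          tau ((Real.log (bb - z.re) : ℝ) : ℂ) := (le_max_right _ _).trans (le_max_right _ _)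
      rw [Complex.ofReal_re] at h5
      linarith
    have h5 : Real.log (bb - z.re) ≤ Real.log gap := Real.log_le_log h3 (by linarith)
    have h6 : Real.log gap = Real.log eta - 3 - Real.log 2 := by
      unfold gap
      rw [Real.log_div (by positivity) (by norm_num), Real.log_mul he.ne' (Real.exp_pos _).ne',
        Real.log_exp]
      ring
    have h7 : 0 < Real.log 2 := Real.log_pos (by norm_num)
    linarith
  rcases S.eq_empty_or_nonempty with hem | hne
  · refine ⟨1, one_pos, fun z hz hz' => ?_⟩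
    exact absurd (show z ∈ S from ⟨hz, hz'⟩) (by rw [hem]; exact notMem_empty z)
  · obtain ⟨w, hw, hmin⟩ := hSc.exists_isMinOn hne
      (Complex.continuous_im.abs).continuousOn
    exact ⟨|w.im|, hpos w hw, fun z hz hz' => hmin ⟨hz, hz'⟩⟩

lemma wide_pos : ∃ N : ℕ, ∀ k : ℕ, N ≤ k → KK ⊆ EE (Real.exp ((2 * k : ℝ) ^ 2)) := by
  have he := eta_pos
  have hb := bb_pos
  have hb1 := one_lt_bb
  have hgp := gap_pos
  obtain ⟨δ, hδ, hδK⟩ := KK_im
  set c0 := |Real.log (63 / δ)| + Real.log 63 with hc0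
  have hl63 : 0 < Real.log 63 := Real.log_pos (by norm_num)
  obtain ⟨N, hN⟩ := exists_nat_gt (3 * c0 + 63 / eta + 63 / gap + 1)
  have hN1 : 3 * c0 < N := by
    have : 0 < 63 / eta := by positivity
    have : 0 < 63 / gap := by positivity
    linarith
  refine ⟨N, fun k hk z hz => ?_⟩
  have hkN : (N : ℝ) ≤ k := by exact_mod_cast hk
  have hc0' : 0 ≤ c0 := by
    have := abs_nonneg (Real.log (63 / δ)); linarith
  set l := Real.exp ((2 * k : ℝ) ^ 2) with hl
  have hl0 : 0 < l := Real.exp_pos _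
  have hlk : (k : ℝ) < l := by
    have h1 := Real.add_one_le_exp ((2 * k : ℝ) ^ 2)
    have h2 : (1 : ℝ) < k := by
      have : 0 < 63 / eta := by positivity
      have : 0 < 63 / gap := by positivity
      linarith
    nlinarith
  have hl1 : 1 ≤ l := by
    have : 0 < 63 / eta := by positivity
    have : 0 < 63 / gap := by positivity
    linarith
  have hle : 63 / l < eta := by
    have : 0 < 63 / gap := by positivity
    rw [div_lt_comm₀ hl0 he]
    linarith
  have hlg : 63 / l < gap := by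
    have : 0 < 63 / eta := by positivity
    rw [div_lt_comm₀ hl0 hgp]
    linarith
  have hn := KK_norm hz
  have hTn : ‖T l⁻¹ z‖ ≤ 63 :=
    (T_norm_le_one (by positivity) (inv_le_one_of_one_le₀ hl1) z).trans hn
  have hre := Complex.abs_re_le_norm z
  have him := Complex.abs_im_le_norm z
  have hTri : ‖T l⁻¹ z‖ ≤ |z.re| + 63 / l := by
    have h1 := T_norm_re_im (l := l⁻¹) (by positivity) z
    have h2 : l⁻¹ * |z.im| ≤ 63 / l := by
      rw [div_eq_inv_mul]
      exact mul_le_mul_of_nonneg_left (by linarith) (by positivity)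
    linarith
  show ‖T l⁻¹ z‖ < bb + 99 * g (T l⁻¹ z)
  rcases lt_or_ge z.re 0 with hx | hx
  · rw [g_of_re_nonpos (by exact hx)]
    linarith
  · rw [abs_of_nonneg hx] at hTri hre
    have hgn := g_nonneg (T l⁻¹ z)
    rcases lt_or_ge z.re 1 with hx1 | hx1
    · have : (bb : ℝ) = 1 + eta := rfl
      linarith
    · rcases lt_or_ge z.re (bb - gap) with hx2 | hx2
      · linarith
      · have hY := hδK z hz hx2
        have hY0 : 0 < |z.im| := hδ.trans_le hY
        set c := Real.log (z.re / |z.im|) with hc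
        have hx0 : 0 < z.re := by linarith
        have hcb : |c| ≤ c0 := by
          have h1 : Real.log (z.re / |z.im|) ≤ Real.log (63 / δ) := by
            apply Real.log_le_log (by positivity)
            exact div_le_div₀ (by norm_num) (by linarith) hδ hY
          have h2 : Real.log (1 / 63) ≤ Real.log (z.re / |z.im|) := by
            apply Real.log_le_log (by norm_num)
            exact div_le_div₀ (by linarith) hx1 hY0 (by linarith)
          rw [one_div, Real.log_inv] at h2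
          rw [abs_le]
          have a1 := le_abs_self (Real.log (63 / δ))
          have a3 := abs_nonneg (Real.log (63 / δ))
          constructor <;> linarith
        have hk0 : (0 : ℝ) < k := by linarith
        have hc3 : |c| ≤ (2 * k : ℝ) / 3 := by linarith [abs_nonneg c]
        have h0 : 0 ≤ (2 * k : ℝ) ^ 2 + c := by
          have := (abs_le.1 hc3).1
          have h2 : (1 : ℝ) < k := by
            have : 0 < 63 / eta := by positivity
            have : 0 < 63 / gap := by positivity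
            linarith
          nlinarith
        have hchi := chi_wide k (by positivity) hc3 h0
        have e1 : Real.exp ((2 * k : ℝ) ^ 2 + c) = l * (z.re / |z.im|) := by
          rw [Real.exp_add, hc, Real.exp_log (by positivity)]
        have hg : g (T l⁻¹ z) = 1 := by
          unfold g
          rw [T_im, T_re, if_neg (mul_ne_zero (inv_ne_zero hl0.ne') (abs_pos.1 hY0)), abs_mul,
            abs_of_pos (by positivity : 0 < l⁻¹)]
          have : z.re / (l⁻¹ * |z.im|) = l * (z.re / |z.im|) := by field_simp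
          rw [this, ← e1]
          exact hchi
        rw [hg]
        linarith

/-! ### the modulus as a function of the stretch -/

lemma exists_r (l : ℝ) : ∃ (r : ℝ) (ψ : ℂ → ℂ), 0 < l → RC (EE l) r ψ := by
  by_cases hl : 0 < l
  · obtain ⟨r, ψ, h⟩ := exists_RC (EE_outer hl)
    exact ⟨r, ψ, fun _ => h⟩
  · exact ⟨0, id, fun h => absurd h hl⟩

def rr (l : ℝ) : ℝ := (exists_r l).choose

def psi (l : ℝ) : ℂ → ℂ := (exists_r l).choose_spec.choose

lemma rr_spec {l : ℝ} (hl : 0 < l) : RC (EE l) (rr l) (psi l) :=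
  (exists_r l).choose_spec.choose_spec hl

def mm (l : ℝ) : ℝ := -Real.log (rr l)

lemma mm_pos {l : ℝ} (hl : 0 < l) : 0 < mm l := by
  have R := rr_spec hl
  have := Real.log_neg R.r0 R.r1
  unfold mm; linarith

lemma mm_le {l l' : ℝ} (hl : 0 < l) (hl' : 0 < l') :
    mm l' ≤ (max 1 (l' / l)) ^ 2 * (l' / l)⁻¹ * mm l := by
  have hκ : 0 < l' / l := by positivity
  have e : l' / l * l = l' := by field_simp
  have R' : RC (EE (l' / l * l)) (rr l') (psi l') := by rw [e]; exact rr_spec hl'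
  exact mod_comp hl hκ (rr_spec hl) R'

lemma mm_cont : ContinuousOn mm (Ioi 0) := by
  intro l hl
  have hl0 : 0 < l := hl
  apply ContinuousAt.continuousWithinAt
  rw [ContinuousAt]
  have hup : Tendsto (fun l' : ℝ => (max 1 (l' / l)) ^ 2 * (l' / l)⁻¹ * mm l) (𝓝 l) (𝓝 (mm l)) := by
    have h1 : ContinuousAt (fun l' : ℝ => (max 1 (l' / l)) ^ 2 * (l' / l)⁻¹ * mm l) l := by
      apply ContinuousAt.mul _ continuousAt_const
      apply ContinuousAt.mul
      · fun_prop
      · apply ContinuousAt.inv₀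
        · fun_prop
        · positivity
    have h2 := h1.tendsto
    have e : (max 1 (l / l)) ^ 2 * (l / l)⁻¹ * mm l = mm l := by
      rw [div_self hl0.ne']; simp
    rwa [e] at h2
  have hlow : Tendsto (fun l' : ℝ => mm l * ((max 1 (l / l')) ^ 2 * (l / l')⁻¹)⁻¹) (𝓝 l)
      (𝓝 (mm l)) := by
    have h1 : ContinuousAt (fun l' : ℝ => mm l * ((max 1 (l / l')) ^ 2 * (l / l')⁻¹)⁻¹) l := by
      apply continuousAt_const.mul
      apply ContinuousAt.inv₀
      · apply ContinuousAt.mul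
        · apply ContinuousAt.pow
          apply continuousAt_const.max
          exact continuousAt_const.div continuousAt_id hl0.ne'
        · apply ContinuousAt.inv₀
          · exact continuousAt_const.div continuousAt_id hl0.ne'
          · positivity
      · positivity
    have h2 := h1.tendsto
    have e : mm l * ((max 1 (l / l)) ^ 2 * (l / l)⁻¹)⁻¹ = mm l := by
      rw [div_self hl0.ne']; simp
    rwa [e] at h2
  apply tendsto_of_tendsto_of_tendsto_of_le_of_le' hlow hup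
  · filter_upwards [Ioi_mem_nhds hl0] with l' hl'
    have hl'0 : 0 < l' := hl'
    have := mm_le hl'0 hl0
    rw [← div_eq_mul_inv, div_le_iff₀ (by positivity)]
    linarith
  · filter_upwards [Ioi_mem_nhds hl0] with l' hl'
    exact mm_le hl0 hl'

/-- arbitrarily large stretches with the prescribed modulus -/
theorem exists_stretch (M : ℝ) : ∃ l : ℝ, M < l ∧ 0 < l ∧ mm l = 3 / 10 := by
  obtain ⟨N1, h1⟩ := narrow_pos
  obtain ⟨N2, h2⟩ := wide_pos
  obtain ⟨N3, h3⟩ := exists_nat_gt M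
  set k := max (max N1 N2) N3 with hk
  have hk1 : N1 ≤ k := (le_max_left _ _).trans (le_max_left _ _)
  have hk2 : N2 ≤ k + 1 := ((le_max_right _ _).trans (le_max_left _ _)).trans (Nat.le_succ _)
  have hk3 : N3 ≤ k := le_max_right _ _
  set l1 := Real.exp ((2 * k + 1 : ℝ) ^ 2) with hl1
  set l2 := Real.exp ((2 * ((k + 1 : ℕ) : ℝ)) ^ 2) with hl2
  have hl10 : 0 < l1 := Real.exp_pos _
  have hl20 : 0 < l2 := Real.exp_pos _
  have hkn : (0 : ℝ) ≤ k := Nat.cast_nonneg k
  have hl12 : l1 ≤ l2 := by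
    apply Real.exp_le_exp.2
    push_cast
    nlinarith
  have hM : M < l1 := by
    have h4 := Real.add_one_le_exp ((2 * k + 1 : ℝ) ^ 2)
    have h5 : (N3 : ℝ) ≤ k := by exact_mod_cast hk3
    nlinarith
  have hm1 : mm l1 < 3 / 10 := mod_narrow hl10 (rr_spec hl10) (h1 k hk1)
  have hm2 : 3 / 10 < mm l2 := mod_wide (EE_outer hl20).op (rr_spec hl20) (h2 (k + 1) hk2)
  have hsub : Icc l1 l2 ⊆ Ioi 0 := fun x hx => hl10.trans_le hx.1
  obtain ⟨l, hl, hlm⟩ := intermediate_value_Icc hl12 (mm_cont.mono hsub) ⟨hm1.le, hm2.le⟩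
  exact ⟨l, hM.trans_le hl.1, hl10.trans_le hl.1, hlm⟩

end

end Pool.Agent.W787
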