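import Pool.Agent.W787.PEdual
set_option autoImplicit false

/-! The final contradiction. -/

namespace Pool.Agent.W787.PE

open MeasureTheory Complex FourierTransform Set
open scoped ENNReal NNReal ComplexConjugate InnerProductSpace

/-- the test set -/
def SS (ε : ℝ) : Set Plane := toProd ⁻¹' (Icc ε (2*ε) ×ˢ Icc 0 (ε^2))

lemma SS_meas (ε : ℝ) : MeasurableSet (SS ε) :=
  toProd.measurable (measurableSet_Icc.prod measurableSet_Icc)

lemma SS_vol {ε : ℝ} (hε : 0 < ε) : volume (SS ε) = ENNReal.ofReal (ε^3) := by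
  rw [SS, toProd_mp.measure_preimage (measurableSet_Icc.prod measurableSet_Icc).nullMeasurableSet,
    Measure.volume_eq_prod, Measure.prod_prod, Real.volume_Icc, Real.volume_Icc,
    ← ENNReal.ofReal_mul (by linarith)]
  congr 1; ring

/-- the lower bound constant -/
noncomputable def c0 : ℝ := (7/8) * (5:ℝ)^(-(57/16) : ℝ)

lemma c0_pos : 0 < c0 := by unfold c0; positivity

lemma W_lower {ε x t : ℝ} (hε : 0 < ε) (hε1 : ε ≤ 1/2) (hx : x ∈ Icc ε (2*ε)) (ht : t ∈ Icc 0 (ε^2)) :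
    c0 * ε^(-(1/8) : ℝ) ≤ (W x t).re := by
  obtain ⟨hx1, hx2⟩ := hx
  obtain ⟨ht1, ht2⟩ := ht
  have hx0 : 0 < x := by linarith
  have hX : X0 x = 1 := cut.one x (by rw [abs_of_pos hx0]; linarith)
  have htle : t ≤ 1 := by nlinarith
  have hT : T0 t = Real.exp t := by
    rw [T0, cut.one t (by rw [abs_of_nonneg ht1]; exact htle), mul_one]
  have hT1 : 1 ≤ T0 t := by rw [hT]; exact Real.one_le_exp ht1
  have hsd : sd t = pP := by rw [sd, if_pos ht1]
  have hr : 0 < x^2+t := by positivity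
  have hr5 : x^2+t ≤ 5*ε^2 := by nlinarith
  have hQ := pP_Qre (x^2) t (sq_nonneg x) ht1
  have hQ0 : 0 ≤ (pP.Q ((x^2:ℝ):ℂ) t).re := le_trans (by positivity) hQ
  have hre : (W x t).re = T0 t * (2*x*(rho (x^2+t)*(x^2+t))*(pP.Q ((x^2:ℝ):ℂ) t).re) := by
    rw [W, hX, hsd, abs_of_nonneg ht1, Par.U, Par.cast_arg]
    have : ((1:ℝ):ℂ) * (T0 t : ℂ) * (2*(x:ℂ)*(rho (x^2+t) : ℂ)*(((x^2:ℝ):ℂ)+t)*pP.Q ((x^2:ℝ):ℂ) t)
        = ((T0 t * (2*x*(rho (x^2+t)*(x^2+t))) : ℝ) : ℂ) * pP.Q ((x^2:ℝ):ℂ) t := by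
      push_cast; ring
    rw [this, Complex.re_ofReal_mul]; ring
  have hrho : rho (x^2+t)*(x^2+t) = (x^2+t)^(-(57/16) : ℝ) := by
    have := rho_mul_pow hr 1
    rw [pow_one] at this
    rw [this]; norm_num
  have hlow : (5:ℝ)^(-(57/16) : ℝ) * ε^(-(57/8) : ℝ) ≤ (x^2+t)^(-(57/16) : ℝ) := by
    have e : (5:ℝ)^(-(57/16) : ℝ) * ε^(-(57/8) : ℝ) = (5*ε^2)^(-(57/16) : ℝ) := by
      rw [Real.mul_rpow (by norm_num) (by positivity), ← Real.rpow_natCast ε 2,
        ← Real.rpow_mul hε.le]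
      norm_num
    rw [e]
    exact Real.rpow_le_rpow_of_nonpos hr hr5 (by norm_num)
  have hQ6 : 7/16*ε^6 ≤ (pP.Q ((x^2:ℝ):ℂ) t).re := by
    refine le_trans ?_ hQ
    have : ε^6 ≤ (x^2)^3 := by
      rw [← pow_mul]; exact pow_le_pow_left₀ hε.le hx1 6
    linarith
  have hp : 0 < ε^(-(57/8) : ℝ) := Real.rpow_pos_of_pos hε _
  have h5 : 0 < (5:ℝ)^(-(57/16) : ℝ) := by positivity
  have e2 : ε^(-(1/8) : ℝ) = ε * ε^6 * ε^(-(57/8) : ℝ) := by
    rw [← pow_succ', ← Real.rpow_natCast, ← Real.rpow_add hε]; norm_num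
  rw [hre, hrho]
  calc c0 * ε^(-(1/8) : ℝ) = 1 * (2*ε*((5:ℝ)^(-(57/16) : ℝ) * ε^(-(57/8) : ℝ))*(7/16*ε^6)) := by
        rw [e2, c0]; ring
    _ ≤ _ := by gcongr

lemma int_lower {ε : ℝ} (hε : 0 < ε) (hε1 : ε ≤ 1/2) :
    c0 * ε^(-(1/8) : ℝ) * ε^3 ≤ ‖∫ z in SS ε, conj (w' z)‖ := by
  have hi : IntegrableOn (fun z => conj (w' z)) (SS ε) := by
    have : Integrable (fun z => conj (w' z)) := by
      exact (Complex.conjCLE.toContinuousLinearMap.integrable_comp w'_i)
    exact this.integrableOn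
  have hfin : volume (SS ε) < ⊤ := by rw [SS_vol hε]; exact ENNReal.ofReal_lt_top
  refine le_trans ?_ (Complex.re_le_norm _)
  have e : (∫ z in SS ε, conj (w' z)).re = ∫ z in SS ε, (w' z).re := by
    have h := (integral_re (𝕜 := ℂ) hi).symm
    refine Eq.trans h ?_
    simp
  rw [e]
  have hc : ∫ z in SS ε, c0 * ε^(-(1/8) : ℝ) = c0 * ε^(-(1/8) : ℝ) * ε^3 := by
    rw [setIntegral_const, measureReal_def, SS_vol hε, ENNReal.toReal_ofReal (by positivity)]
    simp [mul_comm]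
  rw [← hc]
  refine setIntegral_mono_on (integrableOn_const hfin.ne) ?_ (SS_meas ε) ?_
  · exact (Complex.reCLM.integrable_comp w'_i).integrableOn
  · intro z hz
    have hz' : toProd z ∈ (Icc ε (2*ε) ×ˢ Icc 0 (ε^2)) := hz
    rw [toProd_apply] at hz'
    exact W_lower hε hε1 hz'.1 hz'.2

/-- the box carrying `f` -/
def KK : Set Plane := toProd ⁻¹' (Icc (-2) 2 ×ˢ Icc (-2) 2)

lemma KK_meas : MeasurableSet KK := toProd.measurable (measurableSet_Icc.prod measurableSet_Icc)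

lemma KK_vol : volume KK = 16 := by
  rw [KK, toProd_mp.measure_preimage (measurableSet_Icc.prod measurableSet_Icc).nullMeasurableSet,
    Measure.volume_eq_prod, Measure.prod_prod, Real.volume_Icc,
    ← ENNReal.ofReal_mul (by norm_num)]
  norm_num

lemma f'_zero {v : Plane} (hv : v ∉ KK) : f' v = 0 := by
  have : ¬ ((v 0, v 1) ∈ (Icc (-2:ℝ) 2 ×ˢ Icc (-2:ℝ) 2)) := hv
  have h : 2 < |v 0| ∨ 2 < |v 1| := by
    by_contra hcon
    push Not at hcon
    exact this ⟨abs_le.mp hcon.1, abs_le.mp hcon.2⟩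
  rcases h with h | h
  · exact ff_zx _ _ h.le
  · exact ff_zt _ _ h.le

lemma pair_bound (p : ℝ) (hp : 1 ≤ p) : ∃ D : ℝ, 0 ≤ D ∧ ∀ y : L2,
    eLpNorm y (ENNReal.ofReal p) volume < ⊤ →
    ‖∫ z, y z * conj (fL z)‖ ≤ D * (eLpNorm y (ENNReal.ofReal p) volume).toReal := by
  obtain ⟨C, hC, hb⟩ := ff_bd
  refine ⟨C*16, by positivity, fun y hy => ?_⟩
  have e1 : ∫ z, y z * conj (fL z) = ∫ z in KK, y z * conj (f' z) := by
    rw [← integral_indicator KK_meas]
    apply integral_congr_ae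
    filter_upwards [f'_2.coeFn_toLp] with z hz
    have : fL z = f' z := hz
    rw [this]
    by_cases h : z ∈ KK
    · rw [indicator_of_mem h]
    · rw [indicator_of_notMem h, f'_zero h]; simp
  have hym : AEStronglyMeasurable (y : Plane → ℂ) (volume.restrict KK) :=
    (Lp.aestronglyMeasurable y).restrict
  have hle : eLpNorm y 1 (volume.restrict KK) ≤ 16 * eLpNorm y (ENNReal.ofReal p) volume := by
    have h1 := eLpNorm_le_eLpNorm_mul_rpow_measure_univ (p := 1) (q := ENNReal.ofReal p)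
      (by rw [← ENNReal.ofReal_one]; exact ENNReal.ofReal_le_ofReal hp) hym
    refine h1.trans ?_
    rw [Measure.restrict_apply_univ, KK_vol, mul_comm]
    refine mul_le_mul' ?_ (eLpNorm_mono_measure _ Measure.restrict_le_self)
    rw [ENNReal.toReal_ofReal (by linarith)]
    calc (16:ℝ≥0∞)^(1/(1:ℝ≥0∞).toReal - 1/p) ≤ (16:ℝ≥0∞)^(1:ℝ) := by
          apply ENNReal.rpow_le_rpow_of_exponent_le (by norm_num)
          have : 0 ≤ 1/p := by positivity
          simp only [ENNReal.toReal_one, div_one]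
          linarith
      _ = 16 := by simp
  have hfin : eLpNorm y 1 (volume.restrict KK) < ⊤ :=
    lt_of_le_of_lt hle (ENNReal.mul_lt_top (by norm_num) hy)
  have hyi : IntegrableOn (fun z => ‖y z‖) KK := by
    have : MemLp y 1 (volume.restrict KK) := ⟨hym, hfin⟩
    exact (memLp_one_iff_integrable.mp this).norm
  rw [e1]
  calc ‖∫ z in KK, y z * conj (f' z)‖ ≤ ∫ z in KK, C * ‖y z‖ := by
        refine norm_integral_le_of_norm_le (hyi.const_mul C) (Filter.Eventually.of_forall fun z => ?_)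
        rw [norm_mul, RCLike.norm_conj, mul_comm]
        exact mul_le_mul_of_nonneg_right (hb _ _) (norm_nonneg _)
    _ = C * ∫ z in KK, ‖y z‖ := integral_const_mul _ _
    _ = C * (eLpNorm y 1 (volume.restrict KK)).toReal := by
        rw [eLpNorm_one_eq_lintegral_enorm, integral_norm_eq_lintegral_enorm hym]
    _ ≤ C * (16 * eLpNorm y (ENNReal.ofReal p) volume).toReal := by
        refine mul_le_mul_of_nonneg_left ?_ hC
        exact ENNReal.toReal_mono (ENNReal.mul_lt_top (by norm_num) hy).ne hle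
    _ = _ := by rw [ENNReal.toReal_mul]; norm_num; ring

theorem not_bounded (p : ℝ) (hp : 1 ≤ p) (hp' : p < 24/23) : ¬ LpBounded bb p := by
  rintro ⟨C, hC⟩
  obtain ⟨D, hD, hpair⟩ := pair_bound p hp
  have hp0 : 0 < p := by linarith
  have hpne : ENNReal.ofReal p ≠ 0 := by
    rw [Ne, ENNReal.ofReal_eq_zero]; linarith
  -- the inequality for every small `ε`
  have key : ∀ ε : ℝ, 0 < ε → ε ≤ 1/2 → c0 ≤ D * C * ε^(3/p - 23/8) := by
    intro ε hε hε1
    have hfin : volume (SS ε) ≠ ⊤ := by rw [SS_vol hε]; exact ENNReal.ofReal_ne_top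
    have hφ2 : MemLp ((SS ε).indicator fun _ => (1:ℂ)) 2 (volume : Measure Plane) :=
      memLp_indicator_const 2 (SS_meas ε) (1:ℂ) (Or.inr hfin)
    have hφp : MemLp ((SS ε).indicator fun _ => (1:ℂ)) (ENNReal.ofReal p) (volume : Measure Plane) :=
      memLp_indicator_const _ (SS_meas ε) (1:ℂ) (Or.inr hfin)
    set φ : L2 := hφ2.toLp _ with hφ
    have hφae := hφ2.coeFn_toLp
    have hφp' : MemLp φ (ENNReal.ofReal p) volume := (memLp_congr_ae hφae).mpr hφp
    obtain ⟨y, hy, -⟩ := resolvent_exists bb bb_elliptic 1 one_pos φ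
    have hb : eLpNorm y (ENNReal.ofReal p) volume ≤ C * eLpNorm φ (ENNReal.ofReal p) volume :=
      hC 1 one_pos φ y hφp' hy
    have hnorm : eLpNorm φ (ENNReal.ofReal p) volume = ENNReal.ofReal ((ε^3)^(1/p)) := by
      rw [eLpNorm_congr_ae hφae, eLpNorm_indicator_const (SS_meas ε) hpne ENNReal.ofReal_ne_top,
        SS_vol hε, ENNReal.toReal_ofReal hp0.le, enorm_one, one_mul,
        ENNReal.ofReal_rpow_of_pos (by positivity)]
    have hyfin : eLpNorm y (ENNReal.ofReal p) volume < ⊤ :=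
      lt_of_le_of_lt hb (ENNReal.mul_lt_top ENNReal.coe_lt_top hφp'.eLpNorm_lt_top)
    have h1 := hy.2 wL wL_inE
    rw [Complex.ofReal_one, one_pow, one_mul, dual y hy.1] at h1
    have h2 : ∫ z, φ z * conj (wL z) = ∫ z in SS ε, conj (w' z) := by
      rw [← integral_indicator (SS_meas ε)]
      apply integral_congr_ae
      filter_upwards [hφae, w'_2.coeFn_toLp] with z a1 a2
      have a2' : wL z = w' z := a2
      rw [a1, a2']
      by_cases h : z ∈ SS ε
      · rw [indicator_of_mem h, indicator_of_mem h, one_mul]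
      · rw [indicator_of_notMem h, indicator_of_notMem h, zero_mul]
    have h3 := int_lower hε hε1
    have h1' : ∫ z, y z * conj (fL z) = ∫ z, φ z * conj (wL z) := h1
    rw [← h2, ← h1'] at h3
    have h4 := h3.trans (hpair y hyfin)
    have h5 : (eLpNorm y (ENNReal.ofReal p) volume).toReal ≤ C * (ε^3)^(1/p) := by
      have := ENNReal.toReal_mono (ENNReal.mul_lt_top ENNReal.coe_lt_top hφp'.eLpNorm_lt_top).ne hb
      rw [ENNReal.toReal_mul, hnorm, ENNReal.toReal_ofReal (by positivity), ENNReal.coe_toReal] at this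
      exact this
    have h6 : c0 * ε^(-(1/8) : ℝ) * ε^3 ≤ D * (C * (ε^3)^(1/p)) :=
      h4.trans (mul_le_mul_of_nonneg_left h5 hD)
    have e1 : ε^(-(1/8) : ℝ) * ε^3 = ε^(23/8 : ℝ) := by
      rw [← Real.rpow_natCast, ← Real.rpow_add hε]; norm_num
    have e2 : (ε^3)^(1/p) = ε^(3/p - 23/8) * ε^(23/8 : ℝ) := by
      rw [← Real.rpow_add hε, ← Real.rpow_natCast, ← Real.rpow_mul hε.le]
      congr 1; push_cast; ring
    rw [mul_assoc, e1, e2] at h6
    have hpos : 0 < ε^(23/8 : ℝ) := Real.rpow_pos_of_pos hε _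
    refine le_of_mul_le_mul_right ?_ hpos
    calc c0 * ε^(23/8 : ℝ) ≤ _ := h6
      _ = _ := by ring
  have hs : 0 < 3/p - 23/8 := by
    rw [sub_pos, div_lt_div_iff₀ (by norm_num) hp0]; linarith
  have hlim : Filter.Tendsto (fun ε : ℝ => D * C * ε^(3/p - 23/8)) (nhdsWithin 0 (Ioi 0)) (nhds 0) := by
    have h1 : Filter.Tendsto (fun ε : ℝ => ε^(3/p - 23/8)) (nhds 0) (nhds 0) := by
      have := (Real.continuousAt_rpow_const (0:ℝ) (3/p - 23/8) (Or.inr hs.le)).tendsto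
      rwa [Real.zero_rpow hs.ne'] at this
    have h2 := (h1.const_mul (D*C)).mono_left (nhdsWithin_le_nhds (s := Ioi 0))
    simpa using h2
  have hev : ∀ᶠ ε in nhdsWithin (0:ℝ) (Ioi 0), c0 ≤ D * C * ε^(3/p - 23/8) := by
    have h1 : ∀ᶠ ε in nhdsWithin (0:ℝ) (Ioi 0), ε ∈ Ioi (0:ℝ) := self_mem_nhdsWithin
    have h2 : ∀ᶠ ε in nhdsWithin (0:ℝ) (Ioi 0), ε < 1/2 :=
      nhdsWithin_le_nhds (Iio_mem_nhds (by norm_num))
    filter_upwards [h1, h2] with ε a b using key ε a b.le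
  have := ge_of_tendsto hlim hev
  linarith [c0_pos]

theorem pMinus_ge : 24/23 ≤ pMinus bb := by
  apply le_csInf
  · exact ⟨2, by norm_num, by norm_num, lpBounded_two bb bb_elliptic⟩
  · rintro p ⟨h1, -, h3⟩
    by_contra hcon
    exact not_bounded p h1 (not_le.mp hcon) h3

end Pool.Agent.W787.PE
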