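import Mathlib

set_option autoImplicit false

open Real Finset

namespace Pool.Agent.W787.RP

/-- Bernoulli relative entropy -/
noncomputable def kl (s t : ℝ) : ℝ := s * (log s - log t) + (1 - s) * (log (1 - s) - log (1 - t))

lemma kl_le {s t : ℝ} (hs0 : 0 < s) (hs1 : s < 1) (ht0 : 0 < t) (ht1 : t < 1) :
    kl s t ≤ (s - t) ^ 2 / (t * (1 - t)) := by
  have h1 : log s - log t ≤ s / t - 1 := by
    rw [← log_div hs0.ne' ht0.ne']
    exact log_le_sub_one_of_pos (by positivity)
  have ht1' : 0 < 1 - t := by linarith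
  have hs1' : 0 < 1 - s := by linarith
  have h2 : log (1 - s) - log (1 - t) ≤ (1 - s) / (1 - t) - 1 := by
    rw [← log_div hs1'.ne' ht1'.ne']
    exact log_le_sub_one_of_pos (by positivity)
  have e : (s - t) ^ 2 / (t * (1 - t)) = s * (s / t - 1) + (1 - s) * ((1 - s) / (1 - t) - 1) := by
    field_simp
    ring
  rw [e]
  unfold kl
  exact add_le_add (mul_le_mul_of_nonneg_left h1 hs0.le) (mul_le_mul_of_nonneg_left h2 hs1'.le)

lemma kl_ge {s t : ℝ} (hs0 : 0 < s) (hs1 : s < 1) (ht0 : 0 < t) (ht1 : t < 1) :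
    2 * (s - t) ^ 2 ≤ kl s t := by
  -- psi t = s log t + (1-s) log (1-t) + 2 (t-s)^2 has its maximum at s
  set psi : ℝ → ℝ := fun t => s * log t + (1 - s) * log (1 - t) + 2 * (t - s) ^ 2 with hpsi
  have hd : ∀ x : ℝ, 0 < x → x < 1 → HasDerivAt psi ((s - x) * (1 / (x * (1 - x)) - 4)) x := by
    intro x hx0 hx1
    have hx1' : 1 - x ≠ 0 := by linarith
    have h1 : HasDerivAt (fun t : ℝ => s * log t) (s * x⁻¹) x := (hasDerivAt_log hx0.ne').const_mul s
    have h2 : HasDerivAt (fun t : ℝ => log (1 - t)) (-1 / (1 - x)) x := by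
      have := (HasDerivAt.log ((hasDerivAt_id x).const_sub 1) (by simpa using hx1'))
      simpa using this
    have h3 : HasDerivAt (fun t : ℝ => 2 * (t - s) ^ 2) (2 * (2 * (x - s))) x := by
      have := (((hasDerivAt_id x).sub_const s).pow 2).const_mul 2
      simpa using this
    have h := (h1.add (h2.const_mul (1 - s))).add h3
    refine HasDerivAt.congr_deriv h ?_
    have hx0' := hx0.ne'
    field_simp
    ring
  have hpos : ∀ x : ℝ, 0 < x → x < 1 → 0 ≤ 1 / (x * (1 - x)) - 4 := by
    intro x hx0 hx1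
    have hx : 0 < x * (1 - x) := mul_pos hx0 (by linarith)
    rw [sub_nonneg, le_div_iff₀ hx]
    nlinarith [sq_nonneg (2 * x - 1)]
  have key : psi t ≤ psi s := by
    rcases le_total t s with h | h
    · -- monotone on [t, s]
      have hmono : MonotoneOn psi (Set.Icc t s) := by
        apply monotoneOn_of_deriv_nonneg (convex_Icc t s)
        · intro x hx
          exact (hd x (by linarith [hx.1]) (by linarith [hx.2])).continuousAt.continuousWithinAt
        · intro x hx
          rw [interior_Icc] at hx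
          exact (hd x (by linarith [hx.1]) (by linarith [hx.2])).differentiableAt.differentiableWithinAt
        · intro x hx
          rw [interior_Icc] at hx
          rw [(hd x (by linarith [hx.1]) (by linarith [hx.2])).deriv]
          exact mul_nonneg (by linarith [hx.2]) (hpos x (by linarith [hx.1]) (by linarith [hx.2]))
      exact hmono (Set.left_mem_Icc.2 h) (Set.right_mem_Icc.2 h) h
    · have hanti : AntitoneOn psi (Set.Icc s t) := by
        apply antitoneOn_of_deriv_nonpos (convex_Icc s t)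
        · intro x hx
          exact (hd x (by linarith [hx.1]) (by linarith [hx.2])).continuousAt.continuousWithinAt
        · intro x hx
          rw [interior_Icc] at hx
          exact (hd x (by linarith [hx.1]) (by linarith [hx.2])).differentiableAt.differentiableWithinAt
        · intro x hx
          rw [interior_Icc] at hx
          rw [(hd x (by linarith [hx.1]) (by linarith [hx.2])).deriv]
          exact mul_nonpos_of_nonpos_of_nonneg (by linarith [hx.1]) (hpos x (by linarith [hx.1]) (by linarith [hx.2]))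
      exact hanti (Set.left_mem_Icc.2 h) (Set.right_mem_Icc.2 h) h
  have e : psi s = s * log s + (1 - s) * log (1 - s) := by simp [hpsi]
  rw [e] at key
  simp only [hpsi] at key
  unfold kl
  nlinarith [key]

lemma sum_exp_neg_le (n : ℕ) : ∑ j ∈ range n, exp (-(j : ℝ)) ≤ 2 := by
  have h1 : ∀ j : ℕ, exp (-(j : ℝ)) = (exp (-1)) ^ j := by
    intro j; rw [← exp_nat_mul]; congr 1; ring
  simp only [h1]
  have hr0 : 0 < exp (-1) := exp_pos _
  have hr1 : exp (-1) ≤ 1 / 2 := by
    rw [exp_neg, ← one_div]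
    apply one_div_le_one_div_of_le (by norm_num)
    have := add_one_le_exp (1 : ℝ)
    linarith
  calc ∑ j ∈ range n, (exp (-1)) ^ j ≤ ∑ j ∈ range n, (1 / 2 : ℝ) ^ j :=
        sum_le_sum fun j _ => pow_le_pow_left₀ hr0.le hr1 j
    _ ≤ 2 := by
        rw [geom_sum_eq (by norm_num)]
        have : (0 : ℝ) ≤ (1 / 2) ^ n := by positivity
        have e : ((1 / 2 : ℝ) ^ n - 1) / (1 / 2 - 1) = 2 * (1 - (1 / 2) ^ n) := by ring
        rw [e]
        linarith

lemma sum_exp_abs_le (I : Finset ℕ) {x : ℝ} (hx : 0 ≤ x) : ∑ i ∈ I, exp (-|x - i|) ≤ 4 := by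
  set k := ⌊x⌋₊ with hk
  have hk1 : (k : ℝ) ≤ x := Nat.floor_le hx
  have hk2 : x < k + 1 := Nat.lt_floor_add_one x
  obtain ⟨n, hn⟩ := I.exists_nat_subset_range
  have h1 : ∑ i ∈ I, exp (-|x - i|) ≤ ∑ i ∈ range (k + 1 + n), exp (-|x - i|) :=
    sum_le_sum_of_subset_of_nonneg (hn.trans (range_mono (by omega))) fun _ _ _ => (exp_pos _).le
  rw [sum_range_add] at h1
  have h2 : ∑ i ∈ range (k + 1), exp (-|x - i|) ≤ 2 := by
    rw [← sum_range_reflect]
    refine le_trans (sum_le_sum fun j hj => ?_) (sum_exp_neg_le (k + 1))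
    rw [mem_range] at hj
    apply exp_le_exp.2
    apply neg_le_neg
    have : ((k + 1 - 1 - j : ℕ) : ℝ) = k - j := by
      rw [Nat.add_sub_cancel, Nat.cast_sub (by omega)]
    rw [this]
    calc (j : ℝ) ≤ x - (k - j) := by linarith
      _ ≤ |x - (k - j)| := le_abs_self _
  have h3 : ∑ i ∈ range n, exp (-|x - (k + 1 + i : ℕ)|) ≤ 2 := by
    refine le_trans (sum_le_sum fun j _ => ?_) (sum_exp_neg_le n)
    apply exp_le_exp.2
    apply neg_le_neg
    push_cast
    calc (j : ℝ) ≤ -(x - (k + 1 + j)) := by linarith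
      _ ≤ |x - (k + 1 + j)| := neg_le_abs _
  linarith

end Pool.Agent.W787.RP
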