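import Mathlib
import Pool.Agent.W787.RPa

set_option autoImplicit false

open Real Finset

namespace Pool.Agent.W787.RP

/-- normalising constant of the monomial `z₀^(i·10k) z₁^((10k-i)·10k)` -/
noncomputable def kap (k i : ℕ) : ℝ :=
  1 / (√((i : ℝ) / (10 * k)) ^ (i * (10 * k)) * √(1 - (i : ℝ) / (10 * k)) ^ ((10 * k - i) * (10 * k)))

lemma s_bounds {k i : ℕ} (hk : 1 ≤ k) (h1 : 2 * k ≤ i) (h2 : i ≤ 8 * k) :
    (1 : ℝ) / 5 ≤ (i : ℝ) / (10 * k) ∧ (i : ℝ) / (10 * k) ≤ 4 / 5 := by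
  have hk' : (0 : ℝ) < 10 * k := by
    have : (1 : ℝ) ≤ k := by exact_mod_cast hk
    linarith
  have h1' : (2 : ℝ) * k ≤ i := by exact_mod_cast h1
  have h2' : (i : ℝ) ≤ 8 * k := by exact_mod_cast h2
  constructor
  · rw [le_div_iff₀ hk']; linarith
  · rw [div_le_iff₀ hk']; linarith

lemma kap_pos {k i : ℕ} (hk : 1 ≤ k) (h1 : 2 * k ≤ i) (h2 : i ≤ 8 * k) : 0 < kap k i := by
  obtain ⟨ha, hb⟩ := s_bounds hk h1 h2
  unfold kap
  have h3 : 0 < √((i : ℝ) / (10 * k)) := sqrt_pos.2 (by linarith)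
  have h4 : 0 < √(1 - (i : ℝ) / (10 * k)) := sqrt_pos.2 (by linarith)
  positivity

lemma log_kap {k i : ℕ} (hk : 1 ≤ k) (h1 : 2 * k ≤ i) (h2 : i ≤ 8 * k) :
    log (kap k i) = -((10 * k) ^ 2 / 2) * (((i : ℝ) / (10 * k)) * log ((i : ℝ) / (10 * k)) +
      (1 - (i : ℝ) / (10 * k)) * log (1 - (i : ℝ) / (10 * k))) := by
  obtain ⟨ha, hb⟩ := s_bounds hk h1 h2
  have h3 : 0 < √((i : ℝ) / (10 * k)) := sqrt_pos.2 (by linarith)
  have h4 : 0 < √(1 - (i : ℝ) / (10 * k)) := sqrt_pos.2 (by linarith)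
  have hk' : (10 * k : ℝ) ≠ 0 := by
    have : (1 : ℝ) ≤ k := by exact_mod_cast hk
    positivity
  unfold kap
  rw [log_div one_ne_zero (by positivity), log_one, log_mul (by positivity) (by positivity), log_pow, log_pow,
    log_sqrt (by linarith), log_sqrt (by linarith)]
  have e1 : ((i * (10 * k) : ℕ) : ℝ) = (10 * k) ^ 2 * ((i : ℝ) / (10 * k)) := by
    push_cast; field_simp
  have e2 : (((10 * k - i) * (10 * k) : ℕ) : ℝ) = (10 * k) ^ 2 * (1 - (i : ℝ) / (10 * k)) := by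
    rw [Nat.cast_mul, Nat.cast_sub (by omega)]
    push_cast; field_simp
  rw [e1, e2]
  ring

lemma kap_le {k i : ℕ} (hk : 1 ≤ k) (h1 : 2 * k ≤ i) (h2 : i ≤ 8 * k) : kap k i ≤ 2 ^ (50 * k ^ 2) := by
  obtain ⟨ha, hb⟩ := s_bounds hk h1 h2
  have hp := kap_pos hk h1 h2
  rw [← log_le_log_iff hp (by positivity), log_kap hk h1 h2, log_pow]
  have h := kl_ge (s := (i : ℝ) / (10 * k)) (t := 1 / 2) (by linarith) (by linarith) (by norm_num) (by norm_num)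
  unfold kl at h
  have e : log (1 / 2 : ℝ) = - log 2 := by rw [one_div, log_inv]
  rw [show (1 : ℝ) - 1 / 2 = 1 / 2 by norm_num, e] at h
  have h5 : 0 ≤ (i : ℝ) / (10 * k) * (log ((i : ℝ) / (10 * k)) - -log 2) + (1 - (i : ℝ) / (10 * k)) * (log (1 - (i : ℝ) / (10 * k)) - -log 2) :=
    le_trans (by positivity) h
  push_cast
  have hk2 : (0 : ℝ) ≤ (k : ℝ) ^ 2 := by positivity
  nlinarith [mul_nonneg hk2 h5]

/-- modulus of the normalised monomial -/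
noncomputable def mm (k i : ℕ) (x y : ℝ) : ℝ := kap k i * x ^ (i * (10 * k)) * y ^ ((10 * k - i) * (10 * k))

lemma mm_nonneg {k i : ℕ} (hk : 1 ≤ k) (h1 : 2 * k ≤ i) (h2 : i ≤ 8 * k) {x y : ℝ} (hx : 0 ≤ x) (hy : 0 ≤ y) :
    0 ≤ mm k i x y := by
  have := kap_pos hk h1 h2
  unfold mm; positivity

lemma mm_eq {k i : ℕ} (hk : 1 ≤ k) (h1 : 2 * k ≤ i) (h2 : i ≤ 8 * k) {x y : ℝ} (hx : 0 < x) (hy : 0 < y)
    (hxy : x ^ 2 + y ^ 2 = 1) :
    mm k i x y = exp (-((10 * k) ^ 2 / 2) * kl ((i : ℝ) / (10 * k)) (x ^ 2)) := by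
  obtain ⟨ha, hb⟩ := s_bounds hk h1 h2
  have hp := kap_pos hk h1 h2
  have hpos : 0 < mm k i x y := by unfold mm; positivity
  rw [← exp_log hpos]
  congr 1
  unfold mm
  have hk' : (10 * k : ℝ) ≠ 0 := by
    have : (1 : ℝ) ≤ k := by exact_mod_cast hk
    positivity
  rw [log_mul (by positivity) (by positivity), log_mul (by positivity) (by positivity), log_pow, log_pow, log_kap hk h1 h2]
  have e1 : ((i * (10 * k) : ℕ) : ℝ) = (10 * k) ^ 2 * ((i : ℝ) / (10 * k)) := by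
    push_cast; field_simp
  have e2 : (((10 * k - i) * (10 * k) : ℕ) : ℝ) = (10 * k) ^ 2 * (1 - (i : ℝ) / (10 * k)) := by
    rw [Nat.cast_mul, Nat.cast_sub (by omega)]
    push_cast; field_simp
  have e3 : log (x ^ 2) = 2 * log x := by rw [log_pow]; norm_num
  have e4 : log (1 - x ^ 2) = 2 * log y := by
    rw [show 1 - x ^ 2 = y ^ 2 by linarith, log_pow]; norm_num
  unfold kl
  rw [e1, e2, e3, e4]
  ring

lemma mm_le {k i : ℕ} (hk : 1 ≤ k) (h1 : 2 * k ≤ i) (h2 : i ≤ 8 * k) {x y : ℝ} (hx : 0 ≤ x) (hy : 0 ≤ y)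
    (hxy : x ^ 2 + y ^ 2 = 1) : mm k i x y ≤ exp (-(10 * k * x ^ 2 - i) ^ 2) := by
  obtain ⟨ha, hb⟩ := s_bounds hk h1 h2
  rcases hx.eq_or_lt with hx0 | hx0
  · have : i * (10 * k) ≠ 0 := by
      have : 0 < i * (10 * k) := by positivity [show 0 < i by omega]
      omega
    unfold mm
    rw [← hx0, zero_pow this, mul_zero, zero_mul]
    exact (exp_pos _).le
  rcases hy.eq_or_lt with hy0 | hy0
  · have : (10 * k - i) * (10 * k) ≠ 0 := by
      have : 0 < (10 * k - i) * (10 * k) := Nat.mul_pos (by omega) (by omega)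
      omega
    unfold mm
    rw [← hy0, zero_pow this, mul_zero]
    exact (exp_pos _).le
  rw [mm_eq hk h1 h2 hx0 hy0 hxy]
  apply exp_le_exp.2
  have hk' : (10 * k : ℝ) ≠ 0 := by
    have : (1 : ℝ) ≤ k := by exact_mod_cast hk
    positivity
  have h := kl_ge (s := (i : ℝ) / (10 * k)) (t := x ^ 2) (by linarith) (by linarith) (by positivity) (by nlinarith)
  have e : (10 * k * x ^ 2 - i) ^ 2 = ((10 * k) ^ 2 / 2) * (2 * ((i : ℝ) / (10 * k) - x ^ 2) ^ 2) := by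
    field_simp
    ring
  rw [e]
  have hN : (0 : ℝ) ≤ (10 * k) ^ 2 / 2 := by positivity
  nlinarith [mul_le_mul_of_nonneg_left h hN]

lemma half_le_exp : (1 : ℝ) / 2 ≤ exp (-(2 / 3)) := by
  rw [exp_neg, ← one_div]
  apply one_div_le_one_div_of_le (exp_pos _)
  rw [← le_log_iff_exp_le (by norm_num)]
  have := log_two_gt_d9
  linarith

lemma half_le_mm {k i : ℕ} (hk : 1 ≤ k) (h1 : 2 * k ≤ i) (h2 : i ≤ 8 * k) {x y : ℝ} (hx : 0 ≤ x) (hy : 0 ≤ y)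
    (hxy : x ^ 2 + y ^ 2 = 1) (ht1 : 1 / 4 ≤ x ^ 2) (ht2 : x ^ 2 ≤ 3 / 4) (hi : |10 * k * x ^ 2 - i| ≤ 1 / 2) :
    1 / 2 ≤ mm k i x y := by
  obtain ⟨ha, hb⟩ := s_bounds hk h1 h2
  have hx0 : 0 < x := by
    rcases hx.eq_or_lt with h | h
    · rw [← h] at ht1; norm_num at ht1
    · exact h
  have hy0 : 0 < y := by
    rcases hy.eq_or_lt with h | h
    · rw [← h] at hxy; nlinarith
    · exact h
  rw [mm_eq hk h1 h2 hx0 hy0 hxy]
  refine half_le_exp.trans (exp_le_exp.2 ?_)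
  have hk' : (0 : ℝ) < 10 * k := by
    have : (1 : ℝ) ≤ k := by exact_mod_cast hk
    positivity
  have h := kl_le (s := (i : ℝ) / (10 * k)) (t := x ^ 2) (by linarith) (by linarith) (by positivity) (by nlinarith)
  have hden : 3 / 16 ≤ x ^ 2 * (1 - x ^ 2) := by nlinarith
  have h3 : ((i : ℝ) / (10 * k) - x ^ 2) ^ 2 / (x ^ 2 * (1 - x ^ 2)) ≤ ((i : ℝ) / (10 * k) - x ^ 2) ^ 2 / (3 / 16) :=
    div_le_div_of_nonneg_left (by positivity) (by norm_num) hden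
  have e : ((10 * k : ℝ)) ^ 2 * ((i : ℝ) / (10 * k) - x ^ 2) ^ 2 = (10 * k * x ^ 2 - i) ^ 2 := by
    field_simp
    ring
  have h4 : (10 * k * x ^ 2 - (i : ℝ)) ^ 2 ≤ 1 / 4 := by
    have := sq_le_sq' (neg_le_of_abs_le hi) (le_of_abs_le hi)
    linarith
  have hN : (0 : ℝ) ≤ (10 * k) ^ 2 / 2 := by positivity
  have h5 := mul_le_mul_of_nonneg_left (h.trans h3) hN
  have h6 : (10 * (k : ℝ)) ^ 2 / 2 * (((i : ℝ) / (10 * k) - x ^ 2) ^ 2 / (3 / 16)) =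
      (8 / 3) * (10 * k * x ^ 2 - i) ^ 2 := by
    rw [← e]; ring
  rw [h6] at h5
  linarith

end Pool.Agent.W787.RP
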