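import Mathlib
import Pool.Agent.W787.RPb

set_option autoImplicit false

open Real Finset

namespace Pool.Agent.W787.RP

lemma pow_diff_le {s t : ℝ} (hs0 : 0 ≤ s) (hs1 : s ≤ 1) (ht0 : 0 ≤ t) (ht1 : t ≤ 1) (m : ℕ) :
    |s ^ m - t ^ m| ≤ m * |s - t| := by
  have h := abs_pow_sub_pow_le s t m
  have h1 : max |s| |t| ^ (m - 1) ≤ 1 := by
    apply pow_le_one₀ (le_max_of_le_left (abs_nonneg _))
    rw [abs_of_nonneg hs0, abs_of_nonneg ht0]
    exact max_le hs1 ht1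
  calc |s ^ m - t ^ m| ≤ |s - t| * m * max |s| |t| ^ (m - 1) := h
    _ ≤ |s - t| * m * 1 := by gcongr
    _ = m * |s - t| := by ring

lemma prod_diff_le {s t : ℝ} (hs0 : 0 ≤ s) (hs1 : s ≤ 1) (ht0 : 0 ≤ t) (ht1 : t ≤ 1) (m n : ℕ) :
    |s ^ m * (1 - s) ^ n - t ^ m * (1 - t) ^ n| ≤ (m + n) * |s - t| := by
  have h1 := pow_diff_le hs0 hs1 ht0 ht1 m
  have h2 := pow_diff_le (s := 1 - s) (t := 1 - t) (by linarith) (by linarith) (by linarith) (by linarith) n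
  have e : |(1 - s) - (1 - t)| = |s - t| := by
    rw [show (1 - s) - (1 - t) = -(s - t) by ring, abs_neg]
  rw [e] at h2
  have h3 : |s ^ m| ≤ 1 := by rw [abs_of_nonneg (by positivity)]; exact pow_le_one₀ hs0 hs1
  have h4 : |(1 - t) ^ n| ≤ 1 := by
    rw [abs_of_nonneg (pow_nonneg (by linarith) _)]; exact pow_le_one₀ (by linarith) (by linarith)
  calc |s ^ m * (1 - s) ^ n - t ^ m * (1 - t) ^ n|
      = |s ^ m * ((1 - s) ^ n - (1 - t) ^ n) + (s ^ m - t ^ m) * (1 - t) ^ n| := by congr 1; ring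
    _ ≤ |s ^ m * ((1 - s) ^ n - (1 - t) ^ n)| + |(s ^ m - t ^ m) * (1 - t) ^ n| := abs_add_le _ _
    _ = |s ^ m| * |(1 - s) ^ n - (1 - t) ^ n| + |s ^ m - t ^ m| * |(1 - t) ^ n| := by rw [abs_mul, abs_mul]
    _ ≤ 1 * (n * |s - t|) + (m * |s - t|) * 1 := by gcongr
    _ = (m + n) * |s - t| := by ring

/-- error term of one monomial of `p` at one index `i` -/
noncomputable def er (k i m n : ℕ) (x y : ℝ) : ℝ :=
  kap k i * x ^ (i * (10 * k) - m) * y ^ ((10 * k - i) * (10 * k) - n) *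
    |((i : ℝ) / (10 * k)) ^ m * (1 - (i : ℝ) / (10 * k)) ^ n - (x ^ 2) ^ m * (y ^ 2) ^ n|

lemma abs_mul_exp_le (v : ℝ) : |v| * exp (-v ^ 2) ≤ exp (-|v|) := by
  have h1 : |v| ≤ exp (|v| - 1) := by
    have := add_one_le_exp (|v| - 1)
    linarith
  calc |v| * exp (-v ^ 2) ≤ exp (|v| - 1) * exp (-v ^ 2) := by gcongr
    _ = exp (|v| - 1 - v ^ 2) := by rw [← exp_add]; congr 1
    _ ≤ exp (-|v|) := by
        apply exp_le_exp.2
        have : v ^ 2 = |v| ^ 2 := (sq_abs v).symm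
        rw [this]
        nlinarith [sq_nonneg (|v| - 1)]

lemma er_le {k i m n d : ℕ} (hk : 1 ≤ k) (h1 : 2 * k ≤ i) (h2 : i ≤ 8 * k) (hm : m ≤ d) (hn : n ≤ d) (hd : d ≤ k)
    {x y : ℝ} (hx : 0 ≤ x) (hy : 0 ≤ y) (hxy : x ^ 2 + y ^ 2 = 1) :
    er k i m n x y ≤ 64 ^ d * (2 * d) / (10 * k) * exp (-|10 * k * x ^ 2 - i|) + 8 ^ d * (1 / 2) ^ (10 * k ^ 2) := by
  obtain ⟨ha, hb⟩ := s_bounds hk h1 h2
  have hkr : (1 : ℝ) ≤ k := by exact_mod_cast hk
  have hk' : (0 : ℝ) < 10 * k := by positivity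
  have hkp := kap_pos hk h1 h2
  set s := (i : ℝ) / (10 * k) with hs
  have hx1 : x ≤ 1 := by nlinarith
  have hy1 : y ≤ 1 := by nlinarith
  have hy2 : y ^ 2 = 1 - x ^ 2 := by linarith
  have ht0 : 0 ≤ x ^ 2 := by positivity
  have ht1 : x ^ 2 ≤ 1 := by nlinarith
  have hdk : d ≤ k ^ 2 := hd.trans (by nlinarith)
  have hai : 20 * k ^ 2 ≤ i * (10 * k) := by nlinarith
  have hbi : 20 * k ^ 2 ≤ (10 * k - i) * (10 * k) := by
    have : 2 * k ≤ 10 * k - i := by omega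
    nlinarith
  have hdiff : |s ^ m * (1 - s) ^ n - (x ^ 2) ^ m * (y ^ 2) ^ n| ≤ (m + n) * |s - x ^ 2| := by
    rw [hy2]; exact prod_diff_le (by linarith) (by linarith) ht0 ht1 m n
  have hdiff1 : |s ^ m * (1 - s) ^ n - (x ^ 2) ^ m * (y ^ 2) ^ n| ≤ 1 := by
    rw [abs_le]
    have q1 : 0 ≤ s ^ m * (1 - s) ^ n := mul_nonneg (pow_nonneg (by linarith) _) (pow_nonneg (by linarith) _)
    have q2 : s ^ m * (1 - s) ^ n ≤ 1 :=
      mul_le_one₀ (pow_le_one₀ (by linarith) (by linarith)) (pow_nonneg (by linarith) _) (pow_le_one₀ (by linarith) (by linarith))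
    have q3 : 0 ≤ (x ^ 2) ^ m * (y ^ 2) ^ n := by positivity
    have q4 : (x ^ 2) ^ m * (y ^ 2) ^ n ≤ 1 :=
      mul_le_one₀ (pow_le_one₀ ht0 ht1) (by positivity) (pow_le_one₀ (by positivity) (by linarith))
    constructor <;> linarith
  have hfar : ∀ w : ℝ, w ≤ kap k i * (1 / 8) ^ (20 * k ^ 2 - d) →
      w ≤ 8 ^ d * (1 / 2) ^ (10 * k ^ 2) := by
    intro w hw
    refine hw.trans ?_
    have e1 : ((1 : ℝ) / 8) ^ (20 * k ^ 2) = (1 / 8) ^ (20 * k ^ 2 - d) * (1 / 8) ^ d := by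
      rw [← pow_add]; congr 1; omega
    have e2 : ((1 : ℝ) / 8) ^ (20 * k ^ 2 - d) = 8 ^ d * (1 / 8) ^ (20 * k ^ 2) := by
      rw [e1]
      have : ((1 : ℝ) / 8) ^ d * 8 ^ d = 1 := by rw [← mul_pow]; norm_num
      calc ((1 : ℝ) / 8) ^ (20 * k ^ 2 - d) = (1 / 8) ^ (20 * k ^ 2 - d) * (((1 : ℝ) / 8) ^ d * 8 ^ d) := by rw [this, mul_one]
        _ = _ := by ring
    have e3 : ((1 : ℝ) / 8) ^ (20 * k ^ 2) = (1 / 2) ^ (60 * k ^ 2) := by
      rw [show (1 : ℝ) / 8 = (1 / 2) ^ 3 by norm_num, ← pow_mul]; congr 1; ring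
    have e4 : (2 : ℝ) ^ (50 * k ^ 2) * (1 / 2) ^ (60 * k ^ 2) = (1 / 2) ^ (10 * k ^ 2) := by
      rw [show 60 * k ^ 2 = 50 * k ^ 2 + 10 * k ^ 2 by ring, pow_add, ← mul_assoc, ← mul_pow]
      norm_num
    calc kap k i * (1 / 8) ^ (20 * k ^ 2 - d) ≤ 2 ^ (50 * k ^ 2) * (1 / 8) ^ (20 * k ^ 2 - d) := by
          gcongr; exact kap_le hk h1 h2
      _ = 8 ^ d * (2 ^ (50 * k ^ 2) * (1 / 2) ^ (60 * k ^ 2)) := by rw [e2, e3]; ring
      _ = 8 ^ d * (1 / 2) ^ (10 * k ^ 2) := by rw [e4]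
  have hnn1 : 0 ≤ 64 ^ d * (2 * d) / (10 * k) * exp (-|10 * k * x ^ 2 - i|) := by positivity
  have hnn2 : (0 : ℝ) ≤ 8 ^ d * (1 / 2) ^ (10 * k ^ 2) := by positivity
  by_cases hx8 : x < 1 / 8
  · -- far
    have : er k i m n x y ≤ kap k i * (1 / 8) ^ (20 * k ^ 2 - d) := by
      unfold er
      rw [← hs]
      have q1 : x ^ (i * (10 * k) - m) ≤ (1 / 8) ^ (20 * k ^ 2 - d) :=
        (pow_le_pow_left₀ hx hx8.le _).trans (pow_le_pow_of_le_one (by norm_num) (by norm_num) (by omega))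
      have q2 : y ^ ((10 * k - i) * (10 * k) - n) ≤ 1 := pow_le_one₀ hy hy1
      calc kap k i * x ^ (i * (10 * k) - m) * y ^ ((10 * k - i) * (10 * k) - n) *
            |s ^ m * (1 - s) ^ n - (x ^ 2) ^ m * (y ^ 2) ^ n|
          ≤ kap k i * (1 / 8) ^ (20 * k ^ 2 - d) * 1 * 1 := by gcongr
        _ = _ := by ring
    linarith [hfar _ this]
  by_cases hy8 : y < 1 / 8
  · have : er k i m n x y ≤ kap k i * (1 / 8) ^ (20 * k ^ 2 - d) := by
      unfold er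
      rw [← hs]
      have q1 : y ^ ((10 * k - i) * (10 * k) - n) ≤ (1 / 8) ^ (20 * k ^ 2 - d) :=
        (pow_le_pow_left₀ hy hy8.le _).trans (pow_le_pow_of_le_one (by norm_num) (by norm_num) (by omega))
      have q2 : x ^ (i * (10 * k) - m) ≤ 1 := pow_le_one₀ hx hx1
      calc kap k i * x ^ (i * (10 * k) - m) * y ^ ((10 * k - i) * (10 * k) - n) *
            |s ^ m * (1 - s) ^ n - (x ^ 2) ^ m * (y ^ 2) ^ n|
          ≤ kap k i * 1 * (1 / 8) ^ (20 * k ^ 2 - d) * 1 := by gcongr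
        _ = _ := by ring
    linarith [hfar _ this]
  · -- near
    rw [not_lt] at hx8 hy8
    have hx0 : 0 < x := by linarith
    have hy0 : 0 < y := by linarith
    have key : kap k i * x ^ (i * (10 * k) - m) * y ^ ((10 * k - i) * (10 * k) - n) ≤ 64 ^ d * mm k i x y := by
      unfold mm
      have e1 : x ^ (i * (10 * k)) = x ^ (i * (10 * k) - m) * x ^ m := by rw [← pow_add]; congr 1; omega
      have e2 : y ^ ((10 * k - i) * (10 * k)) = y ^ ((10 * k - i) * (10 * k) - n) * y ^ n := by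
        rw [← pow_add]; congr 1; omega
      have q1 : 1 ≤ 8 ^ d * x ^ m := by
        calc (1 : ℝ) = 8 ^ m * (1 / 8) ^ m := by rw [← mul_pow]; norm_num
          _ ≤ 8 ^ d * x ^ m := by gcongr; norm_num
      have q2 : 1 ≤ 8 ^ d * y ^ n := by
        calc (1 : ℝ) = 8 ^ n * (1 / 8) ^ n := by rw [← mul_pow]; norm_num
          _ ≤ 8 ^ d * y ^ n := by gcongr; norm_num
      have e3 : (64 : ℝ) ^ d = 8 ^ d * 8 ^ d := by rw [← mul_pow]; norm_num
      calc kap k i * x ^ (i * (10 * k) - m) * y ^ ((10 * k - i) * (10 * k) - n)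
          = kap k i * x ^ (i * (10 * k) - m) * y ^ ((10 * k - i) * (10 * k) - n) * (1 * 1) := by ring
        _ ≤ kap k i * x ^ (i * (10 * k) - m) * y ^ ((10 * k - i) * (10 * k) - n) * ((8 ^ d * x ^ m) * (8 ^ d * y ^ n)) := by
            gcongr
        _ = 64 ^ d * (kap k i * x ^ (i * (10 * k)) * y ^ ((10 * k - i) * (10 * k))) := by
            rw [e1, e2, e3]; ring
    have hmm := mm_le hk h1 h2 hx hy hxy
    set v := 10 * (k : ℝ) * x ^ 2 - i with hv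
    have hsv : |s - x ^ 2| = |v| / (10 * k) := by
      rw [← abs_of_pos hk', ← abs_div, abs_sub_comm, hs, hv]
      congr 1
      field_simp
    have hmn : ((m : ℝ) + n) ≤ 2 * d := by
      have : (m : ℝ) ≤ d := by exact_mod_cast hm
      have : (n : ℝ) ≤ d := by exact_mod_cast hn
      linarith
    calc er k i m n x y ≤ (64 ^ d * mm k i x y) * ((m + n) * |s - x ^ 2|) := by
          unfold er; rw [← hs]
          have := mm_nonneg hk h1 h2 hx hy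
          gcongr
      _ ≤ (64 ^ d * exp (-v ^ 2)) * ((2 * d) * (|v| / (10 * k))) := by
          rw [hsv]; gcongr
      _ = 64 ^ d * (2 * d) / (10 * k) * (|v| * exp (-v ^ 2)) := by ring
      _ ≤ 64 ^ d * (2 * d) / (10 * k) * exp (-|v|) := by
          gcongr; exact abs_mul_exp_le v
      _ ≤ _ := by linarith

/-- the index set -/
def II (k : ℕ) : Finset ℕ := Icc (2 * k) (8 * k)

lemma mem_II {k i : ℕ} : i ∈ II k ↔ 2 * k ≤ i ∧ i ≤ 8 * k := by unfold II; exact mem_Icc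

lemma card_II (k : ℕ) : ((II k).card : ℝ) ≤ 6 * k + 1 := by
  unfold II
  rw [Nat.card_Icc]
  have : 8 * k + 1 - 2 * k = 6 * k + 1 := by omega
  rw [this]; push_cast; exact le_rfl

lemma sum_er_le {k m n d : ℕ} (hk : 1 ≤ k) (hm : m ≤ d) (hn : n ≤ d) (hd : d ≤ k)
    {x y : ℝ} (hx : 0 ≤ x) (hy : 0 ≤ y) (hxy : x ^ 2 + y ^ 2 = 1) :
    ∑ i ∈ II k, er k i m n x y ≤ 64 ^ d * (d + 1) / k := by
  have hkr : (1 : ℝ) ≤ k := by exact_mod_cast hk
  have h1 : ∑ i ∈ II k, er k i m n x y ≤ ∑ i ∈ II k,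
      (64 ^ d * (2 * d) / (10 * k) * exp (-|10 * k * x ^ 2 - i|) + 8 ^ d * (1 / 2) ^ (10 * k ^ 2)) := by
    refine sum_le_sum fun i hi => ?_
    rw [mem_II] at hi
    exact er_le hk hi.1 hi.2 hm hn hd hx hy hxy
  rw [sum_add_distrib, ← mul_sum, sum_const, nsmul_eq_mul] at h1
  have h2 := sum_exp_abs_le (II k) (x := 10 * k * x ^ 2) (by positivity)
  have h3 : 64 ^ d * (2 * d) / (10 * k) * ∑ i ∈ II k, exp (-|10 * k * x ^ 2 - i|) ≤ 64 ^ d * d / k := by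
    calc 64 ^ d * (2 * d) / (10 * k) * ∑ i ∈ II k, exp (-|10 * k * x ^ 2 - i|)
        ≤ 64 ^ d * (2 * d) / (10 * k) * 4 := by gcongr
      _ = (4 / 5) * (64 ^ d * d / k) := by
          have : (k : ℝ) ≠ 0 := by positivity
          field_simp; ring
      _ ≤ 64 ^ d * d / k := by
          have : 0 ≤ (64 : ℝ) ^ d * d / k := by positivity
          linarith
  have h4 : ((II k).card : ℝ) * (8 ^ d * (1 / 2) ^ (10 * k ^ 2)) ≤ 64 ^ d / k := by
    have q1 : (8 : ℝ) ^ d ≤ 64 ^ d := by gcongr; norm_num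
    have q2 : ((k : ℝ) + 1) ≤ 2 ^ k := by
      have := Nat.lt_two_pow_self (n := k)
      exact_mod_cast this
    have q3 : (1 / 2 : ℝ) ^ (10 * k ^ 2) ≤ 1 / (7 * k * k) := by
      have r1 : (1 / 2 : ℝ) ^ (10 * k ^ 2) ≤ (1 / 2) ^ (10 * k) :=
        pow_le_pow_of_le_one (by norm_num) (by norm_num) (by nlinarith)
      have r2 : (1 / 2 : ℝ) ^ (10 * k) = 1 / (2 ^ k) ^ 10 := by
        rw [one_div, inv_pow, ← pow_mul, one_div, mul_comm k 10]
      have r3 : 7 * (k : ℝ) * k ≤ (2 ^ k) ^ 10 := by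
        calc 7 * (k : ℝ) * k ≤ 2 ^ 8 * (k + 1) ^ 2 := by nlinarith
          _ ≤ (k + 1) ^ 8 * (k + 1) ^ 2 := by gcongr; linarith
          _ = (k + 1) ^ 10 := by ring
          _ ≤ (2 ^ k) ^ 10 := by gcongr
      rw [r2] at r1
      exact r1.trans (one_div_le_one_div_of_le (by positivity) r3)
    calc ((II k).card : ℝ) * (8 ^ d * (1 / 2) ^ (10 * k ^ 2)) ≤ (6 * k + 1) * (64 ^ d * (1 / (7 * k * k))) := by
          gcongr
          exact card_II k
      _ ≤ (7 * k) * (64 ^ d * (1 / (7 * k * k))) := by gcongr; linarith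
      _ = 64 ^ d / k := by
          have : (k : ℝ) ≠ 0 := by positivity
          field_simp
  calc _ ≤ _ := h1
    _ ≤ 64 ^ d * d / k + 64 ^ d / k := add_le_add h3 h4
    _ = _ := by ring

end Pool.Agent.W787.RP
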