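import Mathlib
import Pool.Agent.W787.RPc

set_option autoImplicit false

open Real Finset

namespace Pool.Agent.W787.RP


/-- unit sphere of `ℂ²` -/
def Sph : Set (Fin 2 → ℂ) := {z | ‖z 0‖ ^ 2 + ‖z 1‖ ^ 2 = 1}

/-- normalised monomial as a polynomial -/
noncomputable def mon (k i : ℕ) : MvPolynomial (Fin 2) ℂ :=
  MvPolynomial.C (kap k i : ℂ) * MvPolynomial.X 0 ^ (i * (10 * k)) * MvPolynomial.X 1 ^ ((10 * k - i) * (10 * k))

/-- holomorphic substitute of `mon * conj p` -/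
noncomputable def cor (p : MvPolynomial (Fin 2) ℂ) (k i : ℕ) : MvPolynomial (Fin 2) ℂ :=
  ∑ m ∈ p.support, MvPolynomial.C ((kap k i : ℂ) * (starRingEnd ℂ) (p.coeff m) *
      (((i : ℝ) / (10 * k)) ^ (m 0) * (1 - (i : ℝ) / (10 * k)) ^ (m 1) : ℝ)) *
    MvPolynomial.X 0 ^ (i * (10 * k) - m 0) * MvPolynomial.X 1 ^ ((10 * k - i) * (10 * k) - m 1)

/-- holomorphic substitute of `mon * Re p` -/
noncomputable def Tm (p : MvPolynomial (Fin 2) ℂ) (k i : ℕ) : MvPolynomial (Fin 2) ℂ :=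
  MvPolynomial.C (1 / 2) * (mon k i * p + cor p k i)

/-- residue class of the index set -/
def IR (k r : ℕ) : Finset ℕ := (II k).filter fun i => i % 4 = r

noncomputable def TT (p : MvPolynomial (Fin 2) ℂ) (k r : ℕ) : MvPolynomial (Fin 2) ℂ :=
  ∑ i ∈ IR k r, MvPolynomial.C (1 / 10) * Tm p k i

noncomputable def PP (k r : ℕ) : MvPolynomial (Fin 2) ℂ :=
  ∑ i ∈ IR k r, MvPolynomial.C (1 / 10) * mon k i

lemma eval_mon (k i : ℕ) (z : Fin 2 → ℂ) :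
    MvPolynomial.eval z (mon k i) = (kap k i : ℂ) * z 0 ^ (i * (10 * k)) * z 1 ^ ((10 * k - i) * (10 * k)) := by
  simp [mon]

lemma norm_eval_mon {k i : ℕ} (hk : 1 ≤ k) (h1 : 2 * k ≤ i) (h2 : i ≤ 8 * k) (z : Fin 2 → ℂ) :
    ‖MvPolynomial.eval z (mon k i)‖ = mm k i ‖z 0‖ ‖z 1‖ := by
  rw [eval_mon, norm_mul, norm_mul, norm_pow, norm_pow, Complex.norm_real, Real.norm_of_nonneg (kap_pos hk h1 h2).le]
  rfl

lemma eval_eq_sum (p : MvPolynomial (Fin 2) ℂ) (z : Fin 2 → ℂ) :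
    MvPolynomial.eval z p = ∑ m ∈ p.support, p.coeff m * (z 0 ^ (m 0) * z 1 ^ (m 1)) := by
  rw [MvPolynomial.eval_eq']
  refine sum_congr rfl fun m _ => ?_
  rw [Fin.prod_univ_two]

lemma Tm_err {p : MvPolynomial (Fin 2) ℂ} {k i d : ℕ} (hk : 1 ≤ k) (h1 : 2 * k ≤ i) (h2 : i ≤ 8 * k)
    (hp : ∀ m ∈ p.support, m 0 ≤ d ∧ m 1 ≤ d) (hd : d ≤ k) {z : Fin 2 → ℂ} (hz : z ∈ Sph) :
    ‖MvPolynomial.eval z (Tm p k i) - ((MvPolynomial.eval z p).re : ℂ) * MvPolynomial.eval z (mon k i)‖ ≤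
      1 / 2 * ∑ m ∈ p.support, ‖p.coeff m‖ * er k i (m 0) (m 1) ‖z 0‖ ‖z 1‖ := by
  have hai : 20 * k ^ 2 ≤ i * (10 * k) := by nlinarith
  have hbi : 20 * k ^ 2 ≤ (10 * k - i) * (10 * k) := by
    have : 2 * k ≤ 10 * k - i := by omega
    nlinarith
  have hdk : d ≤ k ^ 2 := hd.trans (by nlinarith)
  have hre : ((MvPolynomial.eval z p).re : ℂ) = 1 / 2 * (MvPolynomial.eval z p + (starRingEnd ℂ) (MvPolynomial.eval z p)) := by
    rw [Complex.add_conj]; push_cast; ring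
  have hkk := (kap_pos hk h1 h2).le
  have e : MvPolynomial.eval z (Tm p k i) - ((MvPolynomial.eval z p).re : ℂ) * MvPolynomial.eval z (mon k i) =
      1 / 2 * ∑ m ∈ p.support, (starRingEnd ℂ) (p.coeff m) * ((kap k i : ℂ) * z 0 ^ (i * (10 * k) - m 0) *
        z 1 ^ ((10 * k - i) * (10 * k) - m 1) *
        (((((i : ℝ) / (10 * k)) ^ (m 0) * (1 - (i : ℝ) / (10 * k)) ^ (m 1) - (‖z 0‖ ^ 2) ^ (m 0) * (‖z 1‖ ^ 2) ^ (m 1) : ℝ)) : ℂ)) := by
    have e1 : MvPolynomial.eval z (Tm p k i) = 1 / 2 * (MvPolynomial.eval z (mon k i) * MvPolynomial.eval z p +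
        ∑ m ∈ p.support, ((kap k i : ℂ) * (starRingEnd ℂ) (p.coeff m) *
      (((i : ℝ) / (10 * k)) ^ (m 0) * (1 - (i : ℝ) / (10 * k)) ^ (m 1) : ℝ)) *
      z 0 ^ (i * (10 * k) - m 0) * z 1 ^ ((10 * k - i) * (10 * k) - m 1)) := by
      unfold Tm cor
      simp only [map_mul, map_add, MvPolynomial.eval_C, map_sum, map_pow, MvPolynomial.eval_X]
    have e2 : (starRingEnd ℂ) (MvPolynomial.eval z p) * MvPolynomial.eval z (mon k i) =
        ∑ m ∈ p.support, (starRingEnd ℂ) (p.coeff m) * ((kap k i : ℂ) * z 0 ^ (i * (10 * k) - m 0) *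
        z 1 ^ ((10 * k - i) * (10 * k) - m 1) * ((((‖z 0‖ ^ 2) ^ (m 0) * (‖z 1‖ ^ 2) ^ (m 1) : ℝ)) : ℂ)) := by
      rw [eval_eq_sum, eval_mon, map_sum, sum_mul]
      refine sum_congr rfl fun m hm => ?_
      obtain ⟨hm0, hm1⟩ := hp m hm
      rw [map_mul, map_mul, map_pow, map_pow]
      have q0 : z 0 ^ (i * (10 * k)) = z 0 ^ (i * (10 * k) - m 0) * z 0 ^ m 0 := by rw [← pow_add]; congr 1; omega
      have q1 : z 1 ^ ((10 * k - i) * (10 * k)) = z 1 ^ ((10 * k - i) * (10 * k) - m 1) * z 1 ^ m 1 := by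
        rw [← pow_add]; congr 1; omega
      have n0 : ((‖z 0‖ : ℂ)) ^ 2 = z 0 * (starRingEnd ℂ) (z 0) := by
        rw [Complex.mul_conj, Complex.normSq_eq_norm_sq]; push_cast; ring
      have n1 : ((‖z 1‖ : ℂ)) ^ 2 = z 1 * (starRingEnd ℂ) (z 1) := by
        rw [Complex.mul_conj, Complex.normSq_eq_norm_sq]; push_cast; ring
      simp only [Complex.ofReal_mul, Complex.ofReal_pow]
      rw [q0, q1, n0, n1, mul_pow, mul_pow]
      ring
    rw [e1, hre]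
    have e3 : ∀ m : Fin 2 →₀ ℕ, (starRingEnd ℂ) (p.coeff m) * ((kap k i : ℂ) * z 0 ^ (i * (10 * k) - m 0) *
        z 1 ^ ((10 * k - i) * (10 * k) - m 1) *
        (((((i : ℝ) / (10 * k)) ^ (m 0) * (1 - (i : ℝ) / (10 * k)) ^ (m 1) - (‖z 0‖ ^ 2) ^ (m 0) * (‖z 1‖ ^ 2) ^ (m 1) : ℝ)) : ℂ)) =
        ((kap k i : ℂ) * (starRingEnd ℂ) (p.coeff m) *
      (((i : ℝ) / (10 * k)) ^ (m 0) * (1 - (i : ℝ) / (10 * k)) ^ (m 1) : ℝ)) *
      z 0 ^ (i * (10 * k) - m 0) * z 1 ^ ((10 * k - i) * (10 * k) - m 1) -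
      (starRingEnd ℂ) (p.coeff m) * ((kap k i : ℂ) * z 0 ^ (i * (10 * k) - m 0) *
        z 1 ^ ((10 * k - i) * (10 * k) - m 1) * ((((‖z 0‖ ^ 2) ^ (m 0) * (‖z 1‖ ^ 2) ^ (m 1) : ℝ)) : ℂ)) := by
      intro m
      push_cast
      ring
    simp only [e3, sum_sub_distrib]
    rw [← e2]
    ring
  rw [e, norm_mul]
  have h12 : ‖(1 / 2 : ℂ)‖ = 1 / 2 := by norm_num
  rw [h12]
  gcongr
  refine (norm_sum_le _ _).trans (sum_le_sum fun m _ => ?_)
  rw [norm_mul, RCLike.norm_conj]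
  gcongr
  rw [norm_mul, norm_mul, norm_mul, norm_pow, norm_pow, Complex.norm_real, Complex.norm_real, Real.norm_of_nonneg hkk]
  rfl

lemma sum_norm_mon_le {k : ℕ} (hk : 1 ≤ k) {z : Fin 2 → ℂ} (hz : z ∈ Sph) :
    ∑ i ∈ II k, ‖MvPolynomial.eval z (mon k i)‖ ≤ 6 := by
  have h1 : ∑ i ∈ II k, ‖MvPolynomial.eval z (mon k i)‖ ≤ ∑ i ∈ II k, exp (1 / 4) * exp (-|10 * k * ‖z 0‖ ^ 2 - i|) := by
    refine sum_le_sum fun i hi => ?_
    rw [mem_II] at hi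
    rw [norm_eval_mon hk hi.1 hi.2]
    refine (mm_le hk hi.1 hi.2 (norm_nonneg _) (norm_nonneg _) hz).trans ?_
    rw [← exp_add]
    apply exp_le_exp.2
    have : (10 * (k : ℝ) * ‖z 0‖ ^ 2 - i) ^ 2 = |10 * (k : ℝ) * ‖z 0‖ ^ 2 - i| ^ 2 := (sq_abs _).symm
    rw [this]
    nlinarith [sq_nonneg (|10 * (k : ℝ) * ‖z 0‖ ^ 2 - i| - 1 / 2)]
  rw [← mul_sum] at h1
  have h2 := sum_exp_abs_le (II k) (x := 10 * k * ‖z 0‖ ^ 2) (by positivity)
  have h3 : exp (1 / 4) ≤ 3 / 2 := by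
    have h := add_one_le_exp (-(1 / 4 : ℝ))
    have h4 : exp (1 / 4) * exp (-(1 / 4)) = 1 := by rw [← exp_add]; norm_num
    have h5 := exp_pos (1 / 4 : ℝ)
    nlinarith
  calc _ ≤ _ := h1
    _ ≤ 3 / 2 * 4 := by gcongr
    _ = 6 := by norm_num

lemma eval_PP (k r : ℕ) (z : Fin 2 → ℂ) :
    MvPolynomial.eval z (PP k r) = 1 / 10 * ∑ i ∈ IR k r, MvPolynomial.eval z (mon k i) := by
  unfold PP
  rw [map_sum, mul_sum]
  refine sum_congr rfl fun i _ => ?_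
  rw [map_mul, MvPolynomial.eval_C]

lemma eval_TT (p : MvPolynomial (Fin 2) ℂ) (k r : ℕ) (z : Fin 2 → ℂ) :
    MvPolynomial.eval z (TT p k r) = 1 / 10 * ∑ i ∈ IR k r, MvPolynomial.eval z (Tm p k i) := by
  unfold TT
  rw [map_sum, mul_sum]
  refine sum_congr rfl fun i _ => ?_
  rw [map_mul, MvPolynomial.eval_C]

lemma IR_subset (k r : ℕ) : IR k r ⊆ II k := filter_subset _ _

lemma norm_PP_le {k : ℕ} (hk : 1 ≤ k) (r : ℕ) {z : Fin 2 → ℂ} (hz : z ∈ Sph) :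
    ‖MvPolynomial.eval z (PP k r)‖ ≤ 3 / 5 := by
  rw [eval_PP, norm_mul]
  have h1 : ‖(1 / 10 : ℂ)‖ = 1 / 10 := by norm_num
  rw [h1]
  have h2 : ‖∑ i ∈ IR k r, MvPolynomial.eval z (mon k i)‖ ≤ 6 :=
    (norm_sum_le _ _).trans ((sum_le_sum_of_subset_of_nonneg (IR_subset k r) fun _ _ _ => norm_nonneg _).trans
      (sum_norm_mon_le hk hz))
  linarith

/-- the error of `TT` -/
lemma TT_err {p : MvPolynomial (Fin 2) ℂ} {k r d : ℕ} (hk : 1 ≤ k)
    (hp : ∀ m ∈ p.support, m 0 ≤ d ∧ m 1 ≤ d) (hd : d ≤ k) {z : Fin 2 → ℂ} (hz : z ∈ Sph) :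
    ‖MvPolynomial.eval z (TT p k r) - ((MvPolynomial.eval z p).re : ℂ) * MvPolynomial.eval z (PP k r)‖ ≤
      (∑ m ∈ p.support, ‖p.coeff m‖) * (64 ^ d * (d + 1)) / k := by
  rw [eval_TT, eval_PP, mul_left_comm, ← mul_sub, mul_sum, ← sum_sub_distrib, norm_mul]
  have h1 : ‖(1 / 10 : ℂ)‖ = 1 / 10 := by norm_num
  rw [h1]
  have h2 : ‖∑ i ∈ IR k r, (MvPolynomial.eval z (Tm p k i) - ((MvPolynomial.eval z p).re : ℂ) * MvPolynomial.eval z (mon k i))‖ ≤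
      ∑ i ∈ II k, 1 / 2 * ∑ m ∈ p.support, ‖p.coeff m‖ * er k i (m 0) (m 1) ‖z 0‖ ‖z 1‖ := by
    refine (norm_sum_le _ _).trans ?_
    refine le_trans (sum_le_sum (g := fun i => 1 / 2 * ∑ m ∈ p.support, ‖p.coeff m‖ * er k i (m 0) (m 1) ‖z 0‖ ‖z 1‖) fun i hi => ?_) ?_
    · have hi' := IR_subset k r hi
      rw [mem_II] at hi'
      exact Tm_err hk hi'.1 hi'.2 hp hd hz
    · refine sum_le_sum_of_subset_of_nonneg (IR_subset k r) fun i hi _ => ?_
      rw [mem_II] at hi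
      have hkp := kap_pos hk hi.1 hi.2
      refine mul_nonneg (by norm_num) (sum_nonneg fun m _ => mul_nonneg (norm_nonneg _) ?_)
      unfold er
      positivity
  have h3 : ∑ i ∈ II k, 1 / 2 * ∑ m ∈ p.support, ‖p.coeff m‖ * er k i (m 0) (m 1) ‖z 0‖ ‖z 1‖ ≤
      1 / 2 * ∑ m ∈ p.support, ‖p.coeff m‖ * (64 ^ d * (d + 1) / k) := by
    rw [← mul_sum, sum_comm]
    gcongr with m hm
    rw [← mul_sum]
    gcongr
    exact sum_er_le hk (hp m hm).1 (hp m hm).2 hd (norm_nonneg _) (norm_nonneg _) hz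
  rw [← sum_mul] at h3
  have h4 : 0 ≤ (∑ m ∈ p.support, ‖p.coeff m‖) * (64 ^ d * (d + 1) / k) := by positivity
  calc _ ≤ 1 / 10 * (1 / 2 * ((∑ m ∈ p.support, ‖p.coeff m‖) * (64 ^ d * (d + 1) / k))) := by
        gcongr
        exact h2.trans h3
    _ ≤ (∑ m ∈ p.support, ‖p.coeff m‖) * (64 ^ d * (d + 1) / k) := by linarith
    _ = _ := by ring

/-- in the middle region some residue class gives a large value -/
lemma exists_PP_ge {k : ℕ} (hk : 1 ≤ k) {z : Fin 2 → ℂ} (hz : z ∈ Sph) (ht1 : 1 / 4 ≤ ‖z 0‖ ^ 2) (ht2 : ‖z 0‖ ^ 2 ≤ 3 / 4) :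
    ∃ r < 4, 1 / 25 ≤ ‖MvPolynomial.eval z (PP k r)‖ := by
  have hkr : (1 : ℝ) ≤ k := by exact_mod_cast hk
  set w : ℝ := 10 * k * ‖z 0‖ ^ 2 with hw
  have hw0 : 0 ≤ w := by positivity
  -- nearest integer
  set j := ⌊w + 1 / 2⌋₊ with hj
  have hj1 : (j : ℝ) ≤ w + 1 / 2 := Nat.floor_le (by positivity)
  have hj2 : w + 1 / 2 < j + 1 := Nat.lt_floor_add_one _
  have hjw : |w - j| ≤ 1 / 2 := by rw [abs_le]; constructor <;> linarith
  have hj3 : 2 * k ≤ j := by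
    have : (2 : ℝ) * k < j + 1 := by nlinarith
    have : 2 * k < j + 1 := by exact_mod_cast this
    omega
  have hj4 : j ≤ 8 * k := by
    have : (j : ℝ) < 8 * k + 1 := by nlinarith
    have : j < 8 * k + 1 := by exact_mod_cast this
    omega
  refine ⟨j % 4, Nat.mod_lt _ (by norm_num), ?_⟩
  rw [eval_PP, norm_mul]
  have h1 : ‖(1 / 10 : ℂ)‖ = 1 / 10 := by norm_num
  rw [h1]
  have hjm : j ∈ IR k (j % 4) := by
    unfold IR
    rw [mem_filter, mem_II]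
    exact ⟨⟨hj3, hj4⟩, rfl⟩
  rw [← add_sum_erase _ _ hjm]
  have hmain : 1 / 2 ≤ ‖MvPolynomial.eval z (mon k j)‖ := by
    rw [norm_eval_mon hk hj3 hj4]
    exact half_le_mm hk hj3 hj4 (norm_nonneg _) (norm_nonneg _) hz ht1 ht2 hjw
  have hrest : ‖∑ i ∈ (IR k (j % 4)).erase j, MvPolynomial.eval z (mon k i)‖ ≤ 1 / 16 := by
    refine (norm_sum_le _ _).trans ?_
    have : ∀ i ∈ (IR k (j % 4)).erase j, ‖MvPolynomial.eval z (mon k i)‖ ≤ 1 / 64 * exp (-|w - i|) := by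
      intro i hi
      rw [mem_erase] at hi
      obtain ⟨hij, hi⟩ := hi
      unfold IR at hi
      rw [mem_filter, mem_II] at hi
      obtain ⟨⟨hi1, hi2⟩, hi3⟩ := hi
      have hdist : (7 : ℝ) / 2 ≤ |w - i| := by
        have h5 : (4 : ℝ) ≤ |(j : ℝ) - i| := by
          rcases lt_or_gt_of_ne hij with h | h
          · have : i + 4 ≤ j := by omega
            have : (i : ℝ) + 4 ≤ j := by exact_mod_cast this
            rw [abs_of_nonneg (by linarith)]; linarith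
          · have : j + 4 ≤ i := by omega
            have : (j : ℝ) + 4 ≤ i := by exact_mod_cast this
            rw [abs_of_nonpos (by linarith)]; linarith
        have h6 : |(j : ℝ) - i| ≤ |w - j| + |w - i| := by
          calc |(j : ℝ) - i| = |(w - i) - (w - j)| := by congr 1; ring
            _ ≤ |w - i| + |w - j| := abs_sub _ _
            _ = _ := by ring
        linarith
      rw [norm_eval_mon hk hi1 hi2]
      refine (mm_le hk hi1 hi2 (norm_nonneg _) (norm_nonneg _) hz).trans ?_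
      rw [← hw]
      have h64 : exp (-8) ≤ 1 / 64 := by
        have h := add_one_le_exp (1 : ℝ)
        have h7 : (2 : ℝ) ^ 8 ≤ exp 1 ^ 8 := by gcongr; linarith
        rw [← exp_nat_mul] at h7
        have h8 : exp (-8) * exp ((8 : ℕ) * 1) = 1 := by rw [← exp_add]; norm_num
        have h9 := exp_pos (-8 : ℝ)
        nlinarith
      calc exp (-(w - i) ^ 2) ≤ exp (-8 + -|w - i|) := by
            apply exp_le_exp.2
            have : (w - i) ^ 2 = |w - i| ^ 2 := (sq_abs _).symm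
            rw [this]
            nlinarith
        _ = exp (-8) * exp (-|w - i|) := exp_add _ _
        _ ≤ 1 / 64 * exp (-|w - i|) := by gcongr
    refine (sum_le_sum this).trans ?_
    rw [← mul_sum]
    have := sum_exp_abs_le ((IR k (j % 4)).erase j) hw0
    linarith
  have h9 : ‖MvPolynomial.eval z (mon k j)‖ - ‖∑ i ∈ (IR k (j % 4)).erase j, MvPolynomial.eval z (mon k i)‖ ≤
      ‖MvPolynomial.eval z (mon k j) + ∑ i ∈ (IR k (j % 4)).erase j, MvPolynomial.eval z (mon k i)‖ := by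
    have := norm_sub_norm_le (MvPolynomial.eval z (mon k j)) (-∑ i ∈ (IR k (j % 4)).erase j, MvPolynomial.eval z (mon k i))
    rwa [norm_neg, sub_neg_eq_add] at this
  linarith

lemma constantCoeff_TT {p : MvPolynomial (Fin 2) ℂ} {k r d : ℕ} (hk : 1 ≤ k)
    (hp : ∀ m ∈ p.support, m 0 ≤ d ∧ m 1 ≤ d) (hd : d ≤ k) :
    MvPolynomial.constantCoeff (TT p k r) = 0 := by
  unfold TT
  rw [map_sum]
  refine sum_eq_zero fun i hi => ?_
  have hi' := IR_subset k r hi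
  rw [mem_II] at hi'
  have hai : 20 * k ^ 2 ≤ i * (10 * k) := by nlinarith
  have hdk : d ≤ k ^ 2 := hd.trans (by nlinarith)
  have h1 : i * (10 * k) ≠ 0 := by nlinarith
  have hc : MvPolynomial.constantCoeff (cor p k i) = 0 := by
    unfold cor
    rw [map_sum]
    refine sum_eq_zero fun m hm => ?_
    have h2 : i * (10 * k) - m 0 ≠ 0 := by
      have := (hp m hm).1
      have : 1 ≤ k ^ 2 := by nlinarith
      omega
    rw [map_mul, map_mul, map_pow, MvPolynomial.constantCoeff_X, zero_pow h2]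
    ring
  unfold Tm mon
  rw [map_mul, map_mul, map_add, map_mul, map_mul, map_mul, map_pow, MvPolynomial.constantCoeff_X, zero_pow h1, hc]
  ring

end Pool.Agent.W787.RP
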