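import Mathlib
import Pool.Agent.W787.RPd

set_option autoImplicit false

open Real Finset MeasureTheory

namespace Pool.Agent.W787.RP

/-- projection to the sphere -/
noncomputable def nz (z : Fin 2 → ℂ) : Fin 2 → ℂ := fun i => z i / ((√(∑ j, ‖z j‖ ^ 2) : ℝ) : ℂ)

/-- unit ball of `ℂ²` -/
def BB : Set (Fin 2 → ℂ) := {z | ∑ i, ‖z i‖ ^ 2 ≤ 1}

/-- middle part of the ball -/
def AA : Set (Fin 2 → ℂ) := {z | ∑ i, ‖z i‖ ^ 2 ≤ 1 ∧ 1 / 4 * ∑ i, ‖z i‖ ^ 2 ≤ ‖z 0‖ ^ 2 ∧ ‖z 0‖ ^ 2 ≤ 3 / 4 * ∑ i, ‖z i‖ ^ 2}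

/-- scalar multiplication -/
def sm (w : ℂ) (z : Fin 2 → ℂ) : Fin 2 → ℂ := fun i => w * z i

lemma sum_sq_pos {z : Fin 2 → ℂ} (hz : z ≠ 0) : 0 < ∑ i, ‖z i‖ ^ 2 := by
  rcases (Finset.sum_nonneg fun i _ => by positivity : (0 : ℝ) ≤ ∑ i, ‖z i‖ ^ 2).eq_or_lt with h | h
  · exfalso
    apply hz
    rw [Fin.sum_univ_two] at h
    have h0 : ‖z 0‖ = 0 := by nlinarith [sq_nonneg ‖z 0‖, sq_nonneg ‖z 1‖]
    have h1 : ‖z 1‖ = 0 := by nlinarith [sq_nonneg ‖z 0‖, sq_nonneg ‖z 1‖]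
    funext i
    fin_cases i
    · exact norm_eq_zero.1 h0
    · exact norm_eq_zero.1 h1
  · exact h

lemma norm_nz_sq {z : Fin 2 → ℂ} (i : Fin 2) : ‖nz z i‖ ^ 2 = ‖z i‖ ^ 2 / ∑ j, ‖z j‖ ^ 2 := by
  unfold nz
  rw [norm_div, Complex.norm_real, Real.norm_of_nonneg (sqrt_nonneg _), div_pow, sq_sqrt]
  positivity

lemma nz_mem {z : Fin 2 → ℂ} (hz : z ≠ 0) : nz z ∈ Sph := by
  have h := sum_sq_pos hz
  show ‖nz z 0‖ ^ 2 + ‖nz z 1‖ ^ 2 = 1
  rw [norm_nz_sq, norm_nz_sq, ← add_div, Fin.sum_univ_two]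
  rw [Fin.sum_univ_two] at h
  exact div_self h.ne'

lemma nz_zero : nz 0 = 0 := by
  funext i; simp [nz]

lemma nz_mid {z : Fin 2 → ℂ} (hz : z ≠ 0) (hA : z ∈ AA) : 1 / 4 ≤ ‖nz z 0‖ ^ 2 ∧ ‖nz z 0‖ ^ 2 ≤ 3 / 4 := by
  have h := sum_sq_pos hz
  rw [norm_nz_sq]
  exact ⟨by rw [le_div_iff₀ h]; exact hA.2.1, by rw [div_le_iff₀ h]; exact hA.2.2⟩

lemma measurable_nz : Measurable nz := by
  unfold nz
  fun_prop

lemma BB_closed : IsClosed BB := isClosed_le (by fun_prop) continuous_const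

lemma AA_closed : IsClosed AA := by
  unfold AA
  refine IsClosed.and (isClosed_le (by fun_prop) continuous_const) (IsClosed.and (isClosed_le (by fun_prop) (by fun_prop)) (isClosed_le (by fun_prop) (by fun_prop)))

lemma AA_subset : AA ⊆ BB := fun _ h => h.1

lemma BB_compact : IsCompact BB := by
  refine Metric.isCompact_of_isClosed_isBounded BB_closed ?_
  refine (Metric.isBounded_closedBall (x := (0 : Fin 2 → ℂ)) (r := 1)).subset fun z hz => ?_
  rw [mem_closedBall_zero_iff, pi_norm_le_iff_of_nonneg (by norm_num)]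
  intro i
  have h : ‖z i‖ ^ 2 ≤ ∑ i, ‖z i‖ ^ 2 := single_le_sum (f := fun i => ‖z i‖ ^ 2) (fun _ _ => by positivity) (mem_univ i)
  have h2 : ‖z i‖ ^ 2 ≤ 1 := h.trans hz
  nlinarith [norm_nonneg (z i)]

lemma vol_BB : volume BB ≠ ⊤ := BB_compact.measure_lt_top.ne

lemma vol_AA : volume AA ≠ ⊤ := ((measure_mono AA_subset).trans_lt BB_compact.measure_lt_top).ne

lemma vol_AA_pos : 0 < volume.real AA := by
  have ho : IsOpen {z : Fin 2 → ℂ | ∑ i, ‖z i‖ ^ 2 < 1 ∧ 1 / 4 * ∑ i, ‖z i‖ ^ 2 < ‖z 0‖ ^ 2 ∧ ‖z 0‖ ^ 2 < 3 / 4 * ∑ i, ‖z i‖ ^ 2} := by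
    refine IsOpen.and (isOpen_lt (by fun_prop) continuous_const) (IsOpen.and (isOpen_lt (by fun_prop) (by fun_prop)) (isOpen_lt (by fun_prop) (by fun_prop)))
  have hne : {z : Fin 2 → ℂ | ∑ i, ‖z i‖ ^ 2 < 1 ∧ 1 / 4 * ∑ i, ‖z i‖ ^ 2 < ‖z 0‖ ^ 2 ∧ ‖z 0‖ ^ 2 < 3 / 4 * ∑ i, ‖z i‖ ^ 2}.Nonempty := by
    refine ⟨fun _ => 1 / 2, ?_⟩
    simp only [Set.mem_ofPred_eq, Fin.sum_univ_two]
    norm_num
  have hpos := ho.measure_pos volume hne
  have hsub : {z : Fin 2 → ℂ | ∑ i, ‖z i‖ ^ 2 < 1 ∧ 1 / 4 * ∑ i, ‖z i‖ ^ 2 < ‖z 0‖ ^ 2 ∧ ‖z 0‖ ^ 2 < 3 / 4 * ∑ i, ‖z i‖ ^ 2} ⊆ AA :=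
    fun z hz => ⟨hz.1.le, hz.2.1.le, hz.2.2.le⟩
  rw [measureReal_def]
  exact ENNReal.toReal_pos (hpos.trans_le (measure_mono hsub)).ne' vol_AA

lemma nz_sm {w : ℂ} (hw : ‖w‖ = 1) (z : Fin 2 → ℂ) : nz (sm w z) = sm w (nz z) := by
  have : ∑ j, ‖sm w z j‖ ^ 2 = ∑ j, ‖z j‖ ^ 2 := by
    refine sum_congr rfl fun j _ => ?_
    unfold sm; rw [norm_mul, hw, one_mul]
  unfold nz
  rw [this]
  funext i
  simp only [sm]
  ring

lemma sm_mem_BB {w : ℂ} (hw : ‖w‖ = 1) (z : Fin 2 → ℂ) : sm w z ∈ BB ↔ z ∈ BB := by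
  have : ∑ j, ‖sm w z j‖ ^ 2 = ∑ j, ‖z j‖ ^ 2 := by
    refine sum_congr rfl fun j _ => ?_
    unfold sm; rw [norm_mul, hw, one_mul]
  unfold BB
  simp only [Set.mem_ofPred_eq, this]

lemma sm_mem_AA {w : ℂ} (hw : ‖w‖ = 1) (z : Fin 2 → ℂ) : sm w z ∈ AA ↔ z ∈ AA := by
  have : ∑ j, ‖sm w z j‖ ^ 2 = ∑ j, ‖z j‖ ^ 2 := by
    refine sum_congr rfl fun j _ => ?_
    unfold sm; rw [norm_mul, hw, one_mul]
  have h2 : ‖sm w z 0‖ = ‖z 0‖ := by unfold sm; rw [norm_mul, hw, one_mul]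
  unfold AA
  simp only [Set.mem_ofPred_eq, this, h2]

/-- rotation as a homeomorphism -/
noncomputable def rotH (θ : ℝ) : (Fin 2 → ℂ) ≃ₜ (Fin 2 → ℂ) :=
  Homeomorph.piCongrRight fun _ => (rotation (Circle.exp θ)).toHomeomorph

lemma rotH_apply (θ : ℝ) (z : Fin 2 → ℂ) : rotH θ z = sm (Complex.exp (θ * Complex.I)) z := by
  funext i
  simp [rotH, sm, Homeomorph.piCongrRight, rotation_apply, Circle.coe_exp]

lemma rotH_mp (θ : ℝ) : MeasurePreserving (rotH θ) volume volume := by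
  have h : ∀ i : Fin 2, MeasurePreserving (fun w : ℂ => rotation (Circle.exp θ) w) volume volume := fun i =>
    (rotation (Circle.exp θ)).measurePreserving
  exact volume_preserving_pi h

lemma rot_mean {A : Set (Fin 2 → ℂ)} (hA : MeasurableSet A) (hfin : volume A ≠ ⊤)
    (hinv : ∀ w : ℂ, ‖w‖ = 1 → ∀ z, sm w z ∈ A ↔ z ∈ A) {G : (Fin 2 → ℂ) → ℝ}
    (hm : Measurable fun z => G (nz z)) {B : ℝ} (hB : ∀ z, |G (nz z)| ≤ B) {c : ℝ}
    (hc : ∀ z ∈ Sph, ∫ θ in (0 : ℝ)..(2 * π), G (sm (Complex.exp (θ * Complex.I)) z) = 2 * π * c) :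
    ∫ z in A, G (nz z) = c * volume.real A := by
  have hpi : 0 < 2 * π := by positivity
  have hne : ∀ θ : ℝ, ‖Complex.exp (θ * Complex.I)‖ = 1 := fun θ => Complex.norm_exp_ofReal_mul_I θ
  have h1 : ∀ θ : ℝ, ∫ z in A, G (nz z) = ∫ z in A, G (sm (Complex.exp (θ * Complex.I)) (nz z)) := by
    intro θ
    rw [← (rotH_mp θ).setIntegral_preimage_emb (rotH θ).measurableEmbedding]
    have hpre : (rotH θ) ⁻¹' A = A := by
      ext z
      rw [Set.mem_preimage, rotH_apply]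
      exact hinv _ (hne θ) z
    rw [hpre]
    refine integral_congr_ae (Filter.Eventually.of_forall fun z => ?_)
    simp only
    rw [rotH_apply, nz_sm (hne θ)]
  have h2 : 2 * π * ∫ z in A, G (nz z) = ∫ θ in (0 : ℝ)..(2 * π), ∫ z in A, G (sm (Complex.exp (θ * Complex.I)) (nz z)) := by
    have : ∀ θ : ℝ, ∫ z in A, G (sm (Complex.exp (θ * Complex.I)) (nz z)) = ∫ z in A, G (nz z) := fun θ => (h1 θ).symm
    simp only [this, intervalIntegral.integral_const, sub_zero, smul_eq_mul]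
  have hfm : IsFiniteMeasure (volume.restrict A) := ⟨by rw [Measure.restrict_apply_univ]; exact lt_top_iff_ne_top.2 hfin⟩
  have h3 : ∫ θ in (0 : ℝ)..(2 * π), ∫ z in A, G (sm (Complex.exp (θ * Complex.I)) (nz z)) =
      ∫ z in A, ∫ θ in (0 : ℝ)..(2 * π), G (sm (Complex.exp (θ * Complex.I)) (nz z)) := by
    simp only [intervalIntegral.integral_of_le hpi.le]
    apply integral_integral_swap
    have hmeas : Measurable (Function.uncurry fun (θ : ℝ) (z : Fin 2 → ℂ) => G (sm (Complex.exp (θ * Complex.I)) (nz z))) := by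
      have : (Function.uncurry fun (θ : ℝ) (z : Fin 2 → ℂ) => G (sm (Complex.exp (θ * Complex.I)) (nz z))) =
          fun q : ℝ × (Fin 2 → ℂ) => G (nz (sm (Complex.exp (q.1 * Complex.I)) q.2)) := by
        funext q
        simp only [Function.uncurry]
        rw [nz_sm (hne q.1)]
      rw [this]
      refine hm.comp (f := fun q : ℝ × (Fin 2 → ℂ) => sm (Complex.exp (q.1 * Complex.I)) q.2) ?_
      unfold sm
      fun_prop
    refine Integrable.of_bound hmeas.aestronglyMeasurable B (Filter.Eventually.of_forall fun q => ?_)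
    simp only [Function.uncurry]
    rw [← nz_sm (hne q.1), Real.norm_eq_abs]
    exact hB _
  have h4 : ∫ z in A, ∫ θ in (0 : ℝ)..(2 * π), G (sm (Complex.exp (θ * Complex.I)) (nz z)) = ∫ z in A, 2 * π * c := by
    apply integral_congr_ae
    have : ∀ᵐ z ∂(volume.restrict A), z ≠ 0 := by
      apply ae_restrict_of_ae
      rw [ae_iff]
      simp
    filter_upwards [this] with z hz
    exact hc _ (nz_mem hz)
  rw [h3, h4, setIntegral_const, smul_eq_mul] at h2
  have h5 : 2 * π * (∫ z in A, G (nz z)) = 2 * π * (c * volume.real A) := by linarith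
  exact mul_left_cancel₀ hpi.ne' h5

lemma integral_re_circle {F : ℂ → ℂ} (hF : DiffContOnCl ℂ F (Metric.ball 0 1)) :
    ∫ θ in (0 : ℝ)..(2 * π), (F (Complex.exp (θ * Complex.I))).re = 2 * π * (F 0).re := by
  have hpi : (2 * π) ≠ 0 := by positivity
  have h1 := DiffContOnCl.circleAverage (f := F) (c := 0) (R := 1) (by simpa using hF)
  have hcont : ContinuousOn F (Metric.sphere 0 |1|) := by
    have := hF.continuousOn
    rw [closure_ball _ one_ne_zero] at this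
    refine this.mono ?_
    rw [abs_one]
    exact Metric.sphere_subset_closedBall
  have hci : CircleIntegrable F 0 1 := hcont.circleIntegrable'
  have h2 := Complex.reCLM.circleAverage_comp_comm hci
  rw [h1] at h2
  unfold circleAverage at h2
  simp only [Function.comp, Complex.reCLM_apply, smul_eq_mul, circleMap, zero_add, Complex.ofReal_one, one_mul] at h2
  rw [← h2, ← mul_assoc, mul_inv_cancel₀ hpi, one_mul]

lemma differentiable_sm (p : MvPolynomial (Fin 2) ℂ) (z : Fin 2 → ℂ) :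
    Differentiable ℂ fun w : ℂ => MvPolynomial.eval (sm w z) p := by
  simp only [eval_eq_sum, sm]
  fun_prop

lemma sm_zero (z : Fin 2 → ℂ) : sm 0 z = 0 := by funext i; simp [sm]

lemma sm_mem_Sph {w : ℂ} (hw : ‖w‖ = 1) {z : Fin 2 → ℂ} (hz : z ∈ Sph) : sm w z ∈ Sph := by
  show ‖sm w z 0‖ ^ 2 + ‖sm w z 1‖ ^ 2 = 1
  unfold sm
  rw [norm_mul, norm_mul, hw, one_mul, one_mul]
  exact hz

lemma eval_zero' (p : MvPolynomial (Fin 2) ℂ) : MvPolynomial.eval (0 : Fin 2 → ℂ) p = MvPolynomial.constantCoeff p := by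
  rw [MvPolynomial.eval_zero]

/-- admissible polynomials -/
def Good (p : MvPolynomial (Fin 2) ℂ) : Prop :=
  MvPolynomial.constantCoeff p = 1 ∧ ∀ z ∈ Sph, 0 < (MvPolynomial.eval z p).re

lemma Good.pos_disc {p : MvPolynomial (Fin 2) ℂ} (hp : Good p) {z : Fin 2 → ℂ} (hz : z ∈ Sph) {w : ℂ} (hw : ‖w‖ ≤ 1) :
    0 < (MvPolynomial.eval (sm w z) p).re := by
  have hd := differentiable_sm p z
  obtain ⟨w0, hw0, hmin⟩ := (isCompact_sphere (0 : ℂ) 1).exists_isMinOn ⟨1, by simp⟩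
    (f := fun w : ℂ => (MvPolynomial.eval (sm w z) p).re) (Complex.continuous_re.comp hd.continuous).continuousOn
  have hpos : 0 < (MvPolynomial.eval (sm w0 z) p).re := hp.2 _ (sm_mem_Sph (by simpa using hw0) hz)
  have h := Complex.norm_le_of_forall_mem_frontier_norm_le (f := fun w : ℂ => Complex.exp (-MvPolynomial.eval (sm w z) p))
    (U := Metric.ball 0 1) Metric.isBounded_ball ((Complex.differentiable_exp.comp hd.neg).diffContOnCl)
    (C := Real.exp (-(MvPolynomial.eval (sm w0 z) p).re)) (fun v hv => by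
      rw [frontier_ball _ one_ne_zero] at hv
      rw [Complex.norm_exp, Complex.neg_re]
      exact Real.exp_le_exp.2 (neg_le_neg (hmin hv))) (z := w) (by rw [closure_ball _ one_ne_zero]; simpa using hw)
  rw [Complex.norm_exp, Complex.neg_re, Real.exp_le_exp, neg_le_neg_iff] at h
  linarith

lemma Sph_compact : IsCompact Sph := by
  refine BB_compact.of_isClosed_subset (isClosed_eq (by fun_prop) continuous_const) fun z hz => ?_
  show ∑ i, ‖z i‖ ^ 2 ≤ 1
  rw [Fin.sum_univ_two]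
  exact le_of_eq hz

lemma nz_mem' (z : Fin 2 → ℂ) : nz z ∈ insert 0 Sph := by
  by_cases hz : z = 0
  · left; rw [hz, nz_zero]
  · right; exact nz_mem hz

lemma mean_re (p : MvPolynomial (Fin 2) ℂ) {A : Set (Fin 2 → ℂ)} (hA : MeasurableSet A) (hfin : volume A ≠ ⊤)
    (hinv : ∀ w : ℂ, ‖w‖ = 1 → ∀ z, sm w z ∈ A ↔ z ∈ A) :
    ∫ z in A, (MvPolynomial.eval (nz z) p).re = (MvPolynomial.constantCoeff p).re * volume.real A := by
  obtain ⟨B, hB⟩ := (Sph_compact.insert 0).exists_bound_of_continuousOn (f := fun z => (MvPolynomial.eval z p).re)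
    (Complex.continuous_re.comp (MvPolynomial.continuous_eval p)).continuousOn
  refine rot_mean (G := fun z => (MvPolynomial.eval z p).re) hA hfin hinv ?_ (B := B) (fun z => hB _ (nz_mem' z)) ?_
  · exact Complex.measurable_re.comp ((MvPolynomial.continuous_eval p).measurable.comp measurable_nz)
  · intro z _
    have := integral_re_circle (F := fun w => MvPolynomial.eval (sm w z) p) (differentiable_sm p z).diffContOnCl
    rw [this, sm_zero, eval_zero']

lemma mean_log {p : MvPolynomial (Fin 2) ℂ} (hp : Good p) :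
    ∫ z in AA, (MvPolynomial.eval (nz z) p * Complex.log (MvPolynomial.eval (nz z) p)).re = 0 := by
  have hpos : ∀ z ∈ insert (0 : Fin 2 → ℂ) Sph, 0 < (MvPolynomial.eval z p).re := by
    intro z hz
    rcases hz with hz | hz
    · rw [hz, eval_zero', hp.1]; norm_num
    · exact hp.2 z hz
  have hcont : ContinuousOn (fun z => (MvPolynomial.eval z p * Complex.log (MvPolynomial.eval z p)).re) (insert (0 : Fin 2 → ℂ) Sph) := by
    refine Complex.continuous_re.comp_continuousOn ?_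
    refine (MvPolynomial.continuous_eval p).continuousOn.mul ?_
    exact (MvPolynomial.continuous_eval p).continuousOn.clog fun z hz => Or.inl (hpos z hz)
  obtain ⟨B, hB⟩ := (Sph_compact.insert 0).exists_bound_of_continuousOn hcont
  have h := rot_mean (G := fun z => (MvPolynomial.eval z p * Complex.log (MvPolynomial.eval z p)).re)
    AA_closed.measurableSet vol_AA (fun w hw z => sm_mem_AA hw z) ?_ (B := B) (fun z => hB _ (nz_mem' z)) (c := 0) ?_
  · rw [h, zero_mul]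
  · have h1 : Measurable fun z => MvPolynomial.eval (nz z) p := (MvPolynomial.continuous_eval p).measurable.comp measurable_nz
    exact Complex.measurable_re.comp (h1.mul (Complex.measurable_log.comp h1))
  · intro z hz
    have hd := differentiable_sm p z
    have hF : DiffContOnCl ℂ (fun w => MvPolynomial.eval (sm w z) p * Complex.log (MvPolynomial.eval (sm w z) p)) (Metric.ball 0 1) := by
      apply DifferentiableOn.diffContOnCl
      rw [closure_ball _ one_ne_zero]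
      refine hd.differentiableOn.mul ?_
      refine hd.differentiableOn.clog fun w hw => Or.inl (hp.pos_disc hz (by simpa using hw))
    have := integral_re_circle hF
    rw [this, sm_zero, eval_zero', hp.1]
    simp

end Pool.Agent.W787.RP
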