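import Mathlib
import Pool.Agent.W787.RPe

set_option autoImplicit false

open Real Finset MeasureTheory

namespace Pool.Agent.W787.RP

/-- the four phases -/
noncomputable def cc : Fin 4 → ℂ := ![1, Complex.I, -1, -Complex.I]

lemma norm_cc (s : Fin 4) : ‖cc s‖ = 1 := by
  fin_cases s <;> simp [cc]

lemma sqrt_add_le' {a b : ℝ} (ha : 0 ≤ a) (hb : 0 ≤ b) : √(a + b) ≤ √a + √b := by
  rw [Real.sqrt_le_iff]
  refine ⟨by positivity, ?_⟩
  nlinarith [Real.sq_sqrt ha, Real.sq_sqrt hb, mul_nonneg (Real.sqrt_nonneg a) (Real.sqrt_nonneg b)]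

lemma sqrt_one_add_le {x : ℝ} (hx1 : -1 ≤ x) (hx2 : x ≤ 1) : √(1 + x) ≤ 1 + x / 2 - x ^ 2 / 16 := by
  rw [Real.sqrt_le_iff]
  constructor
  · nlinarith
  · have h : (1 + x / 2 - x ^ 2 / 16) ^ 2 - (1 + x) = x ^ 2 * (1 / 8 - x / 16 + x ^ 2 / 256) := by ring
    have h2 : 0 ≤ x ^ 2 * (1 / 8 - x / 16 + x ^ 2 / 256) := by
      apply mul_nonneg (sq_nonneg x)
      nlinarith
    linarith

lemma sqrt4 {u δ : ℝ} (hu : 0 < u) (hδ : 0 ≤ δ) {P T : ℂ} (hP : ‖P‖ ≤ 3 / 5) (hT : ‖T - (u : ℂ) * P‖ ≤ δ) :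
    ∑ s : Fin 4, √(u + (cc s * T).re) ≤ √u * (4 - ‖P‖ ^ 2 / 8) + 4 * √δ := by
  have key : ∀ s : Fin 4, √(u + (cc s * T).re) ≤ √u * (1 + (cc s * P).re / 2 - (cc s * P).re ^ 2 / 16) + √δ := by
    intro s
    have h1 : |(cc s * P).re| ≤ 3 / 5 := by
      refine (Complex.abs_re_le_norm _).trans ?_
      rw [norm_mul, norm_cc, one_mul]; exact hP
    have h2 : (cc s * T).re ≤ u * (cc s * P).re + δ := by
      have e : (cc s * T).re = u * (cc s * P).re + (cc s * (T - (u : ℂ) * P)).re := by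
        have : cc s * T = (u : ℂ) * (cc s * P) + cc s * (T - (u : ℂ) * P) := by ring
        rw [this, Complex.add_re, Complex.re_ofReal_mul]
      have h3 : (cc s * (T - (u : ℂ) * P)).re ≤ δ := by
        refine (Complex.re_le_norm _).trans ?_
        rw [norm_mul, norm_cc, one_mul]; exact hT
      linarith
    have h4 : u + (cc s * T).re ≤ u * (1 + (cc s * P).re) + δ := by linarith
    have h5 := (abs_le.1 h1).1
    have h6 := (abs_le.1 h1).2
    calc √(u + (cc s * T).re) ≤ √(u * (1 + (cc s * P).re) + δ) := Real.sqrt_le_sqrt h4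
      _ ≤ √(u * (1 + (cc s * P).re)) + √δ := sqrt_add_le' (mul_nonneg hu.le (by linarith)) hδ
      _ = √u * √(1 + (cc s * P).re) + √δ := by rw [Real.sqrt_mul hu.le]
      _ ≤ _ := by
          gcongr
          exact sqrt_one_add_le (by linarith) (by linarith)
  refine (sum_le_sum fun s _ => key s).trans ?_
  rw [Fin.sum_univ_four]
  have e0 : (cc 0 * P).re = P.re := by simp [cc]
  have e1 : (cc 1 * P).re = -P.im := by simp [cc]
  have e2 : (cc 2 * P).re = -P.re := by simp [cc]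
  have e3 : (cc 3 * P).re = P.im := by simp [cc]
  have en : ‖P‖ ^ 2 = P.re ^ 2 + P.im ^ 2 := by rw [← Complex.normSq_eq_norm_sq, Complex.normSq_apply]; ring
  rw [e0, e1, e2, e3, en]
  nlinarith [Real.sqrt_nonneg u]

/-- the functional to be made small -/
noncomputable def Lam (p : MvPolynomial (Fin 2) ℂ) : ℝ := ∫ z in AA, √((MvPolynomial.eval (nz z) p).re)

lemma intble {G : (Fin 2 → ℂ) → ℝ} (hc : ContinuousOn G (insert (0 : Fin 2 → ℂ) Sph)) (hm : Measurable fun z => G (nz z))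
    {A : Set (Fin 2 → ℂ)} (hfin : volume A ≠ ⊤) : IntegrableOn (fun z => G (nz z)) A := by
  obtain ⟨B, hB⟩ := (Sph_compact.insert 0).exists_bound_of_continuousOn hc
  have hfm : IsFiniteMeasure (volume.restrict A) := ⟨by rw [Measure.restrict_apply_univ]; exact lt_top_iff_ne_top.2 hfin⟩
  exact Integrable.of_bound hm.aestronglyMeasurable B (Filter.Eventually.of_forall fun z => hB _ (nz_mem' z))

lemma meas_eval (p : MvPolynomial (Fin 2) ℂ) : Measurable fun z => MvPolynomial.eval (nz z) p :=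
  (MvPolynomial.continuous_eval p).measurable.comp measurable_nz

lemma intble_sqrt (p : MvPolynomial (Fin 2) ℂ) : IntegrableOn (fun z => √((MvPolynomial.eval (nz z) p).re)) AA := by
  refine intble (G := fun z => √((MvPolynomial.eval z p).re)) ?_ ?_ vol_AA
  · exact (Real.continuous_sqrt.comp (Complex.continuous_re.comp (MvPolynomial.continuous_eval p))).continuousOn
  · exact (Complex.measurable_re.comp (meas_eval p)).sqrt

lemma ae_ne_zero (A : Set (Fin 2 → ℂ)) : ∀ᵐ z ∂(volume.restrict A), z ≠ 0 := by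
  apply ae_restrict_of_ae
  rw [ae_iff]
  simp

lemma Lam_nonneg (p : MvPolynomial (Fin 2) ℂ) : 0 ≤ Lam p := integral_nonneg fun _ => Real.sqrt_nonneg _

lemma step {p : MvPolynomial (Fin 2) ℂ} (hp : Good p) {δ : ℝ} (hδ : 0 < δ) :
    ∃ p', Good p' ∧ Lam p' ≤ (1 - 1 / 80000) * Lam p + δ := by
  -- minimum of the real part
  obtain ⟨w0, hw0, hmin⟩ := Sph_compact.exists_isMinOn ⟨fun i => if i = 0 then 1 else 0, by simp [Sph]⟩
    (f := fun z => (MvPolynomial.eval z p).re) (Complex.continuous_re.comp (MvPolynomial.continuous_eval p)).continuousOn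
  set μ := (MvPolynomial.eval w0 p).re with hμ
  have hμ0 : 0 < μ := hp.2 _ hw0
  have hV := vol_AA_pos
  set V := volume.real AA with hVdef
  obtain ⟨δ₁, hδ1, hδ2, hδ3⟩ : ∃ δ₁ : ℝ, 0 < δ₁ ∧ δ₁ < 2 / 5 * μ ∧ √δ₁ * V ≤ δ := by
    refine ⟨min (μ / 5) ((δ / V) ^ 2), by positivity, ?_, ?_⟩
    · exact (min_le_left _ _).trans_lt (by linarith)
    · have : √(min (μ / 5) ((δ / V) ^ 2)) ≤ δ / V := by
        rw [Real.sqrt_le_left (by positivity)]
        exact min_le_right _ _
      calc _ ≤ δ / V * V := by gcongr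
        _ = δ := by field_simp
  set d := p.support.sup fun m => m 0 + m 1 with hd
  have hpd : ∀ m ∈ p.support, m 0 ≤ d ∧ m 1 ≤ d := by
    intro m hm
    have : m 0 + m 1 ≤ d := Finset.le_sup (f := fun m : Fin 2 →₀ ℕ => m 0 + m 1) hm
    omega
  set Cc := (∑ m ∈ p.support, ‖p.coeff m‖) * (64 ^ d * (d + 1)) with hCc
  obtain ⟨k0, hk0⟩ := exists_nat_ge (Cc / δ₁)
  set k := max (max 1 d) k0 with hk
  have hk1 : 1 ≤ k := by omega
  have hkd : d ≤ k := by omega
  have hkC : Cc / k ≤ δ₁ := by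
    have h1 : (k0 : ℝ) ≤ k := by exact_mod_cast (le_max_right _ _)
    have h2 : (0 : ℝ) < k := by exact_mod_cast hk1
    rw [div_le_iff₀ h2]
    rw [div_le_iff₀ hδ1] at hk0
    nlinarith
  set Q : ℕ → Fin 4 → MvPolynomial (Fin 2) ℂ := fun r s => p + MvPolynomial.C (cc s) * TT p k r with hQ
  have heval : ∀ r s z, MvPolynomial.eval z (Q r s) = MvPolynomial.eval z p + cc s * MvPolynomial.eval z (TT p k r) := by
    intro r s z
    simp only [hQ, map_add, map_mul, MvPolynomial.eval_C]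
  have herr : ∀ r, ∀ z ∈ Sph, ‖MvPolynomial.eval z (TT p k r) - ((MvPolynomial.eval z p).re : ℂ) * MvPolynomial.eval z (PP k r)‖ ≤ δ₁ :=
    fun r z hz => (TT_err hk1 hpd hkd hz).trans hkC
  have hgood : ∀ r s, Good (Q r s) := by
    intro r s
    refine ⟨?_, fun z hz => ?_⟩
    · simp only [hQ, map_add, map_mul, hp.1, constantCoeff_TT hk1 hpd hkd, mul_zero, add_zero]
    · rw [heval, Complex.add_re]
      set u := (MvPolynomial.eval z p).re with hu
      have hu1 : μ ≤ u := hmin hz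
      have h1 : |(cc s * MvPolynomial.eval z (TT p k r)).re| ≤ 3 / 5 * u + δ₁ := by
        refine (Complex.abs_re_le_norm _).trans ?_
        rw [norm_mul, norm_cc, one_mul]
        have h2 := herr r z hz
        have h3 := norm_PP_le hk1 r hz
        calc ‖MvPolynomial.eval z (TT p k r)‖ = ‖(u : ℂ) * MvPolynomial.eval z (PP k r) + (MvPolynomial.eval z (TT p k r) - (u : ℂ) * MvPolynomial.eval z (PP k r))‖ := by
              congr 1; ring
          _ ≤ ‖(u : ℂ) * MvPolynomial.eval z (PP k r)‖ + ‖MvPolynomial.eval z (TT p k r) - (u : ℂ) * MvPolynomial.eval z (PP k r)‖ := norm_add_le _ _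
          _ ≤ u * (3 / 5) + δ₁ := by
              rw [norm_mul, Complex.norm_real, Real.norm_of_nonneg (by linarith)]
              gcongr
              linarith
          _ = _ := by ring
      have h4 := (abs_le.1 h1).1
      linarith
  -- the averaged inequality
  have hsum : ∑ r ∈ range 4, ∑ s : Fin 4, Lam (Q r s) ≤ (16 - 1 / 5000) * Lam p + 16 * √δ₁ * V := by
    have e1 : ∑ r ∈ range 4, ∑ s : Fin 4, Lam (Q r s) = ∫ z in AA, ∑ r ∈ range 4, ∑ s : Fin 4, √((MvPolynomial.eval (nz z) (Q r s)).re) := by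
      rw [integral_finsetSum _ fun r _ => integrable_finsetSum _ fun s _ => intble_sqrt (Q r s)]
      refine sum_congr rfl fun r _ => ?_
      rw [integral_finsetSum _ fun s _ => intble_sqrt (Q r s)]
      rfl
    have e2 : (16 - 1 / 5000) * Lam p + 16 * √δ₁ * V = ∫ z in AA, ((16 - 1 / 5000) * √((MvPolynomial.eval (nz z) p).re) + 16 * √δ₁) := by
      rw [integral_add ((intble_sqrt p).const_mul _) (by
        have hfm : IsFiniteMeasure (volume.restrict AA) := ⟨by rw [Measure.restrict_apply_univ]; exact lt_top_iff_ne_top.2 vol_AA⟩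
        exact integrable_const _), integral_const_mul, setIntegral_const, smul_eq_mul]
      unfold Lam
      ring
    rw [e1, e2]
    apply integral_mono_ae
    · exact integrable_finsetSum _ fun r _ => integrable_finsetSum _ fun s _ => intble_sqrt (Q r s)
    · refine ((intble_sqrt p).const_mul _).add ?_
      have hfm : IsFiniteMeasure (volume.restrict AA) := ⟨by rw [Measure.restrict_apply_univ]; exact lt_top_iff_ne_top.2 vol_AA⟩
      exact integrable_const _
    · filter_upwards [ae_ne_zero AA, ae_restrict_mem AA_closed.measurableSet] with z hz hzA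
      have hzS := nz_mem hz
      obtain ⟨hm1, hm2⟩ := nz_mid hz hzA
      have hu : 0 < (MvPolynomial.eval (nz z) p).re := hp.2 _ hzS
      have h1 : ∀ r ∈ range 4, ∑ s : Fin 4, √((MvPolynomial.eval (nz z) (Q r s)).re) ≤
          √((MvPolynomial.eval (nz z) p).re) * (4 - ‖MvPolynomial.eval (nz z) (PP k r)‖ ^ 2 / 8) + 4 * √δ₁ := by
        intro r _
        have := sqrt4 hu hδ1.le (norm_PP_le hk1 r hzS) (herr r _ hzS)
        refine le_trans (le_of_eq ?_) this
        refine sum_congr rfl fun s _ => ?_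
        rw [heval, Complex.add_re]
      refine (sum_le_sum h1).trans ?_
      obtain ⟨r0, hr0, hr1⟩ := exists_PP_ge hk1 hzS hm1 hm2
      have h2 : 1 / 625 ≤ ∑ r ∈ range 4, ‖MvPolynomial.eval (nz z) (PP k r)‖ ^ 2 := by
        calc (1 : ℝ) / 625 = (1 / 25) ^ 2 := by norm_num
          _ ≤ ‖MvPolynomial.eval (nz z) (PP k r0)‖ ^ 2 := by gcongr
          _ ≤ _ := single_le_sum (f := fun r => ‖MvPolynomial.eval (nz z) (PP k r)‖ ^ 2) (fun _ _ => by positivity) (mem_range.2 hr0)
      have h3 : ∑ r ∈ range 4, (√((MvPolynomial.eval (nz z) p).re) * (4 - ‖MvPolynomial.eval (nz z) (PP k r)‖ ^ 2 / 8) + 4 * √δ₁) =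
          √((MvPolynomial.eval (nz z) p).re) * (16 - (∑ r ∈ range 4, ‖MvPolynomial.eval (nz z) (PP k r)‖ ^ 2) / 8) + 16 * √δ₁ := by
        simp only [sum_range_succ, sum_range_zero]
        ring
      rw [h3]
      nlinarith [Real.sqrt_nonneg ((MvPolynomial.eval (nz z) p).re)]
  by_contra hcon
  push Not at hcon
  have h5 : ∑ r ∈ range 4, ∑ s : Fin 4, ((1 - 1 / 80000) * Lam p + δ) < ∑ r ∈ range 4, ∑ s : Fin 4, Lam (Q r s) := by
    refine sum_lt_sum_of_nonempty ⟨0, by simp⟩ fun r _ => ?_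
    refine sum_lt_sum_of_nonempty ⟨0, by simp⟩ fun s _ => hcon _ (hgood r s)
  simp only [sum_const, card_range, card_univ, Fintype.card_fin, nsmul_eq_mul] at h5
  have h6 : 16 * √δ₁ * V ≤ 16 * δ := by linarith
  have := Lam_nonneg p
  push_cast at h5
  linarith

lemma good_one : Good 1 := by
  refine ⟨by simp, fun z _ => by simp⟩

lemma exists_small {ε : ℝ} (hε : 0 < ε) : ∃ p, Good p ∧ Lam p ≤ ε := by
  set δ := ε / 160000 with hδ
  have hδ0 : 0 < δ := by positivity
  have h : ∀ n : ℕ, ∃ p, Good p ∧ Lam p ≤ (1 - 1 / 80000) ^ n * Lam 1 + δ * 80000 := by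
    intro n
    induction n with
    | zero => exact ⟨1, good_one, by rw [pow_zero, one_mul]; linarith⟩
    | succ n ih =>
      obtain ⟨p, hp, hp2⟩ := ih
      obtain ⟨p', hp', hp2'⟩ := step hp hδ0
      refine ⟨p', hp', hp2'.trans ?_⟩
      have : (1 - 1 / 80000 : ℝ) * Lam p ≤ (1 - 1 / 80000) * ((1 - 1 / 80000) ^ n * Lam 1 + δ * 80000) := by
        gcongr
      calc _ ≤ (1 - 1 / 80000 : ℝ) * ((1 - 1 / 80000) ^ n * Lam 1 + δ * 80000) + δ := by linarith
        _ = _ := by rw [pow_succ]; ring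
  have hlim : Filter.Tendsto (fun n : ℕ => (1 - 1 / 80000 : ℝ) ^ n * Lam 1) Filter.atTop (nhds (0 * Lam 1)) :=
    (tendsto_pow_atTop_nhds_zero_of_lt_one (by norm_num) (by norm_num)).mul_const _
  rw [zero_mul] at hlim
  obtain ⟨n, hn⟩ := (hlim.eventually (gt_mem_nhds (show (0 : ℝ) < ε / 2 by positivity))).exists
  obtain ⟨p, hp, hp2⟩ := h n
  refine ⟨p, hp, hp2.trans ?_⟩
  have : δ * 80000 = ε / 2 := by rw [hδ]; ring
  linarith

end Pool.Agent.W787.RP
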