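import Mathlib
import Pool.Agent.W787.RPf

set_option autoImplicit false

open Real Finset MeasureTheory

namespace Pool.Agent.W787.RP

lemma pointwise {h : ℂ} (hu : 0 < h.re) {L : ℝ} (hL : 0 < L) :
    h.re ≤ exp (L / 2) * √h.re + 1 / L * ((h * Complex.log h).re + π / 2 * ‖h‖ + 1) := by
  have hn : h.re ≤ ‖h‖ := Complex.re_le_norm h
  have e1 : (h * Complex.log h).re = h.re * Real.log ‖h‖ - h.im * Complex.arg h := by
    rw [Complex.mul_re, Complex.log_re, Complex.log_im]
  have h1 : h.im * Complex.arg h ≤ π / 2 * ‖h‖ := by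
    have h2 : |Complex.arg h| ≤ π / 2 := Complex.abs_arg_le_pi_div_two_iff.2 hu.le
    have h3 : |h.im| ≤ ‖h‖ := Complex.abs_im_le_norm h
    calc h.im * Complex.arg h ≤ |h.im * Complex.arg h| := le_abs_self _
      _ = |h.im| * |Complex.arg h| := abs_mul _ _
      _ ≤ ‖h‖ * (π / 2) := by gcongr
      _ = _ := by ring
  have h4 : h.re * Real.log ‖h‖ ≤ (h * Complex.log h).re + π / 2 * ‖h‖ := by linarith
  have h5 : Real.log h.re ≤ Real.log ‖h‖ := Real.log_le_log hu hn
  have h6 : h.re ≤ exp (L / 2) * √h.re + 1 / L * (h.re * Real.log ‖h‖ + 1) := by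
    have hpos : 0 ≤ exp (L / 2) * √h.re := by positivity
    rcases le_or_gt h.re (exp L) with hc | hc
    · have h7 : √h.re ≤ exp (L / 2) := by
        rw [Real.sqrt_le_left (exp_pos _).le, ← Real.exp_nat_mul]
        refine hc.trans (le_of_eq ?_)
        congr 1; push_cast; ring
      have h8 : h.re = √h.re * √h.re := (Real.mul_self_sqrt hu.le).symm
      have h9 : √h.re * √h.re ≤ exp (L / 2) * √h.re := by gcongr
      have h10 : 0 ≤ h.re * Real.log ‖h‖ + 1 := by
        have h11 := Real.one_sub_inv_le_log_of_pos hu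
        have h12 : h.re * (1 - h.re⁻¹) ≤ h.re * Real.log ‖h‖ := by
          gcongr; linarith
        have h13 : h.re * (1 - h.re⁻¹) = h.re - 1 := by field_simp
        linarith
      have : 0 ≤ 1 / L * (h.re * Real.log ‖h‖ + 1) := by positivity
      linarith
    · have h7 : L ≤ Real.log ‖h‖ := by
        have := Real.log_lt_log (exp_pos _) hc
        rw [Real.log_exp] at this
        linarith
      have h8 : h.re * L ≤ h.re * Real.log ‖h‖ := by gcongr
      have h9 : h.re ≤ 1 / L * (h.re * Real.log ‖h‖ + 1) := by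
        rw [one_div, inv_mul_eq_div, le_div_iff₀ hL]
        linarith
      linarith
  have h14 : 1 / L * (h.re * Real.log ‖h‖ + 1) ≤ 1 / L * ((h * Complex.log h).re + π / 2 * ‖h‖ + 1) := by
    gcongr
  linarith

lemma lin4 {α : Type*} [MeasurableSpace α] {μ : Measure α} [IsFiniteMeasure μ] {f g h : α → ℝ} (hf : Integrable f μ)
    (hg : Integrable g μ) (hh : Integrable h μ) (a b c : ℝ) :
    ∫ z, (a * f z + b * (g z + c * h z + 1)) ∂μ = a * ∫ z, f z ∂μ + b * (∫ z, g z ∂μ + c * ∫ z, h z ∂μ + μ.real Set.univ) := by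
  have h1 : Integrable (fun z => a * f z) μ := hf.const_mul a
  have h2 : Integrable (fun z => c * h z) μ := hh.const_mul c
  have h3 : Integrable (fun z => g z + c * h z) μ := hg.add h2
  have h4 : Integrable (fun z => g z + c * h z + 1) μ := h3.add (integrable_const _)
  rw [integral_add h1 (h4.const_mul b), integral_const_mul, integral_const_mul, integral_add h3 (integrable_const _),
    integral_add hg h2, integral_const_mul, integral_const, smul_eq_mul, mul_one]

lemma int4 {α : Type*} [MeasurableSpace α] {μ : Measure α} [IsFiniteMeasure μ] {f g h : α → ℝ} (hf : Integrable f μ)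
    (hg : Integrable g μ) (hh : Integrable h μ) (a b c : ℝ) :
    Integrable (fun z => a * f z + b * (g z + c * h z + 1)) μ :=
  (hf.const_mul a).add (((hg.add (hh.const_mul c)).add (integrable_const _)).const_mul b)

lemma main_contra {M : ℝ} (hM : ∀ p : MvPolynomial (Fin 2) ℂ, Good p →
    ∫ z in BB, ‖MvPolynomial.eval (nz z) p‖ ≤ M * ∫ z in BB, |(MvPolynomial.eval (nz z) p).re|) : False := by
  set VB := volume.real BB with hVB
  have hW := vol_AA_pos
  set W := volume.real AA with hWdef
  have hre : ∀ p : MvPolynomial (Fin 2) ℂ, Good p → ∫ z in BB, |(MvPolynomial.eval (nz z) p).re| = VB := by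
    intro p hp
    have h1 := mean_re p BB_closed.measurableSet vol_BB (fun w hw z => sm_mem_BB hw z)
    rw [hp.1, Complex.one_re, one_mul] at h1
    rw [hVB, ← h1]
    apply integral_congr_ae
    filter_upwards [ae_ne_zero BB] with z hz
    exact abs_of_pos (hp.2 _ (nz_mem hz))
  have hint : ∀ p : MvPolynomial (Fin 2) ℂ, ∀ A : Set (Fin 2 → ℂ), volume A ≠ ⊤ → IntegrableOn (fun z => ‖MvPolynomial.eval (nz z) p‖) A := by
    intro p A hA
    exact intble (G := fun z => ‖MvPolynomial.eval z p‖) (MvPolynomial.continuous_eval p).norm.continuousOn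
      ((MvPolynomial.continuous_eval p).norm.measurable.comp measurable_nz) hA
  have hnorm : ∀ p : MvPolynomial (Fin 2) ℂ, Good p → ∫ z in AA, ‖MvPolynomial.eval (nz z) p‖ ≤ M * VB := by
    intro p hp
    have h1 := hM p hp
    rw [hre p hp] at h1
    refine le_trans (setIntegral_mono_set (hint p BB vol_BB) (Filter.Eventually.of_forall fun _ => norm_nonneg _) ?_) h1
    exact AA_subset.eventuallyLE
  have hMV : 0 ≤ M * VB := (integral_nonneg fun _ => norm_nonneg _).trans (hnorm 1 good_one)
  set L := 2 * (π / 2 * (M * VB) + W) / W with hL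
  have hLpos : 0 < L := by positivity
  obtain ⟨p, hp, hpL⟩ := exists_small (show 0 < W / (4 * exp (L / 2)) by positivity)
  have hfm : IsFiniteMeasure (volume.restrict AA) := ⟨by rw [Measure.restrict_apply_univ]; exact lt_top_iff_ne_top.2 vol_AA⟩
  have hposK : ∀ z ∈ insert (0 : Fin 2 → ℂ) Sph, 0 < (MvPolynomial.eval z p).re := by
    intro z hz
    rcases hz with hz | hz
    · rw [hz, eval_zero', hp.1]; norm_num
    · exact hp.2 z hz
  have i1 : IntegrableOn (fun z => (MvPolynomial.eval (nz z) p).re) AA :=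
    intble (G := fun z => (MvPolynomial.eval z p).re) (Complex.continuous_re.comp (MvPolynomial.continuous_eval p)).continuousOn
      (Complex.measurable_re.comp (meas_eval p)) vol_AA
  have i2 : IntegrableOn (fun z => (MvPolynomial.eval (nz z) p * Complex.log (MvPolynomial.eval (nz z) p)).re) AA := by
    refine intble (G := fun z => (MvPolynomial.eval z p * Complex.log (MvPolynomial.eval z p)).re) ?_ ?_ vol_AA
    · refine Complex.continuous_re.comp_continuousOn ?_
      refine (MvPolynomial.continuous_eval p).continuousOn.mul ?_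
      exact (MvPolynomial.continuous_eval p).continuousOn.clog fun z hz => Or.inl (hposK z hz)
    · exact Complex.measurable_re.comp ((meas_eval p).mul (Complex.measurable_log.comp (meas_eval p)))
  have i3 := hint p AA vol_AA
  have i4 := intble_sqrt p
  have hmono : ∫ z in AA, (MvPolynomial.eval (nz z) p).re ≤ ∫ z in AA, (exp (L / 2) * √((MvPolynomial.eval (nz z) p).re) +
      1 / L * ((MvPolynomial.eval (nz z) p * Complex.log (MvPolynomial.eval (nz z) p)).re + π / 2 * ‖MvPolynomial.eval (nz z) p‖ + 1)) := by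
    apply integral_mono_ae i1
    · exact int4 i4 i2 i3 _ _ _
    · filter_upwards [ae_ne_zero AA] with z hz
      exact pointwise (hp.2 _ (nz_mem hz)) hLpos
  rw [lin4 i4 i2 i3, mean_log hp, mean_re p AA_closed.measurableSet vol_AA (fun w hw z => sm_mem_AA hw z), hp.1,
    Complex.one_re, one_mul, measureReal_restrict_apply MeasurableSet.univ, Set.univ_inter, ← hWdef] at hmono
  have h1 : ∫ z in AA, √((MvPolynomial.eval (nz z) p).re) ≤ W / (4 * exp (L / 2)) := hpL
  have h2 := hnorm p hp
  have h3 : exp (L / 2) * ∫ z in AA, √((MvPolynomial.eval (nz z) p).re) ≤ W / 4 := by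
    calc _ ≤ exp (L / 2) * (W / (4 * exp (L / 2))) := by gcongr
      _ = W / 4 := by field_simp
  have h4 : 1 / L * (0 + π / 2 * (∫ z in AA, ‖MvPolynomial.eval (nz z) p‖) + W) ≤ W / 2 := by
    have h5 : 0 + π / 2 * (∫ z in AA, ‖MvPolynomial.eval (nz z) p‖) + W ≤ L * W / 2 := by
      have : L * W / 2 = π / 2 * (M * VB) + W := by rw [hL]; field_simp
      rw [this, zero_add]
      gcongr
    calc _ ≤ 1 / L * (L * W / 2) := by gcongr
      _ = W / 2 := by field_simp
  have h6 : W ≤ W / 4 + W / 2 := by
    calc W ≤ _ := hmono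
      _ ≤ _ := add_le_add h3 h4
  linarith

end Pool.Agent.W787.RP
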