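import Pool.Agent.W787.PEcert
set_option autoImplicit false

/-! The homogeneous polynomials behind the explicit solution. -/

namespace Pool.Agent.W787.PE

open Complex

/-- Parameters of one side (`s = 1` for `t > 0`, `s = -1` for `t < 0`). -/
structure Par where
  s : ℝ
  p2 : ℂ
  p1 : ℂ
  p0 : ℂ

namespace Par

variable (a : Par)

noncomputable def Q (y h : ℂ) : ℂ :=
  (7/16)*y^3 + ((-9/16)*a.p2+3)*y^2*h + ((-25/16)*a.p1+2*a.p2)*y*h^2 + ((-41/16)*a.p0+a.p1)*h^3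
noncomputable def Qy (y h : ℂ) : ℂ :=
  3*(7/16)*y^2 + 2*((-9/16)*a.p2+3)*y*h + ((-25/16)*a.p1+2*a.p2)*h^2
noncomputable def Qh (y h : ℂ) : ℂ :=
  ((-9/16)*a.p2+3)*y^2 + 2*((-25/16)*a.p1+2*a.p2)*y*h + 3*((-41/16)*a.p0+a.p1)*h^2
noncomputable def Qyy (y h : ℂ) : ℂ :=
  6*(7/16)*y + 2*((-9/16)*a.p2+3)*h
noncomputable def A (y h : ℂ) : ℂ :=
  ((-41/16)+a.p2)*y^3 + ((-25/16)*a.p2+2*a.p1)*y^2*h + ((-9/16)*a.p1+3*a.p0)*y*h^2
    + (7/16)*a.p0*h^3
noncomputable def Ay (y h : ℂ) : ℂ :=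
  3*((-41/16)+a.p2)*y^2 + 2*((-25/16)*a.p2+2*a.p1)*y*h + ((-9/16)*a.p1+3*a.p0)*h^2
noncomputable def B (y h : ℂ) : ℂ :=
  (y+h)*a.Q y h + 2*y*((-57/16)*a.Q y h + (y+h)*a.Qy y h)
noncomputable def By (y h : ℂ) : ℂ :=
  a.Q y h + (y+h)*a.Qy y h + 2*((-57/16)*a.Q y h + (y+h)*a.Qy y h)
    + 2*y*((-57/16)*a.Qy y h + a.Qy y h + (y+h)*a.Qyy y h)
noncomputable def R (y h : ℂ) : ℂ := (-57/16)*a.Q y h + (y+h)*a.Qh y h

lemma R_eq (y h : ℂ) : a.R y h = (-57/16)*a.A y h + (y+h)*a.Ay y h := by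
  simp only [R, Q, Qh, A, Ay]; ring

lemma dQy (y h : ℂ) : HasDerivAt (fun y => a.Q y h) (a.Qy y h) y := by
  have h3 := (hasDerivAt_pow 3 y).const_mul (7/16 : ℂ)
  have h2 := ((hasDerivAt_pow 2 y).const_mul ((-9/16)*a.p2+3)).mul_const h
  have h1 := (((hasDerivAt_id y).const_mul ((-25/16)*a.p1+2*a.p2)).mul_const (h^2)).add_const
    (((-41/16)*a.p0+a.p1)*h^3)
  have := (h3.add h2).add h1
  refine (this.congr_of_eventuallyEq (Filter.Eventually.of_forall fun z => ?_)).congr_deriv ?_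
  · simp only [Q, Pi.add_apply, id]; ring
  · simp only [Qy]; norm_num; ring

lemma dQh (y h : ℂ) : HasDerivAt (fun h => a.Q y h) (a.Qh y h) h := by
  have h3 := (hasDerivAt_pow 3 h).const_mul ((-41/16)*a.p0+a.p1)
  have h2 := ((hasDerivAt_pow 2 h).const_mul (((-25/16)*a.p1+2*a.p2)*y))
  have h1 := (((hasDerivAt_id h).const_mul (((-9/16)*a.p2+3)*y^2))).add_const ((7/16)*y^3)
  have := (h3.add h2).add h1
  refine (this.congr_of_eventuallyEq (Filter.Eventually.of_forall fun z => ?_)).congr_deriv ?_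
  · simp only [Q, Pi.add_apply, id]; ring
  · simp only [Qh]; norm_num; ring

lemma dQyy (y h : ℂ) : HasDerivAt (fun y => a.Qy y h) (a.Qyy y h) y := by
  have h2 := (hasDerivAt_pow 2 y).const_mul (3*(7/16 : ℂ))
  have h1 := (((hasDerivAt_id y).const_mul (2*((-9/16)*a.p2+3))).mul_const h).add_const
    (((-25/16)*a.p1+2*a.p2)*h^2)
  have := h2.add h1
  refine (this.congr_of_eventuallyEq (Filter.Eventually.of_forall fun z => ?_)).congr_deriv ?_
  · simp only [Qy, Pi.add_apply, id]; ring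
  · simp only [Qyy]; norm_num; ring

lemma dAy (y h : ℂ) : HasDerivAt (fun y => a.A y h) (a.Ay y h) y := by
  have h3 := (hasDerivAt_pow 3 y).const_mul ((-41/16)+a.p2)
  have h2 := ((hasDerivAt_pow 2 y).const_mul ((-25/16)*a.p2+2*a.p1)).mul_const h
  have h1 := (((hasDerivAt_id y).const_mul ((-9/16)*a.p1+3*a.p0)).mul_const (h^2)).add_const
    ((7/16)*a.p0*h^3)
  have := (h3.add h2).add h1
  refine (this.congr_of_eventuallyEq (Filter.Eventually.of_forall fun z => ?_)).congr_deriv ?_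
  · simp only [A, Pi.add_apply, id]; ring
  · simp only [Ay]; norm_num; ring

lemma dBy (y h : ℂ) : HasDerivAt (fun y => a.B y h) (a.By y h) y := by
  have hr : HasDerivAt (fun y : ℂ => y + h) 1 y := (hasDerivAt_id y).add_const h
  have hq := a.dQy y h
  have hqy := a.dQyy y h
  have h2y : HasDerivAt (fun y : ℂ => 2*y) (2*1) y := (hasDerivAt_id y).const_mul 2
  have := (hr.mul hq).add (h2y.mul ((hq.const_mul (-57/16)).add (hr.mul hqy)))
  refine (this.congr_of_eventuallyEq (Filter.Eventually.of_forall fun z => ?_)).congr_deriv ?_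
  · simp only [B, Pi.add_apply, Pi.mul_apply]
  · simp only [By, Pi.add_apply, Pi.mul_apply]; ring

end Par

/-- homogeneous bound of degree `n` on the closed quadrant -/
def HB (n : ℕ) (f : ℝ → ℝ → ℂ) : Prop :=
  ∃ C : ℝ, 0 ≤ C ∧ ∀ y h : ℝ, 0 ≤ y → 0 ≤ h → ‖f y h‖ ≤ C * (y+h)^n

namespace HB

lemma mul {m n : ℕ} {f g : ℝ → ℝ → ℂ} (hf : HB m f) (hg : HB n g) :
    HB (m+n) (fun y h => f y h * g y h) := by
  obtain ⟨C, hC, hf⟩ := hf
  obtain ⟨D, hD, hg⟩ := hg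
  refine ⟨C*D, by positivity, fun y h hy hh => ?_⟩
  rw [norm_mul]
  calc ‖f y h‖*‖g y h‖ ≤ (C*(y+h)^m)*(D*(y+h)^n) :=
        mul_le_mul (hf y h hy hh) (hg y h hy hh) (norm_nonneg _) (by positivity)
    _ = C*D*(y+h)^(m+n) := by rw [pow_add]; ring

lemma add {n : ℕ} {f g : ℝ → ℝ → ℂ} (hf : HB n f) (hg : HB n g) :
    HB n (fun y h => f y h + g y h) := by
  obtain ⟨C, hC, hf⟩ := hf
  obtain ⟨D, hD, hg⟩ := hg
  refine ⟨C+D, by positivity, fun y h hy hh => ?_⟩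
  calc ‖f y h + g y h‖ ≤ ‖f y h‖+‖g y h‖ := norm_add_le _ _
    _ ≤ C*(y+h)^n + D*(y+h)^n := add_le_add (hf y h hy hh) (hg y h hy hh)
    _ = (C+D)*(y+h)^n := by ring

lemma sub {n : ℕ} {f g : ℝ → ℝ → ℂ} (hf : HB n f) (hg : HB n g) :
    HB n (fun y h => f y h - g y h) := by
  obtain ⟨C, hC, hf⟩ := hf
  obtain ⟨D, hD, hg⟩ := hg
  refine ⟨C+D, by positivity, fun y h hy hh => ?_⟩
  calc ‖f y h - g y h‖ ≤ ‖f y h‖+‖g y h‖ := norm_sub_le _ _
    _ ≤ C*(y+h)^n + D*(y+h)^n := add_le_add (hf y h hy hh) (hg y h hy hh)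
    _ = (C+D)*(y+h)^n := by ring

lemma const (c : ℂ) : HB 0 (fun _ _ => c) := ⟨‖c‖, norm_nonneg _, fun y h _ _ => by simp⟩

lemma fy : HB 1 (fun y _ => (y:ℂ)) := ⟨1, zero_le_one, fun y h hy hh => by
  simp only [norm_real, Real.norm_eq_abs, abs_of_nonneg hy]; linarith⟩

lemma fh : HB 1 (fun _ h => (h:ℂ)) := ⟨1, zero_le_one, fun y h hy hh => by
  simp only [norm_real, Real.norm_eq_abs, abs_of_nonneg hh]; linarith⟩

lemma fypow (n : ℕ) : HB n (fun y _ => (y:ℂ)^n) := ⟨1, zero_le_one, fun y h hy hh => by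
  simp only [norm_pow, norm_real, Real.norm_eq_abs, abs_of_nonneg hy, one_mul]
  exact pow_le_pow_left₀ hy (by linarith) n⟩

lemma fhpow (n : ℕ) : HB n (fun _ h => (h:ℂ)^n) := ⟨1, zero_le_one, fun y h hy hh => by
  simp only [norm_pow, norm_real, Real.norm_eq_abs, abs_of_nonneg hh, one_mul]
  exact pow_le_pow_left₀ hh (by linarith) n⟩

lemma fr : HB 1 (fun y h => (y:ℂ)+(h:ℂ)) := fy.add fh

lemma cast {m n : ℕ} {f : ℝ → ℝ → ℂ} (hf : HB m f) (h : m = n) : HB n f := h ▸ hf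

end HB

namespace Par

variable (a : Par)

lemma HQ : HB 3 (fun y h => a.Q y h) := by
  have e3 := (HB.const (7/16)).mul (HB.fypow 3)
  have e2 := ((HB.const ((-9/16)*a.p2+3)).mul (HB.fypow 2)).mul HB.fh
  have e1 := ((HB.const ((-25/16)*a.p1+2*a.p2)).mul HB.fy).mul (HB.fhpow 2)
  have e0 := (HB.const ((-41/16)*a.p0+a.p1)).mul (HB.fhpow 3)
  exact (((e3.cast (by norm_num)).add (e2.cast (by norm_num))).add (e1.cast (by norm_num))).add
    (e0.cast (by norm_num))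

lemma HA : HB 3 (fun y h => a.A y h) := by
  have e3 := (HB.const ((-41/16)+a.p2)).mul (HB.fypow 3)
  have e2 := ((HB.const ((-25/16)*a.p2+2*a.p1)).mul (HB.fypow 2)).mul HB.fh
  have e1 := ((HB.const ((-9/16)*a.p1+3*a.p0)).mul HB.fy).mul (HB.fhpow 2)
  have e0 := (HB.const ((7/16)*a.p0)).mul (HB.fhpow 3)
  exact (((e3.cast (by norm_num)).add (e2.cast (by norm_num))).add (e1.cast (by norm_num))).add
    (e0.cast (by norm_num))

lemma HQy : HB 2 (fun y h => a.Qy y h) := by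
  have e3 := (HB.const (3*(7/16))).mul (HB.fypow 2)
  have e2 := ((HB.const (2*((-9/16)*a.p2+3))).mul (HB.fy)).mul HB.fh
  have e1 := ((HB.const ((-25/16)*a.p1+2*a.p2))).mul (HB.fhpow 2)
  exact ((e3.cast (by norm_num)).add (e2.cast (by norm_num))).add (e1.cast (by norm_num))

lemma HQh : HB 2 (fun y h => a.Qh y h) := by
  have e3 := (HB.const ((-9/16)*a.p2+3)).mul (HB.fypow 2)
  have e2 := ((HB.const (2*((-25/16)*a.p1+2*a.p2))).mul (HB.fy)).mul HB.fh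
  have e1 := ((HB.const (3*((-41/16)*a.p0+a.p1)))).mul (HB.fhpow 2)
  exact ((e3.cast (by norm_num)).add (e2.cast (by norm_num))).add (e1.cast (by norm_num))

lemma HAy : HB 2 (fun y h => a.Ay y h) := by
  have e3 := (HB.const (3*((-41/16)+a.p2))).mul (HB.fypow 2)
  have e2 := ((HB.const (2*((-25/16)*a.p2+2*a.p1))).mul (HB.fy)).mul HB.fh
  have e1 := ((HB.const ((-9/16)*a.p1+3*a.p0))).mul (HB.fhpow 2)
  exact ((e3.cast (by norm_num)).add (e2.cast (by norm_num))).add (e1.cast (by norm_num))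

lemma HQyy : HB 1 (fun y h => a.Qyy y h) := by
  have e2 := ((HB.const (6*(7/16))).mul (HB.fy))
  have e1 := ((HB.const (2*((-9/16)*a.p2+3)))).mul (HB.fh)
  exact ((e2.cast (by norm_num)).add (e1.cast (by norm_num)))

lemma HS : HB 3 (fun y h => (-57/16)*a.Q y h + (y+h)*a.Qy y h) := by
  have e2 := ((HB.const (-57/16)).mul a.HQ)
  have e1 := HB.fr.mul a.HQy
  exact ((e2.cast (by norm_num)).add (e1.cast (by norm_num)))

lemma HB4 : HB 4 (fun y h => a.B y h) := by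
  have e2 := HB.fr.mul a.HQ
  have e1 := ((HB.const 2).mul HB.fy).mul a.HS
  exact ((e2.cast (by norm_num)).add (e1.cast (by norm_num)))

lemma HR : HB 3 (fun y h => a.R y h) := by
  have e2 := ((HB.const (-57/16)).mul a.HQ)
  have e1 := HB.fr.mul a.HQh
  exact ((e2.cast (by norm_num)).add (e1.cast (by norm_num)))

lemma HBy : HB 3 (fun y h => a.By y h) := by
  have e2 := HB.fr.mul a.HQy
  have e3 := (HB.const 2).mul a.HS
  have e4 := ((HB.const 2).mul HB.fy).mul (((((HB.const (-57/16)).mul a.HQy).cast (n := 2)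
    (by norm_num)).add a.HQy).add ((HB.fr.mul a.HQyy).cast (by norm_num)))
  exact (((a.HQ).add (e2.cast (by norm_num))).add (e3.cast (by norm_num))).add
    (e4.cast (by norm_num))

/-- the positivity needed for ellipticity -/
def Good (a : Par) : Prop :=
  ∀ y h : ℝ, 0 ≤ y → 0 ≤ h → (y+h)^7/1000 ≤ -a.s * ((a.A y h) * (starRingEnd ℂ) (a.B y h)).re

lemma B_lower (ha : a.Good) (hs : |a.s| = 1) : ∃ b : ℝ, 0 < b ∧ ∀ y h : ℝ, 0 ≤ y → 0 ≤ h →
    b * (y+h)^4 ≤ ‖a.B y h‖ := by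
  obtain ⟨C, hC, hA⟩ := a.HA
  refine ⟨1/(1000*(C+1)), by positivity, fun y h hy hh => ?_⟩
  rcases eq_or_lt_of_le (show 0 ≤ y+h by positivity) with h0 | h0
  · rw [← h0]; simp
  have e1 := ha y h hy hh
  have e2 : -a.s * ((a.A y h) * (starRingEnd ℂ) (a.B y h)).re ≤ ‖a.A y h‖*‖a.B y h‖ := by
    calc _ ≤ |(-a.s) * ((a.A y h) * (starRingEnd ℂ) (a.B y h)).re| := le_abs_self _
      _ = |((a.A y h) * (starRingEnd ℂ) (a.B y h)).re| := by rw [abs_mul, abs_neg, hs, one_mul]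
      _ ≤ ‖(a.A y h) * (starRingEnd ℂ) (a.B y h)‖ := Complex.abs_re_le_norm _
      _ = _ := by rw [norm_mul, RCLike.norm_conj]
  have e3 : ‖a.A y h‖*‖a.B y h‖ ≤ ((C+1)*(y+h)^3)*‖a.B y h‖ := by
    refine mul_le_mul_of_nonneg_right ((hA y h hy hh).trans ?_) (norm_nonneg _)
    exact mul_le_mul_of_nonneg_right (by linarith) (by positivity)
  have e4 : (y+h)^7/1000 ≤ ((C+1)*(y+h)^3)*‖a.B y h‖ := e1.trans (e2.trans e3)
  have e5 : (y+h)^3 * ((y+h)^4/1000) ≤ (y+h)^3*((C+1)*‖a.B y h‖) := by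
    calc _ = (y+h)^7/1000 := by ring
      _ ≤ _ := e4
      _ = _ := by ring
  have e6 := le_of_mul_le_mul_left e5 (by positivity)
  calc 1/(1000*(C+1)) * (y+h)^4 = ((y+h)^4/1000)/(C+1) := by field_simp
    _ ≤ ((C+1)*‖a.B y h‖)/(C+1) := div_le_div_of_nonneg_right e6 (by positivity)
    _ = _ := by field_simp

end Par

/-- the parameters for `t > 0` -/
noncomputable def pP : Par := ⟨1, 41/10 - (1/5)*I, 21/10 - (19/10)*I, 1/10 + (1/10)*I⟩
/-- the parameters for `t < 0` -/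
noncomputable def pM : Par := ⟨-1, 5/2 + (1/10)*I, 2 + (1/5)*I, 1/2 + (1/10)*I⟩

lemma pP_A (y h : ℝ) : pP.A y h = (Arp y h : ℂ) + (Aip y h : ℂ) * I := by
  simp only [Par.A, pP, Arp, Aip]; push_cast; ring
lemma pP_B (y h : ℝ) : pP.B y h = (Brp y h : ℂ) + (Bip y h : ℂ) * I := by
  simp only [Par.B, Par.Q, Par.Qy, pP, Brp, Bip]; push_cast; ring
lemma pM_A (y h : ℝ) : pM.A y h = (Arm y h : ℂ) + (Aim y h : ℂ) * I := by
  simp only [Par.A, pM, Arm, Aim]; push_cast; ring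
lemma pM_B (y h : ℝ) : pM.B y h = (Brm y h : ℂ) + (Bim y h : ℂ) * I := by
  simp only [Par.B, Par.Q, Par.Qy, pM, Brm, Bim]; push_cast; ring

lemma aux_re (a b c d : ℝ) :
    (((a:ℂ)+(b:ℂ)*I) * (starRingEnd ℂ) ((c:ℂ)+(d:ℂ)*I)).re = a*c+b*d := by
  simp [Complex.mul_re]

lemma pP_good : pP.Good := by
  intro y h hy hh
  rw [pP_A, pP_B, aux_re]
  have := cert_p y h hy hh
  simpa [pP] using this

lemma pM_good : pM.Good := by
  intro y h hy hh
  rw [pM_A, pM_B, aux_re]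
  have := cert_m y h hy hh
  simpa [pM] using this

lemma pP_Q0 (y : ℂ) : pP.Q y 0 = (7/16)*y^3 := by simp [Par.Q]
lemma pM_Q0 (y : ℂ) : pM.Q y 0 = (7/16)*y^3 := by simp [Par.Q]

lemma pP_Qre (y h : ℝ) (hy : 0 ≤ y) (hh : 0 ≤ h) : 7/16*y^3 ≤ (pP.Q y h).re := by
  have e : pP.Q y h = ((7/16*y^3 + 111/160*y^2*h+787/160*y*h^2+59/32*h^3 : ℝ) : ℂ)
      + ((9/80*y^2*h+411/160*y*h^2-69/32*h^3 : ℝ) : ℂ) * I := by
    simp only [Par.Q, pP]; push_cast; ring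
  rw [e]
  have : 0 ≤ 111/160*y^2*h+787/160*y*h^2+59/32*h^3 := by positivity
  simp only [add_re, ofReal_re, mul_re, ofReal_im, I_re, I_im, mul_zero, zero_mul, sub_self,
    add_zero]
  linarith

end Pool.Agent.W787.PE
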