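import Pool.Agent.W787.PEalg
set_option autoImplicit false

/-! The explicit solution on one side, its derivatives and the size bounds. -/

namespace Pool.Agent.W787.PE

open Complex

noncomputable def rho (r : ℝ) : ℝ := r ^ (-(73/16) : ℝ)

lemma rho_pos {r : ℝ} (hr : 0 < r) : 0 < rho r := Real.rpow_pos_of_pos hr _

lemma rho_deriv {r : ℝ} (hr : 0 < r) : HasDerivAt rho (-(73/16) * rho r / r) r := by
  have := Real.hasDerivAt_rpow_const (x := r) (p := (-(73/16) : ℝ)) (Or.inl hr.ne')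
  refine this.congr_deriv ?_
  rw [Real.rpow_sub_one hr.ne']
  simp only [rho]; ring

lemma rho_mul_pow {r : ℝ} (hr : 0 < r) (n : ℕ) : rho r * r^n = r ^ ((n:ℝ) - 73/16) := by
  rw [rho, ← Real.rpow_natCast, ← Real.rpow_add hr]; congr 1; ring

lemma rho_x (h : ℝ) (x : ℝ) (hr : 0 < x^2+h) :
    HasDerivAt (fun x : ℝ => ((rho (x^2+h) : ℝ) : ℂ))
      (2 * (x:ℂ) * (-(73/16) * (rho (x^2+h) : ℂ) / ((x:ℂ)^2+h))) x := by
  have h1 : HasDerivAt (fun x : ℝ => x^2+h) (2*x) x := by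
    simpa using (hasDerivAt_pow 2 x).add_const h
  have h2 := (rho_deriv hr).comp x h1
  have h3 := h2.ofReal_comp
  refine h3.congr_deriv ?_
  push_cast; ring

lemma rho_h (x : ℝ) (h : ℝ) (hr : 0 < x^2+h) :
    HasDerivAt (fun h : ℝ => ((rho (x^2+h) : ℝ) : ℂ))
      (-(73/16) * (rho (x^2+h) : ℂ) / ((x:ℂ)^2+h)) h := by
  have h1 : HasDerivAt (fun h : ℝ => x^2+h) 1 h := by
    simpa using (hasDerivAt_id h).const_add (x^2)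
  have h2 := (rho_deriv hr).comp h h1
  have h3 := h2.ofReal_comp
  refine h3.congr_deriv ?_
  push_cast; ring

lemma sq_x (x : ℝ) : HasDerivAt (fun x : ℝ => (x:ℂ)^2) (2*(x:ℂ)) x := by
  have := (hasDerivAt_pow 2 (x:ℂ)).comp_ofReal
  simpa using this

lemma r_x (h x : ℝ) : HasDerivAt (fun x : ℝ => (x:ℂ)^2+(h:ℂ)) (2*(x:ℂ)) x := (sq_x x).add_const _

lemma r_h (h x : ℝ) : HasDerivAt (fun h : ℝ => (x:ℂ)^2+(h:ℂ)) 1 h := by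
  have := (hasDerivAt_id (h:ℂ)).comp_ofReal
  simpa using this.const_add ((x:ℂ)^2)

lemma ofReal_div_re_aux (t : ℝ) (z : ℂ) (d : ℝ) : t * z.re / d = ((t:ℂ) * z / (d:ℂ)).re := by
  rw [Complex.div_ofReal_re, Complex.re_ofReal_mul]

namespace Par
variable (a : Par)

noncomputable def U (x h : ℝ) : ℂ :=
  2*(x:ℂ)*(rho (x^2+h) : ℂ)*((x:ℂ)^2+h)*a.Q ((x:ℂ)^2) h
noncomputable def Ux (x h : ℝ) : ℂ := 2*(rho (x^2+h) : ℂ)*a.B ((x:ℂ)^2) h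
noncomputable def Uh (x h : ℝ) : ℂ := 2*(x:ℂ)*(rho (x^2+h) : ℂ)*a.R ((x:ℂ)^2) h
noncomputable def V (x h : ℝ) : ℂ := (rho (x^2+h) : ℂ)*((x:ℂ)^2+h)*a.A ((x:ℂ)^2) h
noncomputable def c (x h : ℝ) : ℂ := -(a.s : ℂ)*((x:ℂ)^2+h)*a.A ((x:ℂ)^2) h/(2*a.B ((x:ℂ)^2) h)
noncomputable def K (x h : ℝ) : ℂ :=
  -(a.s : ℂ)*((x:ℂ)*(rho (x^2+h) : ℂ)*((x:ℂ)^2+h)^2*(a.A ((x:ℂ)^2) h*a.Q ((x:ℂ)^2) h)
    /a.B ((x:ℂ)^2) h)
noncomputable def Kx (x h : ℝ) : ℂ :=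
  -(a.s : ℂ)*((rho (x^2+h) : ℂ)*((x:ℂ)^2+h)/(a.B ((x:ℂ)^2) h)^2 *
    (((x:ℂ)^2+h)*(a.A ((x:ℂ)^2) h*a.Q ((x:ℂ)^2) h*a.B ((x:ℂ)^2) h)
      + 2*(x:ℂ)^2*((-41/16)*(a.A ((x:ℂ)^2) h*a.Q ((x:ℂ)^2) h*a.B ((x:ℂ)^2) h)
      + ((x:ℂ)^2+h)*((a.Ay ((x:ℂ)^2) h*a.Q ((x:ℂ)^2) h+a.A ((x:ℂ)^2) h*a.Qy ((x:ℂ)^2) h)
          *a.B ((x:ℂ)^2) h - a.A ((x:ℂ)^2) h*a.Q ((x:ℂ)^2) h*a.By ((x:ℂ)^2) h))))

lemma r_ne {x h : ℝ} (hr : 0 < x^2+h) : (x:ℂ)^2+(h:ℂ) ≠ 0 := by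
  have : (x:ℂ)^2+(h:ℂ) = ((x^2+h:ℝ):ℂ) := by push_cast; ring
  rw [this]; exact_mod_cast hr.ne'

lemma dU_x (x h : ℝ) (hr : 0 < x^2+h) : HasDerivAt (fun x => a.U x h) (a.Ux x h) x := by
  have hx : HasDerivAt (fun x : ℝ => 2*(x:ℂ)) (2*1) x := by
    have := ((hasDerivAt_id (x:ℂ)).const_mul 2).comp_ofReal
    simpa using this
  have hq : HasDerivAt (fun x : ℝ => a.Q ((x:ℂ)^2) h) (a.Qy ((x:ℂ)^2) h * (2*(x:ℂ))) x :=
    HasDerivAt.comp (h := fun x : ℝ => (x:ℂ)^2) (h₂ := fun y => a.Q y h) x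
      (a.dQy ((x:ℂ)^2) h) (sq_x x)
  have := ((hx.mul (rho_x h x hr)).mul (r_x h x)).mul hq
  have hne := r_ne hr
  refine (this.congr_of_eventuallyEq (Filter.Eventually.of_forall fun z => ?_)).congr_deriv ?_
  · simp only [U, Pi.mul_apply]
  · simp only [Ux, B, Pi.mul_apply]
    field_simp
    ring

lemma dU_h (x h : ℝ) (hr : 0 < x^2+h) : HasDerivAt (fun h => a.U x h) (a.Uh x h) h := by
  have hq : HasDerivAt (fun h : ℝ => a.Q ((x:ℂ)^2) h) (a.Qh ((x:ℂ)^2) h) h :=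
    (a.dQh ((x:ℂ)^2) h).comp_ofReal
  have := ((((rho_h x h hr)).mul (r_h h x)).mul hq).const_mul (2*(x:ℂ))
  have hne := r_ne hr
  refine (this.congr_of_eventuallyEq (Filter.Eventually.of_forall fun z => ?_)).congr_deriv ?_
  · simp only [U, Pi.mul_apply]; ring
  · simp only [Uh, R, Pi.mul_apply]
    field_simp
    ring

lemma dV_x (x h : ℝ) (hr : 0 < x^2+h) : HasDerivAt (fun x => a.V x h) (a.Uh x h) x := by
  have hq : HasDerivAt (fun x : ℝ => a.A ((x:ℂ)^2) h) (a.Ay ((x:ℂ)^2) h * (2*(x:ℂ))) x :=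
    HasDerivAt.comp (h := fun x : ℝ => (x:ℂ)^2) (h₂ := fun y => a.A y h) x
      (a.dAy ((x:ℂ)^2) h) (sq_x x)
  have := ((rho_x h x hr).mul (r_x h x)).mul hq
  have hne := r_ne hr
  refine (this.congr_of_eventuallyEq (Filter.Eventually.of_forall fun z => ?_)).congr_deriv ?_
  · simp only [V, Pi.mul_apply]
  · simp only [Uh, R_eq, Pi.mul_apply]
    field_simp
    ring

lemma dK_x (x h : ℝ) (hr : 0 < x^2+h) (hB : a.B ((x:ℂ)^2) h ≠ 0) :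
    HasDerivAt (fun x => a.K x h) (a.Kx x h) x := by
  have hx : HasDerivAt (fun x : ℝ => (x:ℂ)) 1 x := by
    have := ((hasDerivAt_id (x:ℂ))).comp_ofReal
    simpa using this
  have hq : HasDerivAt (fun x : ℝ => a.Q ((x:ℂ)^2) h) (a.Qy ((x:ℂ)^2) h * (2*(x:ℂ))) x :=
    HasDerivAt.comp (h := fun x : ℝ => (x:ℂ)^2) (h₂ := fun y => a.Q y h) x
      (a.dQy ((x:ℂ)^2) h) (sq_x x)
  have hA : HasDerivAt (fun x : ℝ => a.A ((x:ℂ)^2) h) (a.Ay ((x:ℂ)^2) h * (2*(x:ℂ))) x :=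
    HasDerivAt.comp (h := fun x : ℝ => (x:ℂ)^2) (h₂ := fun y => a.A y h) x
      (a.dAy ((x:ℂ)^2) h) (sq_x x)
  have hb : HasDerivAt (fun x : ℝ => a.B ((x:ℂ)^2) h) (a.By ((x:ℂ)^2) h * (2*(x:ℂ))) x :=
    HasDerivAt.comp (h := fun x : ℝ => (x:ℂ)^2) (h₂ := fun y => a.B y h) x
      (a.dBy ((x:ℂ)^2) h) (sq_x x)
  have := ((((hx.mul (rho_x h x hr)).mul ((r_x h x).mul (r_x h x))).mul (hA.mul hq)).div hb hB).const_mul
    (-(a.s : ℂ))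
  have hne := r_ne hr
  refine (this.congr_of_eventuallyEq (Filter.Eventually.of_forall fun z => ?_)).congr_deriv ?_
  · simp only [K, Pi.mul_apply, Pi.div_apply, pow_two]
  · simp only [Kx, Pi.mul_apply]
    field_simp
    ring

lemma c_U (x h : ℝ) (hB : a.B ((x:ℂ)^2) h ≠ 0) : a.c x h * a.U x h = a.K x h := by
  simp only [c, U, K]; field_simp

lemma c_Ux (x h : ℝ) (hB : a.B ((x:ℂ)^2) h ≠ 0) : a.c x h * a.Ux x h = -(a.s : ℂ) * a.V x h := by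
  simp only [c, Ux, V]; field_simp

lemma cast_arg (x : ℝ) : ((x:ℂ)^2) = ((x^2 : ℝ) : ℂ) := by push_cast; ring

lemma B_ne (ha : a.Good) (hs : |a.s| = 1) {x h : ℝ} (hh : 0 ≤ h) (hr : 0 < x^2+h) :
    a.B ((x:ℂ)^2) h ≠ 0 := by
  obtain ⟨b, hb, hB⟩ := a.B_lower ha hs
  have := hB (x^2) h (sq_nonneg x) hh
  rw [cast_arg]
  intro h0
  rw [h0, norm_zero] at this
  have : 0 < b * (x^2+h)^4 := by positivity
  linarith

lemma rpow_half (x h : ℝ) (hh : 0 ≤ h) : |x| ≤ (x^2+h)^(1/2:ℝ) := by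
  rw [← Real.sqrt_eq_rpow]
  exact Real.abs_le_sqrt (by linarith)

/-- all size bounds in one statement -/
lemma bounds (ha : a.Good) (hs : |a.s| = 1) : ∃ C : ℝ, 0 < C ∧ ∀ x h : ℝ, 0 ≤ h → 0 < x^2+h →
    ‖a.U x h‖ ≤ C * (x^2+h)^(-(1/16):ℝ) ∧ ‖a.Ux x h‖ ≤ C * (x^2+h)^(-(9/16):ℝ) ∧
    ‖a.Uh x h‖ ≤ C * (x^2+h)^(-(17/16):ℝ) ∧ ‖a.V x h‖ ≤ C * (x^2+h)^(-(9/16):ℝ) ∧
    ‖a.Kx x h‖ ≤ C * (x^2+h)^(-(9/16):ℝ) ∧ ‖a.c x h‖ ≤ C ∧ C⁻¹ ≤ (a.c x h).re := by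
  obtain ⟨b, hb, hBl⟩ := a.B_lower ha hs
  obtain ⟨CQ, hCQ, hQ⟩ := a.HQ
  obtain ⟨CA, hCA, hA⟩ := a.HA
  obtain ⟨CB, hCB, hB⟩ := a.HB4
  obtain ⟨CR, hCR, hR⟩ := a.HR
  -- the bracket in `Kx`
  have hbr : HB 11 (fun y h => ((y:ℂ)+h)*(a.A y h*a.Q y h*a.B y h)
      + 2*(y:ℂ)*((-41/16)*(a.A y h*a.Q y h*a.B y h)
      + ((y:ℂ)+h)*((a.Ay y h*a.Q y h+a.A y h*a.Qy y h)
          *a.B y h - a.A y h*a.Q y h*a.By y h))) := by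
    have k0 := (a.HA.mul a.HQ).mul a.HB4
    have k1 := HB.fr.mul k0
    have k2 := (HB.const (-41/16)).mul k0
    have k3 := ((((a.HAy.mul a.HQ)).add ((a.HA.mul a.HQy).cast (by norm_num))).mul a.HB4)
    have k4 := (a.HA.mul a.HQ).mul a.HBy
    have k5 := HB.fr.mul (k3.sub (k4.cast (by norm_num)))
    have k6 := ((HB.const 2).mul HB.fy).mul ((k2.cast (by norm_num)).add k5)
    exact (k1.cast (by norm_num)).add (k6.cast (by norm_num))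
  obtain ⟨CK, hCK, hK⟩ := hbr
  set C : ℝ := 1 + 2*CQ + 2*CB + 2*CR + CA + CK/b^2 + CA/(2*b) + 2000*CB^2 with hC
  have hCpos : 0 < C := by positivity
  refine ⟨C, hCpos, fun x h hh hr => ?_⟩
  have hy : 0 ≤ x^2 := sq_nonneg x
  set r := x^2+h with hrdef
  have hQ' := hQ _ h hy hh
  have hA' := hA _ h hy hh
  have hB' := hB _ h hy hh
  have hR' := hR _ h hy hh
  have hK' := hK _ h hy hh
  have hBl' := hBl _ h hy hh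
  beta_reduce at hQ' hA' hB' hR' hK' hBl'
  rw [← cast_arg] at hQ' hA' hB' hR' hK' hBl'
  rw [← hrdef] at hQ' hA' hB' hR' hK' hBl'
  have hrho := rho_pos hr
  have hxr := rpow_half x h hh
  rw [← hrdef] at hxr
  have hnr : ‖(x:ℂ)^2+(h:ℂ)‖ = r := by
    have : (x:ℂ)^2+(h:ℂ) = ((x^2+h:ℝ):ℂ) := by push_cast; ring
    rw [this, norm_real, Real.norm_eq_abs, abs_of_pos hr]
  have hnrho : ‖((rho r : ℝ) : ℂ)‖ = rho r := by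
    rw [norm_real, Real.norm_eq_abs, abs_of_pos hrho]
  have hnx : ‖(x:ℂ)‖ = |x| := by rw [norm_real, Real.norm_eq_abs]
  have hBne : a.B ((x:ℂ)^2) h ≠ 0 := a.B_ne ha hs hh hr
  have hBpos : 0 < ‖a.B ((x:ℂ)^2) h‖ := norm_pos_iff.mpr hBne
  have m4 : rho r * r^4 = r ^ (-(9/16) : ℝ) := by
    rw [rho_mul_pow hr]; norm_num
  have m3 : r^(1/2:ℝ) * (rho r * r^3) = r ^ (-(17/16) : ℝ) := by
    rw [rho_mul_pow hr, ← Real.rpow_add hr]; norm_num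
  have m5 : r^(1/2:ℝ) * (rho r * r^4) = r ^ (-(1/16) : ℝ) := by
    rw [m4, ← Real.rpow_add hr]; norm_num
  have q1 : 0 < r ^ (-(1/16) : ℝ) := Real.rpow_pos_of_pos hr _
  have q9 : 0 < r ^ (-(9/16) : ℝ) := Real.rpow_pos_of_pos hr _
  have q17 : 0 < r ^ (-(17/16) : ℝ) := Real.rpow_pos_of_pos hr _
  have hb2 : 0 ≤ CK/b^2 := by positivity
  have hb3 : 0 ≤ CA/(2*b) := by positivity
  have hb4 : 0 ≤ 2000*CB^2 := by positivity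
  refine ⟨?_, ?_, ?_, ?_, ?_, ?_, ?_⟩
  · have : ‖a.U x h‖ = 2*|x| * (rho r)*r*‖a.Q ((x:ℂ)^2) h‖ := by
      simp only [U, norm_mul, hnx, ← hrdef, hnr, hnrho]; norm_num
    rw [this]
    calc 2*|x| * (rho r)*r*‖a.Q ((x:ℂ)^2) h‖ ≤ 2*r^(1/2:ℝ)*(rho r)*r*(CQ*r^3) := by gcongr
      _ = (2*CQ)*(r^(1/2:ℝ) * (rho r * r^4)) := by ring
      _ = (2*CQ)*r ^ (-(1/16) : ℝ) := by rw [m5]
      _ ≤ C*r ^ (-(1/16) : ℝ) := by gcongr; rw [hC]; linarith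
  · have : ‖a.Ux x h‖ = 2*(rho r)*‖a.B ((x:ℂ)^2) h‖ := by
      simp only [Ux, norm_mul, ← hrdef, hnrho]; norm_num
    rw [this]
    calc 2*(rho r)*‖a.B ((x:ℂ)^2) h‖ ≤ 2*(rho r)*(CB*r^4) := by gcongr
      _ = (2*CB)*(rho r * r^4) := by ring
      _ = (2*CB)*r ^ (-(9/16) : ℝ) := by rw [m4]
      _ ≤ C*r ^ (-(9/16) : ℝ) := by gcongr; rw [hC]; linarith
  · have : ‖a.Uh x h‖ = 2*|x| * (rho r)*‖a.R ((x:ℂ)^2) h‖ := by
      simp only [Uh, norm_mul, hnx, ← hrdef, hnrho]; norm_num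
    rw [this]
    calc 2*|x| * (rho r)*‖a.R ((x:ℂ)^2) h‖ ≤ 2*r^(1/2:ℝ)*(rho r)*(CR*r^3) := by gcongr
      _ = (2*CR)*(r^(1/2:ℝ) * (rho r * r^3)) := by ring
      _ = (2*CR)*r ^ (-(17/16) : ℝ) := by rw [m3]
      _ ≤ C*r ^ (-(17/16) : ℝ) := by gcongr; rw [hC]; linarith
  · have : ‖a.V x h‖ = (rho r)*r*‖a.A ((x:ℂ)^2) h‖ := by
      simp only [V, norm_mul, ← hrdef, hnr, hnrho]
    rw [this]
    calc (rho r)*r*‖a.A ((x:ℂ)^2) h‖ ≤ (rho r)*r*(CA*r^3) := by gcongr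
      _ = CA*(rho r * r^4) := by ring
      _ = CA*r ^ (-(9/16) : ℝ) := by rw [m4]
      _ ≤ C*r ^ (-(9/16) : ℝ) := by gcongr; rw [hC]; linarith
  · have : ‖a.Kx x h‖ = (rho r)*r/‖a.B ((x:ℂ)^2) h‖^2*‖((x:ℂ)^2+h)*(a.A ((x:ℂ)^2) h*a.Q ((x:ℂ)^2) h*a.B ((x:ℂ)^2) h)
      + 2*(x:ℂ)^2*((-41/16)*(a.A ((x:ℂ)^2) h*a.Q ((x:ℂ)^2) h*a.B ((x:ℂ)^2) h)
      + ((x:ℂ)^2+h)*((a.Ay ((x:ℂ)^2) h*a.Q ((x:ℂ)^2) h+a.A ((x:ℂ)^2) h*a.Qy ((x:ℂ)^2) h)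
          *a.B ((x:ℂ)^2) h - a.A ((x:ℂ)^2) h*a.Q ((x:ℂ)^2) h*a.By ((x:ℂ)^2) h))‖ := by
      rw [Kx, norm_mul, norm_mul, norm_div, norm_mul, norm_neg, norm_pow, ← hrdef, hnr, hnrho]
      rw [norm_real, Real.norm_eq_abs, hs, one_mul]
    rw [this]
    calc _ ≤ (rho r)*r/(b*r^4)^2*(CK*r^11) := by gcongr
      _ = (CK/b^2)*(rho r * r^4) := by field_simp
      _ = (CK/b^2)*r ^ (-(9/16) : ℝ) := by rw [m4]
      _ ≤ C*r ^ (-(9/16) : ℝ) := by gcongr; rw [hC]; linarith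
  · have : ‖a.c x h‖ = r*‖a.A ((x:ℂ)^2) h‖/(2*‖a.B ((x:ℂ)^2) h‖) := by
      rw [c, norm_div, norm_mul, norm_mul, norm_mul, norm_neg, hnr, norm_real, Real.norm_eq_abs, hs]
      norm_num
    rw [this]
    calc _ ≤ r*(CA*r^3)/(2*(b*r^4)) := by gcongr
      _ = CA/(2*b) := by field_simp
      _ ≤ C := by rw [hC]; linarith [show 0 ≤ CK/b^2 from hb2]
  · have e1 : (a.c x h).re = r * (-a.s * ((a.A ((x:ℂ)^2) h) *
        (starRingEnd ℂ) (a.B ((x:ℂ)^2) h)).re) / (2*‖a.B ((x:ℂ)^2) h‖^2) := by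
      have h1 : a.c x h = ((r * -a.s : ℝ):ℂ) * ((a.A ((x:ℂ)^2) h) *
        (starRingEnd ℂ) (a.B ((x:ℂ)^2) h)) / ((2*‖a.B ((x:ℂ)^2) h‖^2 : ℝ) : ℂ) := by
        have h2 : ((‖a.B ((x:ℂ)^2) h‖^2 : ℝ) : ℂ) =
          a.B ((x:ℂ)^2) h * (starRingEnd ℂ) (a.B ((x:ℂ)^2) h) := by
          rw [Complex.mul_conj, Complex.normSq_eq_norm_sq]
        have h3 : (starRingEnd ℂ) (a.B ((x:ℂ)^2) h) ≠ 0 := by
          simpa using hBne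
        rw [ofReal_mul 2, h2, c]
        rw [hrdef]
        push_cast
        field_simp
      rw [h1, ← ofReal_div_re_aux]
      ring
    have e2 := ha (x^2) h hy hh
    rw [← cast_arg, ← hrdef] at e2
    rw [e1]
    have hCB' : 0 < CB := by
      by_contra hcon
      have : CB = 0 := le_antisymm (not_lt.mp hcon) hCB
      rw [this, zero_mul] at hB'
      linarith
    calc C⁻¹ ≤ (2000*CB^2)⁻¹ := by
          apply inv_anti₀ (by positivity)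
          rw [hC]; linarith
      _ = r*(r^7/1000)/(2*(CB*r^4)^2) := by field_simp; norm_num
      _ ≤ _ := by
        have e3 : 0 ≤ r * (-a.s * ((a.A ((x:ℂ)^2) h) *
            (starRingEnd ℂ) (a.B ((x:ℂ)^2) h)).re) :=
          mul_nonneg hr.le (le_trans (by positivity) e2)
        gcongr

end Par

end Pool.Agent.W787.PE
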