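import Mathlib
set_option autoImplicit false

/-! Positivity certificates for the two explicit polynomials (generated). -/

namespace Pool.Agent.W787.PE

noncomputable def Arp (y h : ℝ) : ℝ := (123/80)*y^3*h^0 + (-353/160)*y^2*h^1 + (-141/160)*y^1*h^2 + (7/160)*y^0*h^3
noncomputable def Aip (y h : ℝ) : ℝ := (-1/5)*y^3*h^0 + (-279/80)*y^2*h^1 + (219/160)*y^1*h^2 + (7/160)*y^0*h^3
noncomputable def Brp (y h : ℝ) : ℝ := (-7/128)*y^4*h^0 + (2033/1280)*y^3*h^1 + (-21531/1280)*y^2*h^2 + (4433/1280)*y^1*h^3 + (59/32)*y^0*h^4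
noncomputable def Bip (y h : ℝ) : ℝ := (-153/640)*y^3*h^1 + (-12843/1280)*y^2*h^2 + (26769/1280)*y^1*h^3 + (-69/32)*y^0*h^4

lemma N_p (y h : ℝ) : -(Arp y h * Brp y h + Aip y h * Bip y h) = (861/10240)*y^7*h^0 + (-26731/10240)*y^6*h^1 + (5422681/204800)*y^5*h^2 + (-1464659/20480)*y^4*h^3 + (487429/6400)*y^3*h^4 + (-285187/10240)*y^2*h^5 + (359393/102400)*y^1*h^6 + (7/512)*y^0*h^7 := by
  simp only [Arp, Aip, Brp, Bip]; ring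

lemma pc_p0 (p q : ℝ) (hp : 0 ≤ p) (hq : 0 ≤ q) : ((0*p + (1/4)*q)+(1*p + (3/4)*q))^7/1000 ≤ (861/10240)*(0*p + (1/4)*q)^7*(1*p + (3/4)*q)^0 + (-26731/10240)*(0*p + (1/4)*q)^6*(1*p + (3/4)*q)^1 + (5422681/204800)*(0*p + (1/4)*q)^5*(1*p + (3/4)*q)^2 + (-1464659/20480)*(0*p + (1/4)*q)^4*(1*p + (3/4)*q)^3 + (487429/6400)*(0*p + (1/4)*q)^3*(1*p + (3/4)*q)^4 + (-285187/10240)*(0*p + (1/4)*q)^2*(1*p + (3/4)*q)^5 + (359393/102400)*(0*p + (1/4)*q)^1*(1*p + (3/4)*q)^6 + (7/512)*(0*p + (1/4)*q)^0*(1*p + (3/4)*q)^7 := by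
  have e : (861/10240)*(0*p + (1/4)*q)^7*(1*p + (3/4)*q)^0 + (-26731/10240)*(0*p + (1/4)*q)^6*(1*p + (3/4)*q)^1 + (5422681/204800)*(0*p + (1/4)*q)^5*(1*p + (3/4)*q)^2 + (-1464659/20480)*(0*p + (1/4)*q)^4*(1*p + (3/4)*q)^3 + (487429/6400)*(0*p + (1/4)*q)^3*(1*p + (3/4)*q)^4 + (-285187/10240)*(0*p + (1/4)*q)^2*(1*p + (3/4)*q)^5 + (359393/102400)*(0*p + (1/4)*q)^1*(1*p + (3/4)*q)^6 + (7/512)*(0*p + (1/4)*q)^0*(1*p + (3/4)*q)^7 - ((0*p + (1/4)*q)+(1*p + (3/4)*q))^7/1000 = (279649289/16777216000)*p^0*q^7 + (42181139/524288000)*p^1*q^6 + (295401269/1048576000)*p^2*q^5 + (26718489/26214400)*p^3*q^4 + (14632493/6553600)*p^4*q^3 + (4809247/2048000)*p^5*q^2 + (1929629/2048000)*p^6*q^1 + (811/64000)*p^7*q^0 := by ring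
  have : 0 ≤ (279649289/16777216000)*p^0*q^7 + (42181139/524288000)*p^1*q^6 + (295401269/1048576000)*p^2*q^5 + (26718489/26214400)*p^3*q^4 + (14632493/6553600)*p^4*q^3 + (4809247/2048000)*p^5*q^2 + (1929629/2048000)*p^6*q^1 + (811/64000)*p^7*q^0 := by positivity
  linarith

lemma pc_p1 (p q : ℝ) (hp : 0 ≤ p) (hq : 0 ≤ q) : (((1/4)*p + (1/2)*q)+((3/4)*p + (1/2)*q))^7/1000 ≤ (861/10240)*((1/4)*p + (1/2)*q)^7*((3/4)*p + (1/2)*q)^0 + (-26731/10240)*((1/4)*p + (1/2)*q)^6*((3/4)*p + (1/2)*q)^1 + (5422681/204800)*((1/4)*p + (1/2)*q)^5*((3/4)*p + (1/2)*q)^2 + (-1464659/20480)*((1/4)*p + (1/2)*q)^4*((3/4)*p + (1/2)*q)^3 + (487429/6400)*((1/4)*p + (1/2)*q)^3*((3/4)*p + (1/2)*q)^4 + (-285187/10240)*((1/4)*p + (1/2)*q)^2*((3/4)*p + (1/2)*q)^5 + (359393/102400)*((1/4)*p + (1/2)*q)^1*((3/4)*p + (1/2)*q)^6 + (7/512)*((1/4)*p + (1/2)*q)^0*((3/4)*p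 + (1/2)*q)^7 := by
  have e : (861/10240)*((1/4)*p + (1/2)*q)^7*((3/4)*p + (1/2)*q)^0 + (-26731/10240)*((1/4)*p + (1/2)*q)^6*((3/4)*p + (1/2)*q)^1 + (5422681/204800)*((1/4)*p + (1/2)*q)^5*((3/4)*p + (1/2)*q)^2 + (-1464659/20480)*((1/4)*p + (1/2)*q)^4*((3/4)*p + (1/2)*q)^3 + (487429/6400)*((1/4)*p + (1/2)*q)^3*((3/4)*p + (1/2)*q)^4 + (-285187/10240)*((1/4)*p + (1/2)*q)^2*((3/4)*p + (1/2)*q)^5 + (359393/102400)*((1/4)*p + (1/2)*q)^1*((3/4)*p + (1/2)*q)^6 + (7/512)*((1/4)*p + (1/2)*q)^0*((3/4)*p + (1/2)*q)^7 - (((1/4)*p + (1/2)*q)+((3/4)*p + (1/2)*q))^7/1000 = (4240253/131072000)*p^0*q^7 + (74519267/262144000)*p^1*q^6 + (532767157/524288000)*p^2*q^5 + (379418759/209715200)*p^3*q^4 + (686959603/419430400)*p^4*q^3 + (3004850801/4194304000)*p^5*q^2 + (1282646799/8388608000)*p^6*q^1 + (279649289/16777216000)*p^7*q^0 := by ring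
  have : 0 ≤ (4240253/131072000)*p^0*q^7 + (74519267/262144000)*p^1*q^6 + (532767157/524288000)*p^2*q^5 + (379418759/209715200)*p^3*q^4 + (686959603/419430400)*p^4*q^3 + (3004850801/4194304000)*p^5*q^2 + (1282646799/8388608000)*p^6*q^1 + (279649289/16777216000)*p^7*q^0 := by positivity
  linarith

lemma pc_p2 (p q : ℝ) (hp : 0 ≤ p) (hq : 0 ≤ q) : (((1/2)*p + (3/4)*q)+((1/2)*p + (1/4)*q))^7/1000 ≤ (861/10240)*((1/2)*p + (3/4)*q)^7*((1/2)*p + (1/4)*q)^0 + (-26731/10240)*((1/2)*p + (3/4)*q)^6*((1/2)*p + (1/4)*q)^1 + (5422681/204800)*((1/2)*p + (3/4)*q)^5*((1/2)*p + (1/4)*q)^2 + (-1464659/20480)*((1/2)*p + (3/4)*q)^4*((1/2)*p + (1/4)*q)^3 + (487429/6400)*((1/2)*p + (3/4)*q)^3*((1/2)*p + (1/4)*q)^4 + (-285187/10240)*((1/2)*p + (3/4)*q)^2*((1/2)*p + (1/4)*q)^5 + (359393/102400)*((1/2)*p + (3/4)*q)^1*((1/2)*p + (1/4)*q)^6 + (7/512)*((1/2)*p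 + (3/4)*q)^0*((1/2)*p + (1/4)*q)^7 := by
  have e : (861/10240)*((1/2)*p + (3/4)*q)^7*((1/2)*p + (1/4)*q)^0 + (-26731/10240)*((1/2)*p + (3/4)*q)^6*((1/2)*p + (1/4)*q)^1 + (5422681/204800)*((1/2)*p + (3/4)*q)^5*((1/2)*p + (1/4)*q)^2 + (-1464659/20480)*((1/2)*p + (3/4)*q)^4*((1/2)*p + (1/4)*q)^3 + (487429/6400)*((1/2)*p + (3/4)*q)^3*((1/2)*p + (1/4)*q)^4 + (-285187/10240)*((1/2)*p + (3/4)*q)^2*((1/2)*p + (1/4)*q)^5 + (359393/102400)*((1/2)*p + (3/4)*q)^1*((1/2)*p + (1/4)*q)^6 + (7/512)*((1/2)*p + (3/4)*q)^0*((1/2)*p + (1/4)*q)^7 - (((1/2)*p + (3/4)*q)+((1/2)*p + (1/4)*q))^7/1000 = (739342819/16777216000)*p^0*q^7 + (2130252119/8388608000)*p^1*q^6 + (2091116771/4194304000)*p^2*q^5 + (186409507/419430400)*p^3*q^4 + (74358397/209715200)*p^4*q^3 + (169029757/524288000)*p^5*q^2 + (44207817/262144000)*p^6*q^1 + (4240253/131072000)*p^7*q^0 :=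 by ring
  have : 0 ≤ (739342819/16777216000)*p^0*q^7 + (2130252119/8388608000)*p^1*q^6 + (2091116771/4194304000)*p^2*q^5 + (186409507/419430400)*p^3*q^4 + (74358397/209715200)*p^4*q^3 + (169029757/524288000)*p^5*q^2 + (44207817/262144000)*p^6*q^1 + (4240253/131072000)*p^7*q^0 := by positivity
  linarith

lemma pc_p3 (p q : ℝ) (hp : 0 ≤ p) (hq : 0 ≤ q) : (((3/4)*p + (7/8)*q)+((1/4)*p + (1/8)*q))^7/1000 ≤ (861/10240)*((3/4)*p + (7/8)*q)^7*((1/4)*p + (1/8)*q)^0 + (-26731/10240)*((3/4)*p + (7/8)*q)^6*((1/4)*p + (1/8)*q)^1 + (5422681/204800)*((3/4)*p + (7/8)*q)^5*((1/4)*p + (1/8)*q)^2 + (-1464659/20480)*((3/4)*p + (7/8)*q)^4*((1/4)*p + (1/8)*q)^3 + (487429/6400)*((3/4)*p + (7/8)*q)^3*((1/4)*p + (1/8)*q)^4 + (-285187/10240)*((3/4)*p + (7/8)*q)^2*((1/4)*p + (1/8)*q)^5 + (359393/102400)*((3/4)*p + (7/8)*q)^1*((1/4)*p + (1/8)*q)^6 + (7/512)*((3/4)*p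 + (7/8)*q)^0*((1/4)*p + (1/8)*q)^7 := by
  have e : (861/10240)*((3/4)*p + (7/8)*q)^7*((1/4)*p + (1/8)*q)^0 + (-26731/10240)*((3/4)*p + (7/8)*q)^6*((1/4)*p + (1/8)*q)^1 + (5422681/204800)*((3/4)*p + (7/8)*q)^5*((1/4)*p + (1/8)*q)^2 + (-1464659/20480)*((3/4)*p + (7/8)*q)^4*((1/4)*p + (1/8)*q)^3 + (487429/6400)*((3/4)*p + (7/8)*q)^3*((1/4)*p + (1/8)*q)^4 + (-285187/10240)*((3/4)*p + (7/8)*q)^2*((1/4)*p + (1/8)*q)^5 + (359393/102400)*((3/4)*p + (7/8)*q)^1*((1/4)*p + (1/8)*q)^6 + (7/512)*((3/4)*p + (7/8)*q)^0*((1/4)*p + (1/8)*q)^7 - (((3/4)*p + (7/8)*q)+((1/4)*p + (1/8)*q))^7/1000 = (59512570367/2147483648000)*p^0*q^7 + (274361049597/1073741824000)*p^1*q^6 + (500244427363/536870912000)*p^2*q^5 + (92927749861/53687091200)*p^3*q^4 + (48304303561/26843545600)*p^4*q^3 + (71411183591/67108864000)*p^5*q^2 + (11265694961/33554432000)*p^6*q^1 +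 (739342819/16777216000)*p^7*q^0 := by ring
  have : 0 ≤ (59512570367/2147483648000)*p^0*q^7 + (274361049597/1073741824000)*p^1*q^6 + (500244427363/536870912000)*p^2*q^5 + (92927749861/53687091200)*p^3*q^4 + (48304303561/26843545600)*p^4*q^3 + (71411183591/67108864000)*p^5*q^2 + (11265694961/33554432000)*p^6*q^1 + (739342819/16777216000)*p^7*q^0 := by positivity
  linarith

lemma pc_p4 (p q : ℝ) (hp : 0 ≤ p) (hq : 0 ≤ q) : (((7/8)*p + (15/16)*q)+((1/8)*p + (1/16)*q))^7/1000 ≤ (861/10240)*((7/8)*p + (15/16)*q)^7*((1/8)*p + (1/16)*q)^0 + (-26731/10240)*((7/8)*p + (15/16)*q)^6*((1/8)*p + (1/16)*q)^1 + (5422681/204800)*((7/8)*p + (15/16)*q)^5*((1/8)*p + (1/16)*q)^2 + (-1464659/20480)*((7/8)*p + (15/16)*q)^4*((1/8)*p + (1/16)*q)^3 + (487429/6400)*((7/8)*p + (15/16)*q)^3*((1/8)*p + (1/16)*q)^4 + (-285187/10240)*((7/8)*p + (15/16)*q)^2*((1/8)*p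 + (1/16)*q)^5 + (359393/102400)*((7/8)*p + (15/16)*q)^1*((1/8)*p + (1/16)*q)^6 + (7/512)*((7/8)*p + (15/16)*q)^0*((1/8)*p + (1/16)*q)^7 := by
  have e : (861/10240)*((7/8)*p + (15/16)*q)^7*((1/8)*p + (1/16)*q)^0 + (-26731/10240)*((7/8)*p + (15/16)*q)^6*((1/8)*p + (1/16)*q)^1 + (5422681/204800)*((7/8)*p + (15/16)*q)^5*((1/8)*p + (1/16)*q)^2 + (-1464659/20480)*((7/8)*p + (15/16)*q)^4*((1/8)*p + (1/16)*q)^3 + (487429/6400)*((7/8)*p + (15/16)*q)^3*((1/8)*p + (1/16)*q)^4 + (-285187/10240)*((7/8)*p + (15/16)*q)^2*((1/8)*p + (1/16)*q)^5 + (359393/102400)*((7/8)*p + (15/16)*q)^1*((1/8)*p + (1/16)*q)^6 + (7/512)*((7/8)*p + (15/16)*q)^0*((1/8)*p + (1/16)*q)^7 - (((7/8)*p + (15/16)*q)+((1/8)*p + (1/16)*q))^7/1000 = (1126507296631/274877906944000)*p^0*q^7 + (3951271806281/137438953472000)*p^1*q^6 + (9029278603379/68719476736000)*p^2*q^5 + (2351044325593/6871947673600)*p^3*q^4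 + (1691890250593/3435973836800)*p^4*q^3 + (3371855723323/8589934592000)*p^5*q^2 + (701041878513/4294967296000)*p^6*q^1 + (59512570367/2147483648000)*p^7*q^0 := by ring
  have : 0 ≤ (1126507296631/274877906944000)*p^0*q^7 + (3951271806281/137438953472000)*p^1*q^6 + (9029278603379/68719476736000)*p^2*q^5 + (2351044325593/6871947673600)*p^3*q^4 + (1691890250593/3435973836800)*p^4*q^3 + (3371855723323/8589934592000)*p^5*q^2 + (701041878513/4294967296000)*p^6*q^1 + (59512570367/2147483648000)*p^7*q^0 := by positivity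
  linarith

lemma pc_p5 (p q : ℝ) (hp : 0 ≤ p) (hq : 0 ≤ q) : (((15/16)*p + 1*q)+((1/16)*p + 0*q))^7/1000 ≤ (861/10240)*((15/16)*p + 1*q)^7*((1/16)*p + 0*q)^0 + (-26731/10240)*((15/16)*p + 1*q)^6*((1/16)*p + 0*q)^1 + (5422681/204800)*((15/16)*p + 1*q)^5*((1/16)*p + 0*q)^2 + (-1464659/20480)*((15/16)*p + 1*q)^4*((1/16)*p + 0*q)^3 + (487429/6400)*((15/16)*p + 1*q)^3*((1/16)*p + 0*q)^4 + (-285187/10240)*((15/16)*p + 1*q)^2*((1/16)*p + 0*q)^5 + (359393/102400)*((15/16)*p + 1*q)^1*((1/16)*p + 0*q)^6 + (7/512)*((15/16)*p + 1*q)^0*((1/16)*p + 0*q)^7 := by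
  have e : (861/10240)*((15/16)*p + 1*q)^7*((1/16)*p + 0*q)^0 + (-26731/10240)*((15/16)*p + 1*q)^6*((1/16)*p + 0*q)^1 + (5422681/204800)*((15/16)*p + 1*q)^5*((1/16)*p + 0*q)^2 + (-1464659/20480)*((15/16)*p + 1*q)^4*((1/16)*p + 0*q)^3 + (487429/6400)*((15/16)*p + 1*q)^3*((1/16)*p + 0*q)^4 + (-285187/10240)*((15/16)*p + 1*q)^2*((1/16)*p + 0*q)^5 + (359393/102400)*((15/16)*p + 1*q)^1*((1/16)*p + 0*q)^6 + (7/512)*((15/16)*p + 1*q)^0*((1/16)*p + 0*q)^7 - (((15/16)*p + 1*q)+((1/16)*p + 0*q))^7/1000 = (21269/256000)*p^0*q^7 + (781589/2048000)*p^1*q^6 + (187851881/262144000)*p^2*q^5 + (592464357/838860800)*p^3*q^4 + (529291003/1342177280)*p^4*q^3 + (70142976523/536870912000)*p^5*q^2 + (491784908767/17179869184000)*p^6*q^1 + (1126507296631/274877906944000)*p^7*q^0 := by ring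
  have : 0 ≤ (21269/256000)*p^0*q^7 + (781589/2048000)*p^1*q^6 + (187851881/262144000)*p^2*q^5 + (592464357/838860800)*p^3*q^4 + (529291003/1342177280)*p^4*q^3 + (70142976523/536870912000)*p^5*q^2 + (491784908767/17179869184000)*p^6*q^1 + (1126507296631/274877906944000)*p^7*q^0 := by positivity
  linarith

lemma cert_p (y h : ℝ) (hy : 0 ≤ y) (hh : 0 ≤ h) : (y+h)^7/1000 ≤ -(Arp y h * Brp y h + Aip y h * Bip y h) := by
  rw [N_p]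
  rcases le_total y ((1/4)*(y+h)) with h0 | h0
  · have := pc_p0 (((1/4)*(y+h) - y)/(1/4)) ((y - 0*(y+h))/(1/4)) (by apply div_nonneg <;> [linarith; norm_num]) (by apply div_nonneg <;> [linarith; norm_num])
    have e1 : 0*(((1/4)*(y+h) - y)/(1/4)) + (1/4)*((y - 0*(y+h))/(1/4)) = y := by ring
    have e2 : 1*(((1/4)*(y+h) - y)/(1/4)) + (3/4)*((y - 0*(y+h))/(1/4)) = h := by ring
    rwa [e1, e2] at this
  rcases le_total y ((1/2)*(y+h)) with h1 | h1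
  · have := pc_p1 (((1/2)*(y+h) - y)/(1/4)) ((y - (1/4)*(y+h))/(1/4)) (by apply div_nonneg <;> [linarith; norm_num]) (by apply div_nonneg <;> [linarith; norm_num])
    have e1 : (1/4)*(((1/2)*(y+h) - y)/(1/4)) + (1/2)*((y - (1/4)*(y+h))/(1/4)) = y := by ring
    have e2 : (3/4)*(((1/2)*(y+h) - y)/(1/4)) + (1/2)*((y - (1/4)*(y+h))/(1/4)) = h := by ring
    rwa [e1, e2] at this
  rcases le_total y ((3/4)*(y+h)) with h2 | h2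
  · have := pc_p2 (((3/4)*(y+h) - y)/(1/4)) ((y - (1/2)*(y+h))/(1/4)) (by apply div_nonneg <;> [linarith; norm_num]) (by apply div_nonneg <;> [linarith; norm_num])
    have e1 : (1/2)*(((3/4)*(y+h) - y)/(1/4)) + (3/4)*((y - (1/2)*(y+h))/(1/4)) = y := by ring
    have e2 : (1/2)*(((3/4)*(y+h) - y)/(1/4)) + (1/4)*((y - (1/2)*(y+h))/(1/4)) = h := by ring
    rwa [e1, e2] at this
  rcases le_total y ((7/8)*(y+h)) with h3 | h3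
  · have := pc_p3 (((7/8)*(y+h) - y)/(1/8)) ((y - (3/4)*(y+h))/(1/8)) (by apply div_nonneg <;> [linarith; norm_num]) (by apply div_nonneg <;> [linarith; norm_num])
    have e1 : (3/4)*(((7/8)*(y+h) - y)/(1/8)) + (7/8)*((y - (3/4)*(y+h))/(1/8)) = y := by ring
    have e2 : (1/4)*(((7/8)*(y+h) - y)/(1/8)) + (1/8)*((y - (3/4)*(y+h))/(1/8)) = h := by ring
    rwa [e1, e2] at this
  rcases le_total y ((15/16)*(y+h)) with h4 | h4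
  · have := pc_p4 (((15/16)*(y+h) - y)/(1/16)) ((y - (7/8)*(y+h))/(1/16)) (by apply div_nonneg <;> [linarith; norm_num]) (by apply div_nonneg <;> [linarith; norm_num])
    have e1 : (7/8)*(((15/16)*(y+h) - y)/(1/16)) + (15/16)*((y - (7/8)*(y+h))/(1/16)) = y := by ring
    have e2 : (1/8)*(((15/16)*(y+h) - y)/(1/16)) + (1/16)*((y - (7/8)*(y+h))/(1/16)) = h := by ring
    rwa [e1, e2] at this
  · have := pc_p5 ((1*(y+h) - y)/(1/16)) ((y - (15/16)*(y+h))/(1/16)) (by apply div_nonneg <;> [linarith; norm_num]) (by apply div_nonneg <;> [linarith; norm_num])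
    have e1 : (15/16)*((1*(y+h) - y)/(1/16)) + 1*((y - (15/16)*(y+h))/(1/16)) = y := by ring
    have e2 : (1/16)*((1*(y+h) - y)/(1/16)) + 0*((y - (15/16)*(y+h))/(1/16)) = h := by ring
    rwa [e1, e2] at this

noncomputable def Arm (y h : ℝ) : ℝ := (-1/16)*y^3*h^0 + (3/32)*y^2*h^1 + (3/8)*y^1*h^2 + (7/32)*y^0*h^3
noncomputable def Aim (y h : ℝ) : ℝ := (1/10)*y^3*h^0 + (39/160)*y^2*h^1 + (3/16)*y^1*h^2 + (7/160)*y^0*h^3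
noncomputable def Brm (y h : ℝ) : ℝ := (-7/128)*y^4*h^0 + (-83/256)*y^3*h^1 + (15/64)*y^2*h^2 + (313/256)*y^1*h^3 + (23/32)*y^0*h^4
noncomputable def Bim (y h : ℝ) : ℝ := (153/1280)*y^3*h^1 + (117/640)*y^2*h^2 + (9/1280)*y^1*h^3 + (-9/160)*y^0*h^4

lemma N_m (y h : ℝ) : (Arm y h * Brm y h + Aim y h * Bim y h) = (7/2048)*y^7*h^0 + (1387/51200)*y^6*h^1 + (-1857/102400)*y^5*h^2 + (-77/640)*y^4*h^3 + (313/2560)*y^3*h^4 + (1173/2048)*y^2*h^5 + (53939/102400)*y^1*h^6 + (1981/12800)*y^0*h^7 := by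
  simp only [Arm, Aim, Brm, Bim]; ring

lemma pc_m0 (p q : ℝ) (hp : 0 ≤ p) (hq : 0 ≤ q) : ((0*p + (1/2)*q)+(1*p + (1/2)*q))^7/1000 ≤ (7/2048)*(0*p + (1/2)*q)^7*(1*p + (1/2)*q)^0 + (1387/51200)*(0*p + (1/2)*q)^6*(1*p + (1/2)*q)^1 + (-1857/102400)*(0*p + (1/2)*q)^5*(1*p + (1/2)*q)^2 + (-77/640)*(0*p + (1/2)*q)^4*(1*p + (1/2)*q)^3 + (313/2560)*(0*p + (1/2)*q)^3*(1*p + (1/2)*q)^4 + (1173/2048)*(0*p + (1/2)*q)^2*(1*p + (1/2)*q)^5 + (53939/102400)*(0*p + (1/2)*q)^1*(1*p + (1/2)*q)^6 + (1981/12800)*(0*p + (1/2)*q)^0*(1*p + (1/2)*q)^7 := by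
  have e : (7/2048)*(0*p + (1/2)*q)^7*(1*p + (1/2)*q)^0 + (1387/51200)*(0*p + (1/2)*q)^6*(1*p + (1/2)*q)^1 + (-1857/102400)*(0*p + (1/2)*q)^5*(1*p + (1/2)*q)^2 + (-77/640)*(0*p + (1/2)*q)^4*(1*p + (1/2)*q)^3 + (313/2560)*(0*p + (1/2)*q)^3*(1*p + (1/2)*q)^4 + (1173/2048)*(0*p + (1/2)*q)^2*(1*p + (1/2)*q)^5 + (53939/102400)*(0*p + (1/2)*q)^1*(1*p + (1/2)*q)^6 + (1981/12800)*(0*p + (1/2)*q)^0*(1*p + (1/2)*q)^7 - ((0*p + (1/2)*q)+(1*p + (1/2)*q))^7/1000 = (36499/4096000)*p^0*q^7 + (108457/1024000)*p^1*q^6 + (1059927/2048000)*p^2*q^5 + (275047/204800)*p^3*q^4 + (1640863/819200)*p^4*q^3 + (883113/512000)*p^5*q^2 + (817207/1024000)*p^6*q^1 + (9841/64000)*p^7*q^0 := by ring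
  have : 0 ≤ (36499/4096000)*p^0*q^7 + (108457/1024000)*p^1*q^6 + (1059927/2048000)*p^2*q^5 + (275047/204800)*p^3*q^4 + (1640863/819200)*p^4*q^3 + (883113/512000)*p^5*q^2 + (817207/1024000)*p^6*q^1 + (9841/64000)*p^7*q^0 := by positivity
  linarith

lemma pc_m1 (p q : ℝ) (hp : 0 ≤ p) (hq : 0 ≤ q) : (((1/2)*p + (3/4)*q)+((1/2)*p + (1/4)*q))^7/1000 ≤ (7/2048)*((1/2)*p + (3/4)*q)^7*((1/2)*p + (1/4)*q)^0 + (1387/51200)*((1/2)*p + (3/4)*q)^6*((1/2)*p + (1/4)*q)^1 + (-1857/102400)*((1/2)*p + (3/4)*q)^5*((1/2)*p + (1/4)*q)^2 + (-77/640)*((1/2)*p + (3/4)*q)^4*((1/2)*p + (1/4)*q)^3 + (313/2560)*((1/2)*p + (3/4)*q)^3*((1/2)*p + (1/4)*q)^4 + (1173/2048)*((1/2)*p + (3/4)*q)^2*((1/2)*p + (1/4)*q)^5 + (53939/102400)*((1/2)*p + (3/4)*q)^1*((1/2)*p + (1/4)*q)^6 + (1981/12800)*((1/2)*p + (3/4)*q)^0*((1/2)*p + (1/4)*q)^7 := by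
  have e : (7/2048)*((1/2)*p + (3/4)*q)^7*((1/2)*p + (1/4)*q)^0 + (1387/51200)*((1/2)*p + (3/4)*q)^6*((1/2)*p + (1/4)*q)^1 + (-1857/102400)*((1/2)*p + (3/4)*q)^5*((1/2)*p + (1/4)*q)^2 + (-77/640)*((1/2)*p + (3/4)*q)^4*((1/2)*p + (1/4)*q)^3 + (313/2560)*((1/2)*p + (3/4)*q)^3*((1/2)*p + (1/4)*q)^4 + (1173/2048)*((1/2)*p + (3/4)*q)^2*((1/2)*p + (1/4)*q)^5 + (53939/102400)*((1/2)*p + (3/4)*q)^1*((1/2)*p + (1/4)*q)^6 + (1981/12800)*((1/2)*p + (3/4)*q)^0*((1/2)*p + (1/4)*q)^7 - (((1/2)*p + (3/4)*q)+((1/2)*p + (1/4)*q))^7/1000 = (13757/32768000)*p^0*q^7 + (35527/16384000)*p^1*q^6 + (154641/16384000)*p^2*q^5 + (27343/819200)*p^3*q^4 + (444329/6553600)*p^4*q^3 + (1209261/16384000)*p^5*q^2 + (332651/8192000)*p^6*q^1 + (36499/4096000)*p^7*q^0 := by ring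
  have : 0 ≤ (13757/32768000)*p^0*q^7 + (35527/16384000)*p^1*q^6 + (154641/16384000)*p^2*q^5 + (27343/819200)*p^3*q^4 + (444329/6553600)*p^4*q^3 + (1209261/16384000)*p^5*q^2 + (332651/8192000)*p^6*q^1 + (36499/4096000)*p^7*q^0 := by positivity
  linarith

lemma pc_m2 (p q : ℝ) (hp : 0 ≤ p) (hq : 0 ≤ q) : (((3/4)*p + 1*q)+((1/4)*p + 0*q))^7/1000 ≤ (7/2048)*((3/4)*p + 1*q)^7*((1/4)*p + 0*q)^0 + (1387/51200)*((3/4)*p + 1*q)^6*((1/4)*p + 0*q)^1 + (-1857/102400)*((3/4)*p + 1*q)^5*((1/4)*p + 0*q)^2 + (-77/640)*((3/4)*p + 1*q)^4*((1/4)*p + 0*q)^3 + (313/2560)*((3/4)*p + 1*q)^3*((1/4)*p + 0*q)^4 + (1173/2048)*((3/4)*p + 1*q)^2*((1/4)*p + 0*q)^5 + (53939/102400)*((3/4)*p + 1*q)^1*((1/4)*p + 0*q)^6 + (1981/12800)*((3/4)*p + 1*q)^0*((1/4)*p + 0*q)^7 := by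
  have e : (7/2048)*((3/4)*p + 1*q)^7*((1/4)*p + 0*q)^0 + (1387/51200)*((3/4)*p + 1*q)^6*((1/4)*p + 0*q)^1 + (-1857/102400)*((3/4)*p + 1*q)^5*((1/4)*p + 0*q)^2 + (-77/640)*((3/4)*p + 1*q)^4*((1/4)*p + 0*q)^3 + (313/2560)*((3/4)*p + 1*q)^3*((1/4)*p + 0*q)^4 + (1173/2048)*((3/4)*p + 1*q)^2*((1/4)*p + 0*q)^5 + (53939/102400)*((3/4)*p + 1*q)^1*((1/4)*p + 0*q)^6 + (1981/12800)*((3/4)*p + 1*q)^0*((1/4)*p + 0*q)^7 - (((3/4)*p + 1*q)+((1/4)*p + 0*q))^7/1000 = (619/256000)*p^0*q^7 + (9071/512000)*p^1*q^6 + (399093/8192000)*p^2*q^5 + (435689/6553600)*p^3*q^4 + (79391/1638400)*p^4*q^3 + (306111/16384000)*p^5*q^2 + (15193/4096000)*p^6*q^1 + (13757/32768000)*p^7*q^0 := by ring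
  have : 0 ≤ (619/256000)*p^0*q^7 + (9071/512000)*p^1*q^6 + (399093/8192000)*p^2*q^5 + (435689/6553600)*p^3*q^4 + (79391/1638400)*p^4*q^3 + (306111/16384000)*p^5*q^2 + (15193/4096000)*p^6*q^1 + (13757/32768000)*p^7*q^0 := by positivity
  linarith

lemma cert_m (y h : ℝ) (hy : 0 ≤ y) (hh : 0 ≤ h) : (y+h)^7/1000 ≤ (Arm y h * Brm y h + Aim y h * Bim y h) := by
  rw [N_m]
  rcases le_total y ((1/2)*(y+h)) with h0 | h0
  · have := pc_m0 (((1/2)*(y+h) - y)/(1/2)) ((y - 0*(y+h))/(1/2)) (by apply div_nonneg <;> [linarith; norm_num]) (by apply div_nonneg <;> [linarith; norm_num])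
    have e1 : 0*(((1/2)*(y+h) - y)/(1/2)) + (1/2)*((y - 0*(y+h))/(1/2)) = y := by ring
    have e2 : 1*(((1/2)*(y+h) - y)/(1/2)) + (1/2)*((y - 0*(y+h))/(1/2)) = h := by ring
    rwa [e1, e2] at this
  rcases le_total y ((3/4)*(y+h)) with h1 | h1
  · have := pc_m1 (((3/4)*(y+h) - y)/(1/4)) ((y - (1/2)*(y+h))/(1/4)) (by apply div_nonneg <;> [linarith; norm_num]) (by apply div_nonneg <;> [linarith; norm_num])
    have e1 : (1/2)*(((3/4)*(y+h) - y)/(1/4)) + (3/4)*((y - (1/2)*(y+h))/(1/4)) = y := by ring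
    have e2 : (1/2)*(((3/4)*(y+h) - y)/(1/4)) + (1/4)*((y - (1/2)*(y+h))/(1/4)) = h := by ring
    rwa [e1, e2] at this
  · have := pc_m2 ((1*(y+h) - y)/(1/4)) ((y - (3/4)*(y+h))/(1/4)) (by apply div_nonneg <;> [linarith; norm_num]) (by apply div_nonneg <;> [linarith; norm_num])
    have e1 : (3/4)*((1*(y+h) - y)/(1/4)) + 1*((y - (3/4)*(y+h))/(1/4)) = y := by ring
    have e2 : (1/4)*((1*(y+h) - y)/(1/4)) + 0*((y - (3/4)*(y+h))/(1/4)) = h := by ring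
    rwa [e1, e2] at this

end Pool.Agent.W787.PE
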