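import Mathlib
set_option autoImplicit false

/-!
# Definitions for problem MP_b4eea7_an (parabolic resolvents in one space dimension)

The Fourier transform is Mathlib's, `𝓕 u (ζ) = ∫ u(z) exp (-2πi ⟨z, ζ⟩) dz` on `ℝ²` (extended to
`L²`).  Thus `∂_x` has the symbol `2πi ξ`, the half order time derivative `D_t^{1/2}` has the symbol
`|2π τ|^{1/2}` and the Hilbert transform in time `H_t` has the symbol `i τ / |τ|`.
-/

namespace Pool.Agent.W787.PE

open MeasureTheory FourierTransform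
open scoped ENNReal NNReal ComplexConjugate

/-- The plane with its Euclidean structure and Lebesgue measure: `z 0 = x` is the space variable
and `z 1 = t` the time variable; on the Fourier side `ζ 0 = ξ` and `ζ 1 = τ`. -/
abbrev Plane := EuclideanSpace ℝ (Fin 2)

/-- The complex Hilbert space `L²(ℝ²)`. -/
noncomputable abbrev L2 : Type := Lp ℂ 2 (volume : Measure Plane)

/-- A representative of the class `u`. -/
noncomputable abbrev rep (u : L2) : Plane → ℂ := u

/-- `‖f‖_q` for a function on the plane. -/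
noncomputable abbrev nrm (f : Plane → ℂ) (q : ℝ≥0∞) : ℝ≥0∞ := eLpNorm f q volume

/-- `f ∈ L^q`. -/
abbrev MemL (f : Plane → ℂ) (q : ℝ≥0∞) : Prop := MemLp f q volume

/-- The integral over the plane. -/
noncomputable abbrev integ (f : Plane → ℂ) : ℂ := ∫ z, f z

/-- The class of a square integrable function. -/
noncomputable abbrev cls (f : Plane → ℂ) (h : MemL f 2) : L2 := h.toLp f

/-- The Fourier transform on `L²`. -/
noncomputable abbrev Four (u : L2) : L2 := 𝓕 u

/-- The inverse Fourier transform on `L²`. -/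
noncomputable abbrev FourInv (u : L2) : L2 := 𝓕⁻ u

/-- `u` is in the domain of the Fourier multiplier with symbol `m`, that is, `m · 𝓕u ∈ L²`. -/
def InDom (m : Plane → ℂ) (u : L2) : Prop :=
  MemL (fun ζ => m ζ * rep (Four u) ζ) 2

open Classical in
/-- The Fourier multiplier with symbol `m`, i.e. `𝓕⁻¹ (m · 𝓕 u)`, for `u` in its domain. -/
noncomputable def mult (m : Plane → ℂ) (u : L2) : L2 :=
  if h : InDom m u then FourInv (cls _ h) else 0

/-- The symbol of `∂_x`. -/
noncomputable def symDx (ζ : Plane) : ℂ := ((2 * Real.pi * ζ 0 : ℝ) : ℂ) * Complex.I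

/-- The symbol of `D_t^{1/2}`. -/
noncomputable def symDh (ζ : Plane) : ℂ := ((Real.sqrt |2 * Real.pi * ζ 1| : ℝ) : ℂ)

/-- The symbol of `H_t`. -/
noncomputable def symH (ζ : Plane) : ℂ := Complex.I * ((ζ 1 / |ζ 1| : ℝ) : ℂ)

/-- Membership in the energy space `E = {u ∈ L² : ∂_x u ∈ L², D_t^{1/2} u ∈ L²}`. -/
def InE (u : L2) : Prop := InDom symDx u ∧ InDom symDh u

/-- The form `𝓗(u)(v) = ∬ H_t D_t^{1/2} u · conj (D_t^{1/2} v) + a ∂_x u · conj (∂_x v)`. -/
noncomputable def form (a : Plane → ℂ) (u v : L2) : ℂ :=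
  integ fun z => rep (mult symH (mult symDh u)) z * conj (rep (mult symDh v) z)
    + a z * rep (mult symDx u) z * conj (rep (mult symDx v) z)

/-- `a` is measurable, bounded, and `Re a ≥ ν` for some `ν > 0`. -/
def Elliptic (a : Plane → ℂ) : Prop :=
  Measurable a ∧ (∃ M : ℝ, ∀ z, ‖a z‖ ≤ M) ∧ ∃ ν : ℝ, 0 < ν ∧ ∀ z, ν ≤ (a z).re

/-- `u = (1 + λ² 𝓗)⁻¹ f`, where `𝓗` is the part in `L²` of the operator given by the form:
`u ∈ E` and `⟨u, v⟩ + λ² 𝓗(u)(v) = ⟨f, v⟩` for all `v ∈ E`. -/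
def IsResolvent (a : Plane → ℂ) (lam : ℝ) (f u : L2) : Prop :=
  InE u ∧ ∀ v : L2, InE v →
    (integ fun z => rep u z * conj (rep v z)) + (lam : ℂ) ^ 2 * form a u v
      = integ fun z => rep f z * conj (rep v z)

/-- The family `(1 + λ² 𝓗)⁻¹`, `λ > 0`, is `L^p` bounded. -/
def LpBounded (a : Plane → ℂ) (p : ℝ) : Prop :=
  ∃ C : ℝ≥0, ∀ lam : ℝ, 0 < lam → ∀ f u : L2, MemL (rep f) (ENNReal.ofReal p) →
    IsResolvent a lam f u →
    nrm (rep u) (ENNReal.ofReal p) ≤ C * nrm (rep f) (ENNReal.ofReal p)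

/-- The lower critical exponent `p_-(𝓗)`. -/
noncomputable def pMinus (a : Plane → ℂ) : ℝ :=
  sInf {p : ℝ | 1 ≤ p ∧ p ≤ 2 ∧ LpBounded a p}

end Pool.Agent.W787.PE
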