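import Pool.Agent.W787.PEfun
set_option autoImplicit false

/-! Measurability, integrability and the Fourier form of the equation. -/

namespace Pool.Agent.W787.PE

open MeasureTheory Complex Set FourierTransform

/-! ### measurability -/

lemma rho_meas : Measurable rho := measurable_id.pow_const _

lemma Q_meas (a : Par) : Measurable (fun z : ℝ × ℝ => a.Q ((z.1:ℂ)^2) (|z.2| : ℝ)) := by
  unfold Par.Q; fun_prop
lemma A_meas (a : Par) : Measurable (fun z : ℝ × ℝ => a.A ((z.1:ℂ)^2) (|z.2| : ℝ)) := by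
  unfold Par.A; fun_prop
lemma B_meas (a : Par) : Measurable (fun z : ℝ × ℝ => a.B ((z.1:ℂ)^2) (|z.2| : ℝ)) := by
  unfold Par.B Par.Q Par.Qy; fun_prop
lemma R_meas (a : Par) : Measurable (fun z : ℝ × ℝ => a.R ((z.1:ℂ)^2) (|z.2| : ℝ)) := by
  unfold Par.R Par.Q Par.Qh; fun_prop
lemma Qy_meas (a : Par) : Measurable (fun z : ℝ × ℝ => a.Qy ((z.1:ℂ)^2) (|z.2| : ℝ)) := by
  unfold Par.Qy; fun_prop
lemma Ay_meas (a : Par) : Measurable (fun z : ℝ × ℝ => a.Ay ((z.1:ℂ)^2) (|z.2| : ℝ)) := by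
  unfold Par.Ay; fun_prop
lemma By_meas (a : Par) : Measurable (fun z : ℝ × ℝ => a.By ((z.1:ℂ)^2) (|z.2| : ℝ)) := by
  unfold Par.By Par.Q Par.Qy Par.Qyy; fun_prop
lemma rh_meas : Measurable (fun z : ℝ × ℝ => ((rho (z.1^2+|z.2|) : ℝ) : ℂ)) := by
  exact Complex.measurable_ofReal.comp (rho_meas.comp (by fun_prop))
lemma x_meas : Measurable (fun z : ℝ × ℝ => (z.1:ℂ)) := by fun_prop
lemma r_meas : Measurable (fun z : ℝ × ℝ => ((z.1:ℂ)^2+((|z.2| : ℝ):ℂ))) := by fun_prop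

lemma U_meas (a : Par) : Measurable (fun z : ℝ × ℝ => a.U z.1 |z.2|) := by
  unfold Par.U
  exact (((x_meas.const_mul 2).mul rh_meas).mul r_meas).mul (Q_meas a)
lemma Ux_meas (a : Par) : Measurable (fun z : ℝ × ℝ => a.Ux z.1 |z.2|) := by
  unfold Par.Ux
  exact (rh_meas.const_mul 2).mul (B_meas a)
lemma Uh_meas (a : Par) : Measurable (fun z : ℝ × ℝ => a.Uh z.1 |z.2|) := by
  unfold Par.Uh
  exact ((x_meas.const_mul 2).mul rh_meas).mul (R_meas a)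
lemma V_meas (a : Par) : Measurable (fun z : ℝ × ℝ => a.V z.1 |z.2|) := by
  unfold Par.V
  exact (rh_meas.mul r_meas).mul (A_meas a)
lemma c_meas (a : Par) : Measurable (fun z : ℝ × ℝ => a.c z.1 |z.2|) := by
  unfold Par.c
  exact ((r_meas.const_mul _).mul (A_meas a)).div ((B_meas a).const_mul 2)
lemma K_meas (a : Par) : Measurable (fun z : ℝ × ℝ => a.K z.1 |z.2|) := by
  unfold Par.K
  exact ((((x_meas.mul rh_meas).mul (r_meas.pow_const 2)).mul ((A_meas a).mul (Q_meas a))).div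
    (B_meas a)).const_mul _
lemma Kx_meas (a : Par) : Measurable (fun z : ℝ × ℝ => a.Kx z.1 |z.2|) := by
  unfold Par.Kx
  have hA := A_meas a
  have hQ := Q_meas a
  have hB := B_meas a
  have h1 := Qy_meas a
  have h2 := Ay_meas a
  have h3 := By_meas a
  have h4 := rh_meas
  fun_prop

lemma sd_meas (g : Par → ℝ × ℝ → ℂ) (h : ∀ a, Measurable (g a)) :
    Measurable (fun z : ℝ × ℝ => g (sd z.2) z) := by
  have e : (fun z : ℝ × ℝ => g (sd z.2) z) = fun z => if 0 ≤ z.2 then g pP z else g pM z := by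
    ext z; unfold sd; split_ifs <;> rfl
  rw [e]
  exact Measurable.ite (measurableSet_le measurable_const measurable_snd) (h pP) (h pM)

lemma X_meas {f : ℝ → ℝ} (hf : Continuous f) : Measurable (fun z : ℝ × ℝ => ((f z.1 : ℝ) : ℂ)) :=
  Complex.measurable_ofReal.comp (hf.measurable.comp measurable_fst)
lemma T_meas {f : ℝ → ℝ} (hf : Continuous f) : Measurable (fun z : ℝ × ℝ => ((f z.2 : ℝ) : ℂ)) :=
  Complex.measurable_ofReal.comp (hf.measurable.comp measurable_snd)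
lemma s_meas : Measurable (fun z : ℝ × ℝ => ((sd z.2).s : ℂ)) :=
  sd_meas (fun a _ => (a.s : ℂ)) (fun _ => measurable_const)

lemma W_meas : Measurable (fun z : ℝ × ℝ => W z.1 z.2) := by
  unfold W
  exact ((X_meas X0c).mul (T_meas T0c)).mul (sd_meas (fun a z => a.U z.1 |z.2|) U_meas)
lemma Wx_meas : Measurable (fun z : ℝ × ℝ => Wx z.1 z.2) := by
  unfold Wx
  exact (T_meas T0c).mul (((X_meas X1c).mul (sd_meas (fun a z => a.U z.1 |z.2|) U_meas)).add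
    ((X_meas X0c).mul (sd_meas (fun a z => a.Ux z.1 |z.2|) Ux_meas)))
lemma Wt_meas : Measurable (fun z : ℝ × ℝ => Wt z.1 z.2) := by
  unfold Wt
  exact (X_meas X0c).mul (((T_meas T1c).mul (sd_meas (fun a z => a.U z.1 |z.2|) U_meas)).add
    ((T_meas T0c).mul (s_meas.mul (sd_meas (fun a z => a.Uh z.1 |z.2|) Uh_meas))))
lemma Fl_meas : Measurable (fun z : ℝ × ℝ => Fl z.1 z.2) := by
  unfold Fl
  exact (T_meas T0c).mul (((X_meas X1c).mul (sd_meas (fun a z => a.K z.1 |z.2|) K_meas)).sub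
    (s_meas.mul ((X_meas X0c).mul (sd_meas (fun a z => a.V z.1 |z.2|) V_meas))))
lemma Flx_meas : Measurable (fun z : ℝ × ℝ => Flx z.1 z.2) := by
  unfold Flx
  exact (T_meas T0c).mul ((((X_meas X2c).mul (sd_meas (fun a z => a.K z.1 |z.2|) K_meas)).add
    ((X_meas X1c).mul (sd_meas (fun a z => a.Kx z.1 |z.2|) Kx_meas))).sub
    (s_meas.mul (((X_meas X1c).mul (sd_meas (fun a z => a.V z.1 |z.2|) V_meas)).add
      ((X_meas X0c).mul (sd_meas (fun a z => a.Uh z.1 |z.2|) Uh_meas)))))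
lemma ff_meas : Measurable (fun z : ℝ × ℝ => ff z.1 z.2) := by
  unfold ff; exact (W_meas.sub Wt_meas).sub Flx_meas
lemma co_meas : Measurable (fun z : ℝ × ℝ => co z.1 z.2) := by
  unfold co
  refine Measurable.ite ?_ measurable_const (sd_meas (fun a z => a.c z.1 |z.2|) c_meas)
  exact (measurable_fst (measurableSet_singleton 0)).inter (measurable_snd (measurableSet_singleton 0))

/-! ### bounds -/

lemma K_bd : ∃ C : ℝ, 1 ≤ C ∧ ∀ x t h : ℝ, 0 ≤ h → 0 < x^2+h →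
    ‖(sd t).K x h‖ ≤ C * (x^2+h)^(-(1/16):ℝ) := by
  obtain ⟨C, hC, hb⟩ := sd_bounds
  refine ⟨C^2, by nlinarith, fun x t h hh hr => ?_⟩
  obtain ⟨a1, a2, a3, a4, a5, a6, a7⟩ := hb x t h hh hr
  rw [← (sd t).c_U x h ((sd t).B_ne (sd_good t).1 (sd_good t).2 hh hr), norm_mul]
  have q1 : 0 < (x^2+h)^(-(1/16):ℝ) := Real.rpow_pos_of_pos hr _
  calc _ ≤ C * (C * (x^2+h)^(-(1/16):ℝ)) := by gcongr
    _ = _ := by ring

lemma pw {r s s' : ℝ} (hr : 0 < r) (hr6 : r ≤ 6) (hs : s ≤ s') (hs' : s' ≤ s + 2) :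
    r^(-s) ≤ 36 * r^(-s') := by
  have e1 : r^(-s) = r^(s'-s) * r^(-s') := by
    rw [← Real.rpow_add hr]; congr 1; ring
  rw [e1]
  refine mul_le_mul_of_nonneg_right ?_ (by positivity)
  calc r^(s'-s) ≤ 6^(s'-s) := Real.rpow_le_rpow hr.le hr6 (by linarith)
    _ ≤ (6:ℝ)^(2:ℝ) := Real.rpow_le_rpow_of_exponent_le (by norm_num) (by linarith)
    _ = 36 := by norm_num

lemma all_bd : ∃ C : ℝ, 0 ≤ C ∧ ∀ x t : ℝ, x ≠ 0 → t ≠ 0 →
    ‖W x t‖ ≤ C * (x^2+|t|)^(-(1/16):ℝ) ∧ ‖Wx x t‖ ≤ C * (x^2+|t|)^(-(9/16):ℝ) ∧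
    ‖Wt x t‖ ≤ C * (x^2+|t|)^(-(17/16):ℝ) ∧ ‖Fl x t‖ ≤ C * (x^2+|t|)^(-(9/16):ℝ) ∧
    ‖Flx x t‖ ≤ C * (x^2+|t|)^(-(17/16):ℝ) := by
  obtain ⟨C, hC, hb⟩ := sd_bounds
  obtain ⟨D, hD, hK⟩ := K_bd
  obtain ⟨M, hM, hm⟩ := cut_bd
  have hM0 : 0 ≤ M := by linarith
  have hC0 : 0 ≤ C := by linarith
  have hD0 : 0 ≤ D := by linarith
  refine ⟨M*(M*D*36+M*C*36+(M*C*36+M*C*36)), by positivity, fun x t hx ht => ?_⟩
  by_cases hbox : 2 ≤ |x| ∨ 2 ≤ |t|
  · have z : W x t = 0 ∧ Wx x t = 0 ∧ Wt x t = 0 ∧ Fl x t = 0 ∧ Flx x t = 0 := by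
      rcases hbox with h | h
      · exact ⟨W_zx _ _ h, Wx_zx _ _ h, Wt_zx _ _ h, Fl_zx _ _ h, Flx_zx _ _ h⟩
      · exact ⟨W_zt _ _ h, Wx_zt _ _ h, Wt_zt _ _ h, Fl_zt _ _ h, Flx_zt _ _ h⟩
    obtain ⟨z1, z2, z3, z4, z5⟩ := z
    rw [z1, z2, z3, z4, z5, norm_zero]
    refine ⟨?_, ?_, ?_, ?_, ?_⟩ <;> positivity
  push Not at hbox
  have hr : 0 < x^2+|t| := rpos (by tauto)
  have hr6 : x^2+|t| ≤ 6 := by
    have : x^2 ≤ 4 := by rw [← sq_abs]; nlinarith [abs_nonneg x]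
    linarith
  obtain ⟨a1, a2, a3, a4, a5, a6, a7⟩ := hb x t |t| (abs_nonneg t) hr
  have a8 := hK x t |t| (abs_nonneg t) hr
  have hs : ‖((sd t).s : ℂ)‖ = 1 := by rw [norm_real, Real.norm_eq_abs, (sd_good t).2]
  obtain ⟨mx0, mx1, mx2, -, -⟩ := hm x
  obtain ⟨-, -, -, mt0, mt1⟩ := hm t
  have nx0 : ‖(X0 x : ℂ)‖ ≤ M := by rw [norm_real, Real.norm_eq_abs]; exact mx0
  have nx1 : ‖(X1 x : ℂ)‖ ≤ M := by rw [norm_real, Real.norm_eq_abs]; exact mx1
  have nx2 : ‖(X2 x : ℂ)‖ ≤ M := by rw [norm_real, Real.norm_eq_abs]; exact mx2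
  have nt0 : ‖(T0 t : ℂ)‖ ≤ M := by rw [norm_real, Real.norm_eq_abs]; exact mt0
  have nt1 : ‖(T1 t : ℂ)‖ ≤ M := by rw [norm_real, Real.norm_eq_abs]; exact mt1
  set r := x^2+|t| with hrd
  have q1 : 0 < r^(-(1/16):ℝ) := Real.rpow_pos_of_pos hr _
  have q9 : 0 < r^(-(9/16):ℝ) := Real.rpow_pos_of_pos hr _
  have q17 : 0 < r^(-(17/16):ℝ) := Real.rpow_pos_of_pos hr _
  have p19 : r^(-(1/16):ℝ) ≤ 36*r^(-(9/16):ℝ) := pw hr hr6 (by norm_num) (by norm_num)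
  have p117 : r^(-(1/16):ℝ) ≤ 36*r^(-(17/16):ℝ) := pw hr hr6 (by norm_num) (by norm_num)
  have p917 : r^(-(9/16):ℝ) ≤ 36*r^(-(17/16):ℝ) := pw hr hr6 (by norm_num) (by norm_num)
  have hMD : 0 ≤ M*D := by positivity
  have hMC : 0 ≤ M*C := by positivity
  refine ⟨?_, ?_, ?_, ?_, ?_⟩
  · calc ‖W x t‖ ≤ M*M*(C*r^(-(1/16):ℝ)) := by
          rw [W, norm_mul, norm_mul]; gcongr
      _ = (M*(M*C))*r^(-(1/16):ℝ) := by ring
      _ ≤ _ := by
        refine mul_le_mul_of_nonneg_right (mul_le_mul_of_nonneg_left ?_ hM0) q1.le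
        linarith
  · calc ‖Wx x t‖ ≤ M*(M*(C*r^(-(1/16):ℝ))+M*(C*r^(-(9/16):ℝ))) := by
          rw [Wx, norm_mul]
          refine mul_le_mul nt0 ((norm_add_le _ _).trans ?_) (norm_nonneg _) hM0
          rw [norm_mul, norm_mul]; gcongr
      _ ≤ M*(M*(C*(36*r^(-(9/16):ℝ)))+M*(C*r^(-(9/16):ℝ))) := by gcongr
      _ = (M*(M*C*36+M*C))*r^(-(9/16):ℝ) := by ring
      _ ≤ _ := by
        refine mul_le_mul_of_nonneg_right (mul_le_mul_of_nonneg_left ?_ hM0) q9.le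
        linarith
  · calc ‖Wt x t‖ ≤ M*(M*(C*r^(-(1/16):ℝ))+M*(1*(C*r^(-(17/16):ℝ)))) := by
          rw [Wt, norm_mul]
          refine mul_le_mul nx0 ((norm_add_le _ _).trans ?_) (norm_nonneg _) hM0
          rw [norm_mul, norm_mul, norm_mul, hs]; gcongr
      _ ≤ M*(M*(C*(36*r^(-(17/16):ℝ)))+M*(1*(C*r^(-(17/16):ℝ)))) := by gcongr
      _ = (M*(M*C*36+M*C))*r^(-(17/16):ℝ) := by ring
      _ ≤ _ := by
        refine mul_le_mul_of_nonneg_right (mul_le_mul_of_nonneg_left ?_ hM0) q17.le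
        linarith
  · calc ‖Fl x t‖ ≤ M*(M*(D*r^(-(1/16):ℝ))+1*(M*(C*r^(-(9/16):ℝ)))) := by
          rw [Fl, norm_mul]
          refine mul_le_mul nt0 ((norm_sub_le _ _).trans ?_) (norm_nonneg _) hM0
          rw [norm_mul, norm_mul, norm_mul, hs]; gcongr
      _ ≤ M*(M*(D*(36*r^(-(9/16):ℝ)))+1*(M*(C*r^(-(9/16):ℝ)))) := by gcongr
      _ = (M*(M*D*36+M*C))*r^(-(9/16):ℝ) := by ring
      _ ≤ _ := by
        refine mul_le_mul_of_nonneg_right (mul_le_mul_of_nonneg_left ?_ hM0) q9.le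
        linarith
  · calc ‖Flx x t‖ ≤ M*((M*(D*r^(-(1/16):ℝ))+M*(C*r^(-(9/16):ℝ)))
            +1*(M*(C*r^(-(9/16):ℝ))+M*(C*r^(-(17/16):ℝ)))) := by
          rw [Flx, norm_mul]
          refine mul_le_mul nt0 ((norm_sub_le _ _).trans ?_) (norm_nonneg _) hM0
          refine add_le_add ((norm_add_le _ _).trans ?_) ?_
          · rw [norm_mul, norm_mul]; gcongr
          · rw [norm_mul, hs]
            refine mul_le_mul_of_nonneg_left ((norm_add_le _ _).trans ?_) zero_le_one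
            rw [norm_mul, norm_mul]; gcongr
      _ ≤ M*((M*(D*(36*r^(-(17/16):ℝ)))+M*(C*(36*r^(-(17/16):ℝ))))
            +1*(M*(C*(36*r^(-(17/16):ℝ)))+M*(C*r^(-(17/16):ℝ)))) := by gcongr
      _ = (M*(M*D*36+M*C*36+(M*C*36+M*C)))*r^(-(17/16):ℝ) := by ring
      _ ≤ _ := by
        refine mul_le_mul_of_nonneg_right (mul_le_mul_of_nonneg_left ?_ hM0) q17.le
        linarith

lemma ff_bd : ∃ C : ℝ, 0 ≤ C ∧ ∀ x t : ℝ, ‖ff x t‖ ≤ C := by
  obtain ⟨C, hC, hb⟩ := sd_bounds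
  obtain ⟨D, hD, hK⟩ := K_bd
  obtain ⟨M, hM, hm⟩ := cut_bd
  have hM0 : 0 ≤ M := by linarith
  have hC0 : 0 ≤ C := by linarith
  have hD0 : 0 ≤ D := by linarith
  refine ⟨M*(M+M)*C + M*(M*D+M*C) + 1*(M*M*C), by positivity, fun x t => ?_⟩
  obtain ⟨mx0, mx1, mx2, -, -⟩ := hm x
  obtain ⟨-, -, -, mt0, mt1⟩ := hm t
  have nx0 : ‖(X0 x : ℂ)‖ ≤ M := by rw [norm_real, Real.norm_eq_abs]; exact mx0
  have nx1 : ‖(X1 x : ℂ)‖ ≤ M := by rw [norm_real, Real.norm_eq_abs]; exact mx1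
  have nx2 : ‖(X2 x : ℂ)‖ ≤ M := by rw [norm_real, Real.norm_eq_abs]; exact mx2
  have nt0 : ‖(T0 t : ℂ)‖ ≤ M := by rw [norm_real, Real.norm_eq_abs]; exact mt0
  have nt1 : ‖((T0 t - T1 t : ℝ) : ℂ)‖ ≤ M + M := by
    rw [norm_real, Real.norm_eq_abs]; exact (abs_sub _ _).trans (add_le_add mt0 mt1)
  have hs : ‖((sd t).s : ℂ)‖ = 1 := by rw [norm_real, Real.norm_eq_abs, (sd_good t).2]
  have pone : ∀ r s : ℝ, 1 ≤ r → 0 ≤ s → r^(-s) ≤ 1 := fun r s h hs =>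
    Real.rpow_le_one_of_one_le_of_nonpos h (by linarith)
  have big : (1 ≤ |x| ∨ 1 ≤ |t|) → 1 ≤ x^2+|t| := by
    rintro (h | h)
    · have : 1 ≤ x^2 := by rw [← sq_abs]; nlinarith
      linarith [abs_nonneg t]
    · nlinarith [sq_nonneg x]
  rw [ff_eq]
  have t1 : ‖(X0 x : ℂ) * ((T0 t - T1 t : ℝ) : ℂ) * (sd t).U x |t|‖ ≤ M*(M+M)*C := by
    by_cases ht : |t| < 1
    · have : T0 t - T1 t = 0 := by
        rw [T0, T1, cut.one1 t ht]; ring
      rw [this]; simp; positivity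
    · have hr := big (Or.inr (not_lt.mp ht))
      have h1 := (hb x t |t| (abs_nonneg t) (by linarith)).1
      have h2 : ‖(sd t).U x |t|‖ ≤ C := h1.trans (by
        have := pone _ (1/16) hr (by norm_num); nlinarith)
      rw [norm_mul, norm_mul]; gcongr
  have t2 : ‖(T0 t : ℂ) * ((X2 x : ℂ) * (sd t).K x |t| + (X1 x : ℂ) * (sd t).Kx x |t|)‖
      ≤ M*(M*D+M*C) := by
    by_cases hx : |x| < 1
    · rw [X2, X1, cut.one1 x hx, cut.one2 x hx]; simp; positivity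
    · have hr := big (Or.inl (not_lt.mp hx))
      have h1 := hK x t |t| (abs_nonneg t) (by linarith)
      have h2 : ‖(sd t).K x |t|‖ ≤ D := h1.trans (by
        have := pone _ (1/16) hr (by norm_num); nlinarith)
      have h3 := (hb x t |t| (abs_nonneg t) (by linarith)).2.2.2.2.1
      have h4 : ‖(sd t).Kx x |t|‖ ≤ C := h3.trans (by
        have := pone _ (9/16) hr (by norm_num); nlinarith)
      rw [norm_mul]
      refine mul_le_mul nt0 ((norm_add_le _ _).trans ?_) (norm_nonneg _) hM0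
      rw [norm_mul, norm_mul]; gcongr
  have t3 : ‖((sd t).s : ℂ) * ((T0 t : ℂ) * (X1 x : ℂ) * (sd t).V x |t|)‖ ≤ 1*(M*M*C) := by
    by_cases hx : |x| < 1
    · rw [X1, cut.one1 x hx]; simp; positivity
    · have hr := big (Or.inl (not_lt.mp hx))
      have h3 := (hb x t |t| (abs_nonneg t) (by linarith)).2.2.2.1
      have h4 : ‖(sd t).V x |t|‖ ≤ C := h3.trans (by
        have := pone _ (9/16) hr (by norm_num); nlinarith)
      rw [norm_mul, norm_mul, norm_mul, hs]; gcongr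
  exact (norm_add_le _ _).trans (add_le_add ((norm_sub_le _ _).trans (add_le_add t1 t2)) t3)

/-! ### integrability -/

lemma W_i : Integrable (fun z : ℝ × ℝ => W z.1 z.2) := by
  obtain ⟨C, hC, hb⟩ := all_bd
  exact memL1 _ W_meas.aestronglyMeasurable C (1/16) hC (by norm_num) (by norm_num)
    (fun x t hx ht => (hb x t hx ht).1) (fun x t h => by
      rcases h with h | h
      · exact W_zx _ _ h.le
      · exact W_zt _ _ h.le)
lemma Wx_i : Integrable (fun z : ℝ × ℝ => Wx z.1 z.2) := by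
  obtain ⟨C, hC, hb⟩ := all_bd
  exact memL1 _ Wx_meas.aestronglyMeasurable C (9/16) hC (by norm_num) (by norm_num)
    (fun x t hx ht => (hb x t hx ht).2.1) (fun x t h => by
      rcases h with h | h
      · exact Wx_zx _ _ h.le
      · exact Wx_zt _ _ h.le)
lemma Wt_i : Integrable (fun z : ℝ × ℝ => Wt z.1 z.2) := by
  obtain ⟨C, hC, hb⟩ := all_bd
  exact memL1 _ Wt_meas.aestronglyMeasurable C (17/16) hC (by norm_num) (by norm_num)
    (fun x t hx ht => (hb x t hx ht).2.2.1) (fun x t h => by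
      rcases h with h | h
      · exact Wt_zx _ _ h.le
      · exact Wt_zt _ _ h.le)
lemma Fl_i : Integrable (fun z : ℝ × ℝ => Fl z.1 z.2) := by
  obtain ⟨C, hC, hb⟩ := all_bd
  exact memL1 _ Fl_meas.aestronglyMeasurable C (9/16) hC (by norm_num) (by norm_num)
    (fun x t hx ht => (hb x t hx ht).2.2.2.1) (fun x t h => by
      rcases h with h | h
      · exact Fl_zx _ _ h.le
      · exact Fl_zt _ _ h.le)
lemma Flx_i : Integrable (fun z : ℝ × ℝ => Flx z.1 z.2) := by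
  obtain ⟨C, hC, hb⟩ := all_bd
  exact memL1 _ Flx_meas.aestronglyMeasurable C (17/16) hC (by norm_num) (by norm_num)
    (fun x t hx ht => (hb x t hx ht).2.2.2.2) (fun x t h => by
      rcases h with h | h
      · exact Flx_zx _ _ h.le
      · exact Flx_zt _ _ h.le)

lemma W_2 : MemLp (fun z : ℝ × ℝ => W z.1 z.2) 2 := by
  obtain ⟨C, hC, hb⟩ := all_bd
  exact memL2 _ W_meas.aestronglyMeasurable C (1/16) hC (by norm_num) (by norm_num)
    (fun x t hx ht => (hb x t hx ht).1) (fun x t h => by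
      rcases h with h | h
      · exact W_zx _ _ h.le
      · exact W_zt _ _ h.le)
lemma Wx_2 : MemLp (fun z : ℝ × ℝ => Wx z.1 z.2) 2 := by
  obtain ⟨C, hC, hb⟩ := all_bd
  exact memL2 _ Wx_meas.aestronglyMeasurable C (9/16) hC (by norm_num) (by norm_num)
    (fun x t hx ht => (hb x t hx ht).2.1) (fun x t h => by
      rcases h with h | h
      · exact Wx_zx _ _ h.le
      · exact Wx_zt _ _ h.le)
lemma Fl_2 : MemLp (fun z : ℝ × ℝ => Fl z.1 z.2) 2 := by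
  obtain ⟨C, hC, hb⟩ := all_bd
  exact memL2 _ Fl_meas.aestronglyMeasurable C (9/16) hC (by norm_num) (by norm_num)
    (fun x t hx ht => (hb x t hx ht).2.2.2.1) (fun x t h => by
      rcases h with h | h
      · exact Fl_zx _ _ h.le
      · exact Fl_zt _ _ h.le)
lemma ff_i : Integrable (fun z : ℝ × ℝ => ff z.1 z.2) := (W_i.sub Wt_i).sub Flx_i
lemma ff_2 : MemLp (fun z : ℝ × ℝ => ff z.1 z.2) 2 := by
  obtain ⟨C, hC, hb⟩ := ff_bd
  exact memL2 _ ff_meas.aestronglyMeasurable C 0 hC (by norm_num) (by norm_num)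
    (fun x t hx ht => by simpa using hb x t) (fun x t h => by
      rcases h with h | h
      · exact ff_zx _ _ h.le
      · exact ff_zt _ _ h.le)

/-! ### functions on the plane and the Fourier identities -/

noncomputable def w' (v : Plane) : ℂ := W (v 0) (v 1)
noncomputable def wx' (v : Plane) : ℂ := Wx (v 0) (v 1)
noncomputable def fl' (v : Plane) : ℂ := Fl (v 0) (v 1)
noncomputable def f' (v : Plane) : ℂ := ff (v 0) (v 1)
noncomputable def co' (v : Plane) : ℂ := co (v 0) (v 1)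

lemma w'_i : Integrable w' := int_lift W_i
lemma wx'_i : Integrable wx' := int_lift Wx_i
lemma fl'_i : Integrable fl' := int_lift Fl_i
lemma f'_i : Integrable f' := int_lift ff_i
lemma w'_2 : MemLp w' 2 := memLp_lift W_2
lemma wx'_2 : MemLp wx' 2 := memLp_lift Wx_2
lemma fl'_2 : MemLp fl' 2 := memLp_lift Fl_2
lemma f'_2 : MemLp f' 2 := memLp_lift ff_2

lemma four_wx (ζ : Plane) : 𝓕 wx' ζ = symDx ζ * 𝓕 w' ζ := by
  have e1 := fourier_lift (fun z => Wx z.1 z.2) ζ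
  have e2 := fourier_lift (fun z => W z.1 z.2) ζ
  have e3 := ibp_x W Wx (ζ 0, ζ 1) W_i Wx_i W_dx W_zx Wx_zx
  change 𝓕 wx' ζ = _ at e1
  change 𝓕 w' ζ = _ at e2
  rw [e1, e2, e3, symDx]

lemma four_f (ζ : Plane) : 𝓕 f' ζ = 𝓕 w' ζ - ((2*Real.pi*ζ 1 : ℝ) : ℂ)*I * 𝓕 w' ζ
    - symDx ζ * 𝓕 fl' ζ := by
  have e1 := fourier_lift (fun z => ff z.1 z.2) ζ
  have e2 := fourier_lift (fun z => W z.1 z.2) ζ
  have e3 := fourier_lift (fun z => Fl z.1 z.2) ζ
  have e4 := ibp_x Fl Flx (ζ 0, ζ 1) Fl_i Flx_i Fl_dx Fl_zx Flx_zx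
  have e5 := ibp_t W Wt (ζ 0, ζ 1) W_i Wt_i W_ct (fun x _ t ht => W_dt x t ht) W_zt Wt_zt
  change 𝓕 f' ζ = _ at e1
  change 𝓕 w' ζ = _ at e2
  change 𝓕 fl' ζ = _ at e3
  rw [e1, e2, e3, symDx, ← e4, ← e5]
  have s1 := integral_sub (int_ex2 W_i (ζ 0, ζ 1)) (int_ex2 Wt_i (ζ 0, ζ 1))
  have s2 := integral_sub ((int_ex2 W_i (ζ 0, ζ 1)).sub (int_ex2 Wt_i (ζ 0, ζ 1)))
    (int_ex2 Flx_i (ζ 0, ζ 1))
  rw [← s1]
  simp only [Pi.sub_apply] at s2
  rw [← s2]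
  congr 1
  ext z
  simp only [ff]; ring

lemma co'_elliptic : Elliptic (fun v => (starRingEnd ℂ) (co' v)) := by
  obtain ⟨C, hC, hb⟩ := sd_bounds
  have key : ∀ x t : ℝ, ‖co x t‖ ≤ C ∧ C⁻¹ ≤ (co x t).re := by
    intro x t
    by_cases h : x = 0 ∧ t = 0
    · rw [co, if_pos h]
      simp only [norm_one, one_re]
      exact ⟨hC, inv_le_one_of_one_le₀ hC⟩
    · rw [co, if_neg h]
      exact (hb x t |t| (abs_nonneg t) (rpos h)).2.2.2.2.2
  refine ⟨?_, ⟨C, fun z => ?_⟩, C⁻¹, by positivity, fun z => ?_⟩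
  · have : Measurable co' := co_meas.comp toProd.measurable
    exact Complex.continuous_conj.measurable.comp this
  · rw [RCLike.norm_conj]; exact (key _ _).1
  · rw [Complex.conj_re]; exact (key _ _).2

end Pool.Agent.W787.PE
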