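import Pool.Agent.W787.PEres2
import Pool.Agent.W787.PEfun2
import Pool.Agent.H153R4.Pl
set_option autoImplicit false

/-! The duality identity. -/

namespace Pool.Agent.W787.PE

open MeasureTheory Complex FourierTransform
open scoped ENNReal NNReal ComplexConjugate InnerProductSpace

noncomputable def wL : L2 := w'_2.toLp w'
noncomputable def wxL : L2 := wx'_2.toLp wx'
noncomputable def flL : L2 := fl'_2.toLp fl'
noncomputable def fL : L2 := f'_2.toLp f'

lemma hw : (FT wL : Plane → ℂ) =ᵐ[volume] 𝓕 w' := Pool.Agent.H153R4.fourier_ae_eq w' w'_i w'_2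
lemma hwx : (FT wxL : Plane → ℂ) =ᵐ[volume] 𝓕 wx' := Pool.Agent.H153R4.fourier_ae_eq wx' wx'_i wx'_2
lemma hfl : (FT flL : Plane → ℂ) =ᵐ[volume] 𝓕 fl' := Pool.Agent.H153R4.fourier_ae_eq fl' fl'_i fl'_2
lemma hf : (FT fL : Plane → ℂ) =ᵐ[volume] 𝓕 f' := Pool.Agent.H153R4.fourier_ae_eq f' f'_i f'_2

lemma w_dx : InDom symDx wL ∧ mult symDx wL = wxL := by
  have h : (fun ζ => symDx ζ * (𝓕 wL : L2) ζ) =ᵐ[volume] (FT wxL : Plane → ℂ) := by
    filter_upwards [hw, hwx] with z h1 h2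
    rw [h2, four_wx, ← h1]; rfl
  have := mult_eq h
  refine ⟨this.1, this.2.trans ?_⟩
  exact FT.symm_apply_apply wxL

lemma w_dh : InDom symDh wL := by
  have hm : AEStronglyMeasurable (fun ζ => symDh ζ * (𝓕 wL : L2) ζ) volume :=
    symDh_meas.aestronglyMeasurable.mul (Lp.aestronglyMeasurable _)
  refine (memLp_two_iff_integrable_sq_norm hm).mpr ?_
  have i1 := int_norm_sq (FT wL)
  have i2 := (int_inner (FT wL) (FT fL)).norm
  have i3 := (int_inner (FT wxL) (FT flL)).norm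
  refine ((i1.add i2).add i3).mono' (hm.norm.pow 2) ?_
  filter_upwards [hw, hwx, hfl, hf] with z h1 h2 h3 h4
  have e1 : (𝓕 wL : L2) z = 𝓕 w' z := h1
  simp only [Pi.add_apply]
  have e0 : ‖‖symDh z * (𝓕 wL : L2) z‖^2‖ = |2*Real.pi*z 1| * ‖𝓕 w' z‖^2 := by
    rw [norm_pow, norm_norm, e1, norm_mul, symDh_norm, mul_pow, Real.sq_sqrt (abs_nonneg _)]
  rw [e0, h1, h2, h3, h4, norm_mul, norm_mul, RCLike.norm_conj, RCLike.norm_conj,
    four_wx z, norm_mul]
  have e2 : ((2*Real.pi*z 1 : ℝ) : ℂ)*I * 𝓕 w' z = 𝓕 w' z - 𝓕 f' z - symDx z * 𝓕 fl' z := by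
    rw [four_f z]; ring
  have e3 : |2*Real.pi*z 1| * ‖𝓕 w' z‖ = ‖((2*Real.pi*z 1 : ℝ) : ℂ)*I * 𝓕 w' z‖ := by
    rw [norm_mul, norm_mul, norm_I, mul_one, norm_real, Real.norm_eq_abs]
  calc |2*Real.pi*z 1| * ‖𝓕 w' z‖^2 = (|2*Real.pi*z 1| * ‖𝓕 w' z‖) * ‖𝓕 w' z‖ := by ring
    _ = ‖𝓕 w' z - 𝓕 f' z - symDx z * 𝓕 fl' z‖ * ‖𝓕 w' z‖ := by rw [e3, e2]
    _ ≤ (‖𝓕 w' z‖ + ‖𝓕 f' z‖ + ‖symDx z‖*‖𝓕 fl' z‖) * ‖𝓕 w' z‖ := by
        refine mul_le_mul_of_nonneg_right ?_ (norm_nonneg _)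
        refine (norm_sub_le _ _).trans (add_le_add (norm_sub_le _ _) ?_)
        rw [norm_mul]
    _ = _ := by ring

lemma wL_inE : InE wL := ⟨w_dx.1, w_dh⟩

lemma FT_mult {m : Plane → ℂ} {u : L2} (h : InDom m u) :
    (FT (mult m u) : Plane → ℂ) =ᵐ[volume] fun ζ => m ζ * (FT u) ζ := by
  have e : FT (mult m u) = (MemLp.toLp _ h : L2) := by
    rw [mult, dif_pos h]; exact FT.apply_symm_apply _
  rw [e]
  exact h.coeFn_toLp

/-- the coefficient of the counterexample -/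
noncomputable def bb (v : Plane) : ℂ := (starRingEnd ℂ) (co' v)

lemma bb_elliptic : Elliptic bb := co'_elliptic

lemma bw : mul (symOf bb bb_elliptic).star wxL = flL := by
  apply Lp.ext
  have hne : ∀ᵐ v : Plane, ¬ (v 0 = 0 ∧ v 1 = 0) := by
    have h0 : ∀ᵐ v : Plane, v ≠ 0 := by
      have := (Set.countable_singleton (0:Plane)).ae_notMem (volume : Measure Plane)
      simpa using this
    filter_upwards [h0] with v hv hcon
    apply hv
    ext i
    fin_cases i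
    · exact hcon.1
    · exact hcon.2
  filter_upwards [mul_coe (symOf bb bb_elliptic).star wxL, wx'_2.coeFn_toLp, fl'_2.coeFn_toLp, hne]
    with z h1 h2 h3 h4
  have e3 : flL z = fl' z := h3
  have e2 : wxL z = wx' z := h2
  rw [h1, e3, e2]
  simp only [Sym.star, symOf, bb, Complex.conj_conj]
  exact co_Wx h4

lemma dual (y : L2) (hy : InE y) :
    (∫ z, y z * conj (wL z)) + form bb y wL = ∫ z, y z * conj (fL z) := by
  have e0 : form bb y wL = form (symOf bb bb_elliptic).m y wL := rfl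
  have e1 : ⟪mult symDx wL, mul (symOf bb bb_elliptic) (mult symDx y)⟫_ℂ
      = ⟪flL, mult symDx y⟫_ℂ := by
    rw [w_dx.2, ← bw, inner_mul_left']
    congr 1
    exact mul_congr (fun z => by simp [Sym.star]) _
  rw [e0, form_inner, e1, ← inner_eq, ← inner_eq, ← FT.inner_map_map wL y,
    ← FT.inner_map_map (mult symDh wL), ← FT.inner_map_map flL, ← FT.inner_map_map fL,
    inner_eq, inner_eq, inner_eq, inner_eq]
  have j1 := int_inner (FT wL) (FT y)
  have j2 := int_inner (FT (mult symDh wL)) (FT (mult symH (mult symDh y)))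
  have j3 := int_inner (FT flL) (FT (mult symDx y))
  have j4 : Integrable (fun a => (FT (mult symH (mult symDh y))) a * conj ((FT (mult symDh wL)) a)
    + (FT (mult symDx y)) a * conj ((FT flL) a)) := j2.add j3
  rw [← integral_add j2 j3, ← integral_add j1 j4]
  apply integral_congr_ae
  have hH : (FT (mult symH (mult symDh y)) : Plane → ℂ) =ᵐ[volume]
      fun ζ => symH ζ * (FT (mult symDh y)) ζ := by
    rw [hh_of, FT.apply_symm_apply]
    exact mul_coe sH _
  filter_upwards [hw, hfl, hf, hH, FT_mult hy.2, FT_mult hy.1, FT_mult w_dh] with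
    z h1 h3 h4 h5 h6 h7 h8
  rw [h5, h6, h7, h8, h1, h3, h4, four_f z]
  simp only [map_sub, map_mul, conj_ofReal, conj_I]
  have s1 : conj (symDh z) = symDh z := by simp [symDh]
  have s2 : symH z * symDh z * symDh z = ((2*Real.pi*z 1 : ℝ):ℂ) * I := by
    have q : (symDh z) * (symDh z) = ((|2*Real.pi*z 1| : ℝ) : ℂ) := by
      rw [symDh, ← ofReal_mul, Real.mul_self_sqrt (abs_nonneg _)]
    rw [mul_assoc, q, symH, mul_assoc, ← ofReal_mul, mul_comm]
    congr 2
    rw [abs_mul, abs_of_pos (by positivity : (0:ℝ) < 2*Real.pi)]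
    by_cases h0 : z 1 = 0
    · rw [h0]; simp
    · have : |z 1| ≠ 0 := abs_ne_zero.mpr h0
      field_simp
  have s3 : conj (symDx z) = - symDx z := by rw [symDx, map_mul, conj_ofReal, conj_I, mul_neg]
  rw [s1, s3]
  linear_combination (FT y) z * conj (𝓕 w' z) * s2

end Pool.Agent.W787.PE
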