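import Pool.Agent.W787.PEdef
set_option autoImplicit false

/-! Generic integration by parts and Fourier lemmas. -/

namespace Pool.Agent.W787.PE

open MeasureTheory Complex FourierTransform Set

noncomputable def ex (w s : ℝ) : ℂ := Complex.exp (-(2*Real.pi*(s*w) : ℝ) * I)

lemma ex_cont (w : ℝ) : Continuous (ex w) := by unfold ex; fun_prop

lemma ex_norm (w s : ℝ) : ‖ex w s‖ = 1 := by
  rw [ex, ← ofReal_neg, Complex.norm_exp_ofReal_mul_I]

lemma ex_deriv (w s : ℝ) : HasDerivAt (ex w) (-(2*Real.pi*w : ℝ) * I * ex w s) s := by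
  have h1 : HasDerivAt (fun s : ℝ => (((2*Real.pi*(s*w) : ℝ)) : ℂ)) ((2*Real.pi*w : ℝ):ℂ) s := by
    have := (((hasDerivAt_id s).mul_const w).const_mul (2*Real.pi)).ofReal_comp
    simpa using this
  have h2 := (h1.neg.mul_const I).cexp
  refine h2.congr_deriv ?_
  simp only [ex, Pi.neg_apply]; ring

/-- integration by parts against an exponential, with a bad point at `0` -/
lemma ibp (φ φ' : ℝ → ℂ) (w : ℝ) (hc : Continuous φ)
    (hd : ∀ s, s ≠ 0 → HasDerivAt φ (φ' s) s) (h0 : ∀ s, 2 ≤ |s| → φ s = 0)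
    (h0' : ∀ s, 2 ≤ |s| → φ' s = 0) (hi : Integrable φ') :
    ∫ s, φ' s * ex w s = (2*Real.pi*w : ℝ) * I * ∫ s, φ s * ex w s := by
  have hsub : ∀ g : ℝ → ℂ, (∀ s, 2 ≤ |s| → g s = 0) → Function.support g ⊆ Ioc (-3:ℝ) 3 := by
    intro g hg s hs
    have : |s| < 2 := by
      by_contra hcon
      exact hs (hg s (not_lt.mp hcon))
    rw [abs_lt] at this
    constructor <;> linarith
  have e1 : ∫ s in (-3:ℝ)..3, φ' s * ex w s = ∫ s, φ' s * ex w s :=
    intervalIntegral.integral_eq_integral_of_support_subset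
      (hsub _ (fun s hs => by rw [h0' s hs, zero_mul]))
  have e2 : ∫ s in (-3:ℝ)..3, φ s * ex w s = ∫ s, φ s * ex w s :=
    intervalIntegral.integral_eq_integral_of_support_subset
      (hsub _ (fun s hs => by rw [h0 s hs, zero_mul]))
  have hi1 : IntervalIntegrable (fun s => φ' s * ex w s) volume (-3) 3 := by
    have : Integrable (fun s => φ' s * ex w s) := by
      refine hi.mul_bdd (c := 1) (ex_cont w).aestronglyMeasurable (Filter.Eventually.of_forall fun s => ?_)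
      rw [ex_norm]
    exact this.intervalIntegrable
  have hi2 : IntervalIntegrable (fun s => φ s * (-(2*Real.pi*w : ℝ) * I * ex w s)) volume (-3) 3 :=
    (hc.mul (continuous_const.mul (ex_cont w))).intervalIntegrable _ _
  have key := MeasureTheory.integral_eq_of_hasDerivAt_off_countable (fun s => φ s * ex w s)
    (fun s => φ' s * ex w s + φ s * (-(2*Real.pi*w : ℝ) * I * ex w s)) (a := -3) (b := 3)
    (s := {0}) (countable_singleton 0) ((hc.mul (ex_cont w)).continuousOn)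
    (fun s hs => (hd s (by simpa using hs.2)).mul (ex_deriv w s)) (hi1.add hi2)
  rw [intervalIntegral.integral_add hi1 hi2, h0 3 (by norm_num), h0 (-3) (by norm_num), e1] at key
  have e3 : ∫ s in (-3:ℝ)..3, φ s * (-(2*Real.pi*w : ℝ) * I * ex w s)
      = -(2*Real.pi*w : ℝ) * I * ∫ s, φ s * ex w s := by
    rw [← e2, ← intervalIntegral.integral_const_mul]
    congr 1; ext s; ring
  rw [e3] at key
  linear_combination key

noncomputable def ex2 (p : ℝ × ℝ) (z : ℝ × ℝ) : ℂ := ex p.1 z.1 * ex p.2 z.2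

lemma ex2_cont (p : ℝ × ℝ) : Continuous (ex2 p) := by
  unfold ex2
  exact ((ex_cont _).comp continuous_fst).mul ((ex_cont _).comp continuous_snd)

lemma ex2_norm (p z : ℝ × ℝ) : ‖ex2 p z‖ = 1 := by
  rw [ex2, norm_mul, ex_norm, ex_norm, one_mul]

lemma int_ex2 {f : ℝ × ℝ → ℂ} (hf : Integrable f) (p : ℝ × ℝ) :
    Integrable (fun z => f z * ex2 p z) := by
  refine hf.mul_bdd (c := 1) (ex2_cont p).aestronglyMeasurable (Filter.Eventually.of_forall fun s => ?_)
  rw [ex2_norm]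

lemma ae_ne_zero : ∀ᵐ t : ℝ, t ≠ 0 := by
  have := (countable_singleton (0:ℝ)).ae_notMem volume
  simpa using this

lemma ibp_x (W W' : ℝ → ℝ → ℂ) (p : ℝ × ℝ)
    (hW : Integrable (fun z : ℝ × ℝ => W z.1 z.2)) (hW' : Integrable (fun z : ℝ × ℝ => W' z.1 z.2))
    (hd : ∀ t, t ≠ 0 → ∀ x, HasDerivAt (fun x => W x t) (W' x t) x)
    (h0 : ∀ t x, 2 ≤ |x| → W x t = 0) (h0' : ∀ t x, 2 ≤ |x| → W' x t = 0) :
    ∫ z : ℝ × ℝ, W' z.1 z.2 * ex2 p z
      = (2*Real.pi*p.1 : ℝ) * I * ∫ z : ℝ × ℝ, W z.1 z.2 * ex2 p z := by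
  have i1 := int_ex2 hW p
  have i2 := int_ex2 hW' p
  rw [Measure.volume_eq_prod] at i1 i2 hW' ⊢
  rw [integral_prod_symm _ i2, integral_prod_symm _ i1, ← integral_const_mul]
  apply integral_congr_ae
  filter_upwards [ae_ne_zero, hW'.prod_left_ae] with t ht hit
  have hib := ibp (fun x => W x t) (fun x => W' x t) p.1
    (continuous_iff_continuousAt.mpr fun x => (hd t ht x).continuousAt)
    (fun s _ => hd t ht s) (h0 t) (h0' t) hit
  simp only [ex2]
  have r1 : ∀ g : ℝ → ℝ → ℂ, ∫ x, g x t * (ex p.1 x * ex p.2 t) = (∫ x, g x t * ex p.1 x) * ex p.2 t := by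
    intro g
    rw [← integral_mul_const]
    congr 1; ext x; ring
  rw [r1 W', r1 W, hib]; ring

lemma ibp_t (W W' : ℝ → ℝ → ℂ) (p : ℝ × ℝ)
    (hW : Integrable (fun z : ℝ × ℝ => W z.1 z.2)) (hW' : Integrable (fun z : ℝ × ℝ => W' z.1 z.2))
    (hc : ∀ x, x ≠ 0 → Continuous (fun t => W x t))
    (hd : ∀ x, x ≠ 0 → ∀ t, t ≠ 0 → HasDerivAt (fun t => W x t) (W' x t) t)
    (h0 : ∀ x t, 2 ≤ |t| → W x t = 0) (h0' : ∀ x t, 2 ≤ |t| → W' x t = 0) :
    ∫ z : ℝ × ℝ, W' z.1 z.2 * ex2 p z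
      = (2*Real.pi*p.2 : ℝ) * I * ∫ z : ℝ × ℝ, W z.1 z.2 * ex2 p z := by
  have i1 := int_ex2 hW p
  have i2 := int_ex2 hW' p
  rw [Measure.volume_eq_prod] at i1 i2 hW' ⊢
  rw [integral_prod _ i2, integral_prod _ i1, ← integral_const_mul]
  apply integral_congr_ae
  filter_upwards [ae_ne_zero, hW'.prod_right_ae] with x hx hit
  have hib := ibp (fun t => W x t) (fun t => W' x t) p.2 (hc x hx) (hd x hx) (h0 x) (h0' x) hit
  simp only [ex2]
  have r1 : ∀ g : ℝ → ℝ → ℂ, ∫ t, g x t * (ex p.1 x * ex p.2 t) = (∫ t, g x t * ex p.2 t) * ex p.1 x := by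
    intro g
    rw [← integral_mul_const]
    congr 1; ext x; ring
  rw [r1 W', r1 W, hib]; ring

/-! ### the plane as a product -/

noncomputable def toProd : Plane ≃ᵐ ℝ × ℝ :=
  (MeasurableEquiv.toLp 2 (Fin 2 → ℝ)).symm.trans MeasurableEquiv.finTwoArrow

lemma toProd_apply (v : Plane) : toProd v = (v 0, v 1) := rfl

lemma toProd_mp : MeasurePreserving toProd :=
  (EuclideanSpace.volume_preserving_symm_measurableEquiv_toLp (Fin 2)).trans
    (volume_preserving_finTwoArrow ℝ)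

lemma int_lift {f : ℝ × ℝ → ℂ} (hf : Integrable f) : Integrable (fun v : Plane => f (v 0, v 1)) :=
  (toProd_mp.integrable_comp_emb toProd.measurableEmbedding (g := f)).mpr hf

lemma integral_lift (f : ℝ × ℝ → ℂ) : ∫ v : Plane, f (v 0, v 1) = ∫ z, f z :=
  toProd_mp.integral_comp toProd.measurableEmbedding f

lemma memLp_lift {f : ℝ × ℝ → ℂ} {p : ENNReal} (hf : MemLp f p) :
    MemLp (fun v : Plane => f (v 0, v 1)) p :=
  hf.comp_measurePreserving toProd_mp

lemma fourier_lift (f : ℝ × ℝ → ℂ) (ζ : Plane) :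
    𝓕 (fun v : Plane => f (v 0, v 1)) ζ = ∫ z : ℝ × ℝ, f z * ex2 (ζ 0, ζ 1) z := by
  rw [Real.fourier_eq', ← integral_lift]
  congr 1
  ext v
  simp only [smul_eq_mul, ex2, ex, PiLp.inner_apply, Fin.sum_univ_two, RCLike.inner_apply,
    conj_trivial]
  rw [← Complex.exp_add, mul_comm]
  congr 2
  push_cast; ring

end Pool.Agent.W787.PE
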