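import Pool.Agent.W787.PEint
import Pool.Agent.W787.PEcalc
set_option autoImplicit false

/-! The localised solution and its properties. -/

namespace Pool.Agent.W787.PE

open MeasureTheory Complex Set

structure Cut where
  χ : ℝ → ℝ
  χ1 : ℝ → ℝ
  χ2 : ℝ → ℝ
  c0 : Continuous χ
  c1 : Continuous χ1
  c2 : Continuous χ2
  d0 : ∀ x, HasDerivAt χ (χ1 x) x
  d1 : ∀ x, HasDerivAt χ1 (χ2 x) x
  one : ∀ x, |x| ≤ 1 → χ x = 1
  one1 : ∀ x, |x| < 1 → χ1 x = 0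
  one2 : ∀ x, |x| < 1 → χ2 x = 0
  z0 : ∀ x, 2 ≤ |x| → χ x = 0
  z1 : ∀ x, 2 ≤ |x| → χ1 x = 0
  z2 : ∀ x, 2 ≤ |x| → χ2 x = 0

lemma exists_cut : Nonempty Cut := by
  let b : ContDiffBump (0:ℝ) := ⟨1, 3/2, by norm_num, by norm_num⟩
  have hs : ContDiff ℝ 3 (b : ℝ → ℝ) := b.contDiff
  have hs1 : ContDiff ℝ 2 (deriv (b : ℝ → ℝ)) := by
    have := (contDiff_succ_iff_deriv (n := 2) (f := (b : ℝ → ℝ)) (𝕜 := ℝ)).mp (by
      norm_num; exact hs)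
    exact this.2.2
  have hs2 : ContDiff ℝ 1 (deriv (deriv (b : ℝ → ℝ))) := by
    have := (contDiff_succ_iff_deriv (n := 1) (f := deriv (b : ℝ → ℝ)) (𝕜 := ℝ)).mp (by
      norm_num; exact hs1)
    exact this.2.2
  have one0 : ∀ x : ℝ, |x| ≤ 1 → b x = 1 := fun x hx =>
    b.one_of_mem_closedBall (by simpa [b] using hx)
  have z0 : ∀ x : ℝ, 3/2 ≤ |x| → b x = 0 := fun x hx =>
    b.zero_of_le_dist (by simpa [b] using hx)
  have hop1 : IsOpen {x : ℝ | |x| < 1} := isOpen_lt continuous_abs continuous_const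
  have hop2 : IsOpen {x : ℝ | 3/2 < |x|} := isOpen_lt continuous_const continuous_abs
  have one1 : ∀ x : ℝ, |x| < 1 → deriv b x = 0 := by
    intro x hx
    have : (b : ℝ → ℝ) =ᶠ[nhds x] fun _ => 1 := by
      filter_upwards [hop1.mem_nhds hx] with y hy using one0 y (le_of_lt hy)
    rw [this.deriv_eq, deriv_const]
  have z1 : ∀ x : ℝ, 3/2 < |x| → deriv b x = 0 := by
    intro x hx
    have : (b : ℝ → ℝ) =ᶠ[nhds x] fun _ => 0 := by
      filter_upwards [hop2.mem_nhds hx] with y hy using z0 y (le_of_lt hy)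
    rw [this.deriv_eq, deriv_const]
  have one2 : ∀ x : ℝ, |x| < 1 → deriv (deriv b) x = 0 := by
    intro x hx
    have : deriv (b : ℝ → ℝ) =ᶠ[nhds x] fun _ => 0 := by
      filter_upwards [hop1.mem_nhds hx] with y hy using one1 y hy
    rw [this.deriv_eq, deriv_const]
  have z2 : ∀ x : ℝ, 3/2 < |x| → deriv (deriv b) x = 0 := by
    intro x hx
    have : deriv (b : ℝ → ℝ) =ᶠ[nhds x] fun _ => 0 := by
      filter_upwards [hop2.mem_nhds hx] with y hy using z1 y hy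
    rw [this.deriv_eq, deriv_const]
  exact ⟨⟨b, deriv b, deriv (deriv b), hs.continuous, hs1.continuous, hs2.continuous,
    fun x => ((hs.differentiable (by norm_num)) x).hasDerivAt,
    fun x => ((hs1.differentiable (by norm_num)) x).hasDerivAt,
    one0, one1, one2, fun x hx => z0 x (by linarith), fun x hx => z1 x (by linarith),
    fun x hx => z2 x (by linarith)⟩⟩

noncomputable def cut : Cut := Classical.choice exists_cut

noncomputable def X0 (x : ℝ) : ℝ := cut.χ x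
noncomputable def X1 (x : ℝ) : ℝ := cut.χ1 x
noncomputable def X2 (x : ℝ) : ℝ := cut.χ2 x
noncomputable def T0 (t : ℝ) : ℝ := Real.exp t * cut.χ t
noncomputable def T1 (t : ℝ) : ℝ := Real.exp t * (cut.χ t + cut.χ1 t)

lemma X0c : Continuous X0 := cut.c0
lemma X1c : Continuous X1 := cut.c1
lemma X2c : Continuous X2 := cut.c2
lemma T0c : Continuous T0 := Real.continuous_exp.mul cut.c0
lemma T1c : Continuous T1 := Real.continuous_exp.mul (cut.c0.add cut.c1)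
lemma dX0 (x : ℝ) : HasDerivAt (fun x => ((X0 x : ℝ) : ℂ)) (X1 x : ℂ) x := (cut.d0 x).ofReal_comp
lemma dX1 (x : ℝ) : HasDerivAt (fun x => ((X1 x : ℝ) : ℂ)) (X2 x : ℂ) x := (cut.d1 x).ofReal_comp
lemma dT0 (x : ℝ) : HasDerivAt (fun x => ((T0 x : ℝ) : ℂ)) (T1 x : ℂ) x := by
  have := ((Real.hasDerivAt_exp x).mul (cut.d0 x)).ofReal_comp
  refine this.congr_deriv ?_
  simp only [T1]; push_cast; ring

lemma exists_bd (f : ℝ → ℝ) (hf : Continuous f) (h0 : ∀ x, 2 ≤ |x| → f x = 0) :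
    ∃ C : ℝ, 0 ≤ C ∧ ∀ x, |f x| ≤ C := by
  obtain ⟨C, hC⟩ := (isCompact_Icc (a := (-2:ℝ)) (b := 2)).exists_bound_of_continuousOn
    hf.continuousOn
  refine ⟨max C 0, le_max_right _ _, fun x => ?_⟩
  by_cases hx : |x| ≤ 2
  · exact (hC x (abs_le.mp hx)).trans (le_max_left _ _)
  · rw [h0 x (not_le.mp hx).le]; simp

lemma cut_bd : ∃ M : ℝ, 1 ≤ M ∧ ∀ x, |X0 x| ≤ M ∧ |X1 x| ≤ M ∧ |X2 x| ≤ M ∧ |T0 x| ≤ M ∧
    |T1 x| ≤ M := by
  obtain ⟨C0, h0, b0⟩ := exists_bd X0 X0c cut.z0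
  obtain ⟨C1, h1, b1⟩ := exists_bd X1 X1c cut.z1
  obtain ⟨C2, h2, b2⟩ := exists_bd X2 X2c cut.z2
  obtain ⟨C3, h3, b3⟩ := exists_bd T0 T0c (fun x hx => by rw [T0, cut.z0 x hx, mul_zero])
  obtain ⟨C4, h4, b4⟩ := exists_bd T1 T1c (fun x hx => by
    rw [T1, cut.z0 x hx, cut.z1 x hx, add_zero, mul_zero])
  refine ⟨1+C0+C1+C2+C3+C4, by linarith, fun x => ⟨?_, ?_, ?_, ?_, ?_⟩⟩
  · linarith [b0 x]
  · linarith [b1 x]
  · linarith [b2 x]
  · linarith [b3 x]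
  · linarith [b4 x]

/-- the side -/
noncomputable def sd (t : ℝ) : Par := if 0 ≤ t then pP else pM

lemma sd_good (t : ℝ) : (sd t).Good ∧ |(sd t).s| = 1 := by
  unfold sd; split_ifs
  · exact ⟨pP_good, by simp [pP]⟩
  · exact ⟨pM_good, by simp [pM]⟩

lemma sd_bounds : ∃ C : ℝ, 1 ≤ C ∧ ∀ x t h : ℝ, 0 ≤ h → 0 < x^2+h →
    ‖(sd t).U x h‖ ≤ C * (x^2+h)^(-(1/16):ℝ) ∧ ‖(sd t).Ux x h‖ ≤ C * (x^2+h)^(-(9/16):ℝ) ∧
    ‖(sd t).Uh x h‖ ≤ C * (x^2+h)^(-(17/16):ℝ) ∧ ‖(sd t).V x h‖ ≤ C * (x^2+h)^(-(9/16):ℝ) ∧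
    ‖(sd t).Kx x h‖ ≤ C * (x^2+h)^(-(9/16):ℝ) ∧ ‖(sd t).c x h‖ ≤ C ∧ C⁻¹ ≤ ((sd t).c x h).re := by
  obtain ⟨C1, hC1, h1⟩ := pP.bounds pP_good (by simp [pP])
  obtain ⟨C2, hC2, h2⟩ := pM.bounds pM_good (by simp [pM])
  refine ⟨1+C1+C2, by linarith, fun x t h hh hr => ?_⟩
  have q1 : 0 < (x^2+h)^(-(1/16):ℝ) := Real.rpow_pos_of_pos hr _
  have q2 : 0 < (x^2+h)^(-(9/16):ℝ) := Real.rpow_pos_of_pos hr _
  have q3 : 0 < (x^2+h)^(-(17/16):ℝ) := Real.rpow_pos_of_pos hr _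
  unfold sd
  split_ifs
  · obtain ⟨a1, a2, a3, a4, a5, a6, a7⟩ := h1 x h hh hr
    refine ⟨a1.trans ?_, a2.trans ?_, a3.trans ?_, a4.trans ?_, a5.trans ?_, a6.trans ?_, le_trans ?_ a7⟩
    · gcongr; linarith
    · gcongr; linarith
    · gcongr; linarith
    · gcongr; linarith
    · gcongr; linarith
    · linarith
    · apply inv_anti₀ hC1; linarith
  · obtain ⟨a1, a2, a3, a4, a5, a6, a7⟩ := h2 x h hh hr
    refine ⟨a1.trans ?_, a2.trans ?_, a3.trans ?_, a4.trans ?_, a5.trans ?_, a6.trans ?_, le_trans ?_ a7⟩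
    · gcongr; linarith
    · gcongr; linarith
    · gcongr; linarith
    · gcongr; linarith
    · gcongr; linarith
    · linarith
    · apply inv_anti₀ hC2; linarith

noncomputable def W (x t : ℝ) : ℂ := (X0 x : ℂ) * (T0 t : ℂ) * (sd t).U x |t|
noncomputable def Wx (x t : ℝ) : ℂ :=
  (T0 t : ℂ) * ((X1 x : ℂ) * (sd t).U x |t| + (X0 x : ℂ) * (sd t).Ux x |t|)
noncomputable def Wt (x t : ℝ) : ℂ :=
  (X0 x : ℂ) * ((T1 t : ℂ) * (sd t).U x |t| + (T0 t : ℂ) * (((sd t).s : ℂ) * (sd t).Uh x |t|))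
noncomputable def Fl (x t : ℝ) : ℂ :=
  (T0 t : ℂ) * ((X1 x : ℂ) * (sd t).K x |t| - ((sd t).s : ℂ) * ((X0 x : ℂ) * (sd t).V x |t|))
noncomputable def Flx (x t : ℝ) : ℂ :=
  (T0 t : ℂ) * ((X2 x : ℂ) * (sd t).K x |t| + (X1 x : ℂ) * (sd t).Kx x |t|
    - ((sd t).s : ℂ) * ((X1 x : ℂ) * (sd t).V x |t| + (X0 x : ℂ) * (sd t).Uh x |t|))
noncomputable def ff (x t : ℝ) : ℂ := W x t - Wt x t - Flx x t
/-- the coefficient of the adjoint equation -/
noncomputable def co (x t : ℝ) : ℂ := if x = 0 ∧ t = 0 then 1 else (sd t).c x |t|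

lemma rpos {x t : ℝ} (h : ¬ (x = 0 ∧ t = 0)) : 0 < x^2+|t| := by
  by_cases hx : x = 0
  · have : t ≠ 0 := fun ht => h ⟨hx, ht⟩
    have := abs_pos.mpr this
    positivity
  · positivity

lemma co_Wx {x t : ℝ} (h : ¬ (x = 0 ∧ t = 0)) : co x t * Wx x t = Fl x t := by
  have hB := (sd t).B_ne (sd_good t).1 (sd_good t).2 (abs_nonneg t) (rpos h)
  rw [co, if_neg h, Wx, Fl]
  have e1 := (sd t).c_U x |t| hB
  have e2 := (sd t).c_Ux x |t| hB
  linear_combination (T0 t : ℂ) * (X1 x : ℂ) * e1 + (T0 t : ℂ) * (X0 x : ℂ) * e2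

lemma ff_eq (x t : ℝ) : ff x t = (X0 x : ℂ) * ((T0 t - T1 t : ℝ) : ℂ) * (sd t).U x |t|
    - (T0 t : ℂ) * ((X2 x : ℂ) * (sd t).K x |t| + (X1 x : ℂ) * (sd t).Kx x |t|)
    + ((sd t).s : ℂ) * ((T0 t : ℂ) * (X1 x : ℂ) * (sd t).V x |t|) := by
  simp only [ff, W, Wt, Flx]; push_cast; ring

lemma W_dx (t : ℝ) (ht : t ≠ 0) (x : ℝ) : HasDerivAt (fun x => W x t) (Wx x t) x := by
  have hr : 0 < x^2+|t| := rpos (by tauto)
  have := ((dX0 x).mul ((sd t).dU_x x |t| hr)).const_mul (T0 t : ℂ)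
  refine (this.congr_of_eventuallyEq (Filter.Eventually.of_forall fun z => ?_))
  simp only [W, Pi.mul_apply]; ring

lemma Fl_dx (t : ℝ) (ht : t ≠ 0) (x : ℝ) : HasDerivAt (fun x => Fl x t) (Flx x t) x := by
  have hr : 0 < x^2+|t| := rpos (by tauto)
  have hB := (sd t).B_ne (sd_good t).1 (sd_good t).2 (abs_nonneg t) hr
  have := (((dX1 x).mul ((sd t).dK_x x |t| hr hB)).sub
    (((dX0 x).mul ((sd t).dV_x x |t| hr)).const_mul ((sd t).s : ℂ))).const_mul (T0 t : ℂ)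
  exact this

lemma sd_pos {t : ℝ} (ht : 0 < t) : sd t = pP := by rw [sd, if_pos ht.le]
lemma sd_neg {t : ℝ} (ht : t < 0) : sd t = pM := by rw [sd, if_neg (not_le.mpr ht)]

lemma U_dt (x t : ℝ) (ht : t ≠ 0) :
    HasDerivAt (fun t => (sd t).U x |t|) (((sd t).s : ℂ) * (sd t).Uh x |t|) t := by
  rcases lt_or_gt_of_ne ht with h | h
  · have hr : 0 < x^2+(-t) := by nlinarith [sq_nonneg x]
    have h1 : HasDerivAt (fun t : ℝ => pM.U x (-t)) (-(pM.Uh x (-t))) t := by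
      have := HasDerivAt.scomp (h := fun t : ℝ => -t) (g₁ := fun h => pM.U x h) t
        (pM.dU_h x (-t) hr) (hasDerivAt_neg t)
      rw [neg_one_smul] at this
      exact this
    have e : ((sd t).s : ℂ) * (sd t).Uh x |t| = -(pM.Uh x (-t)) := by
      rw [sd_neg h, abs_of_neg h]; simp [pM]
    rw [e]
    refine h1.congr_of_eventuallyEq ?_
    filter_upwards [Iio_mem_nhds h] with s hs
    rw [sd_neg hs, abs_of_neg hs]
  · have hr : 0 < x^2+t := by positivity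
    have h1 := pP.dU_h x t hr
    have e : ((sd t).s : ℂ) * (sd t).Uh x |t| = pP.Uh x t := by
      rw [sd_pos h, abs_of_pos h]; simp [pP]
    rw [e]
    refine h1.congr_of_eventuallyEq ?_
    filter_upwards [Ioi_mem_nhds h] with s hs
    rw [sd_pos hs, abs_of_pos hs]

lemma W_dt (x t : ℝ) (ht : t ≠ 0) : HasDerivAt (fun t => W x t) (Wt x t) t := by
  have := ((dT0 t).mul (U_dt x t ht)).const_mul (X0 x : ℂ)
  refine (this.congr_of_eventuallyEq (Filter.Eventually.of_forall fun z => ?_))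
  simp only [W, Pi.mul_apply]; ring

lemma U_cont_abs (a : Par) {x : ℝ} (hx : x ≠ 0) : Continuous (fun t : ℝ => a.U x |t|) := by
  rw [continuous_iff_continuousAt]
  intro t
  have hr : 0 < x^2+|t| := by positivity
  exact ContinuousAt.comp (f := fun t : ℝ => |t|) (g := fun h => a.U x h)
    (a.dU_h x |t| hr).continuousAt continuous_abs.continuousAt

lemma W_ct (x : ℝ) (hx : x ≠ 0) : Continuous (fun t => W x t) := by
  have h1 : Continuous (fun t : ℝ => (sd t).U x |t|) := by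
    have e : (fun t : ℝ => (sd t).U x |t|) =
        fun t => if 0 ≤ t then pP.U x |t| else pM.U x |t| := by
      ext t; unfold sd; split_ifs <;> rfl
    rw [e]
    refine Continuous.if_le (U_cont_abs pP hx) (U_cont_abs pM hx) continuous_const continuous_id ?_
    intro t ht
    subst ht
    simp only [abs_zero, Par.U, ofReal_zero, pP_Q0, pM_Q0]
  exact (continuous_const.mul (continuous_ofReal.comp T0c)).mul h1

lemma T0_z {t : ℝ} (h : 2 ≤ |t|) : T0 t = 0 := by rw [T0, cut.z0 t h, mul_zero]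
lemma T1_z {t : ℝ} (h : 2 ≤ |t|) : T1 t = 0 := by
  rw [T1, cut.z0 t h, cut.z1 t h, add_zero, mul_zero]
lemma X0_z {t : ℝ} (h : 2 ≤ |t|) : X0 t = 0 := cut.z0 t h
lemma X1_z {t : ℝ} (h : 2 ≤ |t|) : X1 t = 0 := cut.z1 t h
lemma X2_z {t : ℝ} (h : 2 ≤ |t|) : X2 t = 0 := cut.z2 t h

lemma W_zx (t x : ℝ) (h : 2 ≤ |x|) : W x t = 0 := by simp [W, X0_z h]
lemma Wx_zx (t x : ℝ) (h : 2 ≤ |x|) : Wx x t = 0 := by simp [Wx, X0_z h, X1_z h]
lemma Wt_zx (t x : ℝ) (h : 2 ≤ |x|) : Wt x t = 0 := by simp [Wt, X0_z h]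
lemma Fl_zx (t x : ℝ) (h : 2 ≤ |x|) : Fl x t = 0 := by simp [Fl, X0_z h, X1_z h]
lemma Flx_zx (t x : ℝ) (h : 2 ≤ |x|) : Flx x t = 0 := by simp [Flx, X0_z h, X1_z h, X2_z h]
lemma W_zt (x t : ℝ) (h : 2 ≤ |t|) : W x t = 0 := by simp [W, T0_z h]
lemma Wx_zt (x t : ℝ) (h : 2 ≤ |t|) : Wx x t = 0 := by simp [Wx, T0_z h]
lemma Wt_zt (x t : ℝ) (h : 2 ≤ |t|) : Wt x t = 0 := by simp [Wt, T0_z h, T1_z h]
lemma Fl_zt (x t : ℝ) (h : 2 ≤ |t|) : Fl x t = 0 := by simp [Fl, T0_z h]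
lemma Flx_zt (x t : ℝ) (h : 2 ≤ |t|) : Flx x t = 0 := by simp [Flx, T0_z h]
lemma ff_zx (t x : ℝ) (h : 2 ≤ |x|) : ff x t = 0 := by
  rw [ff, W_zx t x h, Wt_zx t x h, Flx_zx t x h]; simp
lemma ff_zt (x t : ℝ) (h : 2 ≤ |t|) : ff x t = 0 := by
  rw [ff, W_zt x t h, Wt_zt x t h, Flx_zt x t h]; simp

end Pool.Agent.W787.PE
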