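import Pool.Agent.W787.PEdef
set_option autoImplicit false

/-! Multiplication operators on `L²` and the resolvent. -/

namespace Pool.Agent.W787.PE

open MeasureTheory Complex FourierTransform
open scoped ENNReal NNReal ComplexConjugate InnerProductSpace

/-- bounded measurable symbols -/
structure Sym where
  m : Plane → ℂ
  meas : Measurable m
  bd : ℝ
  hbd : ∀ z, ‖m z‖ ≤ bd

lemma Sym.bd_nonneg (s : Sym) : 0 ≤ s.bd := (norm_nonneg _).trans (s.hbd 0)

lemma Sym.memLp (s : Sym) (g : L2) : MemLp (fun z => s.m z * g z) 2 volume := by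
  refine MemLp.of_le_mul (c := s.bd) (Lp.memLp g) ?_ (Filter.Eventually.of_forall fun z => ?_)
  · exact s.meas.aestronglyMeasurable.mul (Lp.aestronglyMeasurable g)
  · rw [norm_mul]; exact mul_le_mul_of_nonneg_right (s.hbd z) (norm_nonneg _)

/-- multiplication by a bounded symbol -/
noncomputable def mul (s : Sym) : L2 →L[ℂ] L2 :=
  LinearMap.mkContinuous
    { toFun := fun g => (s.memLp g).toLp _
      map_add' := by
        intro g h
        apply Lp.ext
        filter_upwards [(s.memLp (g+h)).coeFn_toLp, (s.memLp g).coeFn_toLp,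
          (s.memLp h).coeFn_toLp, Lp.coeFn_add g h,
          Lp.coeFn_add ((s.memLp g).toLp _) ((s.memLp h).toLp _)] with z a1 a2 a3 a4 a5
        rw [a1, a5, Pi.add_apply, a2, a3, a4, Pi.add_apply]; ring
      map_smul' := by
        intro c g
        apply Lp.ext
        filter_upwards [(s.memLp (c • g)).coeFn_toLp, (s.memLp g).coeFn_toLp,
          Lp.coeFn_smul c g,
          Lp.coeFn_smul c ((s.memLp g).toLp _)] with z a1 a2 a4 a5
        simp only [RingHom.id_apply]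
        rw [a1, a5, Pi.smul_apply, a2, a4, Pi.smul_apply, smul_eq_mul, smul_eq_mul]; ring }
    s.bd (by
      intro g
      simp only [LinearMap.coe_mk, AddHom.coe_mk]
      refine Lp.norm_le_mul_norm_of_ae_le_mul ?_
      filter_upwards [(s.memLp g).coeFn_toLp] with z hz
      rw [hz, norm_mul]; exact mul_le_mul_of_nonneg_right (s.hbd z) (norm_nonneg _))

lemma mul_coe (s : Sym) (g : L2) : (mul s g : Plane → ℂ) =ᵐ[volume] fun z => s.m z * g z :=
  (s.memLp g).coeFn_toLp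

lemma inner_eq (f g : L2) : ⟪f, g⟫_ℂ = ∫ z, g z * conj (f z) := by
  rw [MeasureTheory.L2.inner_def]
  rfl

lemma int_inner (f g : L2) : Integrable (fun z => g z * conj (f z)) :=
  MeasureTheory.L2.integrable_inner (𝕜 := ℂ) f g

lemma norm_sq_eq (g : L2) : ‖g‖^2 = ∫ z, ‖g z‖^2 := by
  have e : (fun z => g z * conj (g z)) = fun z => ((‖g z‖^2 : ℝ) : ℂ) := by
    ext z
    rw [Complex.mul_conj, Complex.normSq_eq_norm_sq]
  rw [norm_sq_eq_re_inner (𝕜 := ℂ), inner_eq, e, integral_complex_ofReal]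
  rfl

lemma int_norm_sq (g : L2) : Integrable (fun z => ‖g z‖^2) := (Lp.memLp g).integrable_norm_pow (by norm_num)

lemma re_inner_mul (s : Sym) (g : L2) : (⟪g, mul s g⟫_ℂ).re = ∫ z, (s.m z).re * ‖g z‖^2 := by
  rw [inner_eq]
  have h := int_inner g (mul s g)
  have : (∫ z, mul s g z * conj (g z)).re = ∫ z, (mul s g z * conj (g z)).re :=
    (integral_re h).symm
  rw [this]
  apply integral_congr_ae
  filter_upwards [mul_coe s g] with z hz
  rw [hz, mul_assoc, Complex.mul_conj, Complex.normSq_eq_norm_sq, Complex.re_mul_ofReal]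

lemma norm_mul_sq (s : Sym) (g : L2) : ‖mul s g‖^2 = ∫ z, ‖s.m z‖^2 * ‖g z‖^2 := by
  rw [norm_sq_eq]
  apply integral_congr_ae
  filter_upwards [mul_coe s g] with z hz
  rw [hz, norm_mul, mul_pow]

lemma int_bd (φ : Plane → ℝ) (hm : Measurable φ) (C : ℝ) (hC : ∀ z, |φ z| ≤ C) (g : L2) :
    Integrable (fun z => φ z * ‖g z‖^2) := by
  refine (int_norm_sq g).bdd_mul hm.aestronglyMeasurable (c := C)
    (Filter.Eventually.of_forall fun z => ?_)
  rw [Real.norm_eq_abs]; exact hC z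

/-- the conjugate symbol -/
noncomputable def Sym.star (s : Sym) : Sym :=
  ⟨fun z => conj (s.m z), Complex.continuous_conj.measurable.comp s.meas, s.bd,
    fun z => by rw [RCLike.norm_conj]; exact s.hbd z⟩

/-- the product symbol -/
noncomputable def Sym.prod (s t : Sym) : Sym :=
  ⟨fun z => s.m z * t.m z, s.meas.mul t.meas, s.bd * t.bd, fun z => by
    rw [norm_mul]
    exact mul_le_mul (s.hbd z) (t.hbd z) (norm_nonneg _) s.bd_nonneg⟩

lemma mul_prod (s t : Sym) (g : L2) : mul (s.prod t) g = mul s (mul t g) := by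
  apply Lp.ext
  filter_upwards [mul_coe (s.prod t) g, mul_coe s (mul t g), mul_coe t g] with z a b c
  rw [a, b, c, Sym.prod]; ring

lemma mul_congr {s t : Sym} (h : ∀ z, s.m z = t.m z) (g : L2) : mul s g = mul t g := by
  apply Lp.ext
  filter_upwards [mul_coe s g, mul_coe t g] with z a b
  rw [a, b, h z]

lemma inner_mul_left' (s : Sym) (f g : L2) : ⟪mul s f, g⟫_ℂ = ⟪f, mul s.star g⟫_ℂ := by
  rw [inner_eq, inner_eq]
  apply integral_congr_ae
  filter_upwards [mul_coe s f, mul_coe s.star g] with z a b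
  rw [a, b, map_mul, Sym.star]; ring

/-- the Fourier transform as a map -/
noncomputable abbrev FT : L2 ≃ₗᵢ[ℂ] L2 := Lp.fourierTransformₗᵢ Plane ℂ

lemma FT_apply (u : L2) : FT u = 𝓕 u := rfl
lemma FT_symm_apply (u : L2) : FT.symm u = 𝓕⁻ u := rfl

lemma inner_FT_symm (f g : L2) : ⟪f, FT g⟫_ℂ = ⟪FT.symm f, g⟫_ℂ := by
  conv_lhs => rw [← FT.apply_symm_apply f]
  exact FT.inner_map_map _ _

/-! ### the symbols -/

section symbols
variable (lam : ℝ)

/-- `⟨ζ⟩²` -/
noncomputable def D2 (ζ : Plane) : ℝ :=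
  1 + lam^2 * (2*Real.pi*ζ 0)^2 + lam^2 * |2*Real.pi*ζ 1|

lemma D2_ge (ζ : Plane) : 1 ≤ D2 lam ζ := by
  unfold D2
  have h1 : 0 ≤ lam^2 * (2*Real.pi*ζ 0)^2 := by positivity
  have h2 : 0 ≤ lam^2 * |2*Real.pi*ζ 1| := by positivity
  linarith

lemma D2_meas : Measurable (D2 lam) := by unfold D2; fun_prop

noncomputable def DD (ζ : Plane) : ℝ := Real.sqrt (D2 lam ζ)

lemma DD_pos (ζ : Plane) : 0 < DD lam ζ := Real.sqrt_pos.mpr (by linarith [D2_ge lam ζ])
lemma DD_sq (ζ : Plane) : DD lam ζ ^ 2 = D2 lam ζ := Real.sq_sqrt (by linarith [D2_ge lam ζ])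
lemma DD_meas : Measurable (DD lam) := (D2_meas lam).sqrt

lemma symDx_norm (ζ : Plane) : ‖symDx ζ‖ = |2*Real.pi*ζ 0| := by
  rw [symDx, norm_mul, norm_real, norm_I, mul_one, Real.norm_eq_abs]
lemma symDh_norm (ζ : Plane) : ‖symDh ζ‖ = Real.sqrt |2*Real.pi*ζ 1| := by
  rw [symDh, norm_real, Real.norm_eq_abs, abs_of_nonneg (Real.sqrt_nonneg _)]
lemma symDx_meas : Measurable symDx := by unfold symDx; fun_prop
lemma symDh_meas : Measurable symDh := by unfold symDh; fun_prop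
lemma symH_meas : Measurable symH := by unfold symH; fun_prop
lemma symH_norm (ζ : Plane) : ‖symH ζ‖ ≤ 1 := by
  rw [symH, norm_mul, norm_I, one_mul, norm_real, Real.norm_eq_abs, abs_div, abs_abs]
  exact div_self_le_one _

lemma bd_aux (z : ℂ) (ζ : Plane) (h : ‖z‖^2 ≤ D2 lam ζ) : ‖z / (DD lam ζ : ℂ)‖ ≤ 1 := by
  rw [norm_div, norm_real, Real.norm_eq_abs, abs_of_pos (DD_pos lam ζ),
    div_le_one (DD_pos lam ζ)]
  exact Real.le_sqrt_of_sq_le h

noncomputable def m0 : Sym := ⟨fun ζ => 1 / (DD lam ζ : ℂ), by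
    have := DD_meas lam; fun_prop, 1, fun ζ => bd_aux lam _ _ (by
      rw [norm_one]; linarith [D2_ge lam ζ])⟩
noncomputable def m1 : Sym := ⟨fun ζ => (lam * symDx ζ) / (DD lam ζ : ℂ), by
    have := DD_meas lam
    have := symDx_meas
    fun_prop, 1, fun ζ => bd_aux lam _ _ (by
      rw [norm_mul, symDx_norm, norm_real, Real.norm_eq_abs, mul_pow, sq_abs, sq_abs, D2]
      have : 0 ≤ lam^2 * |2*Real.pi*ζ 1| := by positivity
      linarith)⟩
noncomputable def m2 : Sym := ⟨fun ζ => (lam * symDh ζ) / (DD lam ζ : ℂ), by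
    have := DD_meas lam
    have := symDh_meas
    fun_prop, 1, fun ζ => bd_aux lam _ _ (by
      rw [norm_mul, symDh_norm, norm_real, Real.norm_eq_abs, mul_pow, sq_abs,
        Real.sq_sqrt (abs_nonneg _), D2]
      have : 0 ≤ lam^2 * (2*Real.pi*ζ 0)^2 := by positivity
      linarith)⟩
noncomputable def sH : Sym := ⟨symH, symH_meas, 1, symH_norm⟩

noncomputable def sg (ζ : Plane) : ℝ := if 0 ≤ ζ 1 then 1 else -1
lemma sg_sq (ζ : Plane) : sg ζ ^ 2 = 1 := by unfold sg; split_ifs <;> norm_num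
lemma sg_abs (ζ : Plane) : |sg ζ| = 1 := by unfold sg; split_ifs <;> norm_num
lemma sg_meas : Measurable sg :=
  Measurable.ite (measurableSet_le measurable_const (by fun_prop)) measurable_const measurable_const
noncomputable def sgS : Sym := ⟨fun ζ => (sg ζ : ℂ), Complex.measurable_ofReal.comp sg_meas, 1,
  fun ζ => by rw [norm_real, Real.norm_eq_abs, sg_abs]⟩

lemma nsq (ζ : Plane) : ‖(m0 lam).m ζ‖^2 + ‖(m1 lam).m ζ‖^2 + ‖(m2 lam).m ζ‖^2 = 1 := by
  simp only [m0, m1, m2, norm_div, norm_one, norm_mul, symDx_norm, symDh_norm, norm_real,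
    Real.norm_eq_abs, div_pow, mul_pow, sq_abs, one_pow, Real.sq_sqrt (abs_nonneg _), DD_sq]
  rw [← add_div, ← add_div, div_eq_one_iff_eq (by linarith [D2_ge lam ζ]), D2]
  ring

/-- `m0² + m2² symH` -/
noncomputable def kS : Sym := ⟨fun ζ => (m0 lam).m ζ * (m0 lam).m ζ
    + (m2 lam).m ζ * ((m2 lam).m ζ * symH ζ),
  ((m0 lam).meas.mul (m0 lam).meas).add ((m2 lam).meas.mul ((m2 lam).meas.mul symH_meas)), 1+1, by
    intro ζ
    have a0 := (m0 lam).hbd ζ
    have a2 := (m2 lam).hbd ζ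
    have aH := symH_norm ζ
    change ‖(m0 lam).m ζ‖ ≤ 1 at a0
    change ‖(m2 lam).m ζ‖ ≤ 1 at a2
    refine (norm_add_le _ _).trans ?_
    rw [norm_mul, norm_mul, norm_mul]
    have b0 := norm_nonneg ((m0 lam).m ζ)
    have b2 := norm_nonneg ((m2 lam).m ζ)
    have bH := norm_nonneg (symH ζ)
    have c1 : ‖(m0 lam).m ζ‖*‖(m0 lam).m ζ‖ ≤ 1 := by nlinarith
    have c2 : ‖(m2 lam).m ζ‖*‖symH ζ‖ ≤ 1 := by nlinarith
    have c3 : ‖(m2 lam).m ζ‖*(‖(m2 lam).m ζ‖*‖symH ζ‖) ≤ 1 := by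
      have : 0 ≤ ‖(m2 lam).m ζ‖*‖symH ζ‖ := by positivity
      nlinarith
    linarith⟩

end symbols

end Pool.Agent.W787.PE
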