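import Pool.Agent.W787.PEfour
set_option autoImplicit false

/-! Integrability near the singular point. -/

namespace Pool.Agent.W787.PE

open MeasureTheory Complex Set

lemma abs_rpow_int (s : ℝ) (hs : -1 < s) : IntegrableOn (fun x : ℝ => |x|^s) (Icc (-2) 2) := by
  have h1 : IntegrableOn (fun x : ℝ => |x|^s) (Ioc 0 2) := by
    have := (intervalIntegral.intervalIntegrable_rpow' (a := 0) (b := 2) hs).1
    refine this.congr_fun (fun x hx => ?_) measurableSet_Ioc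
    simp only [abs_of_pos hx.1]
  have h2 : IntegrableOn (fun x : ℝ => |x|^s) (Ico (-2) 0) := by
    have e : (fun x : ℝ => |x|^s) = (fun x : ℝ => |x|^s) ∘ (fun x => -x) := by
      ext x; simp
    have hs' : Ico (-2:ℝ) 0 = (fun x => -x) ⁻¹' Ioc 0 2 := by
      ext x; simp only [mem_Ico, mem_preimage, mem_Ioc]; constructor <;> rintro ⟨a, b⟩ <;>
        constructor <;> linarith
    rw [e, hs']
    exact ((Measure.measurePreserving_neg volume).integrableOn_comp_preimage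
      (MeasurableEquiv.neg ℝ).measurableEmbedding).mpr h1
  have h3 : IntegrableOn (fun x : ℝ => |x|^s) {0} := by
    rw [integrableOn_singleton_iff]; simp
  refine ((h1.union h2).union h3).mono_set ?_
  intro x hx
  rcases lt_trichotomy x 0 with h | h | h
  · left; right; exact ⟨hx.1, h⟩
  · right; exact h
  · left; left; exact ⟨h, hx.2⟩

noncomputable def G (z : ℝ × ℝ) : ℝ := |z.1|^(-(9/16) : ℝ) * |z.2|^(-(27/32) : ℝ)

lemma G_nonneg (z : ℝ × ℝ) : 0 ≤ G z := by unfold G; positivity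

lemma G_int : IntegrableOn G (Icc (-2) 2 ×ˢ Icc (-2) 2) := by
  have h1 := abs_rpow_int (-(9/16)) (by norm_num)
  have h2 := abs_rpow_int (-(27/32)) (by norm_num)
  have := Integrable.mul_prod (μ := volume.restrict (Icc (-2:ℝ) 2)) (ν := volume.restrict (Icc (-2:ℝ) 2))
    h1 h2
  rw [Measure.prod_restrict] at this
  exact this

lemma r_le_G {x t : ℝ} (hx : x ≠ 0) (ht : t ≠ 0) :
    (x^2+|t|)^(-(9/8) : ℝ) ≤ G (x, t) := by
  have hx2 : 0 < x^2 := by positivity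
  have ht2 : 0 < |t| := abs_pos.mpr ht
  have hr : 0 < x^2+|t| := by positivity
  have e1 : (x^2+|t|)^(-(9/8) : ℝ) = (x^2+|t|)^(-(9/32) : ℝ)*(x^2+|t|)^(-(27/32) : ℝ) := by
    rw [← Real.rpow_add hr]; norm_num
  have e2 : |x|^(-(9/16) : ℝ) = (x^2)^(-(9/32) : ℝ) := by
    rw [← sq_abs, ← Real.rpow_natCast, ← Real.rpow_mul (abs_nonneg _)]; norm_num
  rw [e1, G]
  simp only
  rw [e2]
  apply mul_le_mul
  · exact Real.rpow_le_rpow_of_nonpos hx2 (by linarith) (by norm_num)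
  · exact Real.rpow_le_rpow_of_nonpos ht2 (by linarith) (by norm_num)
  · positivity
  · positivity

lemma r_pow_le {r s : ℝ} (hr : 0 < r) (hr6 : r ≤ 6) (_hs : 0 ≤ s) (hs' : s ≤ 9/8) :
    r^(-s) ≤ 36 * r^(-(9/8) : ℝ) := by
  have e1 : r^(-s) = r^(9/8-s) * r^(-(9/8) : ℝ) := by
    rw [← Real.rpow_add hr]; congr 1; ring
  rw [e1]
  refine mul_le_mul_of_nonneg_right ?_ (by positivity)
  calc r^(9/8-s) ≤ 6^(9/8-s) := Real.rpow_le_rpow hr.le hr6 (by linarith)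
    _ ≤ (6:ℝ)^(2:ℝ) := Real.rpow_le_rpow_of_exponent_le (by norm_num) (by linarith)
    _ = 36 := by norm_num

lemma ae_prod_ne : ∀ᵐ z : ℝ × ℝ, z.1 ≠ 0 ∧ z.2 ≠ 0 := by
  rw [Measure.volume_eq_prod]
  have h1 : ∀ᵐ z : ℝ × ℝ ∂(volume.prod volume), z.1 ≠ 0 :=
    Measure.quasiMeasurePreserving_fst.ae ae_ne_zero
  have h2 : ∀ᵐ z : ℝ × ℝ ∂(volume.prod volume), z.2 ≠ 0 :=
    Measure.quasiMeasurePreserving_snd.ae ae_ne_zero
  filter_upwards [h1, h2] with z a b using ⟨a, b⟩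

lemma memL1 {E : Type*} [NormedAddCommGroup E] (g : ℝ × ℝ → E) (hm : AEStronglyMeasurable g)
    (C s : ℝ) (hC : 0 ≤ C) (hs : 0 ≤ s) (hs' : s ≤ 9/8)
    (hb : ∀ x t, x ≠ 0 → t ≠ 0 → ‖g (x,t)‖ ≤ C * (x^2+|t|)^(-s))
    (h0 : ∀ x t, 2 < |x| ∨ 2 < |t| → g (x,t) = 0) : Integrable g := by
  have hmaj : Integrable (fun z => (C*36) * (indicator (Icc (-2) 2 ×ˢ Icc (-2) 2) G z)) := by
    refine Integrable.const_mul ?_ _
    rw [integrable_indicator_iff (measurableSet_Icc.prod measurableSet_Icc)]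
    exact G_int
  refine hmaj.mono' hm ?_
  filter_upwards [ae_prod_ne] with z hz
  obtain ⟨x, t⟩ := z
  by_cases hin : (x, t) ∈ (Icc (-2:ℝ) 2 ×ˢ Icc (-2:ℝ) 2)
  · rw [indicator_of_mem hin]
    have hx2 : |x| ≤ 2 := abs_le.mpr hin.1
    have ht2 : |t| ≤ 2 := abs_le.mpr hin.2
    have hr : 0 < x^2+|t| := by
      have : 0 < |t| := abs_pos.mpr hz.2
      positivity
    have hr6 : x^2+|t| ≤ 6 := by
      have : x^2 ≤ 4 := by rw [← sq_abs]; nlinarith [abs_nonneg x]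
      linarith
    calc ‖g (x,t)‖ ≤ C * (x^2+|t|)^(-s) := hb x t hz.1 hz.2
      _ ≤ C * (36 * (x^2+|t|)^(-(9/8) : ℝ)) :=
        mul_le_mul_of_nonneg_left (r_pow_le hr hr6 hs hs') hC
      _ ≤ C * (36 * G (x,t)) := by
        have := r_le_G hz.1 hz.2
        gcongr
      _ = _ := by ring
  · rw [indicator_of_notMem hin]
    have : 2 < |x| ∨ 2 < |t| := by
      by_contra hcon
      push Not at hcon
      exact hin ⟨abs_le.mp hcon.1, abs_le.mp hcon.2⟩
    rw [h0 x t this, norm_zero, mul_zero]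

lemma memL2 (g : ℝ × ℝ → ℂ) (hm : AEStronglyMeasurable g)
    (C s : ℝ) (hC : 0 ≤ C) (hs : 0 ≤ s) (hs' : s ≤ 9/16)
    (hb : ∀ x t, x ≠ 0 → t ≠ 0 → ‖g (x,t)‖ ≤ C * (x^2+|t|)^(-s))
    (h0 : ∀ x t, 2 < |x| ∨ 2 < |t| → g (x,t) = 0) : MemLp g 2 := by
  rw [memLp_two_iff_integrable_sq_norm hm]
  refine memL1 (fun z => ‖g z‖^2) (hm.norm.pow 2) (C^2) (2*s) (by positivity) (by linarith)
    (by linarith) ?_ ?_
  · intro x t hx ht
    have hr : 0 < x^2+|t| := by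
      have : 0 < |t| := abs_pos.mpr ht
      positivity
    have e : (x^2+|t|)^(-(2*s)) = ((x^2+|t|)^(-s))^2 := by
      rw [show (-(2*s)) = (-s)+(-s) by ring, Real.rpow_add hr, ← pow_two]
    rw [e, ← mul_pow, norm_pow, norm_norm]
    exact pow_le_pow_left₀ (norm_nonneg _) (hb x t hx ht) 2
  · intro x t h
    simp only [h0 x t h, norm_zero]; norm_num

end Pool.Agent.W787.PE
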