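import Pool.Agent.W787.PEhil
set_option autoImplicit false

/-! The resolvent exists, is unique and is a contraction on `L²`. -/

namespace Pool.Agent.W787.PE

open MeasureTheory Complex FourierTransform
open scoped ENNReal NNReal ComplexConjugate InnerProductSpace

lemma Lp_ext_ae {f g : L2} (h : (f : Plane → ℂ) =ᵐ[volume] g) : f = g := Lp.ext h

/-- computing a Fourier multiplier -/
lemma mult_eq {m : Plane → ℂ} {u g : L2}
    (h : (fun ζ => m ζ * (𝓕 u : L2) ζ) =ᵐ[volume] g) : InDom m u ∧ mult m u = 𝓕⁻ g := by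
  have hd : InDom m u := (memLp_congr_ae h).mpr (Lp.memLp g)
  refine ⟨hd, ?_⟩
  rw [mult, dif_pos hd]
  congr 1
  apply Lp.ext
  exact (hd.coeFn_toLp).trans h

section
variable (a : Sym) (lam : ℝ)

/-- the operator representing the form -/
noncomputable def TT : L2 →L[ℂ] L2 :=
  mul (kS lam) + (mul (m1 lam).star).comp
    (((FT : L2 ≃ₗᵢ[ℂ] L2).toContinuousLinearEquiv : L2 →L[ℂ] L2).comp
      ((mul a).comp (((FT : L2 ≃ₗᵢ[ℂ] L2).symm.toContinuousLinearEquiv : L2 →L[ℂ] L2).comp (mul (m1 lam)))))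

lemma TT_apply (g : L2) :
    TT a lam g = mul (kS lam) g + mul (m1 lam).star (FT (mul a (FT.symm (mul (m1 lam) g)))) := rfl

variable {lam}

lemma dx_of (hl : 0 < lam) (g : L2) :
    InDom symDx (FT.symm (mul (m0 lam) g)) ∧
      mult symDx (FT.symm (mul (m0 lam) g)) = (lam⁻¹ : ℂ) • FT.symm (mul (m1 lam) g) := by
  have e : (lam⁻¹ : ℂ) • FT.symm (mul (m1 lam) g) = 𝓕⁻ ((lam⁻¹ : ℂ) • mul (m1 lam) g) := by
    rw [← FT_symm_apply, map_smul]
  rw [e]
  apply mult_eq
  have hF : (𝓕 (FT.symm (mul (m0 lam) g)) : L2) = mul (m0 lam) g := FT.apply_symm_apply _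
  rw [hF]
  filter_upwards [mul_coe (m0 lam) g, mul_coe (m1 lam) g,
    Lp.coeFn_smul (lam⁻¹ : ℂ) (mul (m1 lam) g)] with z h1 h2 h3
  rw [h3, Pi.smul_apply, h1, h2]
  have : (lam : ℂ) ≠ 0 := by exact_mod_cast hl.ne'
  simp only [m0, m1, smul_eq_mul]
  field_simp

lemma dh_of (hl : 0 < lam) (g : L2) :
    InDom symDh (FT.symm (mul (m0 lam) g)) ∧
      mult symDh (FT.symm (mul (m0 lam) g)) = (lam⁻¹ : ℂ) • FT.symm (mul (m2 lam) g) := by
  have e : (lam⁻¹ : ℂ) • FT.symm (mul (m2 lam) g) = 𝓕⁻ ((lam⁻¹ : ℂ) • mul (m2 lam) g) := by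
    rw [← FT_symm_apply, map_smul]
  rw [e]
  apply mult_eq
  have hF : (𝓕 (FT.symm (mul (m0 lam) g)) : L2) = mul (m0 lam) g := FT.apply_symm_apply _
  rw [hF]
  filter_upwards [mul_coe (m0 lam) g, mul_coe (m2 lam) g,
    Lp.coeFn_smul (lam⁻¹ : ℂ) (mul (m2 lam) g)] with z h1 h2 h3
  rw [h3, Pi.smul_apply, h1, h2]
  have : (lam : ℂ) ≠ 0 := by exact_mod_cast hl.ne'
  simp only [m0, m2, smul_eq_mul]
  field_simp

lemma hh_of (w : L2) : mult symH w = FT.symm (mul sH (FT w)) := by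
  refine (mult_eq (g := mul sH (FT w)) ?_).2
  filter_upwards [mul_coe sH (FT w)] with z hz
  rw [hz]; rfl

lemma inE_of (hl : 0 < lam) (g : L2) : InE (FT.symm (mul (m0 lam) g)) :=
  ⟨(dx_of hl g).1, (dh_of hl g).1⟩

lemma m0_star (z : Plane) : (m0 lam).star.m z = (m0 lam).m z := by
  simp [Sym.star, m0]

lemma m2_star (z : Plane) : (m2 lam).star.m z = (m2 lam).m z := by
  simp [Sym.star, m2, symDh]

/-- the form in terms of inner products -/
lemma form_inner (u v : L2) : form a.m u v =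
    ⟪mult symDh v, mult symH (mult symDh u)⟫_ℂ + ⟪mult symDx v, mul a (mult symDx u)⟫_ℂ := by
  rw [inner_eq, inner_eq, ← integral_add (int_inner _ _) (int_inner _ _), form]
  apply integral_congr_ae
  filter_upwards [mul_coe a (mult symDx u)] with z hz
  rw [hz]

lemma key_form (hl : 0 < lam) (g h : L2) :
    (∫ z, (FT.symm (mul (m0 lam) g)) z * conj ((FT.symm (mul (m0 lam) h)) z))
      + (lam : ℂ)^2 * form a.m (FT.symm (mul (m0 lam) g)) (FT.symm (mul (m0 lam) h))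
      = ⟪h, TT a lam g⟫_ℂ := by
  have hl0 : (lam : ℂ) ≠ 0 := by exact_mod_cast hl.ne'
  rw [form_inner, ← inner_eq, (dx_of hl g).2, (dx_of hl h).2, (dh_of hl g).2, (dh_of hl h).2]
  rw [hh_of, map_smul, map_smul, map_smul, FT.apply_symm_apply, map_smul]
  simp only [inner_smul_left, inner_smul_right, map_inv₀, conj_ofReal]
  rw [FT.symm.inner_map_map, FT.symm.inner_map_map, TT_apply, inner_add_right]
  have k1 : ⟪h, mul (kS lam) g⟫_ℂ = ⟪mul (m0 lam) h, mul (m0 lam) g⟫_ℂ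
      + ⟪mul (m2 lam) h, mul sH (mul (m2 lam) g)⟫_ℂ := by
    rw [inner_mul_left', inner_mul_left', ← inner_add_right]
    congr 1
    apply Lp.ext
    filter_upwards [mul_coe (kS lam) g, mul_coe (m0 lam).star (mul (m0 lam) g),
      mul_coe (m2 lam).star (mul sH (mul (m2 lam) g)), mul_coe sH (mul (m2 lam) g),
      mul_coe (m0 lam) g, mul_coe (m2 lam) g,
      Lp.coeFn_add (mul (m0 lam).star (mul (m0 lam) g))
        (mul (m2 lam).star (mul sH (mul (m2 lam) g)))] with z a1 a2 a3 a4 a5 a6 a7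
    rw [a1, a7, Pi.add_apply, a2, a3, a4, a5, a6, m0_star, m2_star]
    simp only [kS, sH]; ring
  have k2 : ⟪h, mul (m1 lam).star (FT (mul a (FT.symm (mul (m1 lam) g))))⟫_ℂ
      = ⟪FT.symm (mul (m1 lam) h), mul a (FT.symm (mul (m1 lam) g))⟫_ℂ := by
    rw [← inner_mul_left', inner_FT_symm]
  rw [k1, k2]
  field_simp
  ring

lemma rhs_form (f h : L2) :
    (∫ z, f z * conj ((FT.symm (mul (m0 lam) h)) z)) = ⟪h, mul (m0 lam) (FT f)⟫_ℂ := by
  rw [← inner_eq, ← inner_FT_symm, inner_mul_left']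
  congr 1
  exact mul_congr m0_star _

/-- every element of the energy space is of the form `𝓕⁻¹ (m0 g)` -/
lemma exists_of_inE (hl : 0 < lam) {u : L2} (hu : InE u) : ∃ g : L2, u = FT.symm (mul (m0 lam) g) := by
  have hm : MemLp (fun ζ => (DD lam ζ : ℂ) * (𝓕 u : L2) ζ) 2 volume := by
    have h0 : MemLp (fun ζ => ‖(𝓕 u : L2) ζ‖) 2 volume := (Lp.memLp _).norm
    have h1 : MemLp (fun ζ => lam * ‖symDx ζ * (𝓕 u : L2) ζ‖) 2 volume := hu.1.norm.const_mul lam
    have h2 : MemLp (fun ζ => lam * ‖symDh ζ * (𝓕 u : L2) ζ‖) 2 volume := hu.2.norm.const_mul lam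
    refine MemLp.mono ((h0.add h1).add h2) ?_ (Filter.Eventually.of_forall fun ζ => ?_)
    · exact (Complex.measurable_ofReal.comp (DD_meas lam)).aestronglyMeasurable.mul
        (Lp.aestronglyMeasurable _)
    · simp only [Pi.add_apply]
      rw [norm_mul, norm_real, Real.norm_eq_abs, abs_of_pos (DD_pos lam ζ)]
      refine le_trans ?_ (le_abs_self _)
      rw [norm_mul, norm_mul, symDx_norm, symDh_norm]
      have e : DD lam ζ ≤ 1 + lam * |2*Real.pi*ζ 0| + lam * Real.sqrt |2*Real.pi*ζ 1| := by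
        have s0 := Real.sqrt_nonneg |2*Real.pi*ζ 1|
        have s1 := abs_nonneg (2*Real.pi*ζ 0)
        have s2 := Real.sq_sqrt (abs_nonneg (2*Real.pi*ζ 1))
        apply Real.sqrt_le_iff.mpr
        constructor
        · positivity
        · rw [D2]
          rw [← sq_abs (2*Real.pi*ζ 0)]
          set p := |2*Real.pi*ζ 0|
          set q := Real.sqrt |2*Real.pi*ζ 1|
          rw [← s2]
          have t1 : 0 ≤ lam*p := by positivity
          have t2 : 0 ≤ lam*q := by positivity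
          nlinarith [mul_nonneg t1 t2]
      calc DD lam ζ * ‖(𝓕 u : L2) ζ‖ ≤ (1 + lam * |2*Real.pi*ζ 0| + lam * Real.sqrt |2*Real.pi*ζ 1|)
            * ‖(𝓕 u : L2) ζ‖ := mul_le_mul_of_nonneg_right e (norm_nonneg _)
        _ = _ := by ring
  refine ⟨hm.toLp _, ?_⟩
  rw [LinearIsometryEquiv.eq_symm_apply]
  apply Lp.ext
  filter_upwards [mul_coe (m0 lam) (hm.toLp _), hm.coeFn_toLp] with z h1 h2
  rw [h1, h2]
  have : (DD lam z : ℂ) ≠ 0 := by exact_mod_cast (DD_pos lam z).ne'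
  simp only [m0]
  rw [FT_apply]
  field_simp

lemma resolvent_iff (hl : 0 < lam) (f g : L2) :
    IsResolvent a.m lam f (FT.symm (mul (m0 lam) g)) ↔ TT a lam g = mul (m0 lam) (FT f) := by
  constructor
  · rintro ⟨-, h⟩
    refine ext_inner_left ℂ fun k => ?_
    have := h _ (inE_of hl k)
    rw [key_form a hl] at this
    exact this.trans (rhs_form f k)
  · intro h
    refine ⟨inE_of hl g, fun v hv => ?_⟩
    obtain ⟨k, rfl⟩ := exists_of_inE hl hv
    rw [key_form a hl, h]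
    exact (rhs_form f k).symm

/-! ### coercivity -/

lemma re_inner_m1 (g : L2) : ‖FT.symm (mul (m1 lam) g)‖^2 = ∫ z, ‖(m1 lam).m z‖^2 * ‖g z‖^2 := by
  rw [LinearIsometryEquiv.norm_map, norm_mul_sq]

lemma re_inner_a {ν : ℝ} (hν : ∀ z, ν ≤ (a.m z).re) (q : L2) : ν * ‖q‖^2 ≤ (⟪q, mul a q⟫_ℂ).re := by
  rw [re_inner_mul, norm_sq_eq, ← integral_const_mul]
  refine integral_mono ((int_norm_sq q).const_mul ν) ?_ ?_
  · exact int_bd _ (Complex.measurable_re.comp a.meas) a.bd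
      (fun z => (Complex.abs_re_le_norm _).trans (a.hbd z)) q
  · intro z
    exact mul_le_mul_of_nonneg_right (hν z) (by positivity)

/-- `L²` lower bound -/
lemma re_T (hν : ∀ z, 0 ≤ (a.m z).re) (g : L2) :
    ‖mul (m0 lam) g‖^2 ≤ (⟪g, TT a lam g⟫_ℂ).re := by
  rw [TT_apply, inner_add_right, Complex.add_re]
  have h2 : 0 ≤ (⟪g, mul (m1 lam).star (FT (mul a (FT.symm (mul (m1 lam) g))))⟫_ℂ).re := by
    rw [← inner_mul_left', inner_FT_symm]
    simpa using re_inner_a a hν (FT.symm (mul (m1 lam) g))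
  have h1 : (⟪g, mul (kS lam) g⟫_ℂ).re = ‖mul (m0 lam) g‖^2 := by
    rw [re_inner_mul, norm_mul_sq]
    congr 1
    ext z
    congr 1
    simp only [kS]
    have e0 : (m0 lam).m z = ((1/DD lam z : ℝ) : ℂ) := by simp [m0]
    have e2 : (m2 lam).m z = ((lam * Real.sqrt |2*Real.pi*z 1|/DD lam z : ℝ) : ℂ) := by
      simp [m2, symDh]
    rw [e0, e2, symH, norm_real, Real.norm_eq_abs, sq_abs]
    simp
    ring
  rw [h1]; linarith

end

end Pool.Agent.W787.PE
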