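import Pool.Agent.W787.PEres
set_option autoImplicit false

/-! Coercivity; existence, uniqueness and the `L²` bound of the resolvent. -/

namespace Pool.Agent.W787.PE

open MeasureTheory Complex FourierTransform
open scoped ENNReal NNReal ComplexConjugate InnerProductSpace

section
variable (a : Sym) {lam : ℝ}

lemma norm_mul_le' (s : Sym) (g : L2) : ‖mul s g‖ ≤ s.bd * ‖g‖ := by
  refine Lp.norm_le_mul_norm_of_ae_le_mul ?_
  filter_upwards [mul_coe s g] with z hz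
  rw [hz, norm_mul]; exact mul_le_mul_of_nonneg_right (s.hbd z) (norm_nonneg _)

/-- `1 + i δ sg` -/
noncomputable def sig (δ : ℝ) : Sym := ⟨fun ζ => 1 + (δ : ℂ) * (sg ζ : ℂ) * I,
  by have := sg_meas; fun_prop, 1 + |δ|, fun ζ => by
    refine (norm_add_le _ _).trans ?_
    rw [norm_one, norm_mul, norm_mul, norm_I, mul_one, norm_real, norm_real, Real.norm_eq_abs,
      Real.norm_eq_abs, sg_abs, mul_one]⟩

lemma sig_norm (δ : ℝ) (ζ : Plane) : ‖(sig δ).m ζ‖^2 = 1 + δ^2 := by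
  simp only [sig]
  rw [← Complex.normSq_eq_norm_sq, Complex.normSq_apply]
  simp only [add_re, one_re, mul_re, ofReal_re, ofReal_im, I_re, I_im, mul_im, add_im, one_im]
  have := sg_sq ζ
  nlinarith

lemma first_term (δ : ℝ) (g : L2) : (⟪mul (sig δ) g, mul (kS lam) g⟫_ℂ).re
    = ∫ z, (‖(m0 lam).m z‖^2 + δ * ‖(m2 lam).m z‖^2) * ‖g z‖^2 := by
  rw [inner_mul_left', ← mul_prod, re_inner_mul]
  congr 1
  ext z
  congr 1
  have e0 : (m0 lam).m z = ((1/DD lam z : ℝ) : ℂ) := by simp [m0]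
  have e2 : (m2 lam).m z = ((lam * Real.sqrt |2*Real.pi*z 1|/DD lam z : ℝ) : ℂ) := by
    simp [m2, symDh]
  simp only [Sym.prod, Sym.star, sig, kS]
  rw [e0, e2, symH, norm_real, norm_real, Real.norm_eq_abs, sq_abs, Real.norm_eq_abs, sq_abs]
  set A := 1/DD lam z
  set B := lam * Real.sqrt |2*Real.pi*z 1|/DD lam z with hB
  have hcase : sg z * (z 1/|z 1|) * B^2 = B^2 := by
    rcases lt_trichotomy (z 1) 0 with h | h | h
    · have : sg z = -1 := by rw [sg, if_neg (not_le.mpr h)]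
      rw [this, abs_of_neg h, div_neg, div_self h.ne]; ring
    · have : B = 0 := by rw [hB, h]; simp
      rw [this]; ring
    · have : sg z = 1 := by rw [sg, if_pos h.le]
      rw [this, abs_of_pos h, div_self h.ne']; ring
  simp only [map_add, map_one, map_mul, conj_ofReal, conj_I, mul_neg, add_re, mul_re, one_re,
    neg_re, ofReal_re, ofReal_im, I_re, I_im, add_im, mul_im, one_im, neg_im]
  linear_combination δ * hcase

lemma coercive {ν : ℝ} (hν0 : 0 < ν) (hν : ∀ z, ν ≤ (a.m z).re) :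
    ∃ δ κ : ℝ, 0 < κ ∧ ∀ g : L2, κ * ‖g‖^2 ≤ (⟪mul (sig δ) g, TT a lam g⟫_ℂ).re := by
  have hM := a.bd_nonneg
  set δ : ℝ := ν/(2*(a.bd+1)) with hδ
  have hδ0 : 0 < δ := by positivity
  have hδM : δ * a.bd ≤ ν/2 := by
    rw [hδ, div_mul_eq_mul_div, div_le_div_iff₀ (by positivity) (by norm_num)]
    nlinarith
  set κ : ℝ := min (min 1 δ) (ν/2) with hκ
  have k1 : κ ≤ 1 := (min_le_left _ _).trans (min_le_left _ _)
  have k2 : κ ≤ δ := (min_le_left _ _).trans (min_le_right _ _)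
  have k3 : κ ≤ ν/2 := min_le_right _ _
  refine ⟨δ, κ, lt_min (lt_min one_pos hδ0) (by positivity), fun g => ?_⟩
  rw [TT_apply, inner_add_right, Complex.add_re, first_term]
  set q := FT.symm (mul (m1 lam) g) with hq
  set q' := FT.symm (mul sgS (mul (m1 lam) g)) with hq'
  have e1 : FT.symm (mul (m1 lam) (mul (sig δ) g)) = q + ((δ:ℂ)*I) • q' := by
    rw [hq, hq', ← map_smul, ← map_add]
    congr 1
    apply Lp.ext
    filter_upwards [mul_coe (m1 lam) (mul (sig δ) g), mul_coe (sig δ) g, mul_coe (m1 lam) g,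
      mul_coe sgS (mul (m1 lam) g), Lp.coeFn_smul ((δ:ℂ)*I) (mul sgS (mul (m1 lam) g)),
      Lp.coeFn_add (mul (m1 lam) g) (((δ:ℂ)*I) • (mul sgS (mul (m1 lam) g)))]
      with z h1 h2 h3 h4 h5 h6
    rw [h1, h6, Pi.add_apply, h5, Pi.smul_apply, h4, h3, h2]
    simp only [sig, sgS, smul_eq_mul]; ring
  have e2 : (⟪mul (sig δ) g, mul (m1 lam).star (FT (mul a q))⟫_ℂ).re
      = (⟪q, mul a q⟫_ℂ).re + (conj ((δ:ℂ)*I) * ⟪q', mul a q⟫_ℂ).re := by
    rw [← inner_mul_left', inner_FT_symm, e1, inner_add_left, inner_smul_left, Complex.add_re]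
  have nq : ‖q'‖ ≤ ‖q‖ := by
    rw [hq, hq', LinearIsometryEquiv.norm_map, LinearIsometryEquiv.norm_map]
    have := norm_mul_le' sgS (mul (m1 lam) g)
    simpa [sgS] using this
  have e3 : -(δ * a.bd * ‖q‖^2) ≤ (conj ((δ:ℂ)*I) * ⟪q', mul a q⟫_ℂ).re := by
    have h1 : |(conj ((δ:ℂ)*I) * ⟪q', mul a q⟫_ℂ).re| ≤ δ * (‖q'‖ * ‖mul a q‖) := by
      refine (Complex.abs_re_le_norm _).trans ?_
      rw [norm_mul, RCLike.norm_conj, norm_mul, norm_I, mul_one, norm_real, Real.norm_eq_abs,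
        abs_of_pos hδ0]
      exact mul_le_mul_of_nonneg_left (norm_inner_le_norm _ _) hδ0.le
    have h2 : ‖q'‖ * ‖mul a q‖ ≤ ‖q‖ * (a.bd*‖q‖) :=
      mul_le_mul nq (norm_mul_le' a q) (norm_nonneg _) (norm_nonneg _)
    have h3 : δ * (‖q'‖ * ‖mul a q‖) ≤ δ * a.bd * ‖q‖^2 := by
      calc _ ≤ δ * (‖q‖ * (a.bd*‖q‖)) := mul_le_mul_of_nonneg_left h2 hδ0.le
        _ = _ := by ring
    exact neg_le_of_abs_le (h1.trans h3)
  have e4 := re_inner_a a hν q
  have e5 : ν/2 * ‖q‖^2 ≤ (⟪mul (sig δ) g, mul (m1 lam).star (FT (mul a q))⟫_ℂ).re := by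
    rw [e2]
    have : δ * a.bd * ‖q‖^2 ≤ ν/2*‖q‖^2 := mul_le_mul_of_nonneg_right hδM (by positivity)
    linarith
  have i0 : Integrable (fun z => ‖(m0 lam).m z‖^2 * ‖g z‖^2) :=
    int_bd _ ((m0 lam).meas.norm.pow_const 2) 1 (fun z => by
      rw [abs_of_nonneg (by positivity)]
      have := (m0 lam).hbd z
      change ‖(m0 lam).m z‖ ≤ 1 at this
      nlinarith [norm_nonneg ((m0 lam).m z)]) g
  have i1 : Integrable (fun z => ‖(m1 lam).m z‖^2 * ‖g z‖^2) :=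
    int_bd _ ((m1 lam).meas.norm.pow_const 2) 1 (fun z => by
      rw [abs_of_nonneg (by positivity)]
      have := (m1 lam).hbd z
      change ‖(m1 lam).m z‖ ≤ 1 at this
      nlinarith [norm_nonneg ((m1 lam).m z)]) g
  have i2 : Integrable (fun z => ‖(m2 lam).m z‖^2 * ‖g z‖^2) :=
    int_bd _ ((m2 lam).meas.norm.pow_const 2) 1 (fun z => by
      rw [abs_of_nonneg (by positivity)]
      have := (m2 lam).hbd z
      change ‖(m2 lam).m z‖ ≤ 1 at this
      nlinarith [norm_nonneg ((m2 lam).m z)]) g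
  have i3 : Integrable (fun z => (‖(m0 lam).m z‖^2 + δ * ‖(m2 lam).m z‖^2) * ‖g z‖^2) := by
    have := i0.add (i2.const_mul δ)
    refine this.congr (Filter.Eventually.of_forall fun z => ?_)
    simp only [Pi.add_apply]; ring
  have e6 : ν/2 * ‖q‖^2 = ∫ z, ν/2*(‖(m1 lam).m z‖^2 * ‖g z‖^2) := by
    rw [hq, re_inner_m1, integral_const_mul]
  calc κ * ‖g‖^2 = ∫ z, κ * ‖g z‖^2 := by rw [norm_sq_eq, integral_const_mul]
    _ ≤ ∫ z, ((‖(m0 lam).m z‖^2 + δ * ‖(m2 lam).m z‖^2) * ‖g z‖^2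
          + ν/2*(‖(m1 lam).m z‖^2 * ‖g z‖^2)) := by
        refine integral_mono ((int_norm_sq g).const_mul κ) (i3.add (i1.const_mul _)) fun z => ?_
        have hn := nsq lam z
        have n0 : 0 ≤ ‖(m0 lam).m z‖^2 := by positivity
        have n1 : 0 ≤ ‖(m1 lam).m z‖^2 := by positivity
        have n2 : 0 ≤ ‖(m2 lam).m z‖^2 := by positivity
        have hg : 0 ≤ ‖g z‖^2 := by positivity
        have : κ ≤ ‖(m0 lam).m z‖^2 + δ * ‖(m2 lam).m z‖^2 + ν/2*‖(m1 lam).m z‖^2 := by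
          calc κ = κ * (‖(m0 lam).m z‖^2 + ‖(m1 lam).m z‖^2 + ‖(m2 lam).m z‖^2) := by
                rw [hn, mul_one]
            _ ≤ _ := by nlinarith
        calc κ * ‖g z‖^2 ≤ (‖(m0 lam).m z‖^2 + δ * ‖(m2 lam).m z‖^2 + ν/2*‖(m1 lam).m z‖^2)
              * ‖g z‖^2 := mul_le_mul_of_nonneg_right this hg
          _ = _ := by ring
    _ = (∫ z, (‖(m0 lam).m z‖^2 + δ * ‖(m2 lam).m z‖^2) * ‖g z‖^2)
          + ∫ z, ν/2*(‖(m1 lam).m z‖^2 * ‖g z‖^2) := integral_add i3 (i1.const_mul _)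
    _ ≤ _ := by rw [← e6]; linarith

lemma exists_solve {ν : ℝ} (hν0 : 0 < ν) (hν : ∀ z, ν ≤ (a.m z).re) (φ : L2) :
    ∃ g : L2, TT a lam g = φ := by
  obtain ⟨δ, κ, hκ, hc⟩ := coercive a (lam := lam) hν0 hν
  have hu : IsUnit ((mul (sig δ).star).comp (TT a lam)) := by
    refine ContinuousLinearMap.isUnit_of_forall_le_norm_inner_map _ (c := ⟨κ, hκ.le⟩) (by exact_mod_cast hκ) fun g => ?_
    have h1 := hc g
    have h2 : ⟪((mul (sig δ).star).comp (TT a lam)) g, g⟫_ℂ = conj ⟪mul (sig δ) g, TT a lam g⟫_ℂ := by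
      rw [inner_conj_symm, ContinuousLinearMap.comp_apply, inner_mul_left']
      congr 1
      refine mul_congr (fun z => ?_) g
      simp [Sym.star]
    rw [h2, RCLike.norm_conj]
    calc ‖g‖^2 * κ = κ * ‖g‖^2 := by ring
      _ ≤ _ := h1
      _ ≤ _ := Complex.re_le_norm _
  rw [ContinuousLinearMap.isUnit_iff_bijective] at hu
  obtain ⟨g, hg⟩ := hu.2 (mul (sig δ).star φ)
  refine ⟨g, ?_⟩
  have hz : mul (sig δ).star (TT a lam g - φ) = 0 := by
    rw [map_sub]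
    rw [ContinuousLinearMap.comp_apply] at hg
    rw [hg, sub_self]
  have hn := norm_mul_sq (sig δ).star (TT a lam g - φ)
  rw [hz, norm_zero] at hn
  have e : (fun z => ‖(sig δ).star.m z‖^2 * ‖(TT a lam g - φ : L2) z‖^2)
      = fun z => (1+δ^2) * ‖(TT a lam g - φ : L2) z‖^2 := by
    ext z
    congr 1
    simp only [Sym.star, RCLike.norm_conj]
    exact sig_norm δ z
  rw [e, integral_const_mul, ← norm_sq_eq] at hn
  have h0 : ‖TT a lam g - φ‖^2 = 0 := by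
    have : 0 < 1+δ^2 := by positivity
    have h3 : (1+δ^2) * ‖TT a lam g - φ‖^2 = 0 := by rw [← hn]; norm_num
    rcases mul_eq_zero.mp h3 with h | h
    · linarith
    · exact h
  have : TT a lam g - φ = 0 := by
    rw [← norm_eq_zero]; exact pow_eq_zero_iff (two_ne_zero) |>.mp h0
  exact sub_eq_zero.mp this

lemma T_inj {ν : ℝ} (hν0 : 0 < ν) (hν : ∀ z, ν ≤ (a.m z).re) {g h : L2}
    (e : TT a lam g = TT a lam h) : g = h := by
  obtain ⟨δ, κ, hκ, hc⟩ := coercive a (lam := lam) hν0 hν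
  have h1 := hc (g - h)
  rw [map_sub (TT a lam), e, sub_self, inner_zero_right, Complex.zero_re] at h1
  have h2 : ‖g - h‖^2 = 0 := by
    have : 0 ≤ ‖g-h‖^2 := by positivity
    nlinarith
  have : g - h = 0 := by
    rw [← norm_eq_zero]; exact pow_eq_zero_iff (two_ne_zero) |>.mp h2
  exact sub_eq_zero.mp this

end

/-- from `Elliptic` to a bounded symbol -/
noncomputable def symOf (a : Plane → ℂ) (h : Elliptic a) : Sym :=
  ⟨a, h.1, h.2.1.choose, h.2.1.choose_spec⟩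

theorem resolvent_exists (a : Plane → ℂ) (ha : Elliptic a) (lam : ℝ) (hl : 0 < lam) (f : L2) :
    ∃! u : L2, IsResolvent a lam f u := by
  obtain ⟨ν, hν0, hν⟩ := ha.2.2
  obtain ⟨g, hg⟩ := exists_solve (symOf a ha) (lam := lam) hν0 hν (mul (m0 lam) (FT f))
  refine ⟨FT.symm (mul (m0 lam) g), (resolvent_iff (symOf a ha) hl f g).mpr hg, fun u hu => ?_⟩
  obtain ⟨k, rfl⟩ := exists_of_inE hl hu.1
  have hk := (resolvent_iff (symOf a ha) hl f k).mp hu
  rw [T_inj (symOf a ha) hν0 hν (hk.trans hg.symm)]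

theorem resolvent_norm (a : Plane → ℂ) (ha : Elliptic a) (lam : ℝ) (hl : 0 < lam) (f u : L2)
    (h : IsResolvent a lam f u) : ‖u‖ ≤ ‖f‖ := by
  obtain ⟨ν, hν0, hν⟩ := ha.2.2
  obtain ⟨k, rfl⟩ := exists_of_inE hl h.1
  have hk := (resolvent_iff (symOf a ha) hl f k).mp h
  have h1 := re_T (symOf a ha) (lam := lam) (fun z => hν0.le.trans (hν z)) k
  rw [hk] at h1
  have h2 : ⟪k, mul (m0 lam) (FT f)⟫_ℂ = ⟪mul (m0 lam) k, FT f⟫_ℂ := by
    rw [inner_mul_left']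
    congr 1
    exact (mul_congr m0_star _).symm
  rw [h2] at h1
  have h3 : (⟪mul (m0 lam) k, FT f⟫_ℂ).re ≤ ‖mul (m0 lam) k‖ * ‖f‖ := by
    refine (Complex.re_le_norm _).trans ((norm_inner_le_norm _ _).trans ?_)
    rw [LinearIsometryEquiv.norm_map]
  rw [LinearIsometryEquiv.norm_map]
  have h4 : ‖mul (m0 lam) k‖^2 ≤ ‖mul (m0 lam) k‖ * ‖f‖ := h1.trans h3
  rcases eq_or_lt_of_le (norm_nonneg (mul (m0 lam) k)) with h0 | h0
  · rw [← h0]; exact norm_nonneg f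
  · rw [pow_two] at h4
    exact le_of_mul_le_mul_left h4 h0

theorem lpBounded_two (a : Plane → ℂ) (ha : Elliptic a) : LpBounded a 2 := by
  refine ⟨1, fun lam hl f u _ h => ?_⟩
  have e : ENNReal.ofReal 2 = 2 := by simp
  rw [e, ENNReal.coe_one, one_mul]
  have := resolvent_norm a ha lam hl f u h
  rw [Lp.norm_def, Lp.norm_def, ENNReal.toReal_le_toReal (Lp.eLpNorm_ne_top _) (Lp.eLpNorm_ne_top _)]
    at this
  exact this

end Pool.Agent.W787.PE
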